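import Mathlib

/-! Frobenius density theorem: definitions. -/

set_option autoImplicit false

namespace Pool.Agent.H42.PC

open NumberField IsDedekindDomain

/-- The number of primes of `K` in `S` of norm at most `X`. -/
noncomputable def prc (K : Type) [Field K] [NumberField K] (S : Set (HeightOneSpectrum (𝓞 K)))
    (X : ℕ) : ℕ :=
  {v | v ∈ S ∧ Ideal.absNorm v.asIdeal ≤ X}.ncard

/-- Unramified primes of `K` in `L`: all inertia groups above are trivial. -/
def Un (K L : Type) [Field K] [NumberField K] [Field L] [NumberField L] [Algebra K L]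
    (v : HeightOneSpectrum (𝓞 K)) : Prop :=
  ∀ w : HeightOneSpectrum (𝓞 L), w.asIdeal.LiesOver v.asIdeal →
    ∀ g : L ≃ₐ[K] L, (∀ x : 𝓞 L, g • x - x ∈ w.asIdeal) → g = 1

/-- `g` is a Frobenius element at a prime above `v`. -/
def IsFr (K L : Type) [Field K] [NumberField K] [Field L] [NumberField L] [Algebra K L]
    [IsGalois K L] (v : HeightOneSpectrum (𝓞 K)) (g : L ≃ₐ[K] L) : Prop :=
  ∃ w : HeightOneSpectrum (𝓞 L), w.asIdeal.LiesOver v.asIdeal ∧ IsArithFrobAt (𝓞 K) g w.asIdeal

/-- The permutation character of `G` on the cosets of `C`. -/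
noncomputable def tht {G : Type} [Group G] (C : Subgroup G) (g : G) : ℝ :=
  (Nat.card {x : G // x⁻¹ * g * x ∈ C} : ℝ) / Nat.card C

end Pool.Agent.H42.PC
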