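/-
Row BCnt (about 130 lines): crude counts of primes.

 over_card : the number of primes q of M over a prime v of K is at most [M : K]. (Ideal.sum_ramification_inertia: Σ e f = [M : K], e f ≥ 1; or card_primesOver_le.)
 prc_le : prc K S X ≤ [K : ℚ] * X: every prime v with N v ≤ X lies over a rational prime p with p ≤ N v ≤ X (p ∣ N v, or ℤ/p embeds in 𝓞 K / v); at most [K:ℚ] primes over each p; at most X primes p ≤ X. Also the set is finite (Ideal.finite_setOf_absNorm_le; finite_setOfPred_absNorm_le).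
 norm_pow : q over v: N q = (N v)^f, f ≥ 1 (Ideal.absNorm_eq_pow_inertiaDeg or cardinality of a vector space over 𝓞 K / v); so if N q ≠ N v then (N v)^2 ≤ N q.
 high_le : the number of primes q of M with N q ≤ X and N q ≠ N v (v the prime below) is at most [M : K] [K : ℚ] sqrt X: (N v)^2 ≤ X, N v ≤ Nat.sqrt X; over_card, prc_le.
-/
import Pool.Agent.H42.PC.BDefs

set_option autoImplicit false

namespace Pool.Agent.H42.PC

open NumberField IsDedekindDomain

variable {K M : Type} [Field K] [NumberField K] [Field M] [NumberField M] [Algebra K M]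

theorem BCnt_card {R S : Type} [CommRing R] [IsDomain R] [CommRing S] [Algebra R S]
    [Module.Finite R S] [Module.Flat R S] (p : Ideal R) [p.IsPrime] :
    (p.primesOver S).Finite ∧ (p.primesOver S).ncard ≤ Module.finrank R S := by
  have hf := Algebra.QuasiFinite.finite_primesOver (S := S) p
  refine ⟨hf, ?_⟩
  have : Fintype (p.primesOver S) := hf.fintype
  rw [← Ideal.sum_ramification_inertia_eq_finrank p S, ← Nat.card_coe_set_eq,
    Nat.card_eq_fintype_card, Fintype.card_eq_sum_ones]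
  refine Finset.sum_le_sum fun q _ => ?_
  have hq := q.2.1
  exact Right.one_le_mul (Ideal.ramificationIdx_pos q.1 R) (Ideal.inertiaDeg_pos q.1 R)

theorem BCnt_prime (v : HeightOneSpectrum (𝓞 K)) : ∃ p : ℕ, p.Prime ∧
    (p : 𝓞 K) ∈ v.asIdeal ∧ p ≤ Ideal.absNorm v.asIdeal := by
  have hp := v.isPrime
  have h0 : Ideal.absNorm v.asIdeal ≠ 0 := by
    rw [Ne, Ideal.absNorm_eq_zero_iff]
    exact v.ne_bot
  have h1 : ((Ideal.absNorm v.asIdeal : ℕ) : 𝓞 K) ∈ v.asIdeal := Ideal.absNorm_mem _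
  have key : ∀ n : ℕ, n ≠ 0 → (n : 𝓞 K) ∈ v.asIdeal → ∃ p : ℕ, p.Prime ∧
      (p : 𝓞 K) ∈ v.asIdeal ∧ p ≤ n := by
    intro n
    induction n using Nat.strong_induction_on with
    | _ n ih =>
      intro hn hmem
      have hn1 : n ≠ 1 := by
        rintro rfl
        rw [Nat.cast_one] at hmem
        exact hp.ne_top ((Ideal.eq_top_iff_one _).2 hmem)
      obtain ⟨m, hm⟩ := Nat.minFac_dvd n
      have hpr := Nat.minFac_prime hn1
      have hm0 : m ≠ 0 := by
        rintro rfl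
        exact hn (by rw [hm, mul_zero])
      rw [hm, Nat.cast_mul] at hmem
      rcases hp.mem_or_mem hmem with h | h
      · exact ⟨_, hpr, h, Nat.minFac_le (Nat.pos_of_ne_zero hn)⟩
      · have hlt : m < n := by
          have h2 : 2 ≤ n.minFac := hpr.two_le
          have h3 : n.minFac * m = n := hm.symm
          nlinarith [Nat.pos_of_ne_zero hm0]
        obtain ⟨p, h4, h5, h6⟩ := ih m hlt hm0 h
        exact ⟨p, h4, h5, h6.trans hlt.le⟩
  exact key _ h0 h1

theorem BCnt_over (v : HeightOneSpectrum (𝓞 K)) {p : ℕ} (hp : p.Prime)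
    (h : (p : 𝓞 K) ∈ v.asIdeal) : v.asIdeal ∈ (Ideal.span {(p : ℤ)}).primesOver (𝓞 K) := by
  refine ⟨v.isPrime, ⟨?_⟩⟩
  have hp' := v.isPrime
  have hmax : (Ideal.span {(p : ℤ)}).IsMaximal := by
    have h1 : (Ideal.span {(p : ℤ)}).IsPrime := by
      rw [Ideal.span_singleton_prime (by exact_mod_cast hp.ne_zero)]
      exact Nat.prime_iff_prime_int.1 hp
    exact h1.isMaximal (by rw [Ne, Ideal.span_singleton_eq_bot]; exact_mod_cast hp.ne_zero)
  refine hmax.eq_of_le (Ideal.comap_ne_top _ hp'.ne_top) ?_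
  rw [Ideal.span_singleton_le_iff_mem, Ideal.mem_comap]
  simpa using h

theorem BCnt_finite_le {ι α : Type} {s : Set ι} (hs : s.Finite) {f : ι → Set α} {n : ℕ}
    (hf : ∀ i ∈ s, (f i).Finite ∧ (f i).ncard ≤ n) {t : Set α} (ht : t ⊆ ⋃ i ∈ s, f i) :
    t.Finite ∧ t.ncard ≤ n * s.ncard := by
  have h1 : (⋃ i ∈ s, f i).Finite := hs.biUnion fun i hi => (hf i hi).1
  refine ⟨h1.subset ht, (Set.ncard_le_ncard ht h1).trans ?_⟩
  have h2 := Finset.set_ncard_biUnion_le hs.toFinset f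
  simp only [Set.Finite.mem_toFinset] at h2
  refine h2.trans ?_
  rw [Set.ncard_eq_toFinset_card s hs, mul_comm, ← smul_eq_mul]
  refine Finset.sum_le_card_nsmul _ _ _ ?_
  intro i hi
  exact (hf i (by simpa using hi)).2

theorem prc_finite (K : Type) [Field K] [NumberField K] (X : ℕ) :
    {v : HeightOneSpectrum (𝓞 K) | Ideal.absNorm v.asIdeal ≤ X}.Finite := by
  refine Set.Finite.of_finite_image (f := fun v : HeightOneSpectrum (𝓞 K) => v.asIdeal)
    ((Ideal.finite_setOfPred_absNorm_le (S := 𝓞 K) X).subset ?_) ?_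
  · rintro _ ⟨v, hv, rfl⟩
    exact hv
  · intro v _ v' _ h
    exact HeightOneSpectrum.ext h

/-- the prime below -/
theorem BCnt_below (K : Type) {M : Type} [Field K] [NumberField K] [Field M] [NumberField M]
    [Algebra K M] (q : HeightOneSpectrum (𝓞 M)) :
    ∃ v : HeightOneSpectrum (𝓞 K), q.asIdeal.LiesOver v.asIdeal := by
  have hp := q.isPrime
  refine ⟨⟨q.asIdeal.under (𝓞 K), inferInstance, ?_⟩, ⟨rfl⟩⟩
  intro h
  exact q.ne_bot (Ideal.eq_bot_of_comap_eq_bot h)

/-- the prime below is unique -/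
theorem BCnt_below_uniq {v v' : HeightOneSpectrum (𝓞 K)} {q : HeightOneSpectrum (𝓞 M)}
    (h : q.asIdeal.LiesOver v.asIdeal) (h' : q.asIdeal.LiesOver v'.asIdeal) : v = v' :=
  HeightOneSpectrum.ext (h.over.trans h'.over.symm)

theorem over_card (v : HeightOneSpectrum (𝓞 K)) :
    Nat.card {q : HeightOneSpectrum (𝓞 M) // q.asIdeal.LiesOver v.asIdeal} ≤
      Module.finrank K M := by
  have hp := v.isPrime
  obtain ⟨hf, hc⟩ := BCnt_card (S := 𝓞 M) v.asIdeal
  rw [← IsFractionRing.finrank_eq (𝓞 K) K (𝓞 M) M] at hc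
  refine le_trans ?_ hc
  rw [← Nat.card_coe_set_eq]
  have : Finite (v.asIdeal.primesOver (𝓞 M)) := hf
  refine Nat.card_le_card_of_injective (fun q => ⟨q.1.asIdeal, q.1.isPrime, q.2⟩) ?_
  intro q q' h
  exact Subtype.ext (HeightOneSpectrum.ext (congrArg Subtype.val h))

theorem BCnt_over_fin (v : HeightOneSpectrum (𝓞 K)) :
    {q : HeightOneSpectrum (𝓞 M) | q.asIdeal.LiesOver v.asIdeal}.Finite ∧
    {q : HeightOneSpectrum (𝓞 M) | q.asIdeal.LiesOver v.asIdeal}.ncard ≤ Module.finrank K M := by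
  have hp := v.isPrime
  obtain ⟨hf, hc⟩ := BCnt_card (S := 𝓞 M) v.asIdeal
  have hf2 : Finite (v.asIdeal.primesOver (𝓞 M)) := hf
  refine ⟨?_, by
    have h1 := over_card (M := M) v
    rw [← Nat.card_coe_set_eq]
    exact h1⟩
  refine Set.Finite.of_finite_image (f := fun v : HeightOneSpectrum (𝓞 M) => v.asIdeal)
    (hf.subset ?_) ?_
  · rintro _ ⟨w, hw, rfl⟩
    exact ⟨w.isPrime, hw⟩
  · intro v _ v' _ h
    exact HeightOneSpectrum.ext h

theorem prc_le (S : Set (HeightOneSpectrum (𝓞 K))) (X : ℕ) :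
    prc K S X ≤ Module.finrank ℚ K * X := by
  have hs : {p : ℕ | p.Prime ∧ p ≤ X}.Finite := (Set.finite_Iic X).subset fun p hp => hp.2
  have h1 := BCnt_finite_le hs (n := Module.finrank ℚ K)
    (f := fun p => {v : HeightOneSpectrum (𝓞 K) |
      v.asIdeal ∈ (Ideal.span {(p : ℤ)}).primesOver (𝓞 K)})
    (t := {v | v ∈ S ∧ Ideal.absNorm v.asIdeal ≤ X}) (by
      rintro p ⟨hp, -⟩
      have hpr : (Ideal.span {(p : ℤ)}).IsPrime := by
        rw [Ideal.span_singleton_prime (by exact_mod_cast hp.ne_zero)]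
        exact Nat.prime_iff_prime_int.1 hp
      obtain ⟨hf, hc⟩ := BCnt_card (S := 𝓞 K) (Ideal.span {(p : ℤ)})
      rw [RingOfIntegers.rank] at hc
      have hinj : Set.InjOn (fun v : HeightOneSpectrum (𝓞 K) => v.asIdeal)
          {v | v.asIdeal ∈ (Ideal.span {(p : ℤ)}).primesOver (𝓞 K)} :=
        fun v _ v' _ h => HeightOneSpectrum.ext h
      have hsub : (fun v : HeightOneSpectrum (𝓞 K) => v.asIdeal) ''
          {v | v.asIdeal ∈ (Ideal.span {(p : ℤ)}).primesOver (𝓞 K)} ⊆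
          (Ideal.span {(p : ℤ)}).primesOver (𝓞 K) := by
        rintro _ ⟨v, hv, rfl⟩
        exact hv
      refine ⟨Set.Finite.of_finite_image (hf.subset hsub) hinj, ?_⟩
      rw [← Set.ncard_image_of_injOn hinj]
      exact (Set.ncard_le_ncard hsub hf).trans hc) (by
      rintro v ⟨-, hv⟩
      obtain ⟨p, hp, hmem, hle⟩ := BCnt_prime v
      rw [Set.mem_iUnion₂]
      exact ⟨p, ⟨hp, hle.trans hv⟩, BCnt_over v hp hmem⟩)
  refine h1.2.trans (Nat.mul_le_mul_left _ ?_)
  have h2 : {p : ℕ | p.Prime ∧ p ≤ X} ⊆ Set.Icc 1 X := fun p hp => ⟨hp.1.one_le, hp.2⟩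
  refine (Set.ncard_le_ncard h2 (Set.finite_Icc 1 X)).trans ?_
  rw [Set.ncard_eq_toFinset_card']
  simp

theorem norm_sq_le {v : HeightOneSpectrum (𝓞 K)} {q : HeightOneSpectrum (𝓞 M)}
    (h : q.asIdeal.LiesOver v.asIdeal)
    (hne : Ideal.absNorm q.asIdeal ≠ Ideal.absNorm v.asIdeal) :
    Ideal.absNorm v.asIdeal ^ 2 ≤ Ideal.absNorm q.asIdeal := by
  have hp := q.isPrime
  have h1 := Ideal.absNorm_pow_inertiaDeg v.asIdeal q.asIdeal
  rw [← h1]
  apply Nat.pow_le_pow_right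
  · exact Nat.pos_of_ne_zero (by rw [Ne, Ideal.absNorm_eq_zero_iff]; exact v.ne_bot)
  · have h2 := Ideal.inertiaDeg_pos q.asIdeal (𝓞 K)
    rcases Nat.lt_or_ge 1 (q.asIdeal.inertiaDeg (𝓞 K)) with h3 | h3
    · exact h3
    · exfalso
      apply hne
      rw [← h1]
      have h4 : q.asIdeal.inertiaDeg (𝓞 K) = 1 := le_antisymm h3 h2
      rw [h4, pow_one]

theorem high_le (K : Type) {M : Type} [Field K] [NumberField K] [Field M] [NumberField M]
    [Algebra K M] (X : ℕ) :
    prc M {q | ∀ v : HeightOneSpectrum (𝓞 K), q.asIdeal.LiesOver v.asIdeal →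
      Ideal.absNorm q.asIdeal ≠ Ideal.absNorm v.asIdeal} X ≤
      Module.finrank K M * (Module.finrank ℚ K * Nat.sqrt X) := by
  have h1 := BCnt_finite_le (prc_finite K (Nat.sqrt X)) (n := Module.finrank K M)
    (f := fun v => {q : HeightOneSpectrum (𝓞 M) | q.asIdeal.LiesOver v.asIdeal})
    (t := {q : HeightOneSpectrum (𝓞 M) | (∀ v : HeightOneSpectrum (𝓞 K),
      q.asIdeal.LiesOver v.asIdeal → Ideal.absNorm q.asIdeal ≠ Ideal.absNorm v.asIdeal) ∧
      Ideal.absNorm q.asIdeal ≤ X}) (fun v _ => BCnt_over_fin v) (by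
      rintro q ⟨hq, hX⟩
      obtain ⟨v, hv⟩ := BCnt_below K q
      rw [Set.mem_iUnion₂]
      refine ⟨v, ?_, hv⟩
      have h2 := norm_sq_le hv (hq v hv)
      rw [Set.mem_setOf_eq, Nat.le_sqrt, ← pow_two]
      exact h2.trans hX)
  refine h1.2.trans (Nat.mul_le_mul_left _ ?_)
  have h2 := prc_le (K := K) Set.univ (Nat.sqrt X)
  simpa [prc] using h2

end Pool.Agent.H42.PC
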