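/-
Row BDeg (about 180 lines): for an unramified prime v of K with Frobenius σ and M between K and L, C := M.fixingSubgroup: the number of primes q of M over v with N q = N v, times |C|, is the number of x ∈ G with x⁻¹ σ x ∈ C.

 PROOF. Let w be a prime of L over v with σ Frobenius at w, G := Gal(L/K). (1) For a prime w' of L over v with Frobenius σ' : the prime q below w' in M has N q = N v iff σ' ∈ C.
   If σ' ∈ C: for x ∈ 𝓞 M: σ' x = x and σ' x ≡ x^(N v) mod w', so x^(N v) = x in the field 𝓞 M / q: its N q elements are roots of X^(N v) - X, so N q ≤ N v; and N v ≤ N q (𝓞 K / v embeds in 𝓞 M / q). (N v = Nat.card (𝓞 K ⧸ v): Ideal.absNorm_apply, Submodule.cardQuot; the exponent in IsArithFrobAt is Nat.card (𝓞 K ⧸ w'.under).)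
   If N q = N v: let τ ∈ Gal(L/M) be a Frobenius at w' over M (fr_exists-type: IsArithFrobAt.exists_of_isInvariant): τ x ≡ x^(N q) = x^(N v). Then τ restricted to scalars K is a Frobenius at w' over K; by Un (mul_inv_mem_inertia) σ' = τ ∈ C.
 (2) For q over v with N q = N v: the number of w' over q is |C| / f with f := inertiaDeg of w' over v, the same for all w' over v, f ≥ 1: Ideal.ncard_primesOver_mul_card_inertia_mul_finrank for Gal(L/M) (trivial inertia as Gal(L/M) ⊆ G and v is Un; the inertia degree of w' over q is that over v since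
   that of q over v is 1: Ideal.inertiaDeg_algebra_tower). The number of w' over v is |G| / f.
 (3) G acts transitively on the primes over v; the fibres of x ↦ x w have |G| / (|G|/f) = f elements (stabilizer, orbit-stabilizer). x σ x⁻¹ is the Frobenius of x w. So f * #{w' over v | Frob_{w'} ∈ C} = #{x | x σ x⁻¹ ∈ C} = #{x | x⁻¹ σ x ∈ C} (x ↦ x⁻¹).
   #{w' | Frob_{w'} ∈ C} = Σ_{q, N q = N v} #{w' over q} = (number of q) * |C| / f. Multiply by f.
-/
import Pool.Agent.H42.PC.BFr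
import Pool.Agent.H42.PC.BCnt

set_option autoImplicit false

namespace Pool.Agent.H42.PC

open NumberField IsDedekindDomain

variable {K L : Type} [Field K] [NumberField K] [Field L] [NumberField L] [Algebra K L]
  [IsGalois K L]

open scoped Pointwise in
theorem BDeg_rs_ideal (M : IntermediateField K L) (h : L ≃ₐ[M] L) (I : Ideal (𝓞 L)) :
    (h.restrictScalars K) • I = h • I := by
  ext x
  rw [Ideal.mem_pointwise_smul_iff_inv_smul_mem, Ideal.mem_pointwise_smul_iff_inv_smul_mem]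
  rfl

theorem BDeg_rs_mem (M : IntermediateField K L) (h : L ≃ₐ[M] L) :
    h.restrictScalars K ∈ M.fixingSubgroup := by
  rw [IntermediateField.mem_fixingSubgroup_iff]
  intro x hx
  exact h.commutes ⟨x, hx⟩

theorem BDeg_rs_ex (M : IntermediateField K L) {c : L ≃ₐ[K] L} (hc : c ∈ M.fixingSubgroup) :
    ∃ h : L ≃ₐ[M] L, h.restrictScalars K = c :=
  ⟨M.fixingSubgroupEquiv ⟨c, hc⟩, by ext x; rfl⟩

theorem BDeg_rs_inj (M : IntermediateField K L) :
    Function.Injective (fun h : L ≃ₐ[M] L => h.restrictScalars K) := by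
  intro h h' e
  ext x
  exact congrArg (fun f : L ≃ₐ[K] L => f x) e

theorem BDeg_two_le (v : HeightOneSpectrum (𝓞 K)) : 2 ≤ Ideal.absNorm v.asIdeal := by
  have h0 : Ideal.absNorm v.asIdeal ≠ 0 := by
    rw [Ne, Ideal.absNorm_eq_zero_iff]
    exact v.ne_bot
  have h1 : Ideal.absNorm v.asIdeal ≠ 1 := by
    rw [Ne, Ideal.absNorm_eq_one_iff]
    exact v.isPrime.ne_top
  omega

open scoped Pointwise in
/-- degree one primes: the decomposition group is inside the fixing subgroup -/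
theorem BDeg_stab (M : IntermediateField K L) {v : HeightOneSpectrum (𝓞 K)} (hv : Un K L v)
    {q : HeightOneSpectrum (𝓞 M)} (hq : q.asIdeal.LiesOver v.asIdeal)
    (hN : Ideal.absNorm q.asIdeal = Ideal.absNorm v.asIdeal)
    {w : HeightOneSpectrum (𝓞 L)} (hw : w.asIdeal.LiesOver q.asIdeal)
    {g : L ≃ₐ[K] L} (hg : g • w.asIdeal = w.asIdeal) : g ∈ M.fixingSubgroup := by
  have hwp := w.isPrime
  have hqp := q.isPrime
  have hvp := v.isPrime
  have hwv : w.asIdeal.LiesOver v.asIdeal := Ideal.LiesOver.trans w.asIdeal q.asIdeal v.asIdeal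
  have : Finite (𝓞 K ⧸ v.asIdeal) := Ideal.finiteQuotientOfFreeOfNeBot _ v.ne_bot
  have : Finite (𝓞 M ⧸ q.asIdeal) := Ideal.finiteQuotientOfFreeOfNeBot _ q.ne_bot
  have hf1 : q.asIdeal.inertiaDeg (𝓞 K) = 1 := by
    have h1 := Ideal.absNorm_pow_inertiaDeg v.asIdeal q.asIdeal
    rw [hN] at h1
    exact Nat.pow_right_injective (BDeg_two_le v) (by simpa using h1)
  have hf2 : w.asIdeal.inertiaDeg (𝓞 K) = w.asIdeal.inertiaDeg (𝓞 M) := by
    rw [Ideal.inertiaDeg_tower q.asIdeal w.asIdeal (R := 𝓞 K), hf1, one_mul]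
  have hin1 : Nat.card (Ideal.inertia (L ≃ₐ[K] L) w.asIdeal) = 1 := by
    rw [Nat.card_eq_one_iff_unique]
    refine ⟨⟨fun a b => ?_⟩, ⟨1⟩⟩
    rw [Subtype.ext_iff, hv w hwv a.1 (fun x => a.2 x), hv w hwv b.1 (fun x => b.2 x)]
  have hin2 : Nat.card (Ideal.inertia (L ≃ₐ[M] L) w.asIdeal) = 1 := by
    rw [Nat.card_eq_one_iff_unique]
    refine ⟨⟨fun a b => ?_⟩, ⟨1⟩⟩
    rw [Subtype.ext_iff]
    apply BDeg_rs_inj M
    change a.1.restrictScalars K = b.1.restrictScalars K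
    rw [hv w hwv (a.1.restrictScalars K) (fun x => a.2 x),
      hv w hwv (b.1.restrictScalars K) (fun x => b.2 x)]
  have hs1 := Ideal.card_stabilizer_eq_card_inertia_mul_finrank (G := L ≃ₐ[K] L)
    v.asIdeal w.asIdeal
  have hs2 := Ideal.card_stabilizer_eq_card_inertia_mul_finrank (G := L ≃ₐ[M] L)
    q.asIdeal w.asIdeal
  rw [hin1, one_mul, hf2] at hs1
  rw [hin2, one_mul, ← hs1] at hs2
  let F : MulAction.stabilizer (L ≃ₐ[M] L) w.asIdeal → MulAction.stabilizer (L ≃ₐ[K] L) w.asIdeal :=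
    fun h => ⟨h.1.restrictScalars K, by
      rw [MulAction.mem_stabilizer_iff, BDeg_rs_ideal]
      exact MulAction.mem_stabilizer_iff.1 h.2⟩
  have hF : Function.Injective F := by
    intro h h' e
    exact Subtype.ext (BDeg_rs_inj M (congrArg Subtype.val e))
  have hFb : Function.Bijective F := (Nat.bijective_iff_injective_and_card F).2 ⟨hF, hs2⟩
  obtain ⟨h, hh⟩ := hFb.2 ⟨g, MulAction.mem_stabilizer_iff.2 hg⟩
  have h3 : h.1.restrictScalars K = g := congrArg Subtype.val hh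
  rw [← h3]
  exact BDeg_rs_mem M h.1

theorem BDeg_card_le {F : Type*} [Field F] [Finite F] {p : ℕ} (hp : 1 < p)
    (h : ∀ y : F, y - y ^ p = 0) : Nat.card F ≤ p := by
  classical
  have := Fintype.ofFinite F
  rw [Nat.card_eq_fintype_card]
  set q : Polynomial F := Polynomial.X ^ p - Polynomial.X with hq
  have hd : q.natDegree = p := FiniteField.X_pow_card_sub_X_natDegree_eq F hp
  have hq0 : q ≠ 0 := by
    intro h0
    rw [h0, Polynomial.natDegree_zero] at hd
    omega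
  calc Fintype.card F = (Finset.univ : Finset F).card := rfl
    _ ≤ q.roots.toFinset.card := Finset.card_le_card fun y _ => by
        rw [Multiset.mem_toFinset, Polynomial.mem_roots hq0, Polynomial.IsRoot.def, hq,
          Polynomial.eval_sub, Polynomial.eval_pow, Polynomial.eval_X, ← neg_eq_zero, neg_sub]
        exact h y
    _ ≤ q.roots.card := Multiset.toFinset_card_le _
    _ ≤ q.natDegree := Polynomial.card_roots' q
    _ = p := hd

/-- if the Frobenius is in the fixing subgroup, the prime below has degree one -/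
theorem BDeg_norm (M : IntermediateField K L) {v : HeightOneSpectrum (𝓞 K)}
    {q : HeightOneSpectrum (𝓞 M)} (hq : q.asIdeal.LiesOver v.asIdeal)
    {w : HeightOneSpectrum (𝓞 L)} (hw : w.asIdeal.LiesOver q.asIdeal)
    {g : L ≃ₐ[K] L} (hg : IsArithFrobAt (𝓞 K) g w.asIdeal) (hgM : g ∈ M.fixingSubgroup) :
    Ideal.absNorm q.asIdeal = Ideal.absNorm v.asIdeal := by
  have hwp := w.isPrime
  have hqp := q.isPrime
  have hvp := v.isPrime
  have hwv : w.asIdeal.LiesOver v.asIdeal := Ideal.LiesOver.trans w.asIdeal q.asIdeal v.asIdeal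
  have hcard : Nat.card (𝓞 K ⧸ w.asIdeal.under (𝓞 K)) = Ideal.absNorm v.asIdeal := by
    rw [← hwv.over, Ideal.absNorm_apply, Submodule.cardQuot_apply]
  apply le_antisymm
  · rw [Ideal.absNorm_apply q.asIdeal, Submodule.cardQuot_apply]
    have hmax : q.asIdeal.IsMaximal := q.isMaximal
    let _ := Ideal.Quotient.field q.asIdeal
    have : Finite (𝓞 M ⧸ q.asIdeal) := Ideal.finiteQuotientOfFreeOfNeBot _ q.ne_bot
    refine BDeg_card_le (F := 𝓞 M ⧸ q.asIdeal) (BDeg_two_le v) ?_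
    intro y
    obtain ⟨y, rfl⟩ := Ideal.Quotient.mk_surjective y
    rw [← map_pow, ← map_sub, Ideal.Quotient.eq_zero_iff_mem]
    have h1 := hg (algebraMap (𝓞 M) (𝓞 L) y)
    have h2 : (MulSemiringAction.toAlgHom (𝓞 K) (𝓞 L) g) (algebraMap (𝓞 M) (𝓞 L) y) =
        algebraMap (𝓞 M) (𝓞 L) y := by
      apply RingOfIntegers.ext
      rw [IntermediateField.mem_fixingSubgroup_iff] at hgM
      exact hgM _ y.1.2
    rw [h2, hcard, ← map_pow, ← map_sub] at h1
    rw [hw.over]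
    exact h1
  · rw [← Ideal.absNorm_pow_inertiaDeg v.asIdeal q.asIdeal]
    exact Nat.le_self_pow (Ideal.inertiaDeg_pos q.asIdeal (𝓞 K)).ne' _

open scoped Pointwise in
/-- the conjugate prime -/
noncomputable def BDeg_sm (τ : L ≃ₐ[K] L) (w : HeightOneSpectrum (𝓞 L)) :
    HeightOneSpectrum (𝓞 L) :=
  have := w.isPrime
  ⟨τ • w.asIdeal, inferInstance, BFr_smul_ne_bot w τ⟩

open scoped Pointwise in
theorem degree_one_count (M : IntermediateField K L) {v : HeightOneSpectrum (𝓞 K)}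
    (hv : Un K L v) {σ : L ≃ₐ[K] L} (hσ : IsFr K L v σ) :
    Nat.card {q : HeightOneSpectrum (𝓞 M) // q.asIdeal.LiesOver v.asIdeal ∧
      Ideal.absNorm q.asIdeal = Ideal.absNorm v.asIdeal} * Nat.card M.fixingSubgroup =
    Nat.card {x : L ≃ₐ[K] L // x⁻¹ * σ * x ∈ M.fixingSubgroup} := by
  obtain ⟨w, hw, hσw⟩ := hσ
  have hwp := w.isPrime
  -- primes above
  have h1 : ∀ q : {q : HeightOneSpectrum (𝓞 M) // q.asIdeal.LiesOver v.asIdeal ∧
      Ideal.absNorm q.asIdeal = Ideal.absNorm v.asIdeal},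
      ∃ (wq : HeightOneSpectrum (𝓞 L)) (x : L ≃ₐ[K] L), wq.asIdeal.LiesOver q.1.asIdeal ∧
        w.asIdeal = x • wq.asIdeal := by
    intro q
    obtain ⟨wq, hwq⟩ := BFr_over_exists (K := M) (L := L) q.1
    have hwqp := wq.isPrime
    have h2 : wq.asIdeal.LiesOver v.asIdeal := by
      have := q.2.1
      exact Ideal.LiesOver.trans wq.asIdeal q.1.asIdeal v.asIdeal
    obtain ⟨x, hx⟩ := Algebra.IsInvariant.exists_smul_of_under_eq (𝓞 K) (𝓞 L) (L ≃ₐ[K] L)
      wq.asIdeal w.asIdeal (h2.over.symm.trans hw.over)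
    exact ⟨wq, x, hwq, hx⟩
  choose wq xq hwq hxq using h1
  have hxq' : ∀ q, (xq q)⁻¹ • w.asIdeal = (wq q).asIdeal := by
    intro q
    rw [hxq q, inv_smul_smul]
  have hover : ∀ q, ∀ c ∈ M.fixingSubgroup, (c • (wq q).asIdeal).LiesOver q.1.asIdeal := by
    intro q c hc
    obtain ⟨h, rfl⟩ := BDeg_rs_ex M hc
    rw [BDeg_rs_ideal]
    exact Ideal.LiesOver.smul (h := hwq q) h
  rw [← Nat.card_prod]
  apply Nat.card_congr
  refine Equiv.ofBijective (fun p => ⟨xq p.1 * p.2.1, ?_⟩) ⟨?_, ?_⟩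
  · have h2 : IsArithFrobAt (𝓞 K) ((xq p.1)⁻¹ * σ * ((xq p.1)⁻¹)⁻¹)
        ((xq p.1)⁻¹ • w.asIdeal) := hσw.conj _
    rw [inv_inv, hxq'] at h2
    have hp1 := (wq p.1).isPrime
    have h3 := BDeg_stab M hv p.1.2.1 p.1.2.2 (hwq p.1)
      (MulAction.mem_stabilizer_iff.1 h2.mem_stabilizer)
    have h4 := M.fixingSubgroup.mul_mem (M.fixingSubgroup.mul_mem
      (M.fixingSubgroup.inv_mem p.2.2) h3) p.2.2
    have h5 : (xq p.1 * p.2.1)⁻¹ * σ * (xq p.1 * p.2.1) =
        p.2.1⁻¹ * ((xq p.1)⁻¹ * σ * xq p.1) * p.2.1 := by group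
    rw [h5]
    exact h4
  · rintro ⟨q, c⟩ ⟨q', c'⟩ e
    have e1 : xq q * c.1 = xq q' * c'.1 := congrArg Subtype.val e
    have e2 : c.1⁻¹ • (wq q).asIdeal = c'.1⁻¹ • (wq q').asIdeal := by
      rw [← hxq' q, ← hxq' q', smul_smul, smul_smul, ← mul_inv_rev, ← mul_inv_rev, e1]
    have e3 := hover q _ (M.fixingSubgroup.inv_mem c.2)
    have e4 := hover q' _ (M.fixingSubgroup.inv_mem c'.2)
    rw [e2] at e3
    have e5 : q = q' := Subtype.ext (HeightOneSpectrum.ext (e3.over.trans e4.over.symm))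
    subst e5
    have e6 := mul_left_cancel e1
    rw [Prod.mk.injEq]
    exact ⟨rfl, Subtype.ext e6⟩
  · rintro ⟨x, hx⟩
    obtain ⟨q, hq⟩ := BCnt_below M (BDeg_sm x⁻¹ w)
    have hq' : (x⁻¹ • w.asIdeal).LiesOver q.asIdeal := hq
    have hfr : IsArithFrobAt (𝓞 K) (x⁻¹ * σ * x) (x⁻¹ • w.asIdeal) := by
      have := hσw.conj x⁻¹
      rwa [inv_inv] at this
    have hxv : (x⁻¹ • w.asIdeal).LiesOver v.asIdeal := Ideal.LiesOver.smul (h := hw) x⁻¹
    have hqv : q.asIdeal.LiesOver v.asIdeal := Ideal.LiesOver.tower_bot (x⁻¹ • w.asIdeal) _ _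
    have hN := BDeg_norm M hqv hq hfr hx
    have hq1 := (wq ⟨q, hqv, hN⟩).isPrime
    obtain ⟨h, hh⟩ := Algebra.IsInvariant.exists_smul_of_under_eq (𝓞 M) (𝓞 L) (L ≃ₐ[M] L)
      (wq ⟨q, hqv, hN⟩).asIdeal (x⁻¹ • w.asIdeal)
      ((hwq ⟨q, hqv, hN⟩).over.symm.trans hq'.over)
    set q0 : {q : HeightOneSpectrum (𝓞 M) // q.asIdeal.LiesOver v.asIdeal ∧
      Ideal.absNorm q.asIdeal = Ideal.absNorm v.asIdeal} := ⟨q, hqv, hN⟩ with hq0
    have h6 : ((h.restrictScalars K)⁻¹ * (x⁻¹ * xq q0)) • (wq q0).asIdeal =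
        (wq q0).asIdeal := by
      rw [mul_smul, mul_smul, ← hxq q0, hh, ← BDeg_rs_ideal, inv_smul_smul]
    have h7 := BDeg_stab M hv q0.2.1 q0.2.2 (hwq q0) h6
    have h8 := M.fixingSubgroup.mul_mem (BDeg_rs_mem M h) h7
    rw [mul_inv_cancel_left] at h8
    have h9 : (xq q0)⁻¹ * x ∈ M.fixingSubgroup := by
      have := M.fixingSubgroup.inv_mem h8
      rwa [mul_inv_rev, inv_inv] at this
    refine ⟨⟨q0, ⟨_, h9⟩⟩, ?_⟩
    apply Subtype.ext
    change xq q0 * ((xq q0)⁻¹ * x) = x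
    group

end Pool.Agent.H42.PC
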