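/-
Row BAvg (about 150 lines): the average of tht C over Frobenius elements is 1.

 frb v := a choice of g with IsFr K L v g. avg φ X := (Σ over v with Un v and N v ≤ X of φ (frb v)) / prc K univ X.
 avg_tht : M := fixedField C, so M.fixingSubgroup = C (IntermediateField.fixingSubgroup_fixedField). By degree_one_count tht C (frb v) = number n_v of q over v with N q = N v (|C| > 0). Σ_{v Un, N v ≤ X} n_v = number of q of M with N q ≤ X, N q = N v for the prime v below, v Un
   (sum over fibres; N v = N q ≤ X). It is prc M univ X minus at most high_le(X) minus at most a constant (the q over the finitely many non Un v: un_finite, over_card). So it is prc M univ X + O(sqrt X) + O(1), and with PIT for M and K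
   (hypotheses hM hK here): prc M univ X * log X / X → 1, sqrt X log X / X → 0: the quotient tends to 1 / 1.
-/
import Pool.Agent.H42.PC.BDeg
import Pool.Agent.H42.PC.BCnt

set_option autoImplicit false

namespace Pool.Agent.H42.PC

open NumberField IsDedekindDomain Filter Topology

variable {K L : Type} [Field K] [NumberField K] [Field L] [NumberField L] [Algebra K L]
  [IsGalois K L]

/-- The prime ideal theorem for `K` (a hypothesis here, proved in part A). -/
def PITh (K : Type) [Field K] [NumberField K] : Prop :=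
  Tendsto (fun X : ℕ => (prc K Set.univ X : ℝ) * Real.log X / X) atTop (𝓝 1)

/-- a choice of Frobenius -/
noncomputable def frb (K L : Type) [Field K] [NumberField K] [Field L] [NumberField L]
    [Algebra K L] [IsGalois K L] (v : HeightOneSpectrum (𝓞 K)) : L ≃ₐ[K] L :=
  Classical.choose (fr_exists (K := K) (L := L) v)

/-- the average of `φ` over the Frobenius elements of the unramified primes of norm at most `X` -/
noncomputable def avg (K L : Type) [Field K] [NumberField K] [Field L] [NumberField L]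
    [Algebra K L] [IsGalois K L] (φ : (L ≃ₐ[K] L) → ℝ) (X : ℕ) : ℝ :=
  (∑ᶠ v ∈ {v : HeightOneSpectrum (𝓞 K) | Un K L v ∧ Ideal.absNorm v.asIdeal ≤ X},
    φ (frb K L v)) / prc K Set.univ X

theorem BAvg_frb (v : HeightOneSpectrum (𝓞 K)) : IsFr K L v (frb K L v) :=
  Classical.choose_spec (fr_exists (K := K) (L := L) v)

/-- degree one primes above `v` -/
def BAvg_F (M : IntermediateField K L) (v : HeightOneSpectrum (𝓞 K)) :
    Set (HeightOneSpectrum (𝓞 M)) :=
  {q | q.asIdeal.LiesOver v.asIdeal ∧ Ideal.absNorm q.asIdeal = Ideal.absNorm v.asIdeal}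

/-- degree one primes above the unramified primes of norm at most `X` -/
def BAvg_A (M : IntermediateField K L) (X : ℕ) : Set (HeightOneSpectrum (𝓞 M)) :=
  ⋃ v ∈ {v : HeightOneSpectrum (𝓞 K) | Un K L v ∧ Ideal.absNorm v.asIdeal ≤ X}, BAvg_F M v

theorem BAvg_unfin (X : ℕ) :
    {v : HeightOneSpectrum (𝓞 K) | Un K L v ∧ Ideal.absNorm v.asIdeal ≤ X}.Finite :=
  (prc_finite K X).subset fun _ hv => hv.2

theorem BAvg_F_fin (M : IntermediateField K L) (v : HeightOneSpectrum (𝓞 K)) :
    (BAvg_F M v).Finite :=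
  (BCnt_over_fin (M := M) v).1.subset fun _ hq => hq.1

theorem BAvg_sum (C : Subgroup (L ≃ₐ[K] L)) (X : ℕ) :
    ∑ᶠ v ∈ {v : HeightOneSpectrum (𝓞 K) | Un K L v ∧ Ideal.absNorm v.asIdeal ≤ X},
      tht C (frb K L v) = ((BAvg_A (IntermediateField.fixedField C) X).ncard : ℝ) := by
  have hfin := BAvg_unfin (K := K) (L := L) X
  unfold BAvg_A
  rw [hfin.ncard_biUnion (fun v _ => BAvg_F_fin _ v), Nat.cast_finsum_mem hfin]
  · refine finsum_mem_congr rfl ?_
    rintro v ⟨hv, -⟩
    have h1 := degree_one_count (IntermediateField.fixedField C) hv (BAvg_frb v)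
    rw [IntermediateField.fixingSubgroup_fixedField] at h1
    have hC : (Nat.card C : ℝ) ≠ 0 := by
      have : Nat.card C ≠ 0 := Nat.card_pos.ne'
      exact_mod_cast this
    unfold tht
    rw [div_eq_iff hC, ← h1, Nat.cast_mul, ← Nat.card_coe_set_eq]
    rfl
  · intro v _ v' _ hne
    rw [Function.onFun, Set.disjoint_left]
    intro q hq hq'
    exact hne (BCnt_below_uniq hq.1 hq'.1)

theorem BAvg_upp (M : IntermediateField K L) (X : ℕ) :
    (BAvg_A M X).ncard ≤ prc M Set.univ X := by
  unfold prc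
  refine Set.ncard_le_ncard ?_ ?_
  · intro q hq
    unfold BAvg_A at hq
    rw [Set.mem_iUnion₂] at hq
    obtain ⟨v, hv, hq⟩ := hq
    exact ⟨trivial, hq.2.le.trans hv.2⟩
  · exact (prc_finite M X).subset fun q hq => hq.2

theorem BAvg_low (M : IntermediateField K L) : ∃ B : ℕ, ∀ X : ℕ, prc M Set.univ X ≤
    (BAvg_A M X).ncard + Module.finrank K M * (Module.finrank ℚ K * Nat.sqrt X) + B := by
  have hB := BCnt_finite_le (un_finite (K := K) (L := L)) (n := Module.finrank K M)
    (f := fun v => {q : HeightOneSpectrum (𝓞 M) | q.asIdeal.LiesOver v.asIdeal})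
    (t := {q : HeightOneSpectrum (𝓞 M) | ∃ v : HeightOneSpectrum (𝓞 K), ¬ Un K L v ∧
      q.asIdeal.LiesOver v.asIdeal}) (fun v _ => BCnt_over_fin v) (by
      rintro q ⟨v, hv, hq⟩
      rw [Set.mem_iUnion₂]
      exact ⟨v, hv, hq⟩)
  refine ⟨{q : HeightOneSpectrum (𝓞 M) | ∃ v : HeightOneSpectrum (𝓞 K), ¬ Un K L v ∧
      q.asIdeal.LiesOver v.asIdeal}.ncard, fun X => ?_⟩
  have hhigh := high_le K (M := M) X
  unfold prc at hhigh ⊢
  set H := {q : HeightOneSpectrum (𝓞 M) | q ∈ {q : HeightOneSpectrum (𝓞 M) |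
    ∀ v : HeightOneSpectrum (𝓞 K), q.asIdeal.LiesOver v.asIdeal →
      Ideal.absNorm q.asIdeal ≠ Ideal.absNorm v.asIdeal} ∧ Ideal.absNorm q.asIdeal ≤ X} with hH
  set B := {q : HeightOneSpectrum (𝓞 M) | ∃ v : HeightOneSpectrum (𝓞 K), ¬ Un K L v ∧
      q.asIdeal.LiesOver v.asIdeal} with hBdef
  have hHf : H.Finite := (prc_finite M X).subset fun q hq => hq.2
  have hAf : (BAvg_A M X).Finite :=
    (BAvg_unfin (K := K) (L := L) X).biUnion fun v _ => BAvg_F_fin M v
  have hsub : {q : HeightOneSpectrum (𝓞 M) | q ∈ Set.univ ∧ Ideal.absNorm q.asIdeal ≤ X} ⊆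
      BAvg_A M X ∪ H ∪ B := by
    rintro q ⟨-, hq⟩
    by_cases h1 : ∀ v : HeightOneSpectrum (𝓞 K), q.asIdeal.LiesOver v.asIdeal →
      Ideal.absNorm q.asIdeal ≠ Ideal.absNorm v.asIdeal
    · left; right
      exact ⟨h1, hq⟩
    · push Not at h1
      obtain ⟨v, hqv, hN⟩ := h1
      by_cases h2 : Un K L v
      · left; left
        unfold BAvg_A
        rw [Set.mem_iUnion₂]
        exact ⟨v, ⟨h2, hN.symm.le.trans hq⟩, hqv, hN⟩
      · right
        exact ⟨v, h2, hqv⟩
  calc _ ≤ (BAvg_A M X ∪ H ∪ B).ncard := Set.ncard_le_ncard hsub ((hAf.union hHf).union hB.1)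
    _ ≤ (BAvg_A M X ∪ H).ncard + B.ncard := Set.ncard_union_le _ _
    _ ≤ (BAvg_A M X).ncard + H.ncard + B.ncard := by
        have := Set.ncard_union_le (BAvg_A M X) H
        omega
    _ ≤ _ := by omega

theorem BAvg_log : Tendsto (fun X : ℕ => Real.log X / X) atTop (𝓝 0) := by
  have h := Real.isLittleO_log_id_atTop.tendsto_div_nhds_zero
  exact h.comp tendsto_natCast_atTop_atTop

theorem BAvg_sqrt : Tendsto (fun X : ℕ => (Nat.sqrt X : ℝ) * Real.log X / X) atTop (𝓝 0) := by
  have h := (isLittleO_log_rpow_atTop (r := 1 / 2) (by norm_num)).tendsto_div_nhds_zero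
  have h2 := h.comp tendsto_natCast_atTop_atTop
  refine squeeze_zero' ?_ ?_ h2
  · exact Eventually.of_forall fun X => div_nonneg (mul_nonneg (Nat.cast_nonneg _)
      (Real.log_natCast_nonneg X)) (Nat.cast_nonneg _)
  · filter_upwards [eventually_gt_atTop 0] with X hX
    have hX' : (0 : ℝ) < X := by exact_mod_cast hX
    have hs : (Nat.sqrt X : ℝ) ≤ Real.sqrt X := Real.nat_sqrt_le_real_sqrt
    have hs0 : 0 < Real.sqrt X := Real.sqrt_pos.2 hX'
    simp only [Function.comp_apply]
    rw [← Real.sqrt_eq_rpow, div_le_div_iff₀ hX' hs0]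
    have h3 : Real.sqrt X * Real.sqrt X = X := Real.mul_self_sqrt hX'.le
    have h4 : 0 ≤ Real.log X := Real.log_natCast_nonneg X
    calc (Nat.sqrt X : ℝ) * Real.log X * Real.sqrt X
        ≤ Real.sqrt X * Real.log X * Real.sqrt X := by gcongr
      _ = Real.log X * (Real.sqrt X * Real.sqrt X) := by ring
      _ = Real.log X * X := by rw [h3]

theorem BAvg_Atend (M : IntermediateField K L) (hM : PITh M) :
    Tendsto (fun X : ℕ => ((BAvg_A M X).ncard : ℝ) * Real.log X / X) atTop (𝓝 1) := by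
  obtain ⟨B, hB⟩ := BAvg_low M
  have h1 : Tendsto (fun X : ℕ => (prc M Set.univ X : ℝ) * Real.log X / X -
      ((Module.finrank K M * Module.finrank ℚ K : ℕ) : ℝ) *
        ((Nat.sqrt X : ℝ) * Real.log X / X) - B * (Real.log X / X)) atTop (𝓝 1) := by
    have := (hM.sub (BAvg_sqrt.const_mul
      ((Module.finrank K M * Module.finrank ℚ K : ℕ) : ℝ))).sub (BAvg_log.const_mul (B : ℝ))
    simpa using this
  refine tendsto_of_tendsto_of_tendsto_of_le_of_le h1 hM ?_ ?_
  · intro X
    have h2 : (prc M Set.univ X : ℝ) ≤ (BAvg_A M X).ncard +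
        ((Module.finrank K M * Module.finrank ℚ K : ℕ) : ℝ) * Nat.sqrt X + B := by
      have := hB X
      rw [← mul_assoc] at this
      exact_mod_cast this
    have h3 : 0 ≤ Real.log X := Real.log_natCast_nonneg X
    have h4 : (0 : ℝ) ≤ Real.log X / X := div_nonneg h3 (Nat.cast_nonneg _)
    have h5 := mul_le_mul_of_nonneg_right h2 h4
    change (prc M Set.univ X : ℝ) * Real.log X / X -
      ((Module.finrank K M * Module.finrank ℚ K : ℕ) : ℝ) *
        ((Nat.sqrt X : ℝ) * Real.log X / X) - B * (Real.log X / X) ≤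
      ((BAvg_A M X).ncard : ℝ) * Real.log X / X
    have e1 : (prc M Set.univ X : ℝ) * Real.log X / X =
      (prc M Set.univ X : ℝ) * (Real.log X / X) := by ring
    have e2 : ((BAvg_A M X).ncard : ℝ) * Real.log X / X =
      ((BAvg_A M X).ncard : ℝ) * (Real.log X / X) := by ring
    have e3 : ((Nat.sqrt X : ℝ) * Real.log X / X) = (Nat.sqrt X : ℝ) * (Real.log X / X) := by ring
    rw [e1, e2, e3]
    linarith
  · intro X
    have h2 : ((BAvg_A M X).ncard : ℝ) ≤ prc M Set.univ X := by
      exact_mod_cast BAvg_upp M X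
    change ((BAvg_A M X).ncard : ℝ) * Real.log X / X ≤ (prc M Set.univ X : ℝ) * Real.log X / X
    have h3 : 0 ≤ Real.log X := Real.log_natCast_nonneg X
    gcongr

theorem avg_tht (hK : PITh K) (hPIT : ∀ M : IntermediateField K L, PITh M)
    (C : Subgroup (L ≃ₐ[K] L)) : Tendsto (avg K L (tht C)) atTop (𝓝 1) := by
  have h1 := (BAvg_Atend (IntermediateField.fixedField C) (hPIT _)).div hK one_ne_zero
  rw [div_one] at h1
  refine h1.congr' ?_
  filter_upwards [eventually_ge_atTop 2] with X hX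
  simp only [Pi.div_apply]
  unfold avg
  rw [BAvg_sum]
  have hX0 : (X : ℝ) ≠ 0 := by
    have : X ≠ 0 := by omega
    exact_mod_cast this
  have hl : Real.log X ≠ 0 := by
    have : (1 : ℝ) < X := by exact_mod_cast (by omega : 1 < X)
    exact (Real.log_pos this).ne'
  rw [div_div_div_cancel_right₀ hX0, mul_div_mul_right _ _ hl]

end Pool.Agent.H42.PC
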