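/-
Row BInd (about 140 lines): the indicator of having a fixed point in a finite G-set is a combination of the permutation characters tht C.

 tht_mean : Σ_g #{x | x⁻¹ g x ∈ C} = Σ_x #{g | x⁻¹ g x ∈ C} = |G| |C|, so the mean of tht C is 1.
 set_fix : for a finite G-set Y (a type with MulAction, Finite): the function g ↦ #{y | g y = y} is in S. Y is the disjoint union of its orbits (MulAction.selfEquivSigmaOrbits); for an orbit ω with base point y0 and C := stabilizer G y0:
   #{y ∈ ω | g y = y} = #{x C ∈ G ⧸ C | g x C = x C} = #{x C | x⁻¹ g x ∈ C} = #{x ∈ G | x⁻¹ g x ∈ C} / |C| = tht C g. S is closed under finite sums.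
 fix_span : Y := the subtype of O (a finite G-set; use a local MulAction instance on the subtype, e.g. SubMulAction), X g := #{y : Y | g y = y} ≤ m := card Y. The functions X^k, k ≥ 0, are in S (set_fix for Fin k → Y: a tuple is fixed iff all its entries are; card (Fin k → Fix) = X^k).
   The polynomial P := ∏_{j=1}^m (1 - T/j) has P(0) = 1, P(i) = 0 for 1 ≤ i ≤ m; so (P evaluated at X g) is 1 if there is no fixed point and 0 otherwise. g ↦ P(X g) = Σ_k coeff k * (X g)^k is in S, so 1 - P(X g) is (X^0 = 1).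
-/
import Pool.Agent.H42.PC.BDefs

set_option autoImplicit false

namespace Pool.Agent.H42.PC

open scoped Classical

variable {G : Type} [Group G] [Finite G]

theorem tht_mean {G : Type} [Group G] [Fintype G] (C : Subgroup G) :
    ∑ g : G, tht C g = Nat.card G := by
  have hC : (Nat.card C : ℝ) ≠ 0 := by
    have : Nat.card C ≠ 0 := Nat.card_pos.ne'
    exact_mod_cast this
  unfold tht
  rw [← Finset.sum_div, div_eq_iff hC]
  have h1 : ∀ g : G, (Nat.card {x : G // x⁻¹ * g * x ∈ C} : ℝ) =
      ∑ x : G, (if x⁻¹ * g * x ∈ C then (1 : ℝ) else 0) := by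
    intro g
    rw [Nat.card_eq_fintype_card, Fintype.card_subtype, Finset.sum_ite, Finset.sum_const,
      Finset.sum_const_zero, add_zero, nsmul_eq_mul, mul_one]
  have h2 : ∀ x : G, ∑ g : G, (if x⁻¹ * g * x ∈ C then (1 : ℝ) else 0) = Nat.card C := by
    intro x
    have h3 : ∑ g : G, (if x⁻¹ * g * x ∈ C then (1 : ℝ) else 0) =
        ∑ g : G, (if g ∈ C then (1 : ℝ) else 0) := by
      apply Fintype.sum_equiv ((Equiv.mulLeft x⁻¹).trans (Equiv.mulRight x))
      intro g
      rfl
    rw [h3, Finset.sum_ite, Finset.sum_const, Finset.sum_const_zero, add_zero, nsmul_eq_mul,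
      mul_one, Nat.card_eq_fintype_card, Fintype.card_subtype]
  rw [Finset.sum_congr rfl (fun g _ => h1 g), Finset.sum_comm,
    Finset.sum_congr rfl (fun x _ => h2 x), Finset.sum_const, Finset.card_univ, nsmul_eq_mul,
    Nat.card_eq_fintype_card (α := G)]

/-- fixed cosets -/
theorem bind_coset {G : Type} [Group G] [Finite G] (C : Subgroup G) (g : G) :
    (Nat.card {y : G ⧸ C // g • y = y} : ℝ) = tht C g := by
  have : Fintype G := Fintype.ofFinite G
  have hC : (Nat.card C : ℝ) ≠ 0 := by
    have : Nat.card C ≠ 0 := Nat.card_pos.ne'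
    exact_mod_cast this
  unfold tht
  rw [eq_div_iff hC]
  have h1 : Nat.card {y : G ⧸ C // g • y = y} * Nat.card C =
      Nat.card {x : G // x⁻¹ * g * x ∈ C} := by
    rw [← Nat.card_prod]
    apply Nat.card_congr
    have hfix : ∀ x : G, (g • (x : G ⧸ C) = (x : G ⧸ C)) ↔ x⁻¹ * g * x ∈ C := by
      intro x
      rw [MulAction.Quotient.smul_mk, smul_eq_mul, eq_comm, QuotientGroup.eq, ← mul_assoc]
    refine Equiv.ofBijective (fun p => ⟨(Quotient.out p.1.1 : G) * (p.2 : G), ?_⟩) ⟨?_, ?_⟩
    · rw [← hfix]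
      have h2 : (((Quotient.out p.1.1 : G) * (p.2 : G) : G) : G ⧸ C) = p.1.1 := by
        rw [QuotientGroup.mk_mul_of_mem _ p.2.2]
        exact Quotient.out_eq' p.1.1
      rw [h2]
      exact p.1.2
    · rintro ⟨⟨y, hy⟩, c⟩ ⟨⟨y', hy'⟩, c'⟩ h
      have h3 : (Quotient.out y : G) * (c : G) = (Quotient.out y' : G) * (c' : G) :=
        congrArg Subtype.val h
      have h4 : y = y' := by
        have e1 : (((Quotient.out y : G) * (c : G) : G) : G ⧸ C) = y := by
          rw [QuotientGroup.mk_mul_of_mem _ c.2]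
          exact Quotient.out_eq' y
        have e2 : (((Quotient.out y' : G) * (c' : G) : G) : G ⧸ C) = y' := by
          rw [QuotientGroup.mk_mul_of_mem _ c'.2]
          exact Quotient.out_eq' y'
        rw [← e1, h3, e2]
      subst h4
      have h5 := mul_left_cancel h3
      have h6 : c = c' := Subtype.ext h5
      rw [h6]
    · rintro ⟨x, hx⟩
      have e1 : ((Quotient.out (x : G ⧸ C) : G) : G ⧸ C) = (x : G ⧸ C) :=
        Quotient.out_eq' (x : G ⧸ C)
      have hmem : (Quotient.out (x : G ⧸ C) : G)⁻¹ * x ∈ C := QuotientGroup.eq.mp e1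
      refine ⟨⟨⟨(x : G ⧸ C), (hfix x).mpr hx⟩, ⟨_, hmem⟩⟩, ?_⟩
      apply Subtype.ext
      simp
  exact_mod_cast h1

theorem bind_equiv {G : Type} [Group G] (Y Z : Type) [MulAction G Y] [MulAction G Z]
    (e : Y ≃ Z) (he : ∀ (g : G) y, e (g • y) = g • e y) (g : G) :
    Nat.card {y : Y // g • y = y} = Nat.card {z : Z // g • z = z} := by
  apply Nat.card_congr
  refine e.subtypeEquiv (fun y => ?_)
  rw [← he]
  exact e.injective.eq_iff.symm

theorem bind_orbit {G : Type} [Group G] [Finite G] (Y : Type) [MulAction G Y] (y : Y) (g : G) :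
    (Nat.card {z : MulAction.orbit G y // g • z = z} : ℝ) = tht (MulAction.stabilizer G y) g := by
  rw [← bind_coset]
  have h := bind_equiv (G := G) (MulAction.orbit G y) (G ⧸ MulAction.stabilizer G y)
    (MulAction.orbitEquivQuotientStabilizer G y) ?_ g
  · exact_mod_cast h
  · intro g z
    apply (MulAction.orbitEquivQuotientStabilizer G y).symm.injective
    rw [Equiv.symm_apply_apply]
    obtain ⟨q, rfl⟩ := (MulAction.orbitEquivQuotientStabilizer G y).symm.surjective z
    rw [Equiv.apply_symm_apply]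
    obtain ⟨x, rfl⟩ := QuotientGroup.mk_surjective q
    apply Subtype.ext
    rw [MulAction.orbit.coe_smul, MulAction.Quotient.smul_mk,
      MulAction.orbitEquivQuotientStabilizer_symm_apply,
      MulAction.orbitEquivQuotientStabilizer_symm_apply, smul_eq_mul, mul_smul]

theorem set_fix (S : Submodule ℝ (G → ℝ)) (hS : ∀ C : Subgroup G, tht C ∈ S) (Y : Type)
    [MulAction G Y] [Finite Y] : (fun g : G => (Nat.card {y : Y // g • y = y} : ℝ)) ∈ S := by
  have : Fintype (MulAction.orbitRel.Quotient G Y) := Fintype.ofFinite _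
  have h1 : (fun g : G => (Nat.card {y : Y // g • y = y} : ℝ)) =
      ∑ ω : MulAction.orbitRel.Quotient G Y, tht (MulAction.stabilizer G (Quotient.out ω)) := by
    funext g
    rw [Finset.sum_apply]
    have h2 : ∀ ω : MulAction.orbitRel.Quotient G Y,
        tht (MulAction.stabilizer G (Quotient.out ω)) g =
        (Nat.card {y : Y // g • y = y ∧ (Quotient.mk (MulAction.orbitRel G Y) y) = ω} : ℝ) := by
      intro ω
      rw [← bind_orbit]
      congr 1
      apply Nat.card_congr
      refine ⟨fun z => ⟨z.1.1, ?_, ?_⟩, fun y => ⟨⟨y.1, ?_⟩, ?_⟩, ?_, ?_⟩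
      · have := congrArg Subtype.val z.2
        rwa [MulAction.orbit.coe_smul] at this
      · have h3 : (Quotient.mk (MulAction.orbitRel G Y) z.1.1) =
            Quotient.mk (MulAction.orbitRel G Y) (Quotient.out ω) := by
          apply Quotient.sound
          exact z.1.2
        rw [h3]
        exact Quotient.out_eq ω
      · have h3 : (Quotient.mk (MulAction.orbitRel G Y) y.1) =
            Quotient.mk (MulAction.orbitRel G Y) (Quotient.out ω) := by
          rw [y.2.2]
          exact (Quotient.out_eq ω).symm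
        exact Quotient.exact h3
      · apply Subtype.ext
        rw [MulAction.orbit.coe_smul]
        exact y.2.1
      · intro z
        rfl
      · intro y
        rfl
    rw [Finset.sum_congr rfl (fun ω _ => h2 ω), ← Nat.cast_sum]
    congr 1
    have : Fintype Y := Fintype.ofFinite Y
    rw [Nat.card_eq_fintype_card, Fintype.card_subtype,
      Finset.card_eq_sum_card_fiberwise
        (f := fun y => (Quotient.mk (MulAction.orbitRel G Y) y)) (t := Finset.univ)
        (fun _ _ => Finset.mem_univ _)]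
    apply Finset.sum_congr rfl
    intro ω _
    rw [Nat.card_eq_fintype_card, Fintype.card_subtype, Finset.filter_filter]
  rw [h1]
  exact Submodule.sum_mem _ (fun ω _ => hS _)

theorem bind_pow {G : Type} [Group G] (Y : Type) [MulAction G Y] [Finite Y] (k : ℕ) (g : G) :
    Nat.card {y : Fin k → Y // g • y = y} = Nat.card {y : Y // g • y = y} ^ k := by
  have h1 : Nat.card {y : Fin k → Y // g • y = y} = Nat.card (Fin k → {y : Y // g • y = y}) := by
    apply Nat.card_congr
    refine ⟨fun y i => ⟨y.1 i, congrFun y.2 i⟩, fun y => ⟨fun i => (y i).1, ?_⟩, ?_, ?_⟩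
    · funext i
      exact (y i).2
    · intro y
      rfl
    · intro y
      rfl
  rw [h1, Nat.card_fun, Nat.card_eq_fintype_card (α := Fin k), Fintype.card_fin]

theorem bind_poly (m i : ℕ) (hi : i ≤ m) :
    (∏ j ∈ Finset.range m, (1 - Polynomial.C ((1 : ℝ) / (j + 1)) * Polynomial.X)).eval (i : ℝ) =
      if i = 0 then 1 else 0 := by
  rw [Polynomial.eval_prod]
  split_ifs with h
  · subst h
    simp
  · apply Finset.prod_eq_zero (i := i - 1)
    · rw [Finset.mem_range]
      omega
    · simp only [Polynomial.eval_sub, Polynomial.eval_one, Polynomial.eval_mul,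
        Polynomial.eval_C, Polynomial.eval_X]
      have h2 : ((i - 1 : ℕ) : ℝ) + 1 = i := by
        have : i - 1 + 1 = i := by omega
        exact_mod_cast this
      rw [h2]
      have h3 : (i : ℝ) ≠ 0 := by exact_mod_cast h
      field_simp
      ring

theorem fix_span (S : Submodule ℝ (G → ℝ)) (hS : ∀ C : Subgroup G, tht C ∈ S) {Ω : Type}
    [MulAction G Ω] (O : Set Ω) (hO : O.Finite) (hinv : ∀ g : G, ∀ x ∈ O, g • x ∈ O) :
    (fun g : G => if ∃ x ∈ O, g • x = x then (1 : ℝ) else 0) ∈ S := by
  let A : SubMulAction G Ω := ⟨O, fun g x hx => hinv g x hx⟩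
  have hfin : Finite A := hO
  obtain ⟨X, hX⟩ : ∃ X : G → ℕ, X = fun g => Nat.card {y : A // g • y = y} := ⟨_, rfl⟩
  obtain ⟨m, hm⟩ : ∃ m, m = Nat.card A := ⟨_, rfl⟩
  have hXm : ∀ g, X g ≤ m := by
    intro g
    rw [hX, hm]
    exact Nat.card_le_card_of_injective (fun y : {y : A // g • y = y} => y.1)
      Subtype.val_injective
  have hX0 : ∀ g, X g = 0 ↔ ¬ ∃ x ∈ O, g • x = x := by
    intro g
    rw [hX]
    simp only
    rw [Finite.card_eq_zero_iff]
    constructor
    · rintro ⟨h⟩ ⟨x, hx, hgx⟩
      exact h ⟨⟨x, hx⟩, Subtype.ext hgx⟩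
    · intro h
      refine ⟨fun y => h ⟨y.1.1, y.1.2, ?_⟩⟩
      exact congrArg Subtype.val y.2
  have hpow : ∀ k : ℕ, (fun g : G => (X g : ℝ) ^ k) ∈ S := by
    intro k
    have h1 := set_fix S hS (Fin k → A)
    have h2 : (fun g : G => (Nat.card {y : Fin k → A // g • y = y} : ℝ)) =
        fun g : G => (X g : ℝ) ^ k := by
      funext g
      rw [bind_pow, hX]
      push_cast
      rfl
    rwa [h2] at h1
  obtain ⟨P, hP⟩ : ∃ P : Polynomial ℝ,
      P = ∏ j ∈ Finset.range m, (1 - Polynomial.C ((1 : ℝ) / (j + 1)) * Polynomial.X) := ⟨_, rfl⟩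
  have hPX : (fun g : G => P.eval (X g : ℝ)) ∈ S := by
    have h1 : (fun g : G => P.eval (X g : ℝ)) =
        ∑ i ∈ Finset.range (P.natDegree + 1), P.coeff i • (fun g : G => (X g : ℝ) ^ i) := by
      funext g
      rw [Polynomial.eval_eq_sum_range, Finset.sum_apply]
      apply Finset.sum_congr rfl
      intro i _
      rw [Pi.smul_apply, smul_eq_mul]
    rw [h1]
    exact Submodule.sum_mem _ (fun i _ => Submodule.smul_mem _ _ (hpow i))
  have h0 := hpow 0
  have h2 := Submodule.sub_mem _ h0 hPX
  have h3 : (fun g : G => if ∃ x ∈ O, g • x = x then (1 : ℝ) else 0) =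
      (fun g : G => (X g : ℝ) ^ 0) - (fun g : G => P.eval (X g : ℝ)) := by
    funext g
    rw [Pi.sub_apply, pow_zero, hP, bind_poly m (X g) (hXm g)]
    by_cases h4 : ∃ x ∈ O, g • x = x
    · have h5 : ¬ X g = 0 := fun h6 => (hX0 g).mp h6 h4
      rw [if_pos h4, if_neg h5, sub_zero]
    · have h5 : X g = 0 := (hX0 g).mpr h4
      rw [if_neg h4, if_pos h5, sub_self]
  rw [h3]
  exact h2

end Pool.Agent.H42.PC
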