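/-
Row BFin (about 120 lines): density theorem (upper bound form).

 prc_tendsto : PITh: prc * log X / X → 1 and X / log X → ∞.
 frobenius_density : the set of φ : G → ℝ with avg φ X → (Σ_g φ g) / |G| is a submodule of G → ℝ (the finsum is over a finite set: prc_finite), containing all tht C (avg_tht, tht_mean). By fix_span it contains φ := indicator of T := {g | ∃ x ∈ O, g x = x}; Σ_g φ g = |T|.
 {v | ∃ g ∈ T, IsFr K L v g} with norm ≤ X: those not Un are at most a constant number c (un_finite); for v Un with g ∈ T Frobenius: frb v is conjugate to g (fr_conj), so frb v ∈ T (O is invariant), φ (frb v) = 1. So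
 prc {..} X ≤ c + avg φ X * prc univ X. As prc univ X → ∞, c / prc univ X → 0. So for ε > 0 eventually prc {..} X ≤ (|T|/|G| + ε) prc univ X.
-/
import Pool.Agent.H42.PC.BAvg
import Pool.Agent.H42.PC.BInd

set_option autoImplicit false

namespace Pool.Agent.H42.PC

open NumberField IsDedekindDomain Filter Topology

theorem prc_tendsto {K : Type} [Field K] [NumberField K] (hK : PITh K) :
    Tendsto (fun X : ℕ => (prc K Set.univ X : ℝ)) atTop atTop := by
  have h1 : Tendsto (fun X : ℕ => (X : ℝ) / Real.log X) atTop atTop := by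
    have h2 : Tendsto (fun X : ℕ => Real.log X / X) atTop (𝓝[>] 0) := by
      rw [tendsto_nhdsWithin_iff]
      refine ⟨BAvg_log, ?_⟩
      filter_upwards [eventually_gt_atTop 1] with X hX
      have hX' : (1 : ℝ) < X := by exact_mod_cast hX
      exact div_pos (Real.log_pos hX') (by linarith)
    have h3 := h2.inv_tendsto_nhdsGT_zero
    refine h3.congr fun X => ?_
    simp
  have h4 := hK.pos_mul_atTop one_pos h1
  refine h4.congr' ?_
  filter_upwards [eventually_gt_atTop 1] with X hX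
  have hX' : (1 : ℝ) < X := by exact_mod_cast hX
  have hl : Real.log X ≠ 0 := (Real.log_pos hX').ne'
  have hX0 : (X : ℝ) ≠ 0 := by linarith
  field_simp

section BFinAux

variable {K L : Type} [Field K] [NumberField K] [Field L] [NumberField L] [Algebra K L]
  [IsGalois K L]

theorem BFin_add (φ ψ : (L ≃ₐ[K] L) → ℝ) (X : ℕ) :
    avg K L (φ + ψ) X = avg K L φ X + avg K L ψ X := by
  unfold avg
  rw [← add_div, ← finsum_mem_add_distrib (BAvg_unfin X)]
  rfl

theorem BFin_smul (c : ℝ) (φ : (L ≃ₐ[K] L) → ℝ) (X : ℕ) :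
    avg K L (c • φ) X = c * avg K L φ X := by
  unfold avg
  rw [finsum_mem_eq_finite_toFinset_sum _ (BAvg_unfin X),
    finsum_mem_eq_finite_toFinset_sum _ (BAvg_unfin X), ← mul_div_assoc, Finset.mul_sum]
  rfl

/-- functions with the right average -/
noncomputable def BFin_S (K L : Type) [Field K] [NumberField K] [Field L] [NumberField L]
    [Algebra K L] [IsGalois K L] [Fintype (L ≃ₐ[K] L)] : Submodule ℝ ((L ≃ₐ[K] L) → ℝ) where
  carrier := {φ | Tendsto (avg K L φ) atTop (𝓝 ((∑ g, φ g) / Nat.card (L ≃ₐ[K] L)))}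
  add_mem' := by
    intro φ ψ hφ hψ
    simp only [Set.mem_ofPred_eq] at *
    have h := hφ.add hψ
    have e : (∑ g, φ g) / (Nat.card (L ≃ₐ[K] L) : ℝ) + (∑ g, ψ g) / Nat.card (L ≃ₐ[K] L) =
        (∑ g, (φ + ψ) g) / Nat.card (L ≃ₐ[K] L) := by
      simp only [Pi.add_apply]
      rw [Finset.sum_add_distrib, add_div]
    rw [e] at h
    exact h.congr fun X => (BFin_add φ ψ X).symm
  zero_mem' := by
    simp only [Set.mem_ofPred_eq]
    have h : Tendsto (fun _ : ℕ => (0 : ℝ)) atTop (𝓝 ((∑ g : L ≃ₐ[K] L,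
        (0 : (L ≃ₐ[K] L) → ℝ) g) / Nat.card (L ≃ₐ[K] L))) := by
      simp
    refine h.congr fun X => ?_
    unfold avg
    simp
  smul_mem' := by
    intro c φ hφ
    simp only [Set.mem_ofPred_eq] at *
    have h := hφ.const_mul c
    have e : c * ((∑ g, φ g) / (Nat.card (L ≃ₐ[K] L) : ℝ)) =
        (∑ g, (c • φ) g) / Nat.card (L ≃ₐ[K] L) := by
      simp only [Pi.smul_apply, smul_eq_mul]
      rw [← Finset.mul_sum, mul_div_assoc]
    rw [e] at h
    exact h.congr fun X => (BFin_smul c φ X).symm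

end BFinAux

open scoped Classical in
theorem frobenius_density {K L : Type} [Field K] [NumberField K] [Field L] [NumberField L]
    [Algebra K L] [IsGalois K L] (hK : PITh K) (hPIT : ∀ M : IntermediateField K L, PITh M)
    (O : Set L) (hO : O.Finite) (hinv : ∀ g : L ≃ₐ[K] L, ∀ x ∈ O, g • x ∈ O)
    {ε : ℝ} (hε : 0 < ε) :
    ∀ᶠ X : ℕ in atTop, (prc K {v | ∃ g : L ≃ₐ[K] L, (∃ x ∈ O, g • x = x) ∧ IsFr K L v g} X : ℝ) ≤
      ((Nat.card {g : L ≃ₐ[K] L // ∃ x ∈ O, g • x = x} : ℝ) / Nat.card (L ≃ₐ[K] L) + ε) *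
        prc K Set.univ X := by
  have : Fintype (L ≃ₐ[K] L) := Fintype.ofFinite _
  have hcard : (Nat.card (L ≃ₐ[K] L) : ℝ) ≠ 0 := by
    have : Nat.card (L ≃ₐ[K] L) ≠ 0 := Nat.card_pos.ne'
    exact_mod_cast this
  have hmem := fix_span (BFin_S K L) (fun C => by
    have h1 := avg_tht hK hPIT C
    change Tendsto (avg K L (tht C)) atTop (𝓝 ((∑ g, tht C g) / Nat.card (L ≃ₐ[K] L)))
    rw [tht_mean, div_self hcard]
    exact h1) O hO hinv
  set φ : (L ≃ₐ[K] L) → ℝ := fun g => if ∃ x ∈ O, g • x = x then (1 : ℝ) else 0 with hφ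
  have hlim : Tendsto (avg K L φ) atTop (𝓝 ((∑ g, φ g) / Nat.card (L ≃ₐ[K] L))) := hmem
  have hsum : ∑ g, φ g = (Nat.card {g : L ≃ₐ[K] L // ∃ x ∈ O, g • x = x} : ℝ) := by
    rw [Nat.card_eq_fintype_card, Fintype.card_subtype, hφ, Finset.sum_ite, Finset.sum_const,
      Finset.sum_const_zero, add_zero, nsmul_eq_mul, mul_one]
  rw [hsum] at hlim
  have hP := prc_tendsto hK
  set c := {v : HeightOneSpectrum (𝓞 K) | ¬ Un K L v}.ncard with hc
  have hTinv : ∀ g τ : L ≃ₐ[K] L, (∃ x ∈ O, g • x = x) → ∃ x ∈ O, (τ * g * τ⁻¹) • x = x := by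
    rintro g τ ⟨x, hx, hgx⟩
    refine ⟨τ • x, hinv τ x hx, ?_⟩
    rw [mul_smul, mul_smul, inv_smul_smul, hgx]
  have key : ∀ X : ℕ, prc K Set.univ X ≠ 0 →
      (prc K {v | ∃ g : L ≃ₐ[K] L, (∃ x ∈ O, g • x = x) ∧ IsFr K L v g} X : ℝ) ≤
      c + avg K L φ X * prc K Set.univ X := by
    intro X hX
    have hX' : (prc K Set.univ X : ℝ) ≠ 0 := by exact_mod_cast hX
    unfold avg
    rw [div_mul_cancel₀ _ hX', finsum_mem_eq_finite_toFinset_sum _ (BAvg_unfin X), hφ,
      Finset.sum_ite, Finset.sum_const, Finset.sum_const_zero, add_zero, nsmul_eq_mul, mul_one]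
    have h3 : {v : HeightOneSpectrum (𝓞 K) | v ∈ {v | ∃ g : L ≃ₐ[K] L, (∃ x ∈ O, g • x = x) ∧
        IsFr K L v g} ∧ Ideal.absNorm v.asIdeal ≤ X} ⊆
        {v : HeightOneSpectrum (𝓞 K) | ¬ Un K L v} ∪
        (Finset.filter (fun v => ∃ x ∈ O, frb K L v • x = x)
          (BAvg_unfin (K := K) (L := L) X).toFinset : Set (HeightOneSpectrum (𝓞 K))) := by
      rintro v ⟨⟨g, hg, hgv⟩, hvX⟩
      by_cases hv : Un K L v
      · right
        rw [Finset.coe_filter]
        refine ⟨(Set.Finite.mem_toFinset _).2 ⟨hv, hvX⟩, ?_⟩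
        obtain ⟨τ, hτ⟩ := fr_conj hv hgv (BAvg_frb v)
        rw [← hτ]
        exact hTinv g τ hg
      · left
        exact hv
    have h4 := Set.ncard_le_ncard h3 (un_finite.union (Finset.finite_toSet _))
    have h5 := h4.trans (Set.ncard_union_le _ _)
    rw [Set.ncard_coe_finset] at h5
    unfold prc
    exact_mod_cast h5
  have hε2 : 0 < ε / 2 := by positivity
  have e1 := hlim.eventually (gt_mem_nhds (lt_add_of_pos_right
    ((Nat.card {g : L ≃ₐ[K] L // ∃ x ∈ O, g • x = x} : ℝ) / Nat.card (L ≃ₐ[K] L)) hε2))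
  have e2 := hP.eventually (eventually_ge_atTop ((c : ℝ) / (ε / 2) + 1))
  filter_upwards [e1, e2] with X h1 h2
  have hpos : (0 : ℝ) < prc K Set.univ X := by
    have : (0 : ℝ) ≤ (c : ℝ) / (ε / 2) := by positivity
    linarith
  have h3 := key X (by
    intro h
    rw [h, Nat.cast_zero] at hpos
    exact lt_irrefl _ hpos)
  have h4 : (c : ℝ) ≤ ε / 2 * prc K Set.univ X := by
    have h5 : (c : ℝ) / (ε / 2) ≤ prc K Set.univ X := by linarith
    rw [div_le_iff₀ hε2] at h5
    linarith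
  calc _ ≤ (c : ℝ) + avg K L φ X * prc K Set.univ X := h3
    _ ≤ ε / 2 * prc K Set.univ X +
        ((Nat.card {g : L ≃ₐ[K] L // ∃ x ∈ O, g • x = x} : ℝ) / Nat.card (L ≃ₐ[K] L) + ε / 2) *
          prc K Set.univ X := by
        gcongr
    _ = _ := by ring

end Pool.Agent.H42.PC
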