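/-
Row EPit (about 40 lines): the prime ideal theorem of Pool.Agent.H17.PIT in the form PITh.

 H17PIT.pit_nat (K): piK K X * log X / X → 1 along natural X, piK K x = ncard {p : Ideal (𝓞 K) | p.IsPrime ∧ p ≠ ⊥ ∧ absNorm p ≤ x}. The map v ↦ v.asIdeal is a bijection from {v : HeightOneSpectrum | v ∈ univ ∧ absNorm v.asIdeal ≤ X} onto that set (Set.ncard_image_of_injective / ncard_congr).
-/
import Pool.Agent.H42.PC.BAvg
import Pool.Agent.H17.PIT.Main

set_option autoImplicit false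

namespace Pool.Agent.H42.PC

open NumberField IsDedekindDomain Filter Topology

theorem pith (E : Type) [Field E] [NumberField E] : PITh E := by
  unfold PITh
  have h := H17PIT.pit_nat E
  refine h.congr (fun X => ?_)
  have h1 : {p : Ideal (𝓞 E) | p.IsPrime ∧ p ≠ ⊥ ∧ Ideal.absNorm p ≤ X} =
      (fun v : HeightOneSpectrum (𝓞 E) => v.asIdeal) ''
        {v | v ∈ (Set.univ : Set (HeightOneSpectrum (𝓞 E))) ∧ Ideal.absNorm v.asIdeal ≤ X} := by
    ext p
    constructor
    · rintro ⟨hp1, hp2, hp3⟩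
      exact ⟨⟨p, hp1, hp2⟩, ⟨Set.mem_univ _, hp3⟩, rfl⟩
    · rintro ⟨v, ⟨_, hv⟩, rfl⟩
      exact ⟨v.isPrime, v.ne_bot, hv⟩
  have h2 : Function.Injective (fun v : HeightOneSpectrum (𝓞 E) => v.asIdeal) := by
    intro v w hvw
    exact HeightOneSpectrum.ext hvw
  unfold prc
  rw [h1, Set.ncard_image_of_injective _ h2]

end Pool.Agent.H42.PC
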