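/-
Row BFr (about 130 lines): ramified primes are finite in number; Frobenius elements exist and are conjugate at unramified primes.

 un_finite : for each g ≠ 1 choose x_g : 𝓞 L with g x_g ≠ x_g (g ≠ 1 on L = Frac, so on 𝓞 L). If v is not Un: some w over v and g ≠ 1 with g x_g - x_g ∈ w: w is in the finite set of primes dividing the nonzero element g x_g - x_g (search: Ideal.finite_factors, HeightOneSpectrum finite support of
   a nonzero ideal: finite {v | v.asIdeal ∣ I}). G is finite. v is the prime below w, determined by w (LiesOver: v.asIdeal = w.asIdeal.under). So the set of such v is the image of a finite set.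
 fr_exists : some w lies over v (Ideal.exists_ideal_over_prime... / Ideal.primesOver nonempty, nonzero prime), 𝓞 L / w finite; IsArithFrobAt.exists_of_isInvariant.
 fr_conj : σ Frobenius at w, σ' at w', both over v, v Un: w' = τ w for some τ ∈ G (transitivity: Ideal... IsInvariant.exists_smul_of_under_eq), τ σ τ⁻¹ is Frobenius at w' (IsArithFrobAt.conj), so σ' (τ σ τ⁻¹)⁻¹ is in the inertia group of w' (IsArithFrobAt.mul_inv_mem_inertia), so = 1.
 fr_fix_iff : not needed.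
-/
import Pool.Agent.H42.PC.BDefs

set_option autoImplicit false

namespace Pool.Agent.H42.PC

open NumberField IsDedekindDomain

variable {K L : Type} [Field K] [NumberField K] [Field L] [NumberField L] [Algebra K L]
  [IsGalois K L]

theorem BFr_int_ext {g : L ≃ₐ[K] L} (h : ∀ x : 𝓞 L, g • x = x) : g = 1 := by
  apply AlgEquiv.ext
  intro x
  obtain ⟨a, b, hb, rfl⟩ := IsFractionRing.div_surjective (A := 𝓞 L) x
  have key : ∀ y : 𝓞 L, g (algebraMap (𝓞 L) L y) = algebraMap (𝓞 L) L y := by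
    intro y
    have h1 := congrArg (algebraMap (𝓞 L) L) (h y)
    exact h1
  rw [map_div₀, key, key]
  rfl

theorem un_finite : {v : HeightOneSpectrum (𝓞 K) | ¬ Un K L v}.Finite := by
  classical
  have hx : ∀ g : L ≃ₐ[K] L, g ≠ 1 → ∃ x : 𝓞 L, g • x - x ≠ 0 := by
    intro g hg
    by_contra hcon
    push Not at hcon
    exact hg (BFr_int_ext fun x => sub_eq_zero.1 (hcon x))
  choose! xg hxg using hx
  have hW : (⋃ g : L ≃ₐ[K] L, {w : HeightOneSpectrum (𝓞 L) |
      g ≠ 1 ∧ w.asIdeal ∣ Ideal.span {g • xg g - xg g}}).Finite := by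
    apply Set.finite_iUnion
    intro g
    by_cases hg : g = 1
    · refine (Set.finite_empty).subset ?_
      rintro w ⟨hw, -⟩
      exact absurd hg hw
    · refine (Ideal.finite_factors (I := Ideal.span {g • xg g - xg g}) ?_).subset ?_
      · rw [Ne, Ideal.zero_eq_bot, Ideal.span_singleton_eq_bot]
        exact hxg g hg
      · rintro w ⟨-, hw⟩
        exact hw
  have him := hW.image (fun w => w.asIdeal.under (𝓞 K))
  refine Set.Finite.of_finite_image (f := fun v : HeightOneSpectrum (𝓞 K) => v.asIdeal)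
    (him.subset ?_) ?_
  · rintro _ ⟨v, hv, rfl⟩
    simp only [Set.mem_setOf_eq, Un] at hv
    push Not at hv
    obtain ⟨w, hw, g, hg, hg1⟩ := hv
    refine ⟨w, ?_, hw.over.symm⟩
    rw [Set.mem_iUnion]
    refine ⟨g, hg1, ?_⟩
    rw [Ideal.dvd_span_singleton]
    exact hg _
  · intro v _ v' _ h
    exact HeightOneSpectrum.ext h

theorem BFr_over_exists (v : HeightOneSpectrum (𝓞 K)) :
    ∃ w : HeightOneSpectrum (𝓞 L), w.asIdeal.LiesOver v.asIdeal := by
  have hp := v.isPrime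
  obtain ⟨Q, -, hQ, hQv⟩ := Ideal.exists_ideal_over_prime_of_isIntegral (S := 𝓞 L) v.asIdeal ⊥ (by
    rw [Ideal.comap_bot_of_injective _ (FaithfulSMul.algebraMap_injective (𝓞 K) (𝓞 L))]
    exact bot_le)
  refine ⟨⟨Q, hQ, ?_⟩, ⟨hQv.symm⟩⟩
  rintro rfl
  rw [Ideal.comap_bot_of_injective _ (FaithfulSMul.algebraMap_injective (𝓞 K) (𝓞 L))] at hQv
  exact v.ne_bot hQv.symm

theorem fr_exists (v : HeightOneSpectrum (𝓞 K)) : ∃ g : L ≃ₐ[K] L, IsFr K L v g := by
  obtain ⟨w, hw⟩ := BFr_over_exists (K := K) (L := L) v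
  have hp := w.isPrime
  have : Finite (𝓞 L ⧸ w.asIdeal) := Ideal.finiteQuotientOfFreeOfNeBot _ w.ne_bot
  obtain ⟨σ, hσ⟩ := IsArithFrobAt.exists_of_isInvariant (𝓞 K) (L ≃ₐ[K] L) w.asIdeal
  exact ⟨σ, w, hw, hσ⟩

open scoped Pointwise in
theorem BFr_smul_ne_bot (w : HeightOneSpectrum (𝓞 L)) (τ : L ≃ₐ[K] L) : τ • w.asIdeal ≠ ⊥ := by
  intro h
  apply w.ne_bot
  have h1 : τ⁻¹ • (τ • w.asIdeal) = τ⁻¹ • (⊥ : Ideal (𝓞 L)) := by rw [h]
  rw [inv_smul_smul] at h1
  rw [h1, Ideal.pointwise_smul_def, Ideal.map_bot]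

open scoped Pointwise in
theorem fr_conj {v : HeightOneSpectrum (𝓞 K)} (hv : Un K L v) {g h : L ≃ₐ[K] L}
    (hg : IsFr K L v g) (hh : IsFr K L v h) : ∃ τ : L ≃ₐ[K] L, τ * g * τ⁻¹ = h := by
  obtain ⟨w, hw, hgw⟩ := hg
  obtain ⟨w', hw', hhw⟩ := hh
  have hp := w.isPrime
  have hp' := w'.isPrime
  obtain ⟨τ, hτ⟩ := Algebra.IsInvariant.exists_smul_of_under_eq (𝓞 K) (𝓞 L) (L ≃ₐ[K] L)
    w.asIdeal w'.asIdeal (hw.over.symm.trans hw'.over)
  refine ⟨τ, ?_⟩
  have h1 := hgw.conj τ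
  rw [← hτ] at h1
  have h2 := IsArithFrobAt.mul_inv_mem_inertia h1 hhw
  have h3 : τ * g * τ⁻¹ * h⁻¹ = 1 := hv w' hw' _ (fun x => h2 x)
  exact mul_inv_eq_one.1 h3

open scoped Pointwise in
theorem fr_conj' {v : HeightOneSpectrum (𝓞 K)} {g : L ≃ₐ[K] L}
    (hg : IsFr K L v g) (τ : L ≃ₐ[K] L) : IsFr K L v (τ * g * τ⁻¹) := by
  obtain ⟨w, hw, hgw⟩ := hg
  have hp := w.isPrime
  refine ⟨⟨τ • w.asIdeal, inferInstance, BFr_smul_ne_bot w τ⟩, ?_, hgw.conj τ⟩
  exact Ideal.LiesOver.smul (h := hw) τ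

end Pool.Agent.H42.PC
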