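import Pool.Agent.H42.PC.GDefs

/-! Local data: a valuation with its inertia group; polynomials in good position. -/

set_option autoImplicit false

namespace Pool.Agent.H42.PC

open Polynomial WithZero

/-- A valuation of `L` together with its inertia group `I ≤ G`. -/
structure Loc (G L : Type) [Group G] [Field L] [MulSemiringAction G L] where
  /-- the valuation -/
  V : Valuation L ℤᵐ⁰
  /-- the inertia group -/
  I : Subgroup G
  inv : ∀ g ∈ I, ∀ x, V (g • x) = V x
  inert : ∀ g ∈ I, ∀ x, V x ≤ 1 → V (g • x - x) < 1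
  div : ∀ H ≤ I, ∀ z, z ≠ 0 → (∀ g ∈ H, g • z = z) → ∃ k : ℤ, V z = exp (k * (Nat.card H : ℤ))
  unif : ∀ H ≤ I, ∃ z, (∀ g ∈ H, g • z = z) ∧ V z = exp (-(Nat.card H : ℤ))

/-- The polynomial map. -/
noncomputable def ev {L : Type} [Field L] (f : L[X]) (x : L) : L := f.eval x

/-- `f` and `b` are in good position at the valuation `Λ.V`; `W` is the set of wandering critical
points, `J` the number of iterates which are controlled. -/
structure Good {G L : Type} [Group G] [Field L] [MulSemiringAction G L] (Λ : Loc G L)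
    (f : L[X]) (b : L) (W : Finset L) (J : ℕ) : Prop where
  coef : ∀ (g : G) (i : ℕ), g • f.coeff i = f.coeff i
  fixb : ∀ g : G, g • b = b
  deg : 2 ≤ f.natDegree
  int : ∀ i, Λ.V (f.coeff i) ≤ 1
  lead : Λ.V f.leadingCoeff = 1
  two : Λ.V 2 = 1
  dd : Λ.V (f.natDegree : L) = 1
  spl : f.derivative.Splits
  bint : Λ.V b ≤ 1
  bW : b ∈ W
  Wroot : ∀ c ∈ W, f.derivative.eval c = 0
  Wsimple : ∀ c ∈ W, f.derivative.derivative.eval c ≠ 0
  G1 : ∀ c c', f.derivative.eval c = 0 → f.derivative.eval c' = 0 → c ≠ c' → Λ.V (c - c') = 1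
  G2 : ∀ c ∈ W, ∀ c' ∈ W, ∀ i ≤ J, ∀ j ≤ J, Λ.V ((ev f)^[i] c - (ev f)^[j] c') < 1 →
    c = c' ∧ i = j
  G3 : ∀ c, f.derivative.eval c = 0 → c ∉ W → ∀ t, ¬ Λ.V ((ev f)^[t] c - b) < 1

end Pool.Agent.H42.PC
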