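/-
Row DPol (about 170 lines): polynomials over a valued field (coefficients integral). Ultrametric inequalities only.

 eval_int : sum of integral terms (Polynomial.eval_eq_sum_range, Valuation.map_sum_le).
 root_int : p of degree e ≥ 1, lead unit, integral coefficients, V (p x) ≤ 1. If V x > 1: lead * x^e has valuation (V x)^e, all other terms a_i x^i (i < e) and p x have valuation ≤ (V x)^(e-1) < (V x)^e (and 1 ≤ (V x)^(e-1)),
   but lead x^e = p x - Σ_{i<e} a_i x^i: contradiction.
 eval_sub : p x - p y = (x - y) * ψ with V ψ ≤ 1, and ψ = p'(y) + (x - y) ρ, V ρ ≤ 1: Taylor expansion at y: p = Σ (taylor y p).coeff i (X - y)^i, with coefficients (hasse derivatives) integral: (taylor y p).coeff i = Σ_j binom(j,i) a_j y^(j-i).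
   coefficient 0 is p y, coefficient 1 is p'(y) (taylor_coeff_zero, taylor_coeff_one). Or: induction on p (monomials x^n - y^n = (x-y) Σ ..., and x^n - y^n - n y^(n-1)(x-y) = (x-y)^2 ρ), or Polynomial.sub_dvd_eval_sub / binomExpansion: Mathlib's
   Polynomial.binomExpansion gives f (x+y) = f x + f' x * y + k y^2 but without integrality of k; apply it over the ring V.integer (lift the polynomial: Polynomial.toSubring or map from V.integer / lifts), the element k is then in V.integer. That is the
   shortest: choose p0 : V.integer[X] with map = p (coefficients integral), X x0 y0 in V.integer.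
 near_crit : V (f' x) < 1, x integral, f' splits, lead of f' = d * lead f is a unit (Polynomial.leadingCoeff_derivative? for V (natDegree) = 1 it is nonzero; natDegree f' = natDegree f - 1): f' x = lead' ∏ (x - c) (Splits.eval_eq_prod_roots): one factor has V < 1
   (if all V (x - c) ≥ 1 then V (f' x) ≥ 1).
 crit_int : critical points are integral (root_int applied to f').
 crit_form : for c ∈ W: f = f(c) + (X - c)^2 g: over V.integer, or by Polynomial division: f - C (f c) has c as a root of multiplicity ≥ 2. g integral coefficients: do it over V.integer (binomExpansion-type statement for polynomials: f0 - C (f0 c0) = (X - c0) * h0 and h0(c0) = f0'(c0) = 0 so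
   h0 = (X - c0) g0: Polynomial.dvd_iff_isRoot / mul_divByMonic_eq_iff_isRoot over the integral domain V.integer).
   Differentiate twice at c: f''(c) = 2 g(c). f''(c) = lead' ∏_{c' ≠ c} (c - c') over the roots of f' other than c (c is a simple root as f''(c) ≠ 0: Splits.eval_root_derivative or eval_derivative), a product of units by G1. So V (g c) = V (f'' c) / V 2 = 1.
 noncrit : if x y integral, V (x - y) < 1 and V (f' y) = 1 then V (f x - f y) = V (x - y): ψ = f'(y) + (x-y) ρ has V ψ = 1.
 crit_sub : x x' with V (x - c) < 1, V (x' - c) < 1: f x - f x' = (x - x') * B, B = (x + x' - 2c) g(x) + (x' - c)^2 h where g(x) - g(x') = (x - x') h, V h ≤ 1.  So V (f x - f x') ≤ V (x - x') * max (V (x - c)) (V (x' - c)); and if moreover f x = f x', x ≠ x': B = 0,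
   V (g x) = 1 (g x ≡ g c) and so V (x + x' - 2c) ≤ V (x' - c)^2.
 crit_dbl : f x - f c = (x - c)^2 g(x), V (g x) = 1 for V (x - c) < 1.
-/
import Pool.Agent.H42.PC.DDefs

set_option autoImplicit false

namespace Pool.Agent.H42.PC

open Polynomial WithZero

variable {L : Type} [Field L] {V : Valuation L ℤᵐ⁰}

theorem lift_int {p : L[X]} (hp : ∀ i, V (p.coeff i) ≤ 1) :
    ∃ q : (V.integer)[X], q.map V.integer.subtype = p := by
  have h : (↑p.coeffs : Set L) ⊆ (V.integer : Set L) := by
    intro x hx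
    have hx' : x ∈ p.coeffs := hx
    rw [Polynomial.mem_coeffs_iff] at hx'
    obtain ⟨n, -, rfl⟩ := hx'
    exact hp n
  exact ⟨p.toSubring V.integer h, Polynomial.map_toSubring _ _ _⟩

theorem ev_lift (q : (V.integer)[X]) (x : V.integer) :
    (q.map V.integer.subtype).eval (x : L) = ((q.eval x : V.integer) : L) := by
  rw [eval_map]
  exact eval₂_at_apply V.integer.subtype x

theorem eval_int {p : L[X]} (hp : ∀ i, V (p.coeff i) ≤ 1) {x : L} (hx : V x ≤ 1) :
    V (p.eval x) ≤ 1 := by
  obtain ⟨q, rfl⟩ := lift_int hp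
  have := ev_lift q ⟨x, hx⟩
  simp only at this
  rw [this]
  exact (q.eval ⟨x, hx⟩).2

theorem root_int {p : L[X]} (hp : ∀ i, V (p.coeff i) ≤ 1) (hl : V p.leadingCoeff = 1)
    (hd : 1 ≤ p.natDegree) {x : L} (hx : V (p.eval x) ≤ 1) : V x ≤ 1 := by
  by_contra hcon
  have h1 : 1 < V x := not_le.mp hcon
  obtain ⟨e, he⟩ : ∃ e, p.natDegree = e + 1 := ⟨p.natDegree - 1, by omega⟩
  have h2 : p.leadingCoeff * x ^ (e + 1) =
      p.eval x - ∑ i ∈ Finset.range (e + 1), p.coeff i * x ^ i := by
    rw [eval_eq_sum_range, he, Finset.sum_range_succ, Polynomial.leadingCoeff, he]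
    ring
  have h3 : V (p.leadingCoeff * x ^ (e + 1)) = V x ^ (e + 1) := by
    rw [map_mul, hl, one_mul, map_pow]
  have hone : (1 : ℤᵐ⁰) ≤ V x ^ e := one_le_pow₀ h1.le
  have h4 : V (p.eval x - ∑ i ∈ Finset.range (e + 1), p.coeff i * x ^ i) ≤ V x ^ e := by
    refine Valuation.map_sub_le _ (hx.trans hone) ?_
    refine Valuation.map_sum_le _ ?_
    intro i hi
    have hi' : i ≤ e := by have := Finset.mem_range.mp hi; omega
    rw [map_mul, map_pow]
    calc V (p.coeff i) * V x ^ i ≤ 1 * V x ^ i := by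
          exact mul_le_mul_left (hp i) _
      _ = V x ^ i := one_mul _
      _ ≤ V x ^ e := pow_le_pow_right₀ h1.le hi'
  rw [← h2, h3] at h4
  exact absurd h4 (not_le.mpr (pow_lt_pow_right₀ h1 (Nat.lt_succ_self e)))

theorem eval_sub {p : L[X]} (hp : ∀ i, V (p.coeff i) ≤ 1) {x y : L} (hx : V x ≤ 1)
    (hy : V y ≤ 1) : ∃ ρ, V ρ ≤ 1 ∧
      p.eval x - p.eval y = (x - y) * (p.derivative.eval y + (x - y) * ρ) := by
  obtain ⟨q, rfl⟩ := lift_int hp
  let x0 : V.integer := ⟨x, hx⟩
  let y0 : V.integer := ⟨y, hy⟩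
  obtain ⟨k, hk⟩ := Polynomial.binomExpansion q y0 (x0 - y0)
  refine ⟨(k : L), k.2, ?_⟩
  have e1 : (q.map V.integer.subtype).eval x = ((q.eval x0 : V.integer) : L) := ev_lift q x0
  have e2 : (q.map V.integer.subtype).eval y = ((q.eval y0 : V.integer) : L) := ev_lift q y0
  have e3 : (q.map V.integer.subtype).derivative.eval y =
      ((q.derivative.eval y0 : V.integer) : L) := by
    rw [derivative_map]
    exact ev_lift q.derivative y0
  rw [e1, e2, e3]
  have hk2 : q.eval x0 = q.eval y0 + q.derivative.eval y0 * (x0 - y0) + k * (x0 - y0) ^ 2 := by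
    rw [← hk]; congr 1; ring
  rw [hk2]
  have hx0 : (x0 : L) = x := rfl
  have hy0 : (y0 : L) = y := rfl
  push_cast
  rw [hx0, hy0]
  ring

theorem eval_sub_le {p : L[X]} (hp : ∀ i, V (p.coeff i) ≤ 1) {x y : L} (hx : V x ≤ 1)
    (hy : V y ≤ 1) : V (p.eval x - p.eval y) ≤ V (x - y) := by
  obtain ⟨ρ, hρ, h⟩ := eval_sub hp hx hy
  have hd : V (p.derivative.eval y) ≤ 1 := by
    obtain ⟨q, rfl⟩ := lift_int hp
    rw [derivative_map]
    have := ev_lift q.derivative ⟨y, hy⟩
    simp only at this
    rw [this]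
    exact (q.derivative.eval ⟨y, hy⟩).2
  rw [h, map_mul]
  have h2 : V (p.derivative.eval y + (x - y) * ρ) ≤ 1 := by
    refine Valuation.map_add_le _ hd ?_
    rw [map_mul]
    exact mul_le_one' (Valuation.map_sub_le _ hx hy) hρ
  calc V (x - y) * V (p.derivative.eval y + (x - y) * ρ) ≤ V (x - y) * 1 :=
        mul_le_mul_right h2 _
    _ = V (x - y) := mul_one _

variable {G : Type} [Group G] [MulSemiringAction G L] {Λ : Loc G L} {f : L[X]} {b : L}
  {W : Finset L} {J : ℕ}

theorem der_coef_int {p : L[X]} (hp : ∀ i, V (p.coeff i) ≤ 1) (i : ℕ) :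
    V (p.derivative.coeff i) ≤ 1 := by
  obtain ⟨q, rfl⟩ := lift_int hp
  rw [derivative_map, coeff_map]
  exact (q.derivative.coeff i).2

theorem natCast_ne (hG : Good Λ f b W J) : (f.natDegree : L) ≠ 0 := by
  intro h
  have := hG.dd
  rw [h, map_zero] at this
  exact zero_ne_one this

theorem natDegree_der (hG : Good Λ f b W J) : f.derivative.natDegree = f.natDegree - 1 := by
  have hd := hG.deg
  have h0 : f.derivative.coeff (f.natDegree - 1) ≠ 0 := by
    rw [coeff_derivative]
    have e : f.natDegree - 1 + 1 = f.natDegree := by omega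
    rw [e]
    have e2 : ((f.natDegree - 1 : ℕ) : L) + 1 = (f.natDegree : L) := by
      have : ((f.natDegree - 1 + 1 : ℕ) : L) = (f.natDegree : L) := by rw [e]
      push_cast at this
      exact this
    rw [e2]
    refine mul_ne_zero ?_ (natCast_ne hG)
    intro h
    have := hG.lead
    rw [Polynomial.leadingCoeff, h, map_zero] at this
    exact zero_ne_one this
  refine le_antisymm (natDegree_derivative_le f) (le_natDegree_of_ne_zero h0)

theorem lead_der (hG : Good Λ f b W J) : Λ.V f.derivative.leadingCoeff = 1 := by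
  have hd := hG.deg
  rw [Polynomial.leadingCoeff, natDegree_der hG, coeff_derivative]
  have e : f.natDegree - 1 + 1 = f.natDegree := by omega
  rw [e]
  have e2 : ((f.natDegree - 1 : ℕ) : L) + 1 = (f.natDegree : L) := by
    have : ((f.natDegree - 1 + 1 : ℕ) : L) = (f.natDegree : L) := by rw [e]
    push_cast at this
    exact this
  rw [e2, map_mul, hG.dd, mul_one]
  exact hG.lead

theorem near_crit (hG : Good Λ f b W J) {x : L} (hx : Λ.V x ≤ 1)
    (h : Λ.V (f.derivative.eval x) < 1) : ∃ c, f.derivative.eval c = 0 ∧ Λ.V (x - c) < 1 := by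
  by_contra hcon
  push Not at hcon
  rw [hG.spl.eval_eq_prod_roots, map_mul, lead_der hG, one_mul, map_multiset_prod] at h
  refine absurd h (not_lt.mpr ?_)
  refine Multiset.one_le_prod_of_one_le ?_
  intro y hy
  rw [Multiset.mem_map] at hy
  obtain ⟨z, hz, rfl⟩ := hy
  rw [Multiset.mem_map] at hz
  obtain ⟨c, hc, rfl⟩ := hz
  exact hcon c (isRoot_of_mem_roots hc)

theorem crit_int (hG : Good Λ f b W J) {c : L} (hc : f.derivative.eval c = 0) : Λ.V c ≤ 1 := by
  refine root_int (p := f.derivative) (der_coef_int hG.int) (lead_der hG) ?_ ?_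
  · rw [natDegree_der hG]
    have := hG.deg
    omega
  · rw [hc, map_zero]
    exact zero_le_one

theorem der2_unit (hG : Good Λ f b W J) {c : L} (hc : c ∈ W) :
    Λ.V (f.derivative.derivative.eval c) = 1 := by
  classical
  have hne : f.derivative ≠ 0 := by
    intro h0
    have := lead_der hG
    rw [h0, leadingCoeff_zero, map_zero] at this
    exact zero_ne_one this
  have hr : c ∈ f.derivative.roots := by
    rw [mem_roots hne]
    exact hG.Wroot c hc
  have h1 : f.derivative.derivative.eval c =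
      f.derivative.leadingCoeff * ((f.derivative.roots.erase c).map (c - ·)).prod := by
    conv_lhs => rw [hG.spl.eq_prod_roots]
    rw [derivative_C_mul, eval_C_mul, eval_multiset_prod_X_sub_C_derivative hr]
  have hs := hG.Wsimple c hc
  rw [h1] at hs ⊢
  rw [map_mul, lead_der hG, one_mul, map_multiset_prod, Multiset.map_map]
  refine Multiset.prod_eq_one ?_
  intro y hy
  rw [Multiset.mem_map] at hy
  obtain ⟨c', hc', rfl⟩ := hy
  simp only [Function.comp_apply]
  refine hG.G1 c c' (hG.Wroot c hc) (isRoot_of_mem_roots (Multiset.mem_of_mem_erase hc')) ?_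
  rintro rfl
  apply hs
  have : (0 : L) ∈ (f.derivative.roots.erase c).map (c - ·) := by
    rw [Multiset.mem_map]
    exact ⟨c, hc', sub_self c⟩
  rw [Multiset.prod_eq_zero this, mul_zero]

theorem crit_form (hG : Good Λ f b W J) {c : L} (hc : c ∈ W) :
    ∃ g : L[X], (∀ i, Λ.V (g.coeff i) ≤ 1) ∧ f = C (f.eval c) + (X - C c) ^ 2 * g ∧
      Λ.V (g.eval c) = 1 := by
  obtain ⟨q, hq⟩ := lift_int hG.int
  have hci : Λ.V c ≤ 1 := crit_int hG (hG.Wroot c hc)
  let c0 : Λ.V.integer := ⟨c, hci⟩
  have hc0 : (c0 : L) = c := rfl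
  obtain ⟨h0, hh0⟩ : (X - C c0) ∣ q - C (q.eval c0) := by
    rw [dvd_iff_isRoot]
    simp [IsRoot]
  have hder : h0.eval c0 = 0 := by
    have h1 : q.derivative.eval c0 = h0.eval c0 := by
      have := congrArg (fun r => (derivative r).eval c0) hh0
      simpa using this
    rw [← h1]
    apply Subtype.ext
    rw [← ev_lift q.derivative c0, ← derivative_map, hq, hc0]
    exact hG.Wroot c hc
  obtain ⟨g0, hg0⟩ : (X - C c0) ∣ h0 := by
    rw [dvd_iff_isRoot]
    exact hder
  have hform : f = C (f.eval c) + (X - C c) ^ 2 * g0.map Λ.V.integer.subtype := by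
    have e1 : q = C (q.eval c0) + (X - C c0) ^ 2 * g0 := by
      rw [hg0] at hh0
      linear_combination hh0
    have e2 := congrArg (Polynomial.map Λ.V.integer.subtype) e1
    rw [hq] at e2
    rw [Polynomial.map_add, Polynomial.map_mul, Polynomial.map_pow, Polynomial.map_sub, map_X,
      map_C, map_C] at e2
    have e3 : f.eval c = Λ.V.integer.subtype (q.eval c0) := by
      rw [← hq]
      exact ev_lift q c0
    rw [e3]
    exact e2
  refine ⟨g0.map Λ.V.integer.subtype, ?_, hform, ?_⟩
  · intro i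
    rw [coeff_map]
    exact (g0.coeff i).2
  · set g := g0.map Λ.V.integer.subtype with hg
    have h2 : f.derivative.derivative.eval c = 2 * g.eval c := by
      rw [hform]
      simp [derivative_mul, derivative_pow]
    have h3 := der2_unit hG hc
    rw [h2, map_mul, hG.two, one_mul] at h3
    exact h3

theorem noncrit (hG : Good Λ f b W J) {x y : L} (hx : Λ.V x ≤ 1) (hy : Λ.V y ≤ 1)
    (hxy : Λ.V (x - y) < 1) (h : Λ.V (f.derivative.eval y) = 1) :
    Λ.V (f.eval x - f.eval y) = Λ.V (x - y) := by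
  obtain ⟨ρ, hρ, he⟩ := eval_sub hG.int hx hy
  rw [he, map_mul]
  have h1 : Λ.V ((x - y) * ρ) < Λ.V (f.derivative.eval y) := by
    rw [h, map_mul]
    calc Λ.V (x - y) * Λ.V ρ ≤ Λ.V (x - y) * 1 := mul_le_mul_right hρ _
      _ = Λ.V (x - y) := mul_one _
      _ < 1 := hxy
  rw [Valuation.map_add_eq_of_lt_left _ h1, h, mul_one]

theorem crit_diff (hG : Good Λ f b W J) {c : L} (hc : c ∈ W) {x x' : L}
    (hx : Λ.V (x - c) < 1) (hx' : Λ.V (x' - c) < 1) :
    ∃ u h, Λ.V u = 1 ∧ Λ.V h ≤ 1 ∧
      f.eval x - f.eval x' = (x - x') * ((x + x' - 2 * c) * u + (x' - c) ^ 2 * h) := by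
  obtain ⟨g, hgi, hform, hgc⟩ := crit_form hG hc
  have hci : Λ.V c ≤ 1 := crit_int hG (hG.Wroot c hc)
  have hxi : Λ.V x ≤ 1 := by
    have : x = (x - c) + c := by ring
    rw [this]
    exact Valuation.map_add_le _ hx.le hci
  have hxi' : Λ.V x' ≤ 1 := by
    have : x' = (x' - c) + c := by ring
    rw [this]
    exact Valuation.map_add_le _ hx'.le hci
  have hu : Λ.V (g.eval x) = 1 := by
    have h1 : Λ.V (g.eval x - g.eval c) < Λ.V (g.eval c) := by
      rw [hgc]
      exact lt_of_le_of_lt (eval_sub_le hgi hxi hci) hx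
    have : g.eval x = g.eval c + (g.eval x - g.eval c) := by ring
    rw [this, Valuation.map_add_eq_of_lt_left _ h1, hgc]
  obtain ⟨ρ, hρ, he⟩ := eval_sub hgi hxi hxi'
  refine ⟨g.eval x, g.derivative.eval x' + (x - x') * ρ, hu, ?_, ?_⟩
  · refine Valuation.map_add_le _ (eval_int (der_coef_int hgi) hxi') ?_
    rw [map_mul]
    exact mul_le_one' (Valuation.map_sub_le _ hxi hxi') hρ
  · have e1 : f.eval x = f.eval c + (x - c) ^ 2 * g.eval x := by
      conv_lhs => rw [hform]
      simp
    have e2 : f.eval x' = f.eval c + (x' - c) ^ 2 * g.eval x' := by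
      conv_lhs => rw [hform]
      simp
    rw [e1, e2]
    linear_combination ((x' - c) ^ 2) * he

theorem crit_sub_le (hG : Good Λ f b W J) {c : L} (hc : c ∈ W) {x x' : L}
    (hx : Λ.V (x - c) < 1) (hx' : Λ.V (x' - c) < 1) :
    Λ.V (f.eval x - f.eval x') ≤ Λ.V (x - x') * max (Λ.V (x - c)) (Λ.V (x' - c)) := by
  obtain ⟨u, h, hu, hh, he⟩ := crit_diff hG hc hx hx'
  rw [he, map_mul]
  refine mul_le_mul_right ?_ _
  refine Valuation.map_add_le _ ?_ ?_
  · rw [map_mul, hu, mul_one]
    have : x + x' - 2 * c = (x - c) + (x' - c) := by ring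
    rw [this]
    exact Valuation.map_add _ _ _
  · rw [map_mul, map_pow]
    calc Λ.V (x' - c) ^ 2 * Λ.V h ≤ Λ.V (x' - c) ^ 2 * 1 := mul_le_mul_right hh _
      _ = Λ.V (x' - c) * Λ.V (x' - c) := by rw [mul_one, sq]
      _ ≤ Λ.V (x' - c) * 1 := mul_le_mul_right hx'.le _
      _ = Λ.V (x' - c) := mul_one _
      _ ≤ _ := le_max_right _ _

theorem crit_pair (hG : Good Λ f b W J) {c : L} (hc : c ∈ W) {x x' : L}
    (hx : Λ.V (x - c) < 1) (hx' : Λ.V (x' - c) < 1) (he : f.eval x = f.eval x') (hne : x ≠ x') :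
    Λ.V (x + x' - 2 * c) ≤ Λ.V (x' - c) ^ 2 := by
  obtain ⟨u, h, hu, hh, hd⟩ := crit_diff hG hc hx hx'
  rw [he, sub_self] at hd
  have h0 : (x + x' - 2 * c) * u + (x' - c) ^ 2 * h = 0 := by
    rcases mul_eq_zero.mp hd.symm with h1 | h1
    · exact absurd (sub_eq_zero.mp h1) hne
    · exact h1
  have h1 : (x + x' - 2 * c) * u = -((x' - c) ^ 2 * h) := by linear_combination h0
  have h2 := congrArg Λ.V h1
  rw [map_mul, hu, mul_one, Valuation.map_neg, map_mul, map_pow] at h2
  rw [h2]
  calc Λ.V (x' - c) ^ 2 * Λ.V h ≤ Λ.V (x' - c) ^ 2 * 1 := mul_le_mul_right hh _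
    _ = Λ.V (x' - c) ^ 2 := mul_one _

theorem crit_dbl (hG : Good Λ f b W J) {c : L} (hc : c ∈ W) {x : L} (hx : Λ.V (x - c) < 1) :
    Λ.V (f.eval x - f.eval c) = Λ.V (x - c) ^ 2 := by
  have hcc : Λ.V (c - c) < 1 := by
    rw [sub_self, map_zero]
    exact zero_lt_one
  obtain ⟨u, h, hu, hh, hd⟩ := crit_diff hG hc hx hcc
  have : f.eval x - f.eval c = (x - c) ^ 2 * u := by
    rw [hd]; ring
  rw [this, map_mul, hu, mul_one, map_pow]

theorem eval_smul_of_fix {p : L[X]} {g : G} (hp : ∀ i, g • p.coeff i = p.coeff i) (x : L) :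
    p.eval (g • x) = g • p.eval x := by
  rw [eval_eq_sum_range, eval_eq_sum_range, Finset.smul_sum]
  refine Finset.sum_congr rfl fun i _ => ?_
  rw [smul_mul', smul_pow', hp]

theorem crit_fixed (hG : Good Λ f b W J) {c : L} (hc : f.derivative.eval c = 0) {g : G}
    (hg : g ∈ Λ.I) : g • c = c := by
  by_contra hne
  have hfix : ∀ i, g • f.derivative.coeff i = f.derivative.coeff i := by
    intro i
    rw [coeff_derivative, smul_mul', hG.coef]
    congr 1
    have := map_natCast (MulSemiringAction.toRingHom G L g) (i + 1)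
    rw [MulSemiringAction.toRingHom_apply] at this
    push_cast at this
    exact this
  have h0 : f.derivative.eval (g • c) = 0 := by
    rw [eval_smul_of_fix hfix, hc, smul_zero]
  have h1 := hG.G1 (g • c) c h0 hc hne
  have h2 := Λ.inert g hg c (crit_int hG hc)
  rw [h1] at h2
  exact lt_irrefl _ h2

theorem ev_smul (hG : Good Λ f b W J) (g : G) (x : L) : ev f (g • x) = g • ev f x :=
  eval_smul_of_fix (fun i => hG.coef g i) x

end Pool.Agent.H42.PC
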