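/-
Row DPl (about 190 lines): the place of a good valuation. Residues are open balls of radius 1.

 ball x := {z | V (z - x) < 1}; ball x = ball y iff V (x - y) < 1 (ultrametric). FRm B := {z | ∃ x ∈ B, V (z - f x) < 1}.
 FR_ball : x integral: FRm (ball x) = ball (f x): x' ∈ ball x is integral and V (f x' - f x) ≤ V (x' - x) < 1 (eval_sub_le).
 lev_int : x ∈ lev (ev f) b t is integral: induction on t, root_int (f x = parent integral; 1 ≤ natDegree).
 red of iterates: FRm^[i] (ball c) = ball ((ev f)^[i] c) for c integral (iterates stay integral by eval_int).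
 PLACE. R := Set L, red := ball, A := ball '' W, hA: (W image).ncard ≤ W.card ≤ s. hred: FR_ball. hI: inert. 
 hone: x x' ∈ lev (t+1), f x = f x', ball x = ball x', x ≠ x'. eval_sub: 0 = (x - x')(f'(x') + (x - x') ρ), so V (f'(x')) < 1, near_crit: a critical point c with V (x' - c) < 1. If c ∈ W then ball x = ball c ∈ A, contradiction. If c ∉ W: f^{t+1}(x') = b and
   V (f^{t+1} c - f^{t+1} x') < 1 (iterate eval_sub_le) contradict G3. So x = x'.
 htwo: x1 x2 x3 as given, suppose pairwise distinct. As above there is c ∈ W with V (xi - c) < 1 for all i (they have the same ball). crit_pair: V (x1 + x2 - 2c) ≤ V (x2 - c)^2, V (x1 + x3 - 2c) ≤ V (x3 - c)^2, V (x2 + x3 - 2c) ≤ V (x3 - c)^2. Let ν be the maximum of V (xi - c): ν < 1.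
   2 (x1 - c) = (x1 + x2 - 2c) + (x1 + x3 - 2c) - (x2 + x3 - 2c), so V (x1 - c) ≤ ν^2 (V 2 = 1), similarly for x2, x3. So ν ≤ ν^2, and ν < 1 gives ν = 0: all xi = c, contradiction.
 hJ: r = ball c, r' = ball c', iterates: V (f^i c - f^j c') < 1, G2.
 near_wand : x ∈ lev (t), V (x - c) < 1 with c critical implies c ∈ W (G3 as above).
 der_unit : x ∈ lev t with ball x ∉ A (for the place) implies V (f'(x)) = 1: V ≤ 1 (eval_int), and if < 1 then near_crit, near_wand give ball x ∈ A.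
-/
import Pool.Agent.H42.PC.DPol

set_option autoImplicit false

namespace Pool.Agent.H42.PC

open Polynomial WithZero

variable {G L : Type} [Group G] [Field L] [MulSemiringAction G L] {Λ : Loc G L} {f : L[X]}
  {b : L} {W : Finset L} {J : ℕ}

/-- open ball of radius one -/
def ball (Λ : Loc G L) (x : L) : Set L := {z | Λ.V (z - x) < 1}

/-- the reduced map on balls -/
def FRm (Λ : Loc G L) (f : L[X]) (B : Set L) : Set L := {z | ∃ x ∈ B, Λ.V (z - ev f x) < 1}

theorem ball_eq {x y : L} : ball Λ x = ball Λ y ↔ Λ.V (x - y) < 1 := by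
  constructor
  · intro h
    have h1 : x ∈ ball Λ x := by
      change Λ.V (x - x) < 1
      rw [sub_self, map_zero]
      exact zero_lt_one
    rw [h] at h1
    exact h1
  · intro h
    have h' : Λ.V (y - x) < 1 := by rwa [Valuation.map_sub_swap]
    ext z
    constructor
    · intro hz
      have hz' : Λ.V (z - x) < 1 := hz
      change Λ.V (z - y) < 1
      rw [show z - y = (z - x) + (x - y) by ring]
      exact Λ.V.map_add_lt hz' h
    · intro hz
      have hz' : Λ.V (z - y) < 1 := hz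
      change Λ.V (z - x) < 1
      rw [show z - x = (z - y) + (y - x) by ring]
      exact Λ.V.map_add_lt hz' h'

theorem int_of_near {x y : L} (hx : Λ.V x ≤ 1) (h : Λ.V (y - x) < 1) : Λ.V y ≤ 1 := by
  rw [show y = (y - x) + x by ring]
  exact Λ.V.map_add_le h.le hx

theorem FR_ball (hG : Good Λ f b W J) {x : L} (hx : Λ.V x ≤ 1) :
    FRm Λ f (ball Λ x) = ball Λ (ev f x) := by
  ext z
  constructor
  · rintro ⟨x', hx', hz⟩
    have hx'' : Λ.V (x' - x) < 1 := hx'
    change Λ.V (z - ev f x) < 1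
    rw [show z - ev f x = (z - ev f x') + (ev f x' - ev f x) by ring]
    refine Λ.V.map_add_lt hz (lt_of_le_of_lt ?_ hx'')
    exact eval_sub_le hG.int (int_of_near hx hx'') hx
  · intro hz
    refine ⟨x, ?_, hz⟩
    change Λ.V (x - x) < 1
    rw [sub_self, map_zero]
    exact zero_lt_one

theorem iter_int (hG : Good Λ f b W J) {x : L} (hx : Λ.V x ≤ 1) (i : ℕ) :
    Λ.V ((ev f)^[i] x) ≤ 1 := by
  induction i with
  | zero => exact hx
  | succ i ih =>
    rw [Function.iterate_succ_apply']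
    exact eval_int hG.int ih

theorem FR_iter (hG : Good Λ f b W J) {x : L} (hx : Λ.V x ≤ 1) (i : ℕ) :
    (FRm Λ f)^[i] (ball Λ x) = ball Λ ((ev f)^[i] x) := by
  induction i with
  | zero => rfl
  | succ i ih =>
    rw [Function.iterate_succ_apply', Function.iterate_succ_apply', ih, FR_ball hG (iter_int hG hx i)]

theorem iter_sub (hG : Good Λ f b W J) {x y : L} (hx : Λ.V x ≤ 1) (hy : Λ.V y ≤ 1) (i : ℕ) :
    Λ.V ((ev f)^[i] x - (ev f)^[i] y) ≤ Λ.V (x - y) := by
  induction i with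
  | zero => exact le_rfl
  | succ i ih =>
    rw [Function.iterate_succ_apply', Function.iterate_succ_apply']
    exact (eval_sub_le hG.int (iter_int hG hx i) (iter_int hG hy i)).trans ih

theorem lev_int (hG : Good Λ f b W J) {t : ℕ} {x : L} (hx : x ∈ lev (ev f) b t) :
    Λ.V x ≤ 1 := by
  induction t generalizing x with
  | zero =>
    have h : x = b := hx
    rw [h]
    exact hG.bint
  | succ t ih =>
    have h : ev f x ∈ lev (ev f) b t := by
      have h1 : (ev f)^[t + 1] x = b := hx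
      rw [Function.iterate_succ_apply] at h1
      exact h1
    exact root_int hG.int hG.lead (le_trans (by norm_num) hG.deg) (ih h)

theorem near_wand (hG : Good Λ f b W J) {t : ℕ} {x : L} (hx : x ∈ lev (ev f) b t) {c : L}
    (hc : f.derivative.eval c = 0) (h : Λ.V (x - c) < 1) : c ∈ W := by
  by_contra hcW
  have h1 := hG.G3 c hc hcW t
  have h2 := iter_sub hG (lev_int hG hx) (crit_int hG hc) t
  have h3 : (ev f)^[t] x = b := hx
  rw [h3] at h2
  apply h1
  rw [Valuation.map_sub_swap]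
  exact lt_of_le_of_lt h2 h

/-- two different points over the same point with the same residue are near a critical point -/
theorem pair_crit (hG : Good Λ f b W J) {t : ℕ} {x x' : L} (hx : x ∈ lev (ev f) b t)
    (hx' : x' ∈ lev (ev f) b t) (he : ev f x = ev f x') (hb : ball Λ x = ball Λ x')
    (hne : x ≠ x') : ∃ c ∈ W, Λ.V (x - c) < 1 ∧ Λ.V (x' - c) < 1 := by
  obtain ⟨ρ, hρ, h1⟩ := eval_sub hG.int (lev_int hG hx) (lev_int hG hx')
  have h2 : Λ.V (x - x') < 1 := ball_eq.1 hb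
  have h3 : f.eval x - f.eval x' = 0 := sub_eq_zero.2 he
  rw [h3] at h1
  have h4 : f.derivative.eval x' + (x - x') * ρ = 0 := by
    rcases mul_eq_zero.1 h1.symm with h5 | h5
    · exact absurd (sub_eq_zero.1 h5) hne
    · exact h5
  have h5 : f.derivative.eval x' = -((x - x') * ρ) := eq_neg_of_add_eq_zero_left h4
  have h6 : Λ.V (f.derivative.eval x') < 1 := by
    rw [h5, Valuation.map_neg, map_mul]
    exact lt_of_le_of_lt (mul_le_of_le_one_right' hρ) h2
  obtain ⟨c, hc, hxc⟩ := near_crit hG (lev_int hG hx') h6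
  refine ⟨c, near_wand hG hx' hc hxc, ?_, hxc⟩
  rw [show x - c = (x - x') + (x' - c) by ring]
  exact Λ.V.map_add_lt h2 hxc

theorem two_mul_val (hG : Good Λ f b W J) (y : L) : Λ.V (2 * y) = Λ.V y := by
  rw [map_mul, hG.two, one_mul]

/-- three points near a critical point over the same point are not distinct -/
theorem three_crit (hG : Good Λ f b W J) {c x₁ x₂ x₃ : L} (hc : c ∈ W) (h1 : Λ.V (x₁ - c) < 1)
    (h2 : Λ.V (x₂ - c) < 1) (h3 : Λ.V (x₃ - c) < 1) (h12 : f.eval x₁ = f.eval x₂)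
    (h13 : f.eval x₁ = f.eval x₃) (h23 : f.eval x₂ = f.eval x₃) (n12 : x₁ ≠ x₂) (n13 : x₁ ≠ x₃)
    (n23 : x₂ ≠ x₃) : False := by
  set ν := max (Λ.V (x₁ - c)) (max (Λ.V (x₂ - c)) (Λ.V (x₃ - c))) with hν
  have v1 : Λ.V (x₁ - c) ≤ ν := le_max_left _ _
  have v2 : Λ.V (x₂ - c) ≤ ν := (le_max_left _ _).trans (le_max_right _ _)
  have v3 : Λ.V (x₃ - c) ≤ ν := (le_max_right _ _).trans (le_max_right _ _)
  have hν1 : ν < 1 := max_lt h1 (max_lt h2 h3)
  have p12 : Λ.V (x₁ + x₂ - 2 * c) ≤ ν ^ 2 :=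
    (crit_pair hG hc h1 h2 h12 n12).trans (pow_le_pow_left' v2 2)
  have p13 : Λ.V (x₁ + x₃ - 2 * c) ≤ ν ^ 2 :=
    (crit_pair hG hc h1 h3 h13 n13).trans (pow_le_pow_left' v3 2)
  have p23 : Λ.V (x₂ + x₃ - 2 * c) ≤ ν ^ 2 :=
    (crit_pair hG hc h2 h3 h23 n23).trans (pow_le_pow_left' v3 2)
  have q1 : Λ.V (x₁ - c) ≤ ν ^ 2 := by
    rw [← two_mul_val hG, show 2 * (x₁ - c) =
      ((x₁ + x₂ - 2 * c) + (x₁ + x₃ - 2 * c)) - (x₂ + x₃ - 2 * c) by ring]
    exact Λ.V.map_sub_le (Λ.V.map_add_le p12 p13) p23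
  have q2 : Λ.V (x₂ - c) ≤ ν ^ 2 := by
    rw [← two_mul_val hG, show 2 * (x₂ - c) =
      ((x₁ + x₂ - 2 * c) + (x₂ + x₃ - 2 * c)) - (x₁ + x₃ - 2 * c) by ring]
    exact Λ.V.map_sub_le (Λ.V.map_add_le p12 p23) p13
  have q3 : Λ.V (x₃ - c) ≤ ν ^ 2 := by
    rw [← two_mul_val hG, show 2 * (x₃ - c) =
      ((x₁ + x₃ - 2 * c) + (x₂ + x₃ - 2 * c)) - (x₁ + x₂ - 2 * c) by ring]
    exact Λ.V.map_sub_le (Λ.V.map_add_le p13 p23) p12
  have q : ν ≤ ν ^ 2 := max_le q1 (max_le q2 q3)
  have hν0 : ν = 0 := by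
    by_contra h0
    have h0' : 0 < ν := zero_lt_iff.2 h0
    have h4 : ν ^ 2 < ν := by
      rw [sq]
      calc ν * ν < ν * 1 := mul_lt_mul_of_pos_left hν1 h0'
        _ = ν := mul_one ν
    exact absurd (lt_of_le_of_lt q h4) (lt_irrefl _)
  have z1 : x₁ = c := by
    have : Λ.V (x₁ - c) = 0 := le_antisymm (hν0 ▸ v1) zero_le
    exact sub_eq_zero.1 ((map_eq_zero Λ.V).1 this)
  have z2 : x₂ = c := by
    have : Λ.V (x₂ - c) = 0 := le_antisymm (hν0 ▸ v2) zero_le
    exact sub_eq_zero.1 ((map_eq_zero Λ.V).1 this)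
  exact n12 (z1.trans z2.symm)

/-- The place of a good valuation. -/
def mkPlace (hG : Good Λ f b W J) (s N : ℕ) (hs : W.card ≤ s) : Place G (ev f) b s J N where
  R := Set L
  FR := FRm Λ f
  red := ball Λ
  I := Λ.I
  A := (ball Λ) '' W
  hAfin := W.finite_toSet.image _
  hA := by
    refine (Set.ncard_image_le W.finite_toSet).trans ?_
    rw [Set.ncard_coe_finset]
    exact hs
  hred := by
    intro t _ x hx
    exact (FR_ball hG (lev_int hG hx)).symm
  hI := by
    intro g hg t _ x hx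
    exact ball_eq.2 (Λ.inert g hg x (lev_int hG hx))
  hone := by
    intro t _ x hx x' hx' he hr hA
    by_contra hne
    obtain ⟨c, hc, h1, _⟩ := pair_crit hG hx hx' he hr hne
    exact hA ⟨c, hc, (ball_eq.2 h1).symm⟩
  htwo := by
    intro t _ x₁ hx₁ x₂ hx₂ x₃ hx₃ h12 h23 r12 r23
    by_contra hne
    push Not at hne
    obtain ⟨n12, n13, n23⟩ := hne
    obtain ⟨c, hc, h1, h2⟩ := pair_crit hG hx₁ hx₂ h12 r12 n12
    have h3 : Λ.V (x₃ - c) < 1 := by
      have h4 : Λ.V (x₃ - x₂) < 1 := ball_eq.1 r23.symm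
      rw [show x₃ - c = (x₃ - x₂) + (x₂ - c) by ring]
      exact Λ.V.map_add_lt h4 h2
    exact three_crit hG hc h1 h2 h3 h12 (h12.trans h23) h23 n12 n13 n23
  hJ := by
    rintro r ⟨c, hc, rfl⟩ r' ⟨c', hc', rfl⟩ i hi j hj h
    have ic : Λ.V c ≤ 1 := crit_int hG (hG.Wroot c hc)
    have ic' : Λ.V c' ≤ 1 := crit_int hG (hG.Wroot c' hc')
    rw [FR_iter hG ic, FR_iter hG ic'] at h
    obtain ⟨h1, h2⟩ := hG.G2 c hc c' hc' i hi j hj (ball_eq.1 h)
    exact ⟨by rw [h1], h2⟩

theorem nat_val (V : Valuation L ℤᵐ⁰) (n : ℕ) : V (n : L) ≤ 1 := by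
  induction n with
  | zero => simp
  | succ n ih =>
    rw [Nat.cast_succ]
    exact V.map_add_le ih (by rw [map_one])

theorem der_unit (hG : Good Λ f b W J) {t : ℕ} {x : L} (hx : x ∈ lev (ev f) b t)
    (h : ball Λ x ∉ (ball Λ) '' (W : Set L)) : Λ.V (f.derivative.eval x) = 1 := by
  have h1 : Λ.V (f.derivative.eval x) ≤ 1 := by
    refine eval_int (fun i => ?_) (lev_int hG hx)
    rw [coeff_derivative, map_mul]
    refine mul_le_one' (hG.int _) ?_
    have := nat_val Λ.V (i + 1)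
    rwa [Nat.cast_succ] at this
  rcases h1.lt_or_eq with h2 | h2
  · exfalso
    obtain ⟨c, hc, hxc⟩ := near_crit hG (lev_int hG hx) h2
    exact h ⟨c, near_wand hG hx hc hxc, (ball_eq.2 hxc).symm⟩
  · exact h2

end Pool.Agent.H42.PC
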