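import Mathlib

/-! Backward trees with a group action, and places (inertia group with a residue map) -/

set_option autoImplicit false

namespace Pool.Agent.H42.PC

/-- Level `t` of the backward tree of `b` under `F`. -/
def lev {Ω : Type} (F : Ω → Ω) (b : Ω) (t : ℕ) : Set Ω := {x | F^[t] x = b}

/-- The group `G` acts on the backward tree of `b` of height `N`, all fibres have `d` points. -/
structure Tree (G : Type) {Ω : Type} [Group G] [MulAction G Ω] (F : Ω → Ω) (b : Ω) (d N : ℕ) :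
    Prop where
  equiv : ∀ (g : G) (x : Ω), F (g • x) = g • F x
  fix : ∀ g : G, g • b = b
  aper : ∀ t, 1 ≤ t → F^[t] b ≠ b
  fin : ∀ t, t < N → ∀ x ∈ lev F b t, {z | F z = x}.Finite
  fib : ∀ t, t < N → ∀ x ∈ lev F b t, {z | F z = x}.ncard = d

/-- `O t` (`t ≤ N`) is one orbit of level `t`, and `O (t+1)` consists of all points above `O t`
as soon as `n0 ≤ t`. -/
structure Orb (G : Type) {Ω : Type} [Group G] [MulAction G Ω] (F : Ω → Ω) (b : Ω) (n0 N : ℕ)
    (O : ℕ → Set Ω) : Prop where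
  sub : ∀ t ≤ N, O t ⊆ lev F b t
  ne : ∀ t ≤ N, (O t).Nonempty
  inv : ∀ t ≤ N, ∀ g : G, ∀ x ∈ O t, g • x ∈ O t
  trans : ∀ t ≤ N, ∀ x ∈ O t, ∀ y ∈ O t, ∃ g : G, g • x = y
  par : ∀ t < N, ∀ x ∈ O (t + 1), F x ∈ O t
  full : ∀ t, n0 ≤ t → t < N → ∀ x, F x ∈ O t → x ∈ O (t + 1)

/-- A place: inertia group `I`, residue map `red`, set `A` of critical residues. -/
structure Place (G : Type) {Ω : Type} [Group G] [MulAction G Ω] (F : Ω → Ω) (b : Ω)
    (s J N : ℕ) where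
  /-- residues -/
  R : Type
  /-- the reduced map -/
  FR : R → R
  /-- the residue map -/
  red : Ω → R
  /-- the inertia group -/
  I : Subgroup G
  /-- the critical residues -/
  A : Set R
  hAfin : A.Finite
  hA : A.ncard ≤ s
  hred : ∀ t < N, ∀ x ∈ lev F b (t + 1), red (F x) = FR (red x)
  hI : ∀ g ∈ I, ∀ t ≤ N, ∀ x ∈ lev F b t, red (g • x) = red x
  hone : ∀ t < N, ∀ x ∈ lev F b (t + 1), ∀ x' ∈ lev F b (t + 1), F x = F x' → red x = red x' →
    red x ∉ A → x = x'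
  htwo : ∀ t < N, ∀ x₁ ∈ lev F b (t + 1), ∀ x₂ ∈ lev F b (t + 1), ∀ x₃ ∈ lev F b (t + 1),
    F x₁ = F x₂ → F x₂ = F x₃ → red x₁ = red x₂ → red x₂ = red x₃ → x₁ = x₂ ∨ x₁ = x₃ ∨ x₂ = x₃
  hJ : ∀ r ∈ A, ∀ r' ∈ A, ∀ i ≤ J, ∀ j ≤ J, FR^[i] r = FR^[j] r' → r = r' ∧ i = j

namespace Place

variable {G Ω : Type} [Group G] [MulAction G Ω] {F : Ω → Ω} {b : Ω} {s J N : ℕ}

/-- The stabiliser of a point in the inertia group. -/
def st (P : Place G F b s J N) (x : Ω) : Subgroup G := P.I ⊓ MulAction.stabilizer G x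

/-- The residue of `x` lies on the forward orbit of the residue of `b`. -/
def OnC (P : Place G F b s J N) (x : Ω) : Prop := ∃ k : ℕ, P.red x = P.FR^[k] (P.red b)

end Place

/-- A place at which `b` is periodic: `n` is a period of the residue of `b`, and from level `t0`
on every critical pair on the cycle is moved by the stabiliser of its parent in the inertia
group. -/
structure Cyc {G Ω : Type} [Group G] [MulAction G Ω] {F : Ω → Ω} {b : Ω} {s J N : ℕ}
    (P : Place G F b s J N) (n t0 : ℕ) : Prop where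
  hn : 1 ≤ n
  hb : P.red b ∈ P.A
  hcyc : P.FR^[n] (P.red b) = P.red b
  hex : ∀ t < N, ∀ w ∈ lev F b t, P.OnC w → ∃ x, F x = w ∧ P.OnC x
  hdig : ∀ m, t0 ≤ m → m < N → ∀ w ∈ lev F b m, P.OnC w → ∀ x, F x = w → P.OnC x → P.red x ∈ P.A →
    ∃ g ∈ P.I, g • w = w ∧ g • x ≠ x

/-- All points of the tree on the cycle lie in `O`. -/
def InO {G Ω : Type} [Group G] [MulAction G Ω] {F : Ω → Ω} {b : Ω} {s J N : ℕ}
    (P : Place G F b s J N) (O : ℕ → Set Ω) : Prop :=
  ∀ t ≤ N, ∀ x ∈ lev F b t, P.OnC x → x ∈ O t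

/-- The proportion of elements of `G` fixing a point of `O t`. -/
noncomputable def q (G : Type) {Ω : Type} [Group G] [MulAction G Ω] (O : ℕ → Set Ω) (t : ℕ) : ℝ :=
  (Nat.card {g : G // ∃ x ∈ O t, g • x = x} : ℝ) / Nat.card G

end Pool.Agent.H42.PC
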