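/-
Row GBas (about 130 lines): basic facts on levels, orbits and counting.

 lev_iter   : F^[t - j] (F^[j] x) = F^[t] x  (Function.iterate_add_apply, Nat.sub_add_cancel).
 lev_up     : the same identity.
 lev_uniq   : if t < t' then F^[t'] x = F^[t' - t] (F^[t] x) = F^[t' - t] b = b contradicts aper (t' - t ≥ 1); symmetric case the same.
 iter_smul  : induction on j with equiv.
 smul_lev   : iter_smul and fix.
 lev_fin    : induction on t: lev (t+1) = ⋃_{x ∈ lev t} {z | F z = x}, finite by fin (t < N); lev 0 = {b}.
 orb_iter   : induction on j, par (F^[j+1] x = F (F^[j] x), F^[j] x ∈ O (t - j) and t - j = (t - (j+1)) + 1).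
 orb_up     : induction on j generalizing x: F^[j+1] x = F^[j] (F x), so F x ∈ O (t + j) by induction and x ∈ O (t + j + 1) by full.
 orb_succ   : O (t+1) = ⋃_{x ∈ O t} {z | F z = x} (⊆: par; ⊇: full), a disjoint union of sets with d elements (fib; O t ⊆ lev t), O t finite (lev_fin).
              E.g. Set.ncard via Finset.card_eq_sum_card_fiberwise or Set.encard / Finset.card_biUnion.
 orb_add    : induction on j.
 transport  : fix x y ∈ O t; the map G → O t, g ↦ g • x; all fibres {g | g • x = z} (z ∈ O t) have the same cardinality: choose h with h • z = y,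
              g ↦ h * g is a bijection onto {g | g • x = y}. The fibres partition G, there are (O t).ncard of them.
 diverge    : two different points u y of O l: P m := F^[l - m] u = F^[l - m] y holds for m = 0 (both are b) and fails for m = l;
              Nat.find on the failure gives m + 1 minimal with failure.
-/
import Pool.Agent.H42.PC.GDefs

set_option autoImplicit false

namespace Pool.Agent.H42.PC

variable {G Ω : Type} [Group G] [MulAction G Ω] {F : Ω → Ω} {b : Ω} {d N n0 : ℕ} {O : ℕ → Set Ω}

theorem lev_iter {t j : ℕ} {x : Ω} (hx : x ∈ lev F b t) (hj : j ≤ t) :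
    F^[j] x ∈ lev F b (t - j) := by
  show F^[t - j] (F^[j] x) = b
  rw [← Function.iterate_add_apply, Nat.sub_add_cancel hj]
  exact hx

theorem lev_up {t j : ℕ} {x : Ω} (hx : F^[j] x ∈ lev F b t) : x ∈ lev F b (t + j) := by
  show F^[t + j] x = b
  rw [Function.iterate_add_apply]
  exact hx

theorem lev_uniq (hT : Tree G F b d N) {t t' : ℕ} {x : Ω} (h : x ∈ lev F b t)
    (h' : x ∈ lev F b t') : t = t' := by
  have key : ∀ {a c : ℕ}, x ∈ lev F b a → x ∈ lev F b c → a < c → False := by
    intro a c ha hc hac
    have h1 : F^[c - a] (F^[a] x) = b := by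
      rw [← Function.iterate_add_apply, Nat.sub_add_cancel hac.le]
      exact hc
    have h2 : F^[a] x = b := ha
    rw [h2] at h1
    exact hT.aper (c - a) (by omega) h1
  rcases lt_trichotomy t t' with h1 | h1 | h1
  · exact (key h h' h1).elim
  · exact h1
  · exact (key h' h h1).elim

theorem iter_smul (hT : Tree G F b d N) (g : G) (x : Ω) (j : ℕ) :
    F^[j] (g • x) = g • F^[j] x := by
  induction j with
  | zero => rfl
  | succ j ih => rw [Function.iterate_succ_apply', ih, hT.equiv, Function.iterate_succ_apply']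

theorem smul_lev (hT : Tree G F b d N) (g : G) {t : ℕ} {x : Ω} (hx : x ∈ lev F b t) :
    g • x ∈ lev F b t := by
  show F^[t] (g • x) = b
  rw [iter_smul hT, show F^[t] x = b from hx, hT.fix]

theorem lev_fin (hT : Tree G F b d N) {t : ℕ} (ht : t ≤ N) : (lev F b t).Finite := by
  induction t with
  | zero =>
    have : lev F b 0 = {b} := by
      ext x
      rfl
    rw [this]
    exact Set.finite_singleton b
  | succ t ih =>
    have h1 : lev F b (t + 1) = ⋃ x ∈ lev F b t, {z | F z = x} := by
      ext z
      simp only [Set.mem_iUnion, Set.mem_ofPred_eq, exists_prop]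
      constructor
      · intro hz
        exact ⟨F z, by
          have := lev_iter (j := 1) hz (by omega)
          simpa using this, rfl⟩
      · rintro ⟨x, hx, rfl⟩
        exact lev_up (j := 1) (by simpa using hx)
    rw [h1]
    exact (ih (by omega)).biUnion fun x hx => hT.fin t (by omega) x hx

theorem orb_iter (hO : Orb G F b n0 N O) {t j : ℕ} (hj : j ≤ t) (ht : t ≤ N) {x : Ω}
    (hx : x ∈ O t) : F^[j] x ∈ O (t - j) := by
  induction j with
  | zero => exact hx
  | succ j ih =>
    rw [Function.iterate_succ_apply']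
    have h1 := ih (by omega)
    have h2 : t - j = (t - (j + 1)) + 1 := by omega
    rw [h2] at h1
    exact hO.par (t - (j + 1)) (by omega) _ h1

theorem orb_up (hO : Orb G F b n0 N O) {t j : ℕ} (h0 : n0 ≤ t) (ht : t + j ≤ N) {x : Ω}
    (hx : F^[j] x ∈ O t) : x ∈ O (t + j) := by
  induction j generalizing x with
  | zero => exact hx
  | succ j ih =>
    rw [Function.iterate_succ_apply] at hx
    have h1 := ih (by omega) hx
    exact hO.full (t + j) (by omega) (by omega) x h1

theorem orb_succ (hT : Tree G F b d N) (hO : Orb G F b n0 N O) {t : ℕ} (h0 : n0 ≤ t)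
    (ht : t < N) : (O (t + 1)).ncard = d * (O t).ncard := by
  classical
  have hfin : (O t).Finite := (lev_fin hT ht.le).subset (hO.sub t ht.le)
  have hfin1 : (O (t + 1)).Finite := (lev_fin hT ht).subset (hO.sub (t + 1) ht)
  rw [Set.ncard_eq_toFinset_card _ hfin1, Set.ncard_eq_toFinset_card _ hfin, mul_comm]
  have hmap : ∀ x ∈ hfin1.toFinset, F x ∈ hfin.toFinset := by
    intro x hx
    rw [Set.Finite.mem_toFinset] at hx ⊢
    exact hO.par t ht x hx
  rw [Finset.card_eq_sum_card_fiberwise hmap]
  have hc : ∀ y ∈ hfin.toFinset, (hfin1.toFinset.filter fun x => F x = y).card = d := by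
    intro y hy
    rw [Set.Finite.mem_toFinset] at hy
    have h1 := hT.fib t ht y (hO.sub t ht.le hy)
    rw [← h1, ← Set.ncard_coe_finset]
    congr 1
    ext z
    simp only [Finset.coe_filter, Set.Finite.mem_toFinset, Set.mem_ofPred_eq]
    constructor
    · exact fun h => h.2
    · intro h
      exact ⟨hO.full t h0 ht z (by rw [h]; exact hy), h⟩
  rw [Finset.sum_congr rfl hc, Finset.sum_const, smul_eq_mul]

theorem orb_add (hT : Tree G F b d N) (hO : Orb G F b n0 N O) {t j : ℕ} (h0 : n0 ≤ t)
    (ht : t + j ≤ N) : (O (t + j)).ncard = d ^ j * (O t).ncard := by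
  induction j with
  | zero => simp
  | succ j ih =>
    rw [← add_assoc, orb_succ hT hO (by omega) (by omega), ih (by omega), pow_succ]
    ring

theorem transport [Finite G] (hT : Tree G F b d N) (hO : Orb G F b n0 N O) {t : ℕ} (ht : t ≤ N)
    {x y : Ω} (hx : x ∈ O t) (hy : y ∈ O t) :
    Nat.card {g : G // g • x = y} * (O t).ncard = Nat.card G := by
  classical
  have := Fintype.ofFinite G
  have hfin : (O t).Finite := (lev_fin hT ht).subset (hO.sub t ht)
  have hmap : ∀ g ∈ (Finset.univ : Finset G), g • x ∈ hfin.toFinset := by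
    intro g _
    rw [Set.Finite.mem_toFinset]
    exact hO.inv t ht g x hx
  have hcard := Finset.card_eq_sum_card_fiberwise hmap
  have hc : ∀ z ∈ hfin.toFinset, ((Finset.univ : Finset G).filter fun g => g • x = z).card =
      Nat.card {g : G // g • x = y} := by
    intro z hz
    rw [Set.Finite.mem_toFinset] at hz
    obtain ⟨h, hh⟩ := hO.trans t ht z hz y hy
    rw [Nat.card_eq_fintype_card, Fintype.card_subtype]
    refine Finset.card_bij (fun g _ => h * g) ?_ ?_ ?_
    · intro g hg
      rw [Finset.mem_filter] at hg ⊢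
      exact ⟨Finset.mem_univ _, by rw [mul_smul, hg.2, hh]⟩
    · intro g _ g' _ hgg
      exact mul_left_cancel hgg
    · intro g hg
      rw [Finset.mem_filter] at hg
      refine ⟨h⁻¹ * g, ?_, by simp⟩
      rw [Finset.mem_filter]
      exact ⟨Finset.mem_univ _, by rw [mul_smul, hg.2, ← hh, inv_smul_smul]⟩
  rw [Finset.sum_congr rfl hc, Finset.sum_const, smul_eq_mul] at hcard
  rw [Set.ncard_eq_toFinset_card _ hfin, mul_comm, ← hcard, Nat.card_eq_fintype_card,
    Finset.card_univ]

theorem diverge (hO : Orb G F b n0 N O) {l : ℕ} (hl : l ≤ N) {u y : Ω} (hu : u ∈ O l)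
    (hy : y ∈ O l) (hne : u ≠ y) :
    ∃ m < l, F^[l - m] u = F^[l - m] y ∧ F^[l - m - 1] u ≠ F^[l - m - 1] y := by
  classical
  have hex : ∃ m, m ≤ l ∧ F^[l - m] u ≠ F^[l - m] y := ⟨l, le_rfl, by simpa using hne⟩
  have h1 := Nat.find_spec hex
  have h0 : Nat.find hex ≠ 0 := by
    intro h
    rw [h] at h1
    apply h1.2
    have hu' : F^[l] u = b := hO.sub l hl hu
    have hy' : F^[l] y = b := hO.sub l hl hy
    simp [hu', hy']
  obtain ⟨m, hm⟩ := Nat.exists_eq_succ_of_ne_zero h0
  refine ⟨m, by omega, ?_, ?_⟩
  · have := Nat.find_min hex (m := m) (by omega)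
    by_contra hcon
    exact this ⟨by omega, hcon⟩
  · have := h1.2
    rw [hm] at this
    rwa [show l - m - 1 = l - m.succ by omega]

end Pool.Agent.H42.PC
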