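/-
Row GSt (about 150 lines): index of the stabilisers along a path, and the number of paths with given residues.

NOTATION. For x at level t+1 with parent y = F x: st x ≤ st y (equiv: g x = x gives g y = g F x = F (g x) = y).
 st_mono : induction on j.
 step_le : st x = st y ⊓ stabilizer G x, so (st x).relIndex (st y) is the index in st y of the stabiliser of x in st y, i.e. the cardinality
   of the orbit of x under st y (MulAction.index_stabilizer or MulAction.card_orbit_mul_card_stabilizer_eq_card_group; or construct an injection of the quotient).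
   The orbit consists of points z with F z = y (equiv) and red z = red x (hI), z ∈ lev (t+1). If red x ∉ A it is {x} (hone): index 1.
   In all cases it has at most 2 elements (htwo): a set in which no 3 elements are distinct.
 step_ge : if some g ∈ I fixes y and moves x then the orbit has at least 2 elements.
 path_le : induction on j: u' := F u... write j+1 steps as the step from u to F u and j steps from F u to F^[j] (F u);
   Subgroup.relIndex_mul_relIndex (st u ≤ st (F u) ≤ st (F^[j+1] u)); the number of critical steps of u is that of F u plus one iff red u ∈ A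
   (Finset.range (j+1) filtered: i = 0, and i+1 with F^[i+1] u = F^[i] (F u); Finset.sum_range_succ' may help: card of filter as a sum of ite).
 path_ge : the same with 2 ≤ the index of a step at which an element of I fixes the parent and moves the point, and 1 ≤ the index always
   (Subgroup.relIndex ≠ 0 for finite G).  B = a set of indices i < j such that the step at i is moved.
 path_count : fix z ∈ lev m; the set of y ∈ lev (m+j) with F^[j] y = z and red (F^[i] y) = r i for all i < j has at most 2^ν elements,
   ν = number of i < j with r i ∈ A. Induction on j generalizing r: put y1 := F y, which satisfies the conditions for j and r (· + 1);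
   for given y1 at most two y with F y = y1 and red y = r 0 (htwo), at most one if r 0 ∉ A (hone). (Set.ncard of a union over the finite set
   of the y1's; all sets are subsets of the finite set lev (m+j), lev_fin.)
-/
import Pool.Agent.H42.PC.GBas

set_option autoImplicit false

namespace Pool.Agent.H42.PC

open scoped Classical

variable {G Ω : Type} [Group G] [MulAction G Ω] {F : Ω → Ω} {b : Ω} {d N s J : ℕ}

/-- residues along a path -/
theorem red_iter (P : Place G F b s J N) {t j : ℕ} (hj : j ≤ t) (ht : t ≤ N) {x : Ω}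
    (hx : x ∈ lev F b t) : P.red (F^[j] x) = P.FR^[j] (P.red x) := by
  induction j with
  | zero => rfl
  | succ j ih =>
    rw [Function.iterate_succ_apply', Function.iterate_succ_apply', ← ih (by omega)]
    have h1 := lev_iter (j := j) hx (by omega)
    have h2 : t - j = (t - j - 1) + 1 := by omega
    rw [h2] at h1
    exact P.hred _ (by omega) _ h1

theorem GSt_mem (P : Place G F b s J N) (g : G) (x : Ω) :
    g ∈ P.st x ↔ g ∈ P.I ∧ g • x = x := by
  unfold Place.st
  rw [Subgroup.mem_inf, MulAction.mem_stabilizer_iff]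

theorem GSt_one (hT : Tree G F b d N) (P : Place G F b s J N) (x : Ω) :
    P.st x ≤ P.st (F x) := by
  intro g hg
  rw [GSt_mem] at hg ⊢
  exact ⟨hg.1, by rw [← hT.equiv, hg.2]⟩

theorem st_mono (hT : Tree G F b d N) (P : Place G F b s J N) (x : Ω) (j : ℕ) :
    P.st x ≤ P.st (F^[j] x) := by
  induction j with
  | zero => exact le_rfl
  | succ j ih =>
    rw [Function.iterate_succ_apply']
    exact ih.trans (GSt_one hT P _)

/-- the index is the size of the orbit -/
theorem GSt_index (hT : Tree G F b d N) (P : Place G F b s J N) (x : Ω) :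
    (P.st x).relIndex (P.st (F x)) = (MulAction.orbit (P.st (F x)) x).ncard := by
  rw [← MulAction.index_stabilizer]
  unfold Subgroup.relIndex
  congr 1
  ext g
  rw [Subgroup.mem_subgroupOf, GSt_mem, MulAction.mem_stabilizer_iff]
  constructor
  · exact fun h => h.2
  · intro h
    exact ⟨((GSt_mem P _ _).1 g.2).1, h⟩

theorem GSt_orbit (hT : Tree G F b d N) (P : Place G F b s J N) {t : ℕ} (ht : t < N)
    {x : Ω} (hx : x ∈ lev F b (t + 1)) {z : Ω} (hz : z ∈ MulAction.orbit (P.st (F x)) x) :
    F z = F x ∧ P.red z = P.red x ∧ z ∈ lev F b (t + 1) := by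
  obtain ⟨g, rfl⟩ := hz
  have hg := (GSt_mem P _ _).1 g.2
  refine ⟨?_, ?_, ?_⟩
  · show F ((g : G) • x) = F x
    rw [hT.equiv, hg.2]
  · exact P.hI _ hg.1 _ ht _ hx
  · exact smul_lev hT _ hx

theorem step_one [Finite G] (hT : Tree G F b d N) (P : Place G F b s J N) {t : ℕ} (ht : t < N)
    {x : Ω} (hx : x ∈ lev F b (t + 1)) (hA : P.red x ∉ P.A) :
    (P.st x).relIndex (P.st (F x)) = 1 := by
  rw [GSt_index hT, Set.ncard_eq_one]
  refine ⟨x, ?_⟩
  ext z
  rw [Set.mem_singleton_iff]
  constructor
  · intro hz
    obtain ⟨h1, h2, h3⟩ := GSt_orbit hT P ht hx hz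
    exact (P.hone t ht x hx z h3 h1.symm h2.symm hA).symm
  · rintro rfl
    exact MulAction.mem_orbit_self _

theorem step_two [Finite G] (hT : Tree G F b d N) (P : Place G F b s J N) {t : ℕ} (ht : t < N)
    {x : Ω} (hx : x ∈ lev F b (t + 1)) : (P.st x).relIndex (P.st (F x)) ≤ 2 := by
  rw [GSt_index hT]
  by_contra hcon
  have h3 : 2 < (MulAction.orbit (P.st (F x)) x).ncard := by omega
  have hf : (MulAction.orbit (P.st (F x)) x).Finite := Set.finite_range _
  rw [Set.two_lt_ncard hf] at h3
  obtain ⟨a, ha, b', hb, c, hc, hab, hac, hbc⟩ := h3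
  obtain ⟨a1, a2, a3⟩ := GSt_orbit hT P ht hx ha
  obtain ⟨b1, b2, b3⟩ := GSt_orbit hT P ht hx hb
  obtain ⟨c1, c2, c3⟩ := GSt_orbit hT P ht hx hc
  rcases P.htwo t ht a a3 b' b3 c c3 (a1.trans b1.symm) (b1.trans c1.symm) (a2.trans b2.symm)
    (b2.trans c2.symm) with h | h | h
  · exact hab h
  · exact hac h
  · exact hbc h

theorem step_ge [Finite G] (hT : Tree G F b d N) (P : Place G F b s J N) {t : ℕ} (ht : t < N)
    {x : Ω} (hx : x ∈ lev F b (t + 1)) (hg : ∃ g ∈ P.I, g • F x = F x ∧ g • x ≠ x) :
    2 ≤ (P.st x).relIndex (P.st (F x)) := by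
  obtain ⟨g, hgI, hg1, hg2⟩ := hg
  rw [GSt_index hT]
  have h1 : g • x ∈ MulAction.orbit (P.st (F x)) x :=
    ⟨⟨g, (GSt_mem P _ _).2 ⟨hgI, hg1⟩⟩, rfl⟩
  have h2 : x ∈ MulAction.orbit (P.st (F x)) x := MulAction.mem_orbit_self _
  exact (Set.one_lt_ncard (Set.finite_range _)).2 ⟨_, h1, _, h2, hg2⟩

theorem path_le [Finite G] (hT : Tree G F b d N) (P : Place G F b s J N) {m j : ℕ}
    (hm : m + j ≤ N) {u : Ω} (hu : u ∈ lev F b (m + j)) :
    (P.st u).relIndex (P.st (F^[j] u)) ≤
      2 ^ ((Finset.range j).filter fun i => P.red (F^[i] u) ∈ P.A).card := by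
  induction j generalizing u with
  | zero => simp
  | succ j ih =>
    have hFu : F u ∈ lev F b (m + j) := by
      have := lev_iter (j := 1) hu (by omega)
      simpa using this
    have h1 := ih (by omega) hFu
    have h2 : (P.st u).relIndex (P.st (F^[j + 1] u)) =
        (P.st u).relIndex (P.st (F u)) * (P.st (F u)).relIndex (P.st (F^[j] (F u))) := by
      rw [Function.iterate_succ_apply]
      exact (Subgroup.relIndex_mul_relIndex _ _ _ (GSt_one hT P u) (st_mono hT P _ j)).symm
    rw [h2]
    have hu' : u ∈ lev F b ((m + j) + 1) := hu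
    have h3 : ((Finset.range (j + 1)).filter fun i => P.red (F^[i] u) ∈ P.A).card =
        (if P.red u ∈ P.A then 1 else 0) +
          ((Finset.range j).filter fun i => P.red (F^[i] (F u)) ∈ P.A).card := by
      rw [Finset.card_filter, Finset.card_filter, Finset.sum_range_succ']
      exact add_comm _ _
    rw [h3, pow_add]
    refine Nat.mul_le_mul ?_ h1
    split_ifs with hA
    · exact step_two hT P (by omega) hu'
    · exact (step_one hT P (by omega) hu' hA).le

theorem path_ge [Finite G] (hT : Tree G F b d N) (P : Place G F b s J N) {m j : ℕ}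
    (hm : m + j ≤ N) {u : Ω} (hu : u ∈ lev F b (m + j)) (B : Finset ℕ)
    (hB : ∀ i ∈ B, i < j ∧ ∃ g ∈ P.I, g • F^[i + 1] u = F^[i + 1] u ∧ g • F^[i] u ≠ F^[i] u) :
    2 ^ B.card ≤ (P.st u).relIndex (P.st (F^[j] u)) := by
  have key : ∀ (j : ℕ) (u : Ω), m + j ≤ N → u ∈ lev F b (m + j) →
      2 ^ ((Finset.range j).filter fun i => ∃ g ∈ P.I, g • F^[i + 1] u = F^[i + 1] u ∧
        g • F^[i] u ≠ F^[i] u).card ≤ (P.st u).relIndex (P.st (F^[j] u)) := by
    intro j
    induction j with
    | zero =>
      intro u _ _
      rw [Finset.range_zero, Finset.filter_empty]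
      simp
    | succ j ih =>
      intro u hm hu
      have hFu : F u ∈ lev F b (m + j) := by
        have := lev_iter (j := 1) hu (by omega)
        simpa using this
      have h1 := ih (F u) (by omega) hFu
      have h2 : (P.st u).relIndex (P.st (F^[j + 1] u)) =
          (P.st u).relIndex (P.st (F u)) * (P.st (F u)).relIndex (P.st (F^[j] (F u))) := by
        rw [Function.iterate_succ_apply]
        exact (Subgroup.relIndex_mul_relIndex _ _ _ (GSt_one hT P u) (st_mono hT P _ j)).symm
      rw [h2]
      have hu' : u ∈ lev F b ((m + j) + 1) := hu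
      have h3 : ((Finset.range (j + 1)).filter fun i => ∃ g ∈ P.I,
          g • F^[i + 1] u = F^[i + 1] u ∧ g • F^[i] u ≠ F^[i] u).card =
          (if ∃ g ∈ P.I, g • F u = F u ∧ g • u ≠ u then 1 else 0) +
            ((Finset.range j).filter fun i => ∃ g ∈ P.I,
              g • F^[i + 1] (F u) = F^[i + 1] (F u) ∧ g • F^[i] (F u) ≠ F^[i] (F u)).card := by
        rw [Finset.card_filter, Finset.card_filter, Finset.sum_range_succ']
        exact add_comm _ _
      rw [h3, pow_add]
      refine Nat.mul_le_mul ?_ h1
      split_ifs with hA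
      · exact step_ge hT P (by omega) hu' hA
      · have : (P.st u).relIndex (P.st (F u)) ≠ 0 := Subgroup.index_ne_zero_of_finite
        rw [pow_zero]
        omega
  refine le_trans (Nat.pow_le_pow_right (by norm_num) (Finset.card_le_card ?_)) (key j u hm hu)
  intro i hi
  rw [Finset.mem_filter, Finset.mem_range]
  exact hB i hi

theorem path_count (hT : Tree G F b d N) (P : Place G F b s J N) {m j : ℕ}
    (hm : m + j ≤ N) {z : Ω} (hz : z ∈ lev F b m) (r : ℕ → P.R) :
    {y | F^[j] y = z ∧ ∀ i < j, P.red (F^[i] y) = r i}.ncard ≤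
      2 ^ ((Finset.range j).filter fun i => r i ∈ P.A).card := by
  induction j generalizing r with
  | zero =>
    have : {y | F^[0] y = z ∧ ∀ i < 0, P.red (F^[i] y) = r i} = {z} := by
      ext y
      simp
    rw [this]
    simp
  | succ j ih =>
    have h1 := ih (by omega) (fun i => r (i + 1))
    set S := {y | F^[j] y = z ∧ ∀ i < j, P.red (F^[i] y) = r (i + 1)} with hS
    set T := {y | F^[j + 1] y = z ∧ ∀ i < j + 1, P.red (F^[i] y) = r i} with hTd
    have hSfin : S.Finite := (lev_fin hT (t := m + j) (by omega)).subset (by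
      rintro y ⟨hy, -⟩
      exact lev_up (by rw [hy]; exact hz))
    have hTlev : ∀ y ∈ T, y ∈ lev F b ((m + j) + 1) := by
      rintro y ⟨hy, -⟩
      exact lev_up (t := m) (j := j + 1) (by rw [hy]; exact hz)
    have hTfin : T.Finite := (lev_fin hT (t := m + j + 1) (by omega)).subset hTlev
    have hmap : ∀ y ∈ hTfin.toFinset, F y ∈ hSfin.toFinset := by
      intro y hy
      rw [Set.Finite.mem_toFinset] at hy ⊢
      obtain ⟨hy1, hy2⟩ := hy
      refine ⟨by rw [← Function.iterate_succ_apply]; exact hy1, ?_⟩
      intro i hi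
      rw [← Function.iterate_succ_apply]
      exact hy2 (i + 1) (by omega)
    have h3 : ((Finset.range (j + 1)).filter fun i => r i ∈ P.A).card =
        (if r 0 ∈ P.A then 1 else 0) +
          ((Finset.range j).filter fun i => r (i + 1) ∈ P.A).card := by
      rw [Finset.card_filter, Finset.card_filter, Finset.sum_range_succ', add_comm]
    rw [h3, pow_add, Set.ncard_eq_toFinset_card _ hTfin]
    rw [Set.ncard_eq_toFinset_card _ hSfin] at h1
    refine le_trans (Finset.card_le_mul_card_image_of_maps_to hmap (2 ^ (if r 0 ∈ P.A then 1 else 0))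
      ?_) (Nat.mul_le_mul_left _ h1)
    intro y1 hy1
    split_ifs with hA
    · rw [pow_one]
      by_contra hcon
      have h4 : 2 < (hTfin.toFinset.filter fun y => F y = y1).card := by omega
      rw [Finset.two_lt_card] at h4
      obtain ⟨a, ha, b', hb, c, hc, hab, hac, hbc⟩ := h4
      rw [Finset.mem_filter, Set.Finite.mem_toFinset] at ha hb hc
      have ra := ha.1.2 0 (by omega)
      have rb := hb.1.2 0 (by omega)
      have rc := hc.1.2 0 (by omega)
      simp only [Function.iterate_zero, id_eq] at ra rb rc
      rcases P.htwo (m + j) (by omega) a (hTlev _ ha.1) b' (hTlev _ hb.1) c (hTlev _ hc.1)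
        (ha.2.trans hb.2.symm) (hb.2.trans hc.2.symm) (ra.trans rb.symm) (rb.trans rc.symm)
        with h | h | h
      · exact hab h
      · exact hac h
      · exact hbc h
    · rw [pow_zero, Finset.card_le_one]
      intro a ha b' hb
      rw [Finset.mem_filter, Set.Finite.mem_toFinset] at ha hb
      have ra := ha.1.2 0 (by omega)
      have rb := hb.1.2 0 (by omega)
      simp only [Function.iterate_zero, id_eq] at ra rb
      exact P.hone (m + j) (by omega) a (hTlev _ ha.1) b' (hTlev _ hb.1) (ha.2.trans hb.2.symm)
        (ra.trans rb.symm) (by rw [ra]; exact hA)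

end Pool.Agent.H42.PC
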