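/-
Row GOff (about 120 lines): leaving the cycle costs at most 2^s, staying on it costs at least 2^(s+1) in (s+1)n levels.

 cyc_of_per : r with FR^[i] r = r (i ≥ 1) and FR^[e] r = FR^[k] (red b) lies on the forward orbit of red b: FR^[i e] r = r (Function.iterate_fixed
   style induction), and i e ≥ e, so r = FR^[i e - e] (FR^[e] r) = FR^[i e - e + k] (red b). (For e = 0 immediate.)
 off_index : path_le; the critical indices i < j (red (F^[i] u) ∈ A) have pairwise different residues red (F^[i] u), so that their number is at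
   most A.ncard ≤ s (Finset.card_le_card_of_injOn into hAfin.toFinset). Let i < i' < j be critical with the same residue r = red (F^[i] u) = red (F^[i'] u).
   Then FR^[i' - i] r = r (red_iter), FR^[j - i] r = red (F^[j] u) is on the forward orbit of red b, so r is (cyc_of_per), so
   F^[i] u is OnC, hence F^[j-1] u is OnC (i ≤ j - 1; onC_iter), contradiction.
 onC_iter : red (F^[j] x) = FR^[j] (red x) = FR^[j + k] (red b).
 onC_eq : for OnC x, x ∈ lev t with t = n * i: red x = red b. FR^[n * i] (red b) = red b (hcyc, iterate_mul); red x = FR^[k] (red b);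
   FR^[t] (red x) = red (F^[t] x) = red b; so red b = FR^[t] (FR^[k] (red b)) = FR^[k] (FR^[t] (red b)) = FR^[k] (red b) = red x.
 onC_fix : for OnC x, FR^[n] (red x) = red x.
 on_index : path_ge with B = {i < L : n ∣ m + L - i}: for such i the point F^[i] u has level m + L - i = n * i' , so its residue is red b ∈ A, and its parent
   F^[i+1] u is at level m + L - i - 1 ≥ m ≥ t0; hdig gives the element of I. B.card ≥ s + 1 since L ≥ (s+1) n:
   the levels n * (m / n + 1), ..., n * (m / n + s + 1) lie in (m, m + L].
 uniq_child : two OnC children x x' of the same w have the same residue: red x = FR^[n] (red x) = FR^[n-1] (FR (red x)) = FR^[n-1] (red w).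
-/
import Pool.Agent.H42.PC.GSt

set_option autoImplicit false

namespace Pool.Agent.H42.PC

open scoped Classical

variable {G Ω : Type} [Group G] [MulAction G Ω] {F : Ω → Ω} {b : Ω} {d N s J n t0 : ℕ}

theorem cyc_of_per {R : Type} (f : R → R) (r b : R) {i e k : ℕ} (hi : 1 ≤ i) (h : f^[i] r = r)
    (he : f^[e] r = f^[k] b) : ∃ k', r = f^[k'] b := by
  have h1 : ∀ e : ℕ, f^[i * e] r = r := by
    intro e
    rw [Function.iterate_mul]
    exact Function.iterate_fixed h e
  refine ⟨i * e - e + k, ?_⟩
  have h2 : e ≤ i * e := Nat.le_mul_of_pos_left e hi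
  rw [Function.iterate_add_apply, ← he, ← Function.iterate_add_apply, Nat.sub_add_cancel h2]
  exact (h1 e).symm

theorem onC_iter (P : Place G F b s J N) {t j : ℕ} (hj : j ≤ t) (ht : t ≤ N) {x : Ω}
    (hx : x ∈ lev F b t) (h : P.OnC x) : P.OnC (F^[j] x) := by
  obtain ⟨k, hk⟩ := h
  refine ⟨j + k, ?_⟩
  rw [red_iter P hj ht hx, hk, Function.iterate_add_apply]

theorem off_index [Finite G] (hT : Tree G F b d N) (P : Place G F b s J N) {m j : ℕ}
    (hm : m + j ≤ N) (hj : 1 ≤ j) {u : Ω} (hu : u ∈ lev F b (m + j)) (hw : P.OnC (F^[j] u))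
    (hoff : ¬ P.OnC (F^[j - 1] u)) : (P.st u).relIndex (P.st (F^[j] u)) ≤ 2 ^ s := by
  refine (path_le hT P hm hu).trans (Nat.pow_le_pow_right (by norm_num) ?_)
  have hcard : P.hAfin.toFinset.card = P.A.ncard := (Set.ncard_eq_toFinset_card _ P.hAfin).symm
  refine le_trans ?_ (hcard.le.trans P.hA)
  refine Finset.card_le_card_of_injOn (fun i => P.red (F^[i] u)) ?_ ?_
  · intro i hi
    rw [Finset.mem_coe, Finset.mem_filter] at hi
    rw [Finset.mem_coe, Set.Finite.mem_toFinset]
    exact hi.2
  · have key : ∀ i i' : ℕ, i < i' → i' < j → P.red (F^[i] u) = P.red (F^[i'] u) → False := by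
      intro i i' hii hi' he
      have hui : F^[i] u ∈ lev F b (m + j - i) := lev_iter hu (by omega)
      have h1 : P.FR^[i' - i] (P.red (F^[i] u)) = P.red (F^[i] u) := by
        rw [← red_iter P (by omega) (by omega) hui, ← Function.iterate_add_apply,
          show i' - i + i = i' by omega, he]
      obtain ⟨k, hk⟩ := hw
      have h2 : P.FR^[j - i] (P.red (F^[i] u)) = P.FR^[k] (P.red b) := by
        rw [← hk, ← red_iter P (by omega) (by omega) hui, ← Function.iterate_add_apply,
          show j - i + i = j by omega]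
      have h3 : P.OnC (F^[i] u) := cyc_of_per P.FR _ _ (by omega) h1 h2
      apply hoff
      have h4 := onC_iter P (j := j - 1 - i) (by omega) (by omega) hui h3
      rwa [← Function.iterate_add_apply, show j - 1 - i + i = j - 1 by omega] at h4
    intro i hi i' hi' he
    rw [Finset.mem_coe, Finset.mem_filter, Finset.mem_range] at hi hi'
    by_contra hne
    rcases lt_or_gt_of_ne hne with h | h
    · exact key i i' h hi'.1 he
    · exact key i' i h hi.1 he.symm

theorem onC_fix {P : Place G F b s J N} (hC : Cyc P n t0) {x : Ω} (h : P.OnC x) :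
    P.FR^[n] (P.red x) = P.red x := by
  obtain ⟨k, hk⟩ := h
  rw [hk, ← Function.iterate_add_apply, Nat.add_comm, Function.iterate_add_apply, hC.hcyc]

theorem onC_eq {P : Place G F b s J N} (hC : Cyc P n t0) {t : ℕ} (ht : t ≤ N) (hn : n ∣ t)
    {x : Ω} (hx : x ∈ lev F b t) (h : P.OnC x) : P.red x = P.red b := by
  obtain ⟨i, rfl⟩ := hn
  have h1 : P.FR^[n * i] (P.red x) = P.red x := by
    rw [Function.iterate_mul]
    exact Function.iterate_fixed (onC_fix hC h) i
  rw [← h1, ← red_iter P le_rfl ht hx]
  congr 1

/-- the on-cycle points of each level exist -/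
theorem exists_onC {P : Place G F b s J N} (hC : Cyc P n t0) {t : ℕ} (ht : t ≤ N) :
    ∃ x ∈ lev F b t, P.OnC x := by
  induction t with
  | zero => exact ⟨b, rfl, 0, rfl⟩
  | succ t ih =>
    obtain ⟨w, hw, hon⟩ := ih (by omega)
    obtain ⟨x, hx, hx'⟩ := hC.hex t (by omega) w hw hon
    exact ⟨x, lev_up (j := 1) (by simpa [hx] using hw), hx'⟩

theorem uniq_child {P : Place G F b s J N} (hC : Cyc P n t0) {t : ℕ} (ht : t < N) {x x' : Ω}
    (hx : x ∈ lev F b (t + 1)) (hx' : x' ∈ lev F b (t + 1)) (hF : F x = F x') (h : P.OnC x)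
    (h' : P.OnC x') : P.red x = P.red x' := by
  have key : ∀ y, y ∈ lev F b (t + 1) → P.OnC y → P.red y = P.FR^[n - 1] (P.red (F y)) := by
    intro y hy hon
    rw [P.hred t ht y hy, ← Function.iterate_succ_apply, show (n - 1).succ = n by
      have := hC.hn
      omega]
    exact (onC_fix hC hon).symm
  rw [key x hx h, key x' hx' h', hF]

theorem on_index [Finite G] (hT : Tree G F b d N) {P : Place G F b s J N} (hC : Cyc P n t0)
    {m L : ℕ} (hm : m + L ≤ N) (h0 : t0 ≤ m) (hL : (s + 1) * n ≤ L) {u : Ω}
    (hu : u ∈ lev F b (m + L)) (h : P.OnC u) :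
    2 ^ (s + 1) ≤ (P.st u).relIndex (P.st (F^[L] u)) := by
  have hn := hC.hn
  refine le_trans (Nat.pow_le_pow_right (by norm_num) ?_)
    (path_ge hT P hm hu ((Finset.range L).filter fun i => n ∣ m + L - i) ?_)
  · -- count
    have hinj : Set.InjOn (fun a => m + L - n * (m / n + 1 + a)) (Finset.range (s + 1) : Set ℕ) := by
      intro a ha a' ha' he
      rw [Finset.mem_coe, Finset.mem_range] at ha ha'
      have e1 : n * (m / n) ≤ m := Nat.mul_div_le m n
      have e2 : n * (m / n + 1 + a) ≤ m + L := by
        have : n * (1 + a) ≤ (s + 1) * n := by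
          rw [mul_comm n]
          exact Nat.mul_le_mul_right _ (by omega)
        nlinarith
      have e3 : n * (m / n + 1 + a') ≤ m + L := by
        have : n * (1 + a') ≤ (s + 1) * n := by
          rw [mul_comm n]
          exact Nat.mul_le_mul_right _ (by omega)
        nlinarith
      have he' : m + L - n * (m / n + 1 + a) = m + L - n * (m / n + 1 + a') := he
      have e4 : n * (m / n + 1 + a) = n * (m / n + 1 + a') := by omega
      have e5 := Nat.eq_of_mul_eq_mul_left (by omega) e4
      omega
    have hcard : ((Finset.range (s + 1)).image fun a => m + L - n * (m / n + 1 + a)).card =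
        s + 1 := by
      rw [Finset.card_image_of_injOn hinj, Finset.card_range]
    rw [← hcard]
    refine Finset.card_le_card ?_
    intro i hi
    rw [Finset.mem_image] at hi
    obtain ⟨a, ha, rfl⟩ := hi
    rw [Finset.mem_range] at ha
    have e1 : n * (m / n) ≤ m := Nat.mul_div_le m n
    have e1' : m < n * (m / n + 1) := by
      have := Nat.lt_mul_div_succ m (show 0 < n by omega)
      exact this
    have e2 : n * (m / n + 1 + a) ≤ m + L := by
      have : n * (1 + a) ≤ (s + 1) * n := by
        rw [mul_comm n]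
        exact Nat.mul_le_mul_right _ (by omega)
      nlinarith
    have e3 : m < n * (m / n + 1 + a) := by nlinarith
    rw [Finset.mem_filter, Finset.mem_range]
    refine ⟨by omega, ?_⟩
    rw [show m + L - (m + L - n * (m / n + 1 + a)) = n * (m / n + 1 + a) by omega]
    exact Dvd.intro _ rfl
  · intro i hi
    rw [Finset.mem_filter, Finset.mem_range] at hi
    refine ⟨hi.1, ?_⟩
    have hui : F^[i] u ∈ lev F b (m + L - i) := lev_iter hu (by omega)
    have honi : P.OnC (F^[i] u) := onC_iter P (by omega) hm hu h
    have hred : P.red (F^[i] u) = P.red b := onC_eq hC (by omega) hi.2 hui honi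
    have hui1 : F^[i + 1] u ∈ lev F b (m + L - (i + 1)) := lev_iter hu (by omega)
    have honi1 : P.OnC (F^[i + 1] u) := onC_iter P (by omega) hm hu h
    have hF : F (F^[i] u) = F^[i + 1] u := (Function.iterate_succ_apply' F i u).symm
    exact hC.hdig (m + L - (i + 1)) (by omega) (by omega) _ hui1 honi1 _ hF honi
      (by rw [hred]; exact hC.hb)

end Pool.Agent.H42.PC
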