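/-
Row DEx (about 90 lines): weak cyclicity (no condition on inertia: t0 = N), existence of on-cycle points.

 DATA: n ≥ 1, V (f^n b - b) < 1, the tree has height N with d = natDegree f points in each fibre (Tree).
 hb: ball b ∈ A as b ∈ W.  hcyc: FR^[n] (ball b) = ball (f^n b) = ball b (FR_iter, ball_eq).
 hex: w ∈ lev t, t < N, ball w = FR^[k] (ball b). Then ball w = FR^[k+n] (ball b) (Function.iterate_add_apply, hcyc) = ball (f^[k+n] b). y := f^[k+n-1] b (k + n ≥ 1), so V (f y - w) < 1.
   The polynomial f - C w has natDegree d = natDegree f and d different roots (Tree.fib: {z | ev f z = w} has d elements): so f - C w = lead * ∏ (X - z) over these roots (card roots = natDegree, e.g. Polynomial.C_leadingCoeff_mul_prod_multiset_X_sub_C or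
   Splits via splits_iff_card_roots). Evaluate at y: V (f y - w) = ∏ V (y - z) < 1 (V lead = 1) so some z has V (y - z) < 1. ball z = ball y = FR^[k+n-1] (ball b).
 hdig is vacuous for t0 = N.
 approx: OnC x means V (x - f^[k] b) < 1 for some k (FR_iter, ball_eq); conversely.
-/
import Pool.Agent.H42.PC.DPl
import Pool.Agent.H42.PC.GOff

set_option autoImplicit false

namespace Pool.Agent.H42.PC

open Polynomial WithZero

variable {G L : Type} [Group G] [Field L] [MulSemiringAction G L] {Λ : Loc G L} {f : L[X]}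
  {b : L} {W : Finset L} {J s N : ℕ}

theorem onC_iff (hG : Good Λ f b W J) (hs : W.card ≤ s) (x : L) :
    (mkPlace hG s N hs).OnC x ↔ ∃ k : ℕ, Λ.V (x - (ev f)^[k] b) < 1 := by
  have key : ∀ k : ℕ, ball Λ x = (FRm Λ f)^[k] (ball Λ b) ↔ Λ.V (x - (ev f)^[k] b) < 1 := by
    intro k
    rw [FR_iter hG hG.bint k, ball_eq]
  constructor
  · rintro ⟨k, hk⟩
    exact ⟨k, (key k).1 hk⟩
  · rintro ⟨k, hk⟩
    exact ⟨k, (key k).2 hk⟩

private theorem dExMul (V : Valuation L ℤᵐ⁰) (y : L) (m : Multiset L)
    (h : ∀ a ∈ m, 1 ≤ V (y - a)) : 1 ≤ V ((m.map fun a => y - a).prod) := by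
  induction m using Multiset.induction_on with
  | empty => simp
  | cons a m ih =>
    rw [Multiset.map_cons, Multiset.prod_cons, map_mul]
    exact one_le_mul (h a (Multiset.mem_cons_self a m))
      (ih fun c hc => h c (Multiset.mem_cons_of_mem hc))

theorem dEx_root (hG : Good Λ f b W J) {w y : L}
    (hcard : {z | ev f z = w}.ncard = f.natDegree) (hw : Λ.V (ev f y - w) < 1) :
    ∃ z, ev f z = w ∧ Λ.V (y - z) < 1 := by
  classical
  have hd : 2 ≤ f.natDegree := hG.deg
  have hgd : (f - C w).natDegree = f.natDegree := natDegree_sub_C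
  have hg0 : f - C w ≠ 0 := by
    intro h
    rw [h, natDegree_zero] at hgd
    omega
  have hlead : (f - C w).leadingCoeff = f.leadingCoeff := by
    refine leadingCoeff_sub_of_degree_lt ?_
    refine lt_of_le_of_lt degree_C_le ?_
    rw [← natDegree_pos_iff_degree_pos]
    omega
  have hset : {z | ev f z = w} = ((f - C w).roots.toFinset : Set L) := by
    ext z
    rw [Finset.mem_coe, Multiset.mem_toFinset, mem_roots hg0, IsRoot.def, Polynomial.eval_sub, eval_C,
      sub_eq_zero]
    rfl
  rw [hset, Set.ncard_coe_finset] at hcard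
  have h1 : (f - C w).roots.toFinset.card ≤ Multiset.card (f - C w).roots :=
    Multiset.toFinset_card_le _
  have h2 : Multiset.card (f - C w).roots ≤ (f - C w).natDegree := card_roots' _
  have h3 : Multiset.card (f - C w).roots = (f - C w).natDegree := by omega
  have h4 := C_leadingCoeff_mul_prod_multiset_X_sub_C h3
  have h5 : Λ.V ((f - C w).eval y) < 1 := by
    rw [Polynomial.eval_sub, eval_C]
    exact hw
  rw [← h4, eval_mul, eval_C, map_mul, hlead, hG.lead, one_mul, eval_multiset_prod,
    Multiset.map_map] at h5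
  have h6 : ((fun p : L[X] => eval y p) ∘ fun a : L => X - C a) = fun a : L => y - a := by
    funext a
    simp
  by_contra hcon
  push Not at hcon
  have h7 : 1 ≤ Λ.V (((f - C w).roots.map fun a => y - a).prod) := by
    refine dExMul Λ.V y _ fun a ha => hcon a ?_
    have ha' : a ∈ ((f - C w).roots.toFinset : Set L) := by
      rw [Finset.mem_coe, Multiset.mem_toFinset]
      exact ha
    rw [← hset] at ha'
    exact ha'
  have h8 : Λ.V (((f - C w).roots.map fun a => y - a).prod) < 1 := by
    rw [← h6]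
    exact h5
  exact absurd h8 (not_lt.2 h7)

theorem weak_cyc (hG : Good Λ f b W J) (hs : W.card ≤ s)
    (hT : Tree G (ev f) b f.natDegree N) {n : ℕ} (hn : 1 ≤ n)
    (hb : Λ.V ((ev f)^[n] b - b) < 1) : Cyc (mkPlace hG s N hs) n N where
  hn := hn
  hb := ⟨b, hG.bW, rfl⟩
  hcyc := by
    show (FRm Λ f)^[n] (ball Λ b) = ball Λ b
    rw [FR_iter hG hG.bint n, ball_eq]
    exact hb
  hex := by
    intro t ht w hw hon
    obtain ⟨k, hk⟩ := (onC_iff hG hs w).1 hon
    have h1 : Λ.V ((ev f)^[k] ((ev f)^[n] b) - (ev f)^[k] b) < 1 :=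
      lt_of_le_of_lt (iter_sub hG (iter_int hG hG.bint n) hG.bint k) hb
    have h2 : Λ.V (ev f ((ev f)^[k + n - 1] b) - w) < 1 := by
      have e : ev f ((ev f)^[k + n - 1] b) = (ev f)^[k] ((ev f)^[n] b) := by
        rw [← Function.iterate_succ_apply' (ev f), ← Function.iterate_add_apply]
        rw [show (k + n - 1).succ = k + n by omega]
      rw [e, show (ev f)^[k] ((ev f)^[n] b) - w =
        ((ev f)^[k] ((ev f)^[n] b) - (ev f)^[k] b) + ((ev f)^[k] b - w) by ring]
      refine Λ.V.map_add_lt h1 ?_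
      rw [Valuation.map_sub_swap]
      exact hk
    obtain ⟨z, hz, hyz⟩ := dEx_root hG (hT.fib t ht w hw) h2
    refine ⟨z, hz, (onC_iff hG hs z).2 ⟨k + n - 1, ?_⟩⟩
    rw [Valuation.map_sub_swap]
    exact hyz
  hdig := by
    intro m h1 h2
    exact absurd h2 (by omega)

end Pool.Agent.H42.PC
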