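/-
Row DRig (about 140 lines): rigidity of the returns of b, and shallow points. E := |I| = Nat.card Λ.I.

 fixed_small : z fixed by I with V z < 1 has V z ≤ exp (-E): z = 0, or V z = exp (k E) (div with H = I), k < 0, so k ≤ -1.
 iter_fixed : b and its iterates are fixed by G (ev_smul, fixb); iterates of critical points are fixed by I (crit_fixed, ev_smul).
 rigid : V (f^n b - b) = exp (-(v0 E)), n ≥ 1. Then V (f^[j n] b - b) = exp (-(v0 E)) for all j ≥ 1.
   Let b_j := f^[j n] b. V (b_j - b) ≤ exp (-E) for all j: V (b_j - b) < 1 by induction (iter_sub: V (b_(j+1) - b_1) ≤ V (b_j - b)), fixed_small.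
   V (b_(j+1) - b_j) ≤ exp (-((v0 + j) E)): j = 0 hypothesis. b_(j+2) - b_(j+1) = f^[n] b_(j+1) - f^[n] b_j: iter_sub (n - 1 steps after the first) and crit_sub_le at c = b for the first:
   V ≤ V (b_(j+1) - b_j) * max (V (b_(j+1) - b)) (V (b_j - b)) ≤ exp (-((v0+j) E)) * exp (-E).
   So for j ≥ 1: b_(j+1) - b_j has V < exp (-(v0 E)) (E ≥ 1), and V (b_j - b) = exp (-(v0 E)) implies V (b_(j+1) - b) = exp (-(v0 E)) (Valuation.map_add_eq_of_lt_left).
 shallow : y ∈ lev t OnC (V (y - f^[k] b) < 1 for some k), t ≤ N, c ∈ W, V (y - c) ≤ exp (-E). Then t < n * v0.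
   Write t = a + j n, a := t % n, j := t / n. Y := f^[a] y ∈ lev (j n), OnC, so ball Y = ball b (onC_eq with weak_cyc; n ∣ j n) i.e. V (Y - b) < 1. V (f^[a] y - f^[a] c) ≤ V (y - c) ≤ exp (-E) (iter_sub), so V (f^[a] c - b) < 1 and it is fixed by I: ≤ exp (-E) (fixed_small).
   So V (Y - b) ≤ exp (-E). Claim V (f^[i n] Y - f^[i n] b) ≤ exp (-((i+1) E)) for all i: i = 0 done; step: u := f^[i n] Y, u' := f^[i n] b = b_i: V (u' - b) ≤ exp (-E), V (u - b) ≤ max (V (u - u')) (V (u' - b)) ≤ exp (-E); V (f^[n] u - f^[n] u') ≤ V (f u - f u') ≤ V (u - u') exp (-E) (crit_sub_le, c = b).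
   i = j: f^[j n] Y = b: V (b - b_j) ≤ exp (-((j+1) E)). If j ≥ 1: = exp (-(v0 E)) (rigid) so j + 1 ≤ v0, t < (j + 1) n ≤ n v0. If j = 0: t < n ≤ n v0 (v0 ≥ 1).
-/
import Pool.Agent.H42.PC.DEx

set_option autoImplicit false

namespace Pool.Agent.H42.PC

open Polynomial WithZero

variable {G L : Type} [Group G] [Field L] [MulSemiringAction G L] [Finite G] {Λ : Loc G L}
  {f : L[X]} {b : L} {W : Finset L} {J s N : ℕ}

theorem card_pos (Λ : Loc G L) : (1 : ℤ) ≤ (Nat.card Λ.I : ℤ) := by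
  have : 0 < Nat.card Λ.I := Nat.card_pos
  exact_mod_cast this

theorem fixed_small (Λ : Loc G L) {z : L} (hz : ∀ g ∈ Λ.I, g • z = z) (h : Λ.V z < 1) :
    Λ.V z ≤ exp (-(Nat.card Λ.I : ℤ)) := by
  by_cases h0 : z = 0
  · rw [h0, map_zero]
    exact zero_le
  · obtain ⟨k, hk⟩ := Λ.div Λ.I le_rfl z h0 hz
    rw [hk] at h ⊢
    rw [← exp_zero, exp_lt_exp] at h
    rw [exp_le_exp]
    have hE := card_pos Λ
    have hk0 : k < 0 := by
      by_contra hcon
      have : 0 ≤ k := not_lt.1 hcon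
      have := mul_nonneg this (by linarith : (0 : ℤ) ≤ (Nat.card Λ.I : ℤ))
      linarith
    nlinarith

omit [Finite G] in
theorem iter_fixed (hG : Good Λ f b W J) (i : ℕ) (g : G) : g • (ev f)^[i] b = (ev f)^[i] b := by
  induction i with
  | zero => exact hG.fixb g
  | succ i ih =>
    rw [Function.iterate_succ_apply', ← ev_smul hG, ih]

omit [Finite G] in
theorem crit_iter_fixed (hG : Good Λ f b W J) {c : L} (hc : f.derivative.eval c = 0) (i : ℕ)
    {g : G} (hg : g ∈ Λ.I) : g • (ev f)^[i] c = (ev f)^[i] c := by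
  induction i with
  | zero => exact crit_fixed hG hc hg
  | succ i ih =>
    rw [Function.iterate_succ_apply', ← ev_smul hG, ih]

omit [Finite G] in
theorem iter_crit_le (hG : Good Λ f b W J) {n : ℕ} (hn : 1 ≤ n) {x x' : L}
    (hx : Λ.V (x - b) < 1) (hx' : Λ.V (x' - b) < 1) :
    Λ.V ((ev f)^[n] x - (ev f)^[n] x') ≤
      Λ.V (x - x') * max (Λ.V (x - b)) (Λ.V (x' - b)) := by
  obtain ⟨m, rfl⟩ : ∃ m, n = m + 1 := ⟨n - 1, by omega⟩
  rw [Function.iterate_succ_apply, Function.iterate_succ_apply]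
  have hxi : Λ.V x ≤ 1 := int_of_near hG.bint hx
  have hxi' : Λ.V x' ≤ 1 := int_of_near hG.bint hx'
  refine (iter_sub hG (eval_int hG.int hxi) (eval_int hG.int hxi') m).trans ?_
  exact crit_sub_le hG hG.bW hx hx'

theorem exp_small {E v : ℤ} (hE : 1 ≤ E) (hv : 1 ≤ v) : (exp (-(v * E)) : ℤᵐ⁰) < 1 := by
  rw [← exp_zero, exp_lt_exp]
  nlinarith

theorem ret_small (hG : Good Λ f b W J) {n v0 : ℕ} (hv : 1 ≤ v0)
    (hb : Λ.V ((ev f)^[n] b - b) = exp (-((v0 : ℤ) * (Nat.card Λ.I : ℤ)))) (j : ℕ) :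
    Λ.V ((ev f)^[j * n] b - b) ≤ exp (-(Nat.card Λ.I : ℤ)) := by
  have hE := card_pos Λ
  have hv' : (1 : ℤ) ≤ (v0 : ℤ) := by exact_mod_cast hv
  induction j with
  | zero =>
    rw [Nat.zero_mul, Function.iterate_zero, id, sub_self, map_zero]
    exact zero_le
  | succ j ih =>
    refine fixed_small Λ (fun g _ => ?_) ?_
    · rw [smul_sub, iter_fixed hG, hG.fixb]
    · have e1 : (ev f)^[(j + 1) * n] b = (ev f)^[n] ((ev f)^[j * n] b) := by
        rw [← Function.iterate_add_apply]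
        congr 2
        ring
      have h1 : Λ.V ((ev f)^[n] ((ev f)^[j * n] b) - (ev f)^[n] b) < 1 := by
        refine lt_of_le_of_lt (iter_sub hG (iter_int hG hG.bint _) hG.bint n) ?_
        refine lt_of_le_of_lt ih ?_
        have := exp_small hE (le_refl (1 : ℤ))
        rwa [one_mul] at this
      have h2 : Λ.V ((ev f)^[n] b - b) < 1 := by
        rw [hb]
        exact exp_small hE hv'
      rw [e1, show (ev f)^[n] ((ev f)^[j * n] b) - b =
        ((ev f)^[n] ((ev f)^[j * n] b) - (ev f)^[n] b) + ((ev f)^[n] b - b) by ring]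
      exact Λ.V.map_add_lt h1 h2

theorem exp_E_lt (Λ : Loc G L) : (exp (-(Nat.card Λ.I : ℤ)) : ℤᵐ⁰) < 1 := by
  have := exp_small (card_pos Λ) (le_refl (1 : ℤ))
  rwa [one_mul] at this

theorem ret_step (hG : Good Λ f b W J) {n v0 : ℕ} (hn : 1 ≤ n) (hv : 1 ≤ v0)
    (hb : Λ.V ((ev f)^[n] b - b) = exp (-((v0 : ℤ) * (Nat.card Λ.I : ℤ)))) (j : ℕ) :
    Λ.V ((ev f)^[(j + 1) * n] b - (ev f)^[j * n] b) ≤
      exp (-(((v0 : ℤ) + j) * (Nat.card Λ.I : ℤ))) := by
  induction j with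
  | zero =>
    rw [Nat.zero_mul, Function.iterate_zero, id, zero_add, one_mul, hb, Nat.cast_zero, add_zero]
  | succ j ih =>
    have e1 : (ev f)^[(j + 1 + 1) * n] b = (ev f)^[n] ((ev f)^[(j + 1) * n] b) := by
      rw [← Function.iterate_add_apply]
      congr 2
      ring
    have e2 : (ev f)^[(j + 1) * n] b = (ev f)^[n] ((ev f)^[j * n] b) := by
      rw [← Function.iterate_add_apply]
      congr 2
      ring
    have s1 := ret_small hG hv hb (j + 1)
    have s2 := ret_small hG hv hb j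
    have h1 := iter_crit_le hG hn (lt_of_le_of_lt s1 (exp_E_lt Λ)) (lt_of_le_of_lt s2 (exp_E_lt Λ))
    rw [e1]
    conv_lhs => rw [e2]
    rw [← e2]
    have h2 : Λ.V ((ev f)^[n] ((ev f)^[(j + 1) * n] b) - (ev f)^[n] ((ev f)^[j * n] b)) ≤
        exp (-(((v0 : ℤ) + j) * (Nat.card Λ.I : ℤ))) * exp (-(Nat.card Λ.I : ℤ)) :=
      h1.trans (mul_le_mul' ih (max_le s1 s2))
    rw [← exp_add] at h2
    rw [← e2] at h2
    refine h2.trans (le_of_eq ?_)
    congr 1
    push_cast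
    ring

theorem rigid (hG : Good Λ f b W J) {n v0 : ℕ} (hn : 1 ≤ n) (hv : 1 ≤ v0)
    (hb : Λ.V ((ev f)^[n] b - b) = exp (-((v0 : ℤ) * (Nat.card Λ.I : ℤ)))) {j : ℕ} (hj : 1 ≤ j) :
    Λ.V ((ev f)^[j * n] b - b) = exp (-((v0 : ℤ) * (Nat.card Λ.I : ℤ))) := by
  have hE := card_pos Λ
  induction j, hj using Nat.le_induction with
  | base => rw [one_mul]; exact hb
  | succ j hj ih =>
    have h1 := ret_step hG hn hv hb j
    have h2 : Λ.V ((ev f)^[(j + 1) * n] b - (ev f)^[j * n] b) < Λ.V ((ev f)^[j * n] b - b) := by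
      rw [ih]
      refine lt_of_le_of_lt h1 ?_
      rw [exp_lt_exp]
      have : (1 : ℤ) ≤ (j : ℤ) := by exact_mod_cast hj
      nlinarith
    rw [show (ev f)^[(j + 1) * n] b - b =
      ((ev f)^[j * n] b - b) + ((ev f)^[(j + 1) * n] b - (ev f)^[j * n] b) by ring]
    rw [Valuation.map_add_eq_of_lt_left _ h2, ih]

theorem shallow (hG : Good Λ f b W J) (hs : W.card ≤ s) (hT : Tree G (ev f) b f.natDegree N)
    {n v0 : ℕ} (hn : 1 ≤ n) (hv : 1 ≤ v0)
    (hb : Λ.V ((ev f)^[n] b - b) = exp (-((v0 : ℤ) * (Nat.card Λ.I : ℤ))))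
    {t : ℕ} (ht : t ≤ N) {y : L} (hy : y ∈ lev (ev f) b t) (hon : (mkPlace hG s N hs).OnC y)
    {c : L} (hc : c ∈ W) (h : Λ.V (y - c) ≤ exp (-(Nat.card Λ.I : ℤ))) : t < n * v0 := by
  have hE := card_pos Λ
  have hE1 := exp_E_lt Λ
  have hv' : (1 : ℤ) ≤ (v0 : ℤ) := by exact_mod_cast hv
  have hb1 : Λ.V ((ev f)^[n] b - b) < 1 := by
    rw [hb]
    exact exp_small hE hv'
  have hC := weak_cyc hG hs hT hn hb1
  obtain ⟨a, ha⟩ : ∃ a, a = t % n := ⟨_, rfl⟩
  obtain ⟨q, hq⟩ : ∃ q, q = t / n := ⟨_, rfl⟩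
  have htq : a + n * q = t := by rw [ha, hq]; exact Nat.mod_add_div t n
  have han : a < n := by rw [ha]; exact Nat.mod_lt _ hn
  have hat : a ≤ t := by omega
  have htan : t - a = n * q := by omega
  have hyi : Λ.V y ≤ 1 := lev_int hG hy
  have hci : Λ.V c ≤ 1 := crit_int hG (hG.Wroot c hc)
  obtain ⟨Y, hY⟩ : ∃ Y, Y = (ev f)^[a] y := ⟨_, rfl⟩
  have hYl : Y ∈ lev (ev f) b (n * q) := by
    rw [hY, ← htan]
    exact lev_iter hy hat
  have hYon : (mkPlace hG s N hs).OnC Y := by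
    rw [hY]
    exact onC_iter _ hat ht hy hon
  have hYb : Λ.V (Y - b) < 1 := by
    have h1 := onC_eq hC (t := n * q) (by omega) (Dvd.intro _ rfl) hYl hYon
    exact ball_eq.1 h1
  have hYc : Λ.V (Y - (ev f)^[a] c) ≤ exp (-(Nat.card Λ.I : ℤ)) := by
    rw [hY]
    exact (iter_sub hG hyi hci a).trans h
  have hcb1 : Λ.V ((ev f)^[a] c - b) < 1 := by
    rw [show (ev f)^[a] c - b = ((ev f)^[a] c - Y) + (Y - b) by ring]
    refine Λ.V.map_add_lt ?_ hYb
    rw [Valuation.map_sub_swap]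
    exact lt_of_le_of_lt hYc hE1
  have hcb : Λ.V ((ev f)^[a] c - b) ≤ exp (-(Nat.card Λ.I : ℤ)) := by
    refine fixed_small Λ (fun g hg => ?_) hcb1
    rw [smul_sub, crit_iter_fixed hG (hG.Wroot c hc) a hg, hG.fixb]
  have hYb' : Λ.V (Y - b) ≤ exp (-(Nat.card Λ.I : ℤ)) := by
    rw [show Y - b = (Y - (ev f)^[a] c) + ((ev f)^[a] c - b) by ring]
    exact Λ.V.map_add_le hYc hcb
  have claim : ∀ i : ℕ, Λ.V ((ev f)^[i * n] Y - (ev f)^[i * n] b) ≤
      exp (-(((i : ℤ) + 1) * (Nat.card Λ.I : ℤ))) := by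
    intro i
    induction i with
    | zero =>
      rw [Nat.zero_mul, Function.iterate_zero, id, id, Nat.cast_zero, zero_add, one_mul]
      exact hYb'
    | succ i ih =>
      have e1 : ∀ z : L, (ev f)^[(i + 1) * n] z = (ev f)^[n] ((ev f)^[i * n] z) := by
        intro z
        rw [← Function.iterate_add_apply]
        congr 2
        ring
      have s2 := ret_small hG hv hb i
      have s0 : Λ.V ((ev f)^[i * n] Y - (ev f)^[i * n] b) ≤ exp (-(Nat.card Λ.I : ℤ)) := by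
        refine ih.trans ?_
        rw [exp_le_exp]
        have : (0 : ℤ) ≤ (i : ℤ) := Int.natCast_nonneg i
        nlinarith
      have s1 : Λ.V ((ev f)^[i * n] Y - b) ≤ exp (-(Nat.card Λ.I : ℤ)) := by
        rw [show (ev f)^[i * n] Y - b = ((ev f)^[i * n] Y - (ev f)^[i * n] b) +
          ((ev f)^[i * n] b - b) by ring]
        exact Λ.V.map_add_le s0 s2
      have h1 := iter_crit_le hG hn (lt_of_le_of_lt s1 hE1) (lt_of_le_of_lt s2 hE1)
      rw [e1, e1]
      have h2 := h1.trans (mul_le_mul' ih (max_le s1 s2))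
      rw [← exp_add] at h2
      refine h2.trans (le_of_eq ?_)
      congr 1
      push_cast
      ring
  have hfin := claim q
  have hYq : (ev f)^[q * n] Y = b := by
    rw [mul_comm]
    exact hYl
  rw [hYq, Valuation.map_sub_swap] at hfin
  by_cases hq0 : q = 0
  · subst hq0
    have : t = a := by omega
    rw [this]
    calc a < n := han
      _ = n * 1 := (mul_one n).symm
      _ ≤ n * v0 := Nat.mul_le_mul_left n hv
  · have hq1 : 1 ≤ q := Nat.one_le_iff_ne_zero.2 hq0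
    rw [rigid hG hn hv hb hq1, exp_le_exp] at hfin
    have hqv : q + 1 ≤ v0 := by
      by_contra hcon
      have h1 : v0 < q + 1 := not_le.1 hcon
      have h2 : (v0 : ℤ) + 1 ≤ (q : ℤ) + 1 := by exact_mod_cast h1
      nlinarith
    calc t = a + n * q := htq.symm
      _ < n + n * q := by omega
      _ = n * (q + 1) := by ring
      _ ≤ n * v0 := Nat.mul_le_mul_left n hqv

end Pool.Agent.H42.PC
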