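/-
Row DPar (about 190 lines): the parity rule for two consecutive digits. P := mkPlace hG s N hs, E := |I|.

 DATA: x' ∈ lev (t + j), j ≥ 1, t + j ≤ N, OnC x', x := f^[j] x' ∈ lev t, n v0 ≤ t; c c' ∈ W with V (x - c) < 1, V (x' - c') < 1; for 1 ≤ i < j: ball (f^[i] x') ∉ A.  H := P.st x, H' := P.st x'.
 (a) V (f^[j] x' - f^[j] c') = V (x' - c')^2: first step crit_dbl; then noncrit for the pairs f^[i] x', f^[i] c', 1 ≤ i < j (use it with y := f^[i] x', der_unit: V (f'(f^[i] x')) = 1; V of the difference < 1 is preserved; symmetric in sign).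
 (b) V (f^[j] c' - c) < 1 (f^[j] c' ≡ f^[j] x' = x ≡ c) and it is fixed by I (crit_iter_fixed, crit_fixed): ≤ exp (-E). shallow: V (x - c) > exp (-E) (t ≥ n v0; x is OnC by onC_iter). So V (x - f^[j] c') = V (x - c), i.e. V (x - c) = V (x' - c')^2. Also x ≠ c.
 (c) H = st (f x') : the steps from f x' down to x are noncritical: path_le for u := f x' (level t + (j-1)) with empty filter: relIndex ≤ 1, so st x ≤ st (f x'), and st_mono gives equality.
 (d) |H'| relates to |H| by the index r := H'.relIndex H ∈ {1, 2} (step_two, ≥ 1 as finite): |H| = r |H'| (Subgroup.relIndex_mul_card or card_mul_relIndex ..., H' ≤ H by st_mono).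
 (e) div for H: x - c ≠ 0 is fixed by H (H ≤ I fixes c): V (x - c) = exp (k |H|), V < 1: k ≤ -1. N1 := -k ≥ 1 (a natural number). Likewise V (x' - c') = exp (-(N2 |H'|)), N2 ≥ 1 (x' ≠ c' by (b)). (b): N1 |H| = 2 N2 |H'|.
 (f) r = 1: N1 = 2 N2: first alternative with N2 = N1 / 2.
 (g) r = 2: 2 N1 |H'| = 2 N2 |H'| so N2 = N1. Must show N1 odd. Suppose N1 = 2 M. Some g ∈ H moves x' (otherwise H ≤ H'). unif: Π fixed by H, V Π = exp (-|H|), π := Π^M, V π = exp (-(M |H|)) = V (x' - c') (V (x' - c')^2 = exp (-(2 M |H|)); or N2 |H'| = 2 M |H'| = M |H|).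
     θ := (x' - c') / π, V θ = 1, g • θ = (g x' - c') / π (g fixes c' and π). inert: V (g θ - θ) < 1. g x' ≠ x', f (g x') = g f x' = f x' (g ∈ H = st (f x')), V (g x' - x') < 1 (inert), so crit_pair: V (g x' + x' - 2 c') ≤ V (x' - c')^2, hence V (g θ + θ) ≤ V (x' - c') < 1.
     So V (2 θ) < 1, contradicting V 2 = 1, V θ = 1.
-/
import Pool.Agent.H42.PC.DRig

set_option autoImplicit false

namespace Pool.Agent.H42.PC

open Polynomial WithZero

variable {G L : Type} [Group G] [Field L] [MulSemiringAction G L] [Finite G] {Λ : Loc G L}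
  {f : L[X]} {b : L} {W : Finset L} {J s N : ℕ}

theorem par_sq (hG : Good Λ f b W J) {t j : ℕ} {x' : L}
    (hx' : x' ∈ lev (ev f) b (t + j)) {c' : L} (hc' : c' ∈ W) (h' : Λ.V (x' - c') < 1)
    (hno : ∀ i, 1 ≤ i → i < j → ball Λ ((ev f)^[i] x') ∉ (ball Λ) '' (W : Set L))
    (i : ℕ) (hi : 1 ≤ i) : i ≤ j →
    Λ.V ((ev f)^[i] x' - (ev f)^[i] c') = Λ.V (x' - c') ^ 2 := by
  have hxi : Λ.V x' ≤ 1 := lev_int hG hx'
  have hci : Λ.V c' ≤ 1 := crit_int hG (hG.Wroot c' hc')
  have hsq : Λ.V (x' - c') ^ 2 < 1 := pow_lt_one' h' (by norm_num)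
  induction i, hi using Nat.le_induction with
  | base =>
    intro _
    rw [Function.iterate_one]
    exact crit_dbl hG hc' h'
  | succ i hi ih =>
    intro hij
    have h1 := ih (by omega)
    rw [Function.iterate_succ_apply', Function.iterate_succ_apply', Valuation.map_sub_swap]
    rw [Valuation.map_sub_swap] at h1
    have h2 : (ev f)^[i] x' ∈ lev (ev f) b (t + j - i) := lev_iter hx' (by omega)
    rw [← h1]
    refine noncrit hG (iter_int hG hci i) (iter_int hG hxi i) ?_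
      (der_unit hG h2 (hno i hi (by omega)))
    rw [h1]
    exact hsq

theorem relIndex_pos' (H K : Subgroup G) : H.relIndex K ≠ 0 :=
  Subgroup.index_ne_zero_of_finite

theorem div_pos (Λ : Loc G L) (H : Subgroup G) (hH : H ≤ Λ.I) (z : L) (hz : z ≠ 0)
    (hf : ∀ g ∈ H, g • z = z) (h : Λ.V z < 1) :
    ∃ N1 : ℕ, 1 ≤ N1 ∧ Λ.V z = exp (-((N1 : ℤ) * (Nat.card H : ℤ))) := by
  obtain ⟨k, hk⟩ := Λ.div H hH z hz hf
  have hc : (0 : ℤ) < (Nat.card H : ℤ) := by exact_mod_cast Nat.card_pos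
  rw [hk, ← exp_zero, exp_lt_exp] at h
  have hk0 : k < 0 := by
    by_contra h2
    push Not at h2
    have := mul_nonneg h2 hc.le
    linarith
  refine ⟨(-k).toNat, by omega, ?_⟩
  rw [hk]
  congr 1
  have : (((-k).toNat : ℕ) : ℤ) = -k := Int.toNat_of_nonneg (by omega)
  rw [this]
  ring

theorem parity (hG : Good Λ f b W J) (hs : W.card ≤ s) (hT : Tree G (ev f) b f.natDegree N)
    {n v0 : ℕ} (hn : 1 ≤ n) (hv : 1 ≤ v0)
    (hb : Λ.V ((ev f)^[n] b - b) = exp (-((v0 : ℤ) * (Nat.card Λ.I : ℤ))))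
    {t j : ℕ} (hj : 1 ≤ j) (htj : t + j ≤ N) (ht : n * v0 ≤ t) {x' : L}
    (hx' : x' ∈ lev (ev f) b (t + j)) (hon : (mkPlace hG s N hs).OnC x')
    {c c' : L} (hc : c ∈ W) (hc' : c' ∈ W) (h : Λ.V ((ev f)^[j] x' - c) < 1)
    (h' : Λ.V (x' - c') < 1)
    (hno : ∀ i, 1 ≤ i → i < j → ball Λ ((ev f)^[i] x') ∉ (ball Λ) '' (W : Set L)) :
    ∃ N1 : ℕ, 1 ≤ N1 ∧
      Λ.V ((ev f)^[j] x' - c) =
        exp (-((N1 : ℤ) * (Nat.card ((mkPlace hG s N hs).st ((ev f)^[j] x')) : ℤ))) ∧
      (mkPlace hG s N hs).st ((ev f)^[j] x') = (mkPlace hG s N hs).st (ev f x') ∧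
      ((∃ M, N1 = 2 * M ∧ (mkPlace hG s N hs).st x' = (mkPlace hG s N hs).st ((ev f)^[j] x') ∧
          Λ.V (x' - c') = exp (-((M : ℤ) * (Nat.card ((mkPlace hG s N hs).st x') : ℤ)))) ∨
        (Odd N1 ∧ Nat.card ((mkPlace hG s N hs).st ((ev f)^[j] x')) =
            2 * Nat.card ((mkPlace hG s N hs).st x') ∧
          Λ.V (x' - c') = exp (-((N1 : ℤ) * (Nat.card ((mkPlace hG s N hs).st x') : ℤ))))) := by
  classical
  have hxl : (ev f)^[j] x' ∈ lev (ev f) b t := by
    have := lev_iter hx' (show j ≤ t + j by omega)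
    rwa [Nat.add_sub_cancel] at this
  have hxi : Λ.V x' ≤ 1 := lev_int hG hx'
  have hci : Λ.V c' ≤ 1 := crit_int hG (hG.Wroot c' hc')
  have hsq : Λ.V (x' - c') ^ 2 < 1 := pow_lt_one' h' (by norm_num)
  have ha := par_sq hG hx' hc' h' hno j hj le_rfl
  have honx : (mkPlace hG s N hs).OnC ((ev f)^[j] x') := onC_iter _ (by omega) htj hx' hon
  set P := mkPlace hG s N hs with hP
  set x := (ev f)^[j] x' with hxdef
  have hPI : P.I = Λ.I := rfl
  -- (b)
  have hb1 : Λ.V ((ev f)^[j] c' - c) < 1 := by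
    rw [show (ev f)^[j] c' - c = (x - c) - (x - (ev f)^[j] c') by ring]
    refine Λ.V.map_sub_lt h ?_
    rw [ha]
    exact hsq
  have hb2 : Λ.V ((ev f)^[j] c' - c) ≤ exp (-(Nat.card Λ.I : ℤ)) := by
    refine fixed_small Λ (fun g hg => ?_) hb1
    rw [smul_sub, crit_iter_fixed hG (hG.Wroot c' hc') j hg, crit_fixed hG (hG.Wroot c hc) hg]
  have hb3 : exp (-(Nat.card Λ.I : ℤ)) < Λ.V (x - c) := by
    by_contra h2
    push Not at h2
    have := shallow hG hs hT hn hv hb (show t ≤ N by omega) hxl honx hc h2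
    omega
  have hb4 : Λ.V (x - c) = Λ.V (x' - c') ^ 2 := by
    rw [← ha, show x - (ev f)^[j] c' = (x - c) - ((ev f)^[j] c' - c) by ring]
    exact (Valuation.map_sub_eq_of_lt_left _ (lt_of_le_of_lt hb2 hb3)).symm
  have hxc : x - c ≠ 0 := by
    intro h2
    rw [h2, map_zero] at hb3
    exact absurd hb3 (not_lt_of_ge zero_le)
  have hx'c : x' - c' ≠ 0 := by
    intro h2
    rw [h2, map_zero] at hb4
    rw [hb4] at hb3
    exact absurd hb3 (not_lt_of_ge (by simp))
  -- (c)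
  have hxf : ev f x' ∈ lev (ev f) b (t + (j - 1)) := by
    have := lev_iter hx' (show 1 ≤ t + j by omega)
    rw [Function.iterate_one] at this
    rwa [show t + j - 1 = t + (j - 1) by omega] at this
  have hjx : (ev f)^[j - 1] (ev f x') = x := by
    rw [← Function.iterate_succ_apply, show (j - 1).succ = j by omega]
  have hle : (P.st (ev f x')).relIndex (P.st x) ≤ 1 := by
    have h1 := path_le hT P (m := t) (j := j - 1) (by omega) hxf
    rw [hjx] at h1
    have h2 : ((Finset.range (j - 1)).filter fun i => P.red ((ev f)^[i] (ev f x')) ∈ P.A) = ∅ := by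
      refine Finset.filter_eq_empty_iff.2 fun i hi => ?_
      rw [← Function.iterate_succ_apply]
      exact hno (i + 1) (by omega) (by have := Finset.mem_range.1 hi; omega)
    rw [h2] at h1
    simpa using h1
  have hst1 : P.st (ev f x') = P.st x := by
    apply le_antisymm
    · have := st_mono hT P (ev f x') (j - 1)
      rwa [hjx] at this
    · have h2 := relIndex_pos' (P.st (ev f x')) (P.st x)
      exact Subgroup.relIndex_eq_one.1 (by omega)
  -- (d)
  have hH'H : P.st x' ≤ P.st x := st_mono hT P x' j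
  have hr2 : (P.st x').relIndex (P.st x) ≤ 2 := by
    have := step_two hT P (t := t + (j - 1)) (by omega) (x := x')
      (by rw [show t + (j - 1) + 1 = t + j by omega]; exact hx')
    rwa [hst1] at this
  have hr0 := relIndex_pos' (P.st x') (P.st x)
  have hcard : Nat.card (P.st x') * (P.st x').relIndex (P.st x) = Nat.card (P.st x) := by
    have := Subgroup.relIndex_mul_relIndex ⊥ (P.st x') (P.st x) bot_le hH'H
    rwa [Subgroup.relIndex_bot_left, Subgroup.relIndex_bot_left] at this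
  have hHI : P.st x ≤ Λ.I := inf_le_left
  have hH'I : P.st x' ≤ Λ.I := inf_le_left
  have hfx : ∀ g ∈ P.st x, g • x = x := fun g hg => hg.2
  have hfx' : ∀ g ∈ P.st x', g • x' = x' := fun g hg => hg.2
  -- (e)
  obtain ⟨N1, hN1, hV1⟩ := div_pos Λ (P.st x) hHI (x - c) hxc (fun g hg => by
    rw [smul_sub, hfx g hg, crit_fixed hG (hG.Wroot c hc) (hHI hg)]) h
  obtain ⟨N2, hN2, hV2⟩ := div_pos Λ (P.st x') hH'I (x' - c') hx'c (fun g hg => by
    rw [smul_sub, hfx' g hg, crit_fixed hG (hG.Wroot c' hc') (hH'I hg)]) h'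
  have hcp : 0 < Nat.card (P.st x') := Nat.card_pos
  have hNN : N1 * (P.st x').relIndex (P.st x) = 2 * N2 := by
    have h1 : exp (-((N1 : ℤ) * (Nat.card (P.st x) : ℤ))) =
        exp (-((N2 : ℤ) * (Nat.card (P.st x') : ℤ)) + -((N2 : ℤ) * (Nat.card (P.st x') : ℤ))) := by
      rw [exp_add, ← hV1, ← hV2, hb4, sq]
    have h2 := exp_injective h1
    have h3 : N1 * Nat.card (P.st x) = 2 * (N2 * Nat.card (P.st x')) := by
      have : ((N1 * Nat.card (P.st x) : ℕ) : ℤ) = ((2 * (N2 * Nat.card (P.st x')) : ℕ) : ℤ) := by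
        push_cast
        linarith
      exact_mod_cast this
    rw [← hcard] at h3
    have h4 : Nat.card (P.st x') * (N1 * (P.st x').relIndex (P.st x)) =
        Nat.card (P.st x') * (2 * N2) := by
      calc _ = N1 * (Nat.card (P.st x') * (P.st x').relIndex (P.st x)) := by ring
        _ = 2 * (N2 * Nat.card (P.st x')) := h3
        _ = _ := by ring
    exact Nat.eq_of_mul_eq_mul_left hcp h4
  refine ⟨N1, hN1, hV1, hst1.symm, ?_⟩
  have hr12 : (P.st x').relIndex (P.st x) = 1 ∨ (P.st x').relIndex (P.st x) = 2 := by omega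
  rcases hr12 with hr | hr
  · left
    rw [hr, mul_one] at hNN
    exact ⟨N2, hNN, le_antisymm hH'H (Subgroup.relIndex_eq_one.1 hr), hV2⟩
  · right
    rw [hr] at hNN hcard
    have hN : N2 = N1 := by omega
    subst hN
    refine ⟨?_, by omega, hV2⟩
    by_contra hodd
    rw [Nat.not_odd_iff_even] at hodd
    obtain ⟨M, hM⟩ := hodd
    -- an element which moves `x'`
    have hmov : ∃ g ∈ P.st x, g • x' ≠ x' := by
      by_contra h2
      push Not at h2
      have h3 : P.st x ≤ P.st x' := fun g hg => ⟨hg.1, h2 g hg⟩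
      have := Subgroup.relIndex_eq_one.2 h3
      omega
    obtain ⟨g, hg, hgx⟩ := hmov
    obtain ⟨ϖ, hϖ, hVϖ⟩ := Λ.unif (P.st x) hHI
    have hπ : Λ.V (ϖ ^ M) = Λ.V (x' - c') := by
      rw [map_pow, hVϖ, hV2, ← exp_nsmul]
      congr 1
      rw [nsmul_eq_mul, hM]
      have : (Nat.card (P.st x) : ℤ) = 2 * (Nat.card (P.st x') : ℤ) := by
        rw [← hcard]; push_cast; ring
      rw [this]
      push_cast
      ring
    have hVne : Λ.V (x' - c') ≠ 0 := by
      rw [Ne, map_eq_zero]; exact hx'c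
    have hπ0 : ϖ ^ M ≠ 0 := by
      intro h2
      rw [h2, map_zero] at hπ
      exact hVne hπ.symm
    have hgI : g ∈ Λ.I := hHI hg
    have hgπ : g • (ϖ ^ M) = ϖ ^ M := by rw [smul_pow', hϖ g hg]
    have hgc : g • c' = c' := crit_fixed hG (hG.Wroot c' hc') hgI
    have hθ : Λ.V ((x' - c') / ϖ ^ M) = 1 := by
      rw [map_div₀, hπ, div_self hVne]
    have hgθ : g • ((x' - c') / ϖ ^ M) = (g • x' - c') / ϖ ^ M := by
      rw [smul_div₀', smul_sub, hgc, hgπ]
    have hin : Λ.V ((g • x' - c') / ϖ ^ M - (x' - c') / ϖ ^ M) < 1 := by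
      rw [← hgθ]
      exact Λ.inert g hgI _ hθ.le
    have hgx1 : Λ.V (g • x' - c') < 1 := by
      rw [show g • x' - c' = (g • x' - x') + (x' - c') by ring]
      exact Λ.V.map_add_lt (Λ.inert g hgI _ hxi) h'
    have hge : f.eval (g • x') = f.eval x' := by
      have h2 : ev f (g • x') = g • ev f x' := ev_smul hG g x'
      have h3 : g • ev f x' = ev f x' := by
        have : g ∈ P.st (ev f x') := by rw [hst1]; exact hg
        exact this.2
      exact h2.trans h3
    have hcp2 := crit_pair hG hc' hgx1 h' hge hgx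
    have hadd : Λ.V ((g • x' - c') / ϖ ^ M + (x' - c') / ϖ ^ M) < 1 := by
      rw [show (g • x' - c') / ϖ ^ M + (x' - c') / ϖ ^ M = (g • x' + x' - 2 * c') / ϖ ^ M by ring,
        map_div₀, hπ]
      refine lt_of_le_of_lt (div_le_div_of_nonneg_right hcp2 zero_le) ?_
      rw [sq, mul_div_assoc, div_self hVne, mul_one]
      exact h'
    have h2θ : Λ.V (2 * ((x' - c') / ϖ ^ M)) < 1 := by
      rw [show 2 * ((x' - c') / ϖ ^ M) = ((g • x' - c') / ϖ ^ M + (x' - c') / ϖ ^ M) -
        ((g • x' - c') / ϖ ^ M - (x' - c') / ϖ ^ M) by ring]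
      exact Λ.V.map_sub_lt hadd hin
    rw [two_mul_val hG, hθ] at h2θ
    exact lt_irrefl _ h2θ

end Pool.Agent.H42.PC
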