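/-
Row DLate (about 150 lines): at all levels ≥ t0 := (n+1) * (n * (v0+1)) every digit is moved by the inertia stabiliser of its parent; conclusion Cyc.

 NOTATION. P := mkPlace ...; hC := weak_cyc (hb < 1 since v0, E ≥ 1). For a digit x (x ∈ lev t, OnC, c ∈ W, V (x - c) < 1, t ≥ n v0) let N1(x) be the natural number with V (x - c) = exp (-(N1 |st x|)).
 prev : x digit of level t with n v0 < t ≤ N: there is a smallest i ≥ 1 with ball (f^[i] x) ∈ A, and i ≤ n, t - i ≥ n v0: the level l := n * ((t-1)/n) satisfies n v0 ≤ l < t, t - l ≤ n, and ball (f^[t-l] x) = ball b ∈ A by onC_eq (onC_iter). (Nat.find)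
 size : claim (strong induction on t): for a digit x of level t ≥ n v0 with V (x - c) = exp (-(N1 |st x|)), N1 ≥ 1 : Odd N1 or 2^((t - n v0)/n) * N1 < 2^(n v0).
   t = n v0: V (x - c) > exp (-E) (shallow), so N1 |st x| < E = |I|, and |I| ≤ 2^t |st x| (path_le with j = t: f^[t] x = b, st b = I as b is fixed; the filter has at most t elements; card = relIndex * card). So N1 < 2^t.
   t > n v0: i := prev, x_p := f^[i] x digit of level t - i ≥ n v0. parity (j := i): N1(x_p) =: M'. If Odd M' then V (x - c) = exp (-(M' |st x|)) so N1 = M' is odd. (exp injective, |st x| ≥ 1.) If M' = 2 M, then N1 = M and st x = st x_p. If N1 is odd done. Otherwise M' even (M' = 2M), so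
   induction gives 2^((t-i-n v0)/n) M' < 2^(n v0), and (t - n v0)/n ≤ (t - i - n v0)/n + 1 since i ≤ n.
 odd : for t ≥ (n+1) n v0 : (t - n v0)/n ≥ n v0 so N1 is odd.
 hdig : m ≥ t0, m < N, w ∈ lev m OnC, x child of w, OnC, ball x ∈ A, say c ∈ W with V (x - c) < 1. Level of x: m + 1 > n v0. i := prev, x_p level m + 1 - i ≥ m + 1 - n ≥ (n+1) n v0 (t0 = (n+1) n v0 + (n+1) n ≥ (n+1) n v0 + n), so N1(x_p) is odd by odd. parity: |st x_p| = 2 |st x| and
   st x_p = st (f x) = st w. So some g ∈ st w is not in st x (cardinalities): g ∈ I, g w = w, g x ≠ x.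
-/
import Pool.Agent.H42.PC.DPar

set_option autoImplicit false

namespace Pool.Agent.H42.PC

open Polynomial WithZero

variable {G L : Type} [Group G] [Field L] [MulSemiringAction G L] [Finite G] {Λ : Loc G L}
  {f : L[X]} {b : L} {W : Finset L} {J s N : ℕ}

private theorem dLate_crit {x : L} (h : ball Λ x ∈ (ball Λ) '' (W : Set L)) :
    ∃ c ∈ W, Λ.V (x - c) < 1 := by
  obtain ⟨c, hc, he⟩ := h
  exact ⟨c, hc, ball_eq.1 he.symm⟩

private theorem dLate_cardpos (H : Subgroup G) : 0 < Nat.card H := Nat.card_pos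

private theorem dLate_inj {a c k : ℕ} (hk : 0 < k)
    (h : (exp (-((a : ℤ) * (k : ℤ))) : ℤᵐ⁰) = exp (-((c : ℤ) * (k : ℤ)))) : a = c := by
  have h1 := exp_injective h
  have h2 : ((a * k : ℕ) : ℤ) = ((c * k : ℕ) : ℤ) := by
    push_cast
    linarith
  have h3 : a * k = c * k := by exact_mod_cast h2
  exact Nat.eq_of_mul_eq_mul_right hk h3

/-- the previous digit -/
private theorem dLate_prev (hG : Good Λ f b W J) (hs : W.card ≤ s) {n v0 t1 : ℕ} (hn : 1 ≤ n)
    (hC : Cyc (mkPlace hG s N hs) n t1) {t : ℕ} (ht : n * v0 < t) (htN : t ≤ N) {x : L}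
    (hx : x ∈ lev (ev f) b t) (hon : (mkPlace hG s N hs).OnC x) :
    ∃ i, 1 ≤ i ∧ i ≤ n ∧ n * v0 ≤ t - i ∧ i ≤ t ∧
      ball Λ ((ev f)^[i] x) ∈ (ball Λ) '' (W : Set L) ∧
      ∀ i', 1 ≤ i' → i' < i → ball Λ ((ev f)^[i'] x) ∉ (ball Λ) '' (W : Set L) := by
  classical
  set q := (t - 1) / n with hq
  have h1 : n * q ≤ t - 1 := Nat.mul_div_le _ _
  have h2 : v0 ≤ q := (Nat.le_div_iff_mul_le (by omega)).2 (by rw [mul_comm]; omega)
  have h3 : t - 1 < n * (q + 1) := Nat.lt_mul_div_succ _ (by omega)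
  have h3' : n * (q + 1) = n * q + n := by ring
  have h4 : n * v0 ≤ n * q := Nat.mul_le_mul_left _ h2
  have hmem : ball Λ ((ev f)^[t - n * q] x) ∈ (ball Λ) '' (W : Set L) := by
    have ha : (ev f)^[t - n * q] x ∈ lev (ev f) b (n * q) := by
      have := lev_iter hx (show t - n * q ≤ t by omega)
      rwa [show t - (t - n * q) = n * q by omega] at this
    have hb : (mkPlace hG s N hs).OnC ((ev f)^[t - n * q] x) :=
      onC_iter _ (by omega) htN hx hon
    have hc : (mkPlace hG s N hs).red ((ev f)^[t - n * q] x) = (mkPlace hG s N hs).red b :=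
      onC_eq hC (by omega) (Dvd.intro _ rfl) ha hb
    have hd := hC.hb
    rw [← hc] at hd
    exact hd
  have hex : ∃ i, 1 ≤ i ∧ ball Λ ((ev f)^[i] x) ∈ (ball Λ) '' (W : Set L) :=
    ⟨t - n * q, by omega, hmem⟩
  have hspec := Nat.find_spec hex
  have hle : Nat.find hex ≤ t - n * q := Nat.find_min' hex ⟨by omega, hmem⟩
  refine ⟨Nat.find hex, hspec.1, by omega, by omega, by omega, hspec.2, ?_⟩
  intro i' h1' h2' hbad
  exact Nat.find_min hex h2' ⟨h1', hbad⟩

private theorem dLate_size (hG : Good Λ f b W J) (hs : W.card ≤ s)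
    (hT : Tree G (ev f) b f.natDegree N) {n v0 t1 : ℕ} (hn : 1 ≤ n) (hv : 1 ≤ v0)
    (hb : Λ.V ((ev f)^[n] b - b) = exp (-((v0 : ℤ) * (Nat.card Λ.I : ℤ))))
    (hC : Cyc (mkPlace hG s N hs) n t1) (t : ℕ) :
    n * v0 ≤ t → t ≤ N → ∀ x ∈ lev (ev f) b t, (mkPlace hG s N hs).OnC x → ∀ c ∈ W,
      Λ.V (x - c) < 1 → ∀ N1 : ℕ,
      Λ.V (x - c) = exp (-((N1 : ℤ) * (Nat.card ((mkPlace hG s N hs).st x) : ℤ))) →
      Odd N1 ∨ 2 ^ ((t - n * v0) / n) * N1 < 2 ^ (n * v0) := by
  classical
  induction t using Nat.strong_induction_on with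
  | _ t ih =>
  intro ht htN x hx hon c hc hxc N1 hV
  set P := mkPlace hG s N hs with hP
  rcases ht.eq_or_lt with he | hlt
  · right
    have h1 : exp (-(Nat.card Λ.I : ℤ)) < Λ.V (x - c) := by
      by_contra h2
      push Not at h2
      have := shallow hG hs hT hn hv hb htN hx hon hc h2
      omega
    rw [hV, exp_lt_exp] at h1
    have h2 : N1 * Nat.card (P.st x) < Nat.card Λ.I := by
      have h3 : ((N1 * Nat.card (P.st x) : ℕ) : ℤ) < (Nat.card Λ.I : ℤ) := by
        push_cast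
        linarith
      exact_mod_cast h3
    have h3 := path_le hT P (m := 0) (j := t) (by omega) (u := x) (by rwa [zero_add])
    have hbx : (ev f)^[t] x = b := hx
    have hstb : P.st ((ev f)^[t] x) = Λ.I := by
      rw [hbx]
      ext g
      rw [GSt_mem]
      exact ⟨fun h => h.1, fun h => ⟨h, hG.fixb g⟩⟩
    rw [hstb] at h3
    have h4 : ((Finset.range t).filter fun i => P.red ((ev f)^[i] x) ∈ P.A).card ≤ t :=
      (Finset.card_filter_le _ _).trans (by rw [Finset.card_range])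
    have h5 : (P.st x).relIndex Λ.I ≤ 2 ^ t :=
      h3.trans (Nat.pow_le_pow_right (by norm_num) h4)
    have hle : P.st x ≤ Λ.I := inf_le_left
    have h6 : Nat.card (P.st x) * (P.st x).relIndex Λ.I = Nat.card Λ.I := by
      have := Subgroup.relIndex_mul_relIndex ⊥ (P.st x) Λ.I bot_le hle
      rwa [Subgroup.relIndex_bot_left, Subgroup.relIndex_bot_left] at this
    have h7 : N1 < 2 ^ t := by
      by_contra h8
      push Not at h8
      have h9 : Nat.card (P.st x) * (P.st x).relIndex Λ.I ≤ N1 * Nat.card (P.st x) := by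
        rw [mul_comm]
        exact Nat.mul_le_mul_right _ (h5.trans h8)
      omega
    rw [← he, Nat.sub_self, Nat.zero_div, pow_zero, one_mul, he]
    exact h7
  · obtain ⟨i, hi1, hin, hit, hitt, hA, hno⟩ := dLate_prev hG hs hn hC hlt htN hx hon
    obtain ⟨cp, hcp, hxp⟩ := dLate_crit hA
    have hti : t - i + i = t := by omega
    obtain ⟨M', hM1, hM2, hM3, hM4⟩ := parity hG hs hT hn hv hb (t := t - i) (j := i) hi1
      (by omega) hit (x' := x) (by rw [hti]; exact hx) hon hcp hc hxp hxc hno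
    rcases hM4 with ⟨M, hM, hst, hVM⟩ | ⟨hodd, _, hVM⟩
    · have hN : N1 = M := dLate_inj (dLate_cardpos _) (hV.symm.trans hVM)
      subst hN
      have hxl : (ev f)^[i] x ∈ lev (ev f) b (t - i) := lev_iter hx hitt
      have honi : P.OnC ((ev f)^[i] x) := onC_iter P hitt htN hx hon
      rcases ih (t - i) (by omega) hit (by omega) _ hxl honi cp hcp hxp M' hM2 with h | h
      · exfalso
        rw [hM] at h
        exact (Nat.not_odd_iff_even.2 (even_two_mul N1)) h
      · right
        have h1 : (t - n * v0) / n ≤ (t - i - n * v0) / n + 1 := by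
          rw [← Nat.add_div_right _ (by omega : 0 < n)]
          exact Nat.div_le_div_right (by omega)
        calc 2 ^ ((t - n * v0) / n) * N1 ≤ 2 ^ ((t - i - n * v0) / n + 1) * N1 :=
              Nat.mul_le_mul_right _ (Nat.pow_le_pow_right (by norm_num) h1)
          _ = 2 ^ ((t - i - n * v0) / n) * M' := by rw [hM, pow_succ]; ring
          _ < _ := h
    · left
      have hN : N1 = M' := dLate_inj (dLate_cardpos _) (hV.symm.trans hVM)
      rw [hN]
      exact hodd

theorem strong_cyc (hG : Good Λ f b W J) (hs : W.card ≤ s)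
    (hT : Tree G (ev f) b f.natDegree N) {n v0 : ℕ} (hn : 1 ≤ n) (hv : 1 ≤ v0)
    (hb : Λ.V ((ev f)^[n] b - b) = exp (-((v0 : ℤ) * (Nat.card Λ.I : ℤ)))) :
    Cyc (mkPlace hG s N hs) n ((n + 1) * (n * (v0 + 1))) := by
  have hlt : Λ.V ((ev f)^[n] b - b) < 1 := by
    rw [hb, ← exp_zero, exp_lt_exp]
    have h1 : (0 : ℤ) < (Nat.card Λ.I : ℤ) := by exact_mod_cast dLate_cardpos Λ.I
    have h2 : (0 : ℤ) < (v0 : ℤ) := by exact_mod_cast hv
    have := mul_pos h2 h1
    linarith
  have hC := weak_cyc hG hs hT hn hlt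
  refine ⟨hC.hn, hC.hb, hC.hcyc, hC.hex, ?_⟩
  intro m hm hmN w hw honw x hxw honx hxA
  set P := mkPlace hG s N hs with hP
  have hexp : (n + 1) * (n * (v0 + 1)) = (n + 1) * (n * v0) + (n + 1) * n := by ring
  have hn1 : n * v0 ≤ (n + 1) * (n * v0) := Nat.le_mul_of_pos_left _ (by omega)
  have hn2 : n + 1 ≤ (n + 1) * n := Nat.le_mul_of_pos_right _ (by omega)
  have hxl : x ∈ lev (ev f) b (m + 1) := lev_up (j := 1) (by
    rw [Function.iterate_one, hxw]; exact hw)
  have hxA' : ball Λ x ∈ (ball Λ) '' (W : Set L) := hxA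
  obtain ⟨c, hc, hxc⟩ := dLate_crit hxA'
  obtain ⟨i, hi1, hin, hit, hitt, hA, hno⟩ := dLate_prev hG hs (v0 := v0) hn hC
    (t := m + 1) (by omega) (by omega) hxl honx
  obtain ⟨cp, hcp, hxp⟩ := dLate_crit hA
  have hti : m + 1 - i + i = m + 1 := by omega
  obtain ⟨M', hM1, hM2, hM3, hM4⟩ := parity hG hs hT hn hv hb (t := m + 1 - i) (j := i) hi1
    (by omega) hit (x' := x) (by rw [hti]; exact hxl) honx hcp hc hxp hxc hno
  have hxi : (ev f)^[i] x ∈ lev (ev f) b (m + 1 - i) := lev_iter hxl hitt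
  have honi : P.OnC ((ev f)^[i] x) := onC_iter P hitt (by omega) hxl honx
  have hodd : Odd M' := by
    rcases dLate_size hG hs hT hn hv hb hC (m + 1 - i) hit (by omega) _ hxi honi cp hcp hxp M'
      hM2 with h | h
    · exact h
    · exfalso
      have h1 : n * v0 ≤ (m + 1 - i - n * v0) / n := by
        rw [Nat.le_div_iff_mul_le (by omega)]
        have e1 : (n + 1) * (n * v0) = n * v0 * n + n * v0 := by ring
        omega
      have h2 : 2 ^ (n * v0) ≤ 2 ^ ((m + 1 - i - n * v0) / n) * M' :=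
        (Nat.pow_le_pow_right (by norm_num) h1).trans (Nat.le_mul_of_pos_right _ (by omega))
      omega
  rcases hM4 with ⟨M, hM, _, _⟩ | ⟨_, hcard, _⟩
  · exfalso
    rw [hM] at hodd
    exact (Nat.not_odd_iff_even.2 (even_two_mul M)) hodd
  · have hstw : P.st w = P.st ((ev f)^[i] x) := by
      rw [← hxw]
      exact hM3.symm
    by_contra hcon
    push Not at hcon
    have hle : P.st ((ev f)^[i] x) ≤ P.st x := by
      rw [← hstw]
      intro g hg
      rw [GSt_mem] at hg ⊢
      exact ⟨hg.1, hcon g hg.1 hg.2⟩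
    have h1 := Subgroup.card_le_of_le hle
    have h2 := dLate_cardpos (P.st x)
    have h3 : Nat.card (P.st ((ev f)^[i] x)) = 2 * Nat.card (P.st x) := hcard
    omega

end Pool.Agent.H42.PC
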