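/-
Row DLoc (about 180 lines): the local data of a prime 𝔓 = w of a Galois extension L/K of number fields.

 V := w.valuation L, I := w.asIdeal.inertia (L ≃ₐ[K] L).
 inv : g ∈ I gives g 𝔓 = 𝔓 (x ∈ 𝔓 iff g x ∈ 𝔓 since g x - x ∈ 𝔓), so V (g x) = V x: e.g. intValuation is determined by membership in the powers of 𝔓 (g 𝔓^n = 𝔓^n), or use that x ↦ V (g x) is the valuation of the prime g⁻¹ 𝔓 = 𝔓
   (search HeightOneSpectrum valuation comap / equiv); x = a / c with a c : 𝓞 L.
 inert : V x ≤ 1: x = a / c with a c ∈ 𝓞 L, c ∉ 𝔓 (search: IsDedekindDomain.HeightOneSpectrum.exists... valuation_le_one; the localization at 𝔓; e.g. choose c' ∈ 𝓞 L with x c' integral and multiply using weak approximation, or IsLocalization.AtPrime and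
   the valuation ring; an elementary way: x = a / e; let n = v(e) ≤ v(a). Choose u ∈ 𝓞 L with u ∈ (e) * 𝔓^(-n) but u ∉ ... so that u = e * y with y having valuation -n, i.e. u ∉ 𝔓; x = a y / (e y): a y is integral at all primes). Then g x - x = (g a * c - a * g c) / (c * g c), the numerator
   (g a - a) c - a (g c - c) is in 𝔓, the denominator is a unit at 𝔓 (g c ∉ 𝔓).
 div, unif : H ≤ I; M := IntermediateField.fixedField H; L/M is Galois with group H (IntermediateField.fixingSubgroup_fixedField, IsGalois). q := the prime of 𝓞 M below w (𝔓 ∩ 𝓞 M, HeightOneSpectrum; nonzero). val_pow: V z = (q.valuation M z)^e, e = card of the inertia group of 𝔓 in L ≃ₐ[M] L. Every element of L ≃ₐ[M] L,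
   seen in L ≃ₐ[K] L (AlgEquiv.restrictScalars), is in fixingSubgroup M = H ≤ I, so it is an inertia element: the inertia group is everything and e = card (L ≃ₐ[M] L) = card H.
   div: z ≠ 0 fixed by H is in M; q.valuation M z = exp k for some k (nonzero element of ℤᵐ⁰), so V z = exp (k)^e = exp (e k). unif: q.valuation_exists_uniformizer M: π with valuation exp (-1).
 base : for v the prime of K below w: V z = (v.valuation K z)^(card I) for z in K: val_pow with M = K.
-/
import Pool.Agent.H42.PC.DVal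
import Pool.Agent.H42.PC.DDefs

set_option autoImplicit false

namespace Pool.Agent.H42.PC

open NumberField IsDedekindDomain WithZero

variable {K L : Type} [Field K] [NumberField K] [Field L] [NumberField L] [Algebra K L]
  [IsGalois K L]

theorem DLoc_mem (w : HeightOneSpectrum (𝓞 L)) (g : L ≃ₐ[K] L)
    (hg : g ∈ w.asIdeal.inertia (L ≃ₐ[K] L)) (x : 𝓞 L) (hx : x ∈ w.asIdeal) :
    g • x ∈ w.asIdeal := by
  have h1 : g • x - x ∈ w.asIdeal := hg x
  have h2 := w.asIdeal.add_mem h1 hx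
  rwa [sub_add_cancel] at h2

theorem DLoc_pow (w : HeightOneSpectrum (𝓞 L)) (g : L ≃ₐ[K] L)
    (hg : g ∈ w.asIdeal.inertia (L ≃ₐ[K] L)) (n : ℕ) (x : 𝓞 L) (hx : x ∈ w.asIdeal ^ n) :
    g • x ∈ w.asIdeal ^ n := by
  have h1 : Ideal.map (MulSemiringAction.toRingHom (L ≃ₐ[K] L) (𝓞 L) g) w.asIdeal ≤ w.asIdeal := by
    rw [Ideal.map_le_iff_le_comap]
    intro y hy
    exact DLoc_mem w g hg y hy
  have h2 : MulSemiringAction.toRingHom (L ≃ₐ[K] L) (𝓞 L) g x ∈
      Ideal.map (MulSemiringAction.toRingHom (L ≃ₐ[K] L) (𝓞 L) g) (w.asIdeal ^ n) :=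
    Ideal.mem_map_of_mem _ hx
  rw [Ideal.map_pow] at h2
  exact Ideal.pow_right_mono h1 n h2

theorem DLoc_int_le (w : HeightOneSpectrum (𝓞 L)) (g : L ≃ₐ[K] L)
    (hg : g ∈ w.asIdeal.inertia (L ≃ₐ[K] L)) (x : 𝓞 L) :
    w.intValuation (g • x) ≤ w.intValuation x := by
  by_cases hx : x = 0
  · rw [hx, smul_zero]
  · rw [w.intValuation_eq_exp_neg_multiplicity hx, w.intValuation_le_pow_iff_mem]
    apply DLoc_pow w g hg
    rw [← w.intValuation_le_pow_iff_mem, w.intValuation_eq_exp_neg_multiplicity hx]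

theorem DLoc_int (w : HeightOneSpectrum (𝓞 L)) (g : L ≃ₐ[K] L)
    (hg : g ∈ w.asIdeal.inertia (L ≃ₐ[K] L)) (x : 𝓞 L) :
    w.intValuation (g • x) = w.intValuation x := by
  refine le_antisymm (DLoc_int_le w g hg x) ?_
  have h1 := DLoc_int_le w g⁻¹ (inv_mem hg) (g • x)
  rwa [inv_smul_smul] at h1

theorem loc_inv (w : HeightOneSpectrum (𝓞 L)) (g : L ≃ₐ[K] L)
    (hg : g ∈ w.asIdeal.inertia (L ≃ₐ[K] L)) (x : L) : w.valuation L (g • x) = w.valuation L x := by
  obtain ⟨a, c, hc, rfl⟩ := IsFractionRing.div_surjective (A := 𝓞 L) x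
  have h1 : g • (algebraMap (𝓞 L) L a / algebraMap (𝓞 L) L c) =
      algebraMap (𝓞 L) L (g • a) / algebraMap (𝓞 L) L (g • c) := by
    rw [algebraMap.smul' g a L, algebraMap.smul' g c L]
    exact map_div₀ g _ _
  rw [h1, map_div₀, map_div₀, w.valuation_of_algebraMap, w.valuation_of_algebraMap,
    w.valuation_of_algebraMap, w.valuation_of_algebraMap, DLoc_int w g hg, DLoc_int w g hg]

theorem loc_inert (w : HeightOneSpectrum (𝓞 L)) (g : L ≃ₐ[K] L)
    (hg : g ∈ w.asIdeal.inertia (L ≃ₐ[K] L)) (x : L) (hx : w.valuation L x ≤ 1) :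
    w.valuation L (g • x - x) < 1 := by
  obtain ⟨n, d, hnd⟩ := w.exists_primeCompl_mul_eq_of_integer x hx
  have hd : w.valuation L (algebraMap (𝓞 L) L d) = 1 := by
    rw [w.valuation_of_algebraMap]
    exact (w.intValuation_eq_one_iff_mem_primeCompl d).2 d.2
  have hgd : w.valuation L (g • algebraMap (𝓞 L) L d) = 1 := by
    rw [loc_inv w g hg, hd]
  have hgnd : (g • x) * (g • algebraMap (𝓞 L) L d) = g • algebraMap (𝓞 L) L n := by
    rw [← smul_mul', hnd]
  have h1 : (g • x - x) * (algebraMap (𝓞 L) L d * (g • algebraMap (𝓞 L) L d)) =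
      algebraMap (𝓞 L) L ((g • n - n) * (d : 𝓞 L) - n * (g • (d : 𝓞 L) - d)) := by
    rw [map_sub, map_mul, map_mul, map_sub, map_sub, algebraMap.smul' g n L,
      algebraMap.smul' g (d : 𝓞 L) L]
    linear_combination (algebraMap (𝓞 L) L d) * hgnd - (g • algebraMap (𝓞 L) L (d : 𝓞 L)) * hnd
  have h2 : (g • n - n) * (d : 𝓞 L) - n * (g • (d : 𝓞 L) - d) ∈ w.asIdeal :=
    w.asIdeal.sub_mem (w.asIdeal.mul_mem_right _ (hg n)) (w.asIdeal.mul_mem_left _ (hg d))
  have h3 : w.valuation L ((g • x - x) * (algebraMap (𝓞 L) L d * (g • algebraMap (𝓞 L) L d))) < 1 := by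
    rw [h1]
    exact (w.valuation_lt_one_iff_mem _).2 h2
  rwa [map_mul, map_mul, hd, hgd, mul_one, mul_one] at h3

theorem DLoc_val (w : HeightOneSpectrum (𝓞 L)) (H : Subgroup (L ≃ₐ[K] L))
    (hH : H ≤ w.asIdeal.inertia (L ≃ₐ[K] L)) :
    ∃ v : HeightOneSpectrum (𝓞 (IntermediateField.fixedField H)),
      ∀ x : IntermediateField.fixedField H,
        w.valuation L (x : L) = v.valuation (IntermediateField.fixedField H) x ^ Nat.card H := by
  set M := IntermediateField.fixedField H with hM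
  have hcard : Nat.card (w.asIdeal.inertia (L ≃ₐ[M] L)) = Nat.card H := by
    have h1 : w.asIdeal.inertia (L ≃ₐ[M] L) = ⊤ := by
      rw [eq_top_iff]
      intro σ _
      have h2 : σ.restrictScalars K ∈ M.fixingSubgroup := by
        rw [IntermediateField.mem_fixingSubgroup_iff]
        intro x hx
        exact σ.commutes ⟨x, hx⟩
      have h4 : M.fixingSubgroup = H := by
        rw [hM]
        exact IntermediateField.fixingSubgroup_fixedField H
      rw [h4] at h2
      exact hH h2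
    rw [h1, Subgroup.card_top, IsGalois.card_aut_eq_finrank, hM,
      IntermediateField.finrank_fixedField_eq_card]
  refine ⟨w.under (𝓞 M), fun x => ?_⟩
  have h5 : w.asIdeal.LiesOver (w.under (𝓞 M)).asIdeal := ⟨rfl⟩
  have h3 := val_pow (w.under (𝓞 M)) w h5 x
  rw [hcard] at h3
  exact h3

theorem loc_div (w : HeightOneSpectrum (𝓞 L)) (H : Subgroup (L ≃ₐ[K] L))
    (hH : H ≤ w.asIdeal.inertia (L ≃ₐ[K] L)) (z : L) (hz : z ≠ 0) (h : ∀ g ∈ H, g • z = z) :
    ∃ k : ℤ, w.valuation L z = exp (k * (Nat.card H : ℤ)) := by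
  obtain ⟨v, hv⟩ := DLoc_val w H hH
  have hzm : z ∈ IntermediateField.fixedField H := by
    rw [IntermediateField.mem_fixedField_iff]
    intro g hg
    exact h g hg
  have h1 := hv ⟨z, hzm⟩
  have h2 : (⟨z, hzm⟩ : IntermediateField.fixedField H) ≠ 0 := fun hc =>
    hz (congrArg Subtype.val hc)
  have h3 : v.valuation (IntermediateField.fixedField H) ⟨z, hzm⟩ ≠ 0 :=
    (Valuation.ne_zero_iff _).2 h2
  refine ⟨log (v.valuation (IntermediateField.fixedField H) ⟨z, hzm⟩), ?_⟩
  rw [h1, mul_comm, ← nsmul_eq_mul, exp_nsmul, exp_log h3]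

theorem loc_unif (w : HeightOneSpectrum (𝓞 L)) (H : Subgroup (L ≃ₐ[K] L))
    (hH : H ≤ w.asIdeal.inertia (L ≃ₐ[K] L)) :
    ∃ z : L, (∀ g ∈ H, g • z = z) ∧ w.valuation L z = exp (-(Nat.card H : ℤ)) := by
  obtain ⟨v, hv⟩ := DLoc_val w H hH
  obtain ⟨π, hπ⟩ := v.valuation_exists_uniformizer (IntermediateField.fixedField H)
  refine ⟨π, ?_, ?_⟩
  · intro g hg
    have h1 := π.2
    rw [IntermediateField.mem_fixedField_iff] at h1
    exact h1 g hg
  · rw [hv π, hπ, ← exp_nsmul]
    congr 1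
    simp

/-- The local data of a prime of a Galois extension. -/
noncomputable def mkLoc (K : Type) {L : Type} [Field K] [NumberField K] [Field L] [NumberField L]
    [Algebra K L] [IsGalois K L] (w : HeightOneSpectrum (𝓞 L)) : Loc (L ≃ₐ[K] L) L where
  V := w.valuation L
  I := w.asIdeal.inertia (L ≃ₐ[K] L)
  inv := fun g hg x => loc_inv w g hg x
  inert := fun g hg x hx => loc_inert w g hg x hx
  div := fun H hH z hz h => loc_div w H hH z hz h
  unif := fun H hH => loc_unif w H hH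

end Pool.Agent.H42.PC
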