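/-
Row DVal (about 90 lines): in a Galois extension L/M of number fields the valuation of L at 𝔓 restricted to M is the |inertia|-th power of that of M.

PROOF. IsDedekindDomain.HeightOneSpectrum.valuation_liesOver (Mathlib.NumberTheory.RamificationInertia.Valuation) gives the exponent v.asIdeal.ramificationIdx' w.asIdeal; ramificationIdx' equals Ideal.ramificationIdx for w over v (search ramificationIdx'_eq...),
 which equals ramificationIdxIn (Ideal.ramificationIdxIn_eq_ramificationIdx with IsGaloisGroup (L ≃ₐ[M] L) (𝓞 M) (𝓞 L)), which equals the cardinality of the inertia group (Ideal.card_inertia_eq_ramificationIdxIn; the residue field is finite hence perfect).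
 inertia_mem : g ∈ w.asIdeal.inertia (L ≃ₐ[M] L) iff for all x : 𝓞 L, g • x - x ∈ w.asIdeal (unfold; AddSubgroup.mem_inertia).
-/
import Mathlib

set_option autoImplicit false

namespace Pool.Agent.H42.PC

open NumberField IsDedekindDomain WithZero

variable {M L : Type} [Field M] [NumberField M] [Field L] [NumberField L] [Algebra M L]
  [IsGalois M L]

theorem val_pow (v : HeightOneSpectrum (𝓞 M)) (w : HeightOneSpectrum (𝓞 L))
    (hvw : w.asIdeal.LiesOver v.asIdeal) (x : M) :
    w.valuation L (algebraMap M L x) =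
      v.valuation M x ^ Nat.card (w.asIdeal.inertia (L ≃ₐ[M] L)) := by
  have := hvw
  rw [← HeightOneSpectrum.valuation_liesOver (K := M) L v w x]
  congr 1
  have hG : IsGaloisGroup (L ≃ₐ[M] L) (𝓞 M) (𝓞 L) := inferInstance
  have : v.asIdeal.IsMaximal := v.isMaximal
  have hfin : Finite (𝓞 M ⧸ v.asIdeal) := Ring.HasFiniteQuotients.finiteQuotient v.ne_bot
  have : w.asIdeal.IsPrime := w.isPrime
  have : v.asIdeal.IsPrime := v.isPrime
  rw [Ideal.card_inertia_eq_ramificationIdxIn v.asIdeal w.asIdeal,
    Ideal.ramificationIdxIn_eq_ramificationIdx v.asIdeal w.asIdeal (L ≃ₐ[M] L),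
    Ideal.ramificationIdx'_eq_ramificationIdx v.asIdeal w.asIdeal v.ne_bot]

theorem inertia_mem (w : HeightOneSpectrum (𝓞 L)) (g : L ≃ₐ[M] L) :
    g ∈ w.asIdeal.inertia (L ≃ₐ[M] L) ↔ ∀ x : 𝓞 L, g • x - x ∈ w.asIdeal := by
  exact Iff.rfl

end Pool.Agent.H42.PC
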