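import Pool.Agent.H42.PC.DDefs
import Pool.Agent.H42.PC.BDefs

/-! Assembly: definitions over number fields. -/

set_option autoImplicit false

namespace Pool.Agent.H42.PC

open Polynomial NumberField IsDedekindDomain

open scoped Classical

/-- The map `x ↦ f x` on a `K`-algebra `A`. -/
noncomputable abbrev FA {K : Type} [Field K] (f : K[X]) (A : Type) [Field A] [Algebra K A] :
    A → A := ev (f.map (algebraMap K A))

/-- infinite forward orbit -/
def Wandering {K : Type} [Field K] (f : K[X]) {A : Type} [Field A] [Algebra K A] (c : A) : Prop :=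
  (Set.range fun n : ℕ => (FA f A)^[n] c).Infinite

/-- `β` is a wandering critical point, the wandering critical points in `A` are simple and have
disjoint forward orbits. -/
structure GP {K : Type} [Field K] (f : K[X]) (β : K) (A : Type) [Field A] [Algebra K A] :
    Prop where
  crit : (derivative f).eval β = 0
  wan : Wandering f β
  simple : ∀ c : A, aeval c (derivative f) = 0 → Wandering f c →
    aeval c (derivative (derivative f)) ≠ 0
  disj : ∀ c c' : A, aeval c (derivative f) = 0 → aeval c' (derivative f) = 0 →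
    Wandering f c → Wandering f c' → c ≠ c' → ∀ i j : ℕ, (FA f A)^[i] c ≠ (FA f A)^[j] c'

/-- the wandering critical points in `M` -/
noncomputable def Wd {K : Type} [Field K] (f : K[X]) (M : Type) [Field M] [Algebra K M] :
    Finset M :=
  (((derivative f).map (algebraMap K M)).roots.toFinset).filter fun c => Wandering f c

/-- `v` is a good prime up to `J` iterations; the critical points live in `M`. -/
structure GoodK {K : Type} [Field K] [NumberField K] (f : K[X]) (β : K) (M : Type) [Field M]
    [NumberField M] [Algebra K M] (J : ℕ) (v : HeightOneSpectrum (𝓞 K)) : Prop where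
  int : ∀ i, v.valuation K (f.coeff i) ≤ 1
  lead : v.valuation K f.leadingCoeff = 1
  two : v.valuation K 2 = 1
  dd : v.valuation K (f.natDegree : K) = 1
  bint : v.valuation K β ≤ 1
  G1 : ∀ q : HeightOneSpectrum (𝓞 M), q.asIdeal.LiesOver v.asIdeal → ∀ c c' : M,
    aeval c (derivative f) = 0 → aeval c' (derivative f) = 0 → c ≠ c' →
    q.valuation M (c - c') = 1
  G2 : ∀ q : HeightOneSpectrum (𝓞 M), q.asIdeal.LiesOver v.asIdeal → ∀ c ∈ Wd f M,
    ∀ c' ∈ Wd f M, ∀ i ≤ J, ∀ j ≤ J,
    q.valuation M ((FA f M)^[i] c - (FA f M)^[j] c') < 1 → c = c' ∧ i = j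
  G3 : ∀ q : HeightOneSpectrum (𝓞 M), q.asIdeal.LiesOver v.asIdeal → ∀ c : M,
    aeval c (derivative f) = 0 → c ∉ Wd f M → ∀ t,
    ¬ q.valuation M ((FA f M)^[t] c - algebraMap K M β) < 1

/-- The orbit of level `t` belonging to the factor `h` of level `n0`. -/
def OO {K : Type} [Field K] (f h : K[X]) (n0 : ℕ) (L : Type) [Field L] [Algebra K L] (t : ℕ) :
    Set L :=
  {x | ∃ y : L, aeval y h = 0 ∧ ((n0 ≤ t ∧ (FA f L)^[t - n0] x = y) ∨
    (t < n0 ∧ (FA f L)^[n0 - t] y = x))}

/-- Primes modulo which `β` is periodic and some iterate of `β` is a root of `h`. -/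
def SS {K : Type} [Field K] [NumberField K] (f h : K[X]) (β : K) :
    Set (HeightOneSpectrum (𝓞 K)) :=
  {v | (∃ n, 1 ≤ n ∧ v.valuation K ((FA f K)^[n] β - β) < 1) ∧
    ∃ k, v.valuation K (h.eval ((FA f K)^[k] β)) < 1}

/-- The proportion of elements of the Galois group of `f^t - β` fixing a point of the orbit. -/
noncomputable def qq {K : Type} [Field K] (f h : K[X]) (β : K) (n0 t : ℕ) : ℝ :=
  q (((f.comp^[t] X - C β).SplittingField) ≃ₐ[K] ((f.comp^[t] X - C β).SplittingField))
    (OO f h n0 ((f.comp^[t] X - C β).SplittingField)) t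

/-- Eventual stability. -/
def ES {K : Type} [Field K] (f : K[X]) (β : K) : Prop :=
  ∃ B : ℕ, ∀ n, {g : K[X] | g.Monic ∧ Irreducible g ∧ g ∣ f.comp^[n] X - C β}.ncard ≤ B

/-- From level `n0` the fibres of conjugate points consist of conjugate points. -/
def Stab {K : Type} [Field K] (f : K[X]) (β : K) (n0 : ℕ) : Prop :=
  ∀ n, n0 ≤ n → ∀ x x' : AlgebraicClosure K,
    (FA f (AlgebraicClosure K))^[n + 1] x = algebraMap K (AlgebraicClosure K) β →
    (FA f (AlgebraicClosure K))^[n + 1] x' = algebraMap K (AlgebraicClosure K) β →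
    minpoly K (FA f (AlgebraicClosure K) x) = minpoly K (FA f (AlgebraicClosure K) x') →
    minpoly K x = minpoly K x'

end Pool.Agent.H42.PC
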