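/-
Row EBas (about 150 lines): elementary facts.

 FA_apply : FA f A x = aeval x f (eval_map_algebraMap). FA_hom : ι (aeval x f) = aeval (ι x) f (Polynomial.aeval_algHom_apply). FA_iter : induction. FA_smul : g • x = g x for g : A ≃ₐ[K] A (AlgEquiv.smul_def).
 itp_eval : Polynomial.iterate_comp_eval, map_sub; aeval x (f.comp^[n] X) = iterate (induction on n; Function.iterate_succ_apply').
 wand_inj : if (FA f A)^[i] c = (FA f A)^[j] c with i < j the orbit is contained in the first j points (eventually periodic), hence finite; conversely an injective ℕ-sequence has infinite range (Set.infinite_range_of_injective).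
 GP_hom : ι : A →ₐ[K] B injective: roots of derivative go to roots, wandering is preserved and reflected (iterates commute with ι, injectivity), differences too.
 no_tree_crit : z critical with F^[t] z = β, t ≥ 1. If z is wandering and z ≠ β (in A): contradicts disj with c = z, c' = β, i = t, j = 0 (β is critical and wandering in A: from crit, wan through algebraMap). If z = β: F^[t] β = β contradicts wan (wand_inj).
   If z is not wandering its orbit is finite and contains the orbit of β, which is infinite: contradiction.
 nonwand : c critical not wandering: F^[t] c = β (t ≥ 0) would put the infinite orbit of β in the finite orbit of c.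
 aper : F^[t] β ≠ β for t ≥ 1 in A (wand_inj and injectivity of algebraMap).
-/
import Pool.Agent.H42.PC.EDefs

set_option autoImplicit false

namespace Pool.Agent.H42.PC

open Polynomial

variable {K : Type} [Field K] {f : K[X]} {β : K} {A B : Type} [Field A] [Algebra K A] [Field B]
  [Algebra K B]

theorem FA_apply (x : A) : FA f A x = aeval x f := by
  show (f.map (algebraMap K A)).eval x = aeval x f
  rw [eval_map, aeval_def]

theorem FA_hom (ι : A →ₐ[K] B) (x : A) : ι (FA f A x) = FA f B (ι x) := by
  rw [FA_apply, FA_apply, Polynomial.aeval_algHom_apply]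

theorem FA_iter (ι : A →ₐ[K] B) (x : A) (n : ℕ) : ι ((FA f A)^[n] x) = (FA f B)^[n] (ι x) := by
  induction n with
  | zero => rfl
  | succ n ih => rw [Function.iterate_succ_apply', Function.iterate_succ_apply', FA_hom, ih]

theorem FA_base (x : K) (n : ℕ) :
    algebraMap K A ((FA f K)^[n] x) = (FA f A)^[n] (algebraMap K A x) := by
  exact FA_iter (Algebra.ofId K A) x n

theorem FA_smul (g : A ≃ₐ[K] A) (x : A) (n : ℕ) : g • (FA f A)^[n] x = (FA f A)^[n] (g • x) := by
  exact FA_iter g.toAlgHom x n

theorem itp_aeval (n : ℕ) (x : A) : aeval x (f.comp^[n] X - C β) =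
    (FA f A)^[n] x - algebraMap K A β := by
  rw [map_sub, aeval_C]
  congr 1
  induction n with
  | zero => simp
  | succ n ih =>
    rw [Function.iterate_succ_apply', Function.iterate_succ_apply', aeval_comp, ih, FA_apply]

theorem itp_natDegree (hd : 1 ≤ f.natDegree) (n : ℕ) :
    (f.comp^[n] X - C β).natDegree = f.natDegree ^ n := by
  have _ := hd
  rw [natDegree_sub_C, natDegree_iterate_comp, natDegree_X, mul_one]

theorem wand_inj (c : A) : Wandering f c ↔ Function.Injective fun n : ℕ => (FA f A)^[n] c := by
  constructor
  · intro h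
    by_contra hinj
    -- a repetition
    obtain ⟨i, j, hlt, hij⟩ : ∃ i j : ℕ, i < j ∧ (FA f A)^[i] c = (FA f A)^[j] c := by
      unfold Function.Injective at hinj
      push Not at hinj
      obtain ⟨a, b, hab, hne⟩ := hinj
      rcases lt_or_gt_of_ne hne with h1 | h1
      · exact ⟨a, b, h1, hab⟩
      · exact ⟨b, a, h1, hab.symm⟩
    apply h
    refine (Set.finite_range fun k : Fin j => (FA f A)^[(k : ℕ)] c).subset ?_
    rintro _ ⟨n, rfl⟩
    induction n using Nat.strong_induction_on with
    | _ n ih =>
      rcases lt_or_ge n j with h1 | h1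
      · exact ⟨⟨n, h1⟩, rfl⟩
      · have h2 := ih (n - j + i) (by omega)
        have h3 : (FA f A)^[n - j + i] c = (FA f A)^[n] c := by
          rw [Function.iterate_add_apply, hij, ← Function.iterate_add_apply, Nat.sub_add_cancel h1]
        change (FA f A)^[n - j + i] c ∈ _ at h2
        change (FA f A)^[n] c ∈ _
        rwa [h3] at h2
  · intro h
    exact Set.infinite_range_of_injective h

theorem wand_hom (ι : A →ₐ[K] B) (c : A) : Wandering f (ι c) ↔ Wandering f c := by
  rw [wand_inj, wand_inj]
  constructor
  · intro h i j hij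
    apply h
    change (FA f B)^[i] (ι c) = (FA f B)^[j] (ι c)
    rw [← FA_iter, ← FA_iter]
    exact congrArg ι hij
  · intro h i j hij
    apply h
    change (FA f B)^[i] (ι c) = (FA f B)^[j] (ι c) at hij
    rw [← FA_iter, ← FA_iter] at hij
    exact ι.injective hij

theorem GP_hom (ι : A →ₐ[K] B) (h : GP f β B) : GP f β A := by
  refine ⟨h.crit, h.wan, ?_, ?_⟩
  · intro c hc hw h0
    refine h.simple (ι c) ?_ ((wand_hom ι c).2 hw) ?_
    · rw [aeval_algHom_apply, hc, map_zero]
    · rw [aeval_algHom_apply, h0, map_zero]
  · intro c c' hc hc' hw hw' hne i j hij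
    refine h.disj (ι c) (ι c') ?_ ?_ ((wand_hom ι c).2 hw) ((wand_hom ι c').2 hw')
      (fun h1 => hne (ι.injective h1)) i j ?_
    · rw [aeval_algHom_apply, hc, map_zero]
    · rw [aeval_algHom_apply, hc', map_zero]
    · rw [← FA_iter, ← FA_iter, hij]

private theorem EBas_wan (h : GP f β A) : Wandering f (algebraMap K A β) :=
  (wand_hom (Algebra.ofId K A) β).2 h.wan

private theorem EBas_crit (h : GP f β A) : aeval (algebraMap K A β) (derivative f) = 0 := by
  rw [aeval_algebraMap_apply, coe_aeval_eq_eval, h.crit, map_zero]

theorem nonwand (h : GP f β A) {c : A} (hc : ¬ Wandering f c) (t : ℕ) :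
    (FA f A)^[t] c ≠ algebraMap K A β := by
  intro heq
  apply hc
  refine (EBas_wan h).mono ?_
  rintro _ ⟨n, rfl⟩
  refine ⟨n + t, ?_⟩
  change (FA f A)^[n + t] c = (FA f A)^[n] (algebraMap K A β)
  rw [Function.iterate_add_apply, heq]

theorem aper (h : GP f β A) {t : ℕ} (ht : 1 ≤ t) :
    (FA f A)^[t] (algebraMap K A β) ≠ algebraMap K A β := by
  intro heq
  have h1 := (wand_inj _).1 (EBas_wan h)
  have h2 : t = 0 := h1 heq
  omega

theorem no_tree_crit (h : GP f β A) {z : A} (hz : aeval z (derivative f) = 0) {t : ℕ}
    (ht : 1 ≤ t) : (FA f A)^[t] z ≠ algebraMap K A β := by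
  by_cases hw : Wandering f z
  · by_cases hzb : z = algebraMap K A β
    · rw [hzb]
      exact aper h ht
    · exact h.disj z _ hz (EBas_crit h) hw (EBas_wan h) hzb t 0
  · exact nonwand h hw t

end Pool.Agent.H42.PC
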