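/-
Row EGk (about 130 lines): all but finitely many primes are good.

PROOF. For z ≠ 0 in a number field M the set of primes q of M with q.valuation M z ≠ 1 is finite (search: HeightOneSpectrum Support finite / mulSupport finite; z = a/b with a b in 𝓞 M nonzero, the primes dividing a or b; Ideal.finite_factors), and the set of primes q with
 q.valuation M z > 1 as well. (1) In K: the coefficients of f (finitely many nonzero), lead, 2, natDegree, β: finitely many v fail int, lead, two, dd, bint. (2) In M: finitely many nonzero elements: c - c' (c ≠ c' roots of derivative f ≠ 0, which has degree natDegree - 1 ≥ 1); (FA)^[i] c - (FA)^[j] c' for c c' ∈ Wd f M, i j ≤ J,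
 (c,i) ≠ (c',j): nonzero by disj (c ≠ c') or wand_inj (c = c'); (FA)^[t] c - β for c critical not wandering: the orbit of c is finite, so these are finitely many elements, nonzero by nonwand. For each of these elements the set of q with valuation ≠ 1 is finite; v is the prime below q: the set of v having some q above it
 in the finite bad set is finite (v.asIdeal = q.asIdeal.under). If no q over v is bad then G1, G2, G3 hold. (c ∈ Wd f M iff aeval c (derivative f) = 0 and Wandering; derivative f ≠ 0.)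
-/
import Pool.Agent.H42.PC.EBas

set_option autoImplicit false

namespace Pool.Agent.H42.PC

open Polynomial NumberField IsDedekindDomain

theorem val_ne_one_finite {M : Type} [Field M] [NumberField M] {z : M} (hz : z ≠ 0) :
    {q : HeightOneSpectrum (𝓞 M) | q.valuation M z ≠ 1}.Finite := by
  obtain ⟨a, b, hb, rfl⟩ := IsFractionRing.div_surjective (A := 𝓞 M) z
  have hb0 : b ≠ 0 := nonZeroDivisors.ne_zero hb
  have ha0 : a ≠ 0 := by
    rintro rfl
    simp at hz
  have hfa : (Ideal.span {a} : Ideal (𝓞 M)) ≠ 0 := by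
    simpa using ha0
  have hfb : (Ideal.span {b} : Ideal (𝓞 M)) ≠ 0 := by
    simpa using hb0
  refine ((Ideal.finite_factors hfa).union (Ideal.finite_factors hfb)).subset ?_
  intro q hq
  by_contra hcon
  rw [Set.mem_union, not_or] at hcon
  have key : ∀ r : 𝓞 M, q ∉ {v : HeightOneSpectrum (𝓞 M) | v.asIdeal ∣ Ideal.span {r}} →
      q.valuation M (algebraMap (𝓞 M) M r) = 1 := by
    intro r hr
    rcases (q.valuation_le_one (K := M) r).lt_or_eq with h | h
    · exact absurd ((q.valuation_lt_one_iff_dvd (K := M) r).1 h) hr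
    · exact h
  apply hq
  rw [map_div₀, key a hcon.1, key b hcon.2, div_one]

theorem mem_Wd {K : Type} [Field K] {f : K[X]} {M : Type} [Field M] [Algebra K M]
    (hf : derivative f ≠ 0) (c : M) :
    c ∈ Wd f M ↔ aeval c (derivative f) = 0 ∧ Wandering f c := by
  simp only [Wd, Finset.mem_filter, Multiset.mem_toFinset]
  rw [mem_roots_map hf, eval₂_eq_eval_map, ← eval_map_algebraMap]

theorem goodK_finite {K : Type} [Field K] [NumberField K] {f : K[X]} {β : K} {M : Type} [Field M]
    [NumberField M] [Algebra K M] (hd : 2 ≤ f.natDegree) (hGP : GP f β M) (J : ℕ) :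
    {v : HeightOneSpectrum (𝓞 K) | ¬ GoodK f β M J v}.Finite := by
  classical
  have hd0 : derivative f ≠ 0 := by
    intro h
    have := derivative_eq_zero.1 h
    omega
  -- bad elements of K
  let SK : Finset K := (((Finset.range (f.natDegree + 1)).image fun i => f.coeff i) ∪
    {f.leadingCoeff, 2, (f.natDegree : K), β}).erase 0
  have hBK : (⋃ z ∈ SK, {v : HeightOneSpectrum (𝓞 K) | v.valuation K z ≠ 1}).Finite :=
    Set.Finite.biUnion SK.finite_toSet fun z hz => val_ne_one_finite (Finset.ne_of_mem_erase hz)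
  -- bad elements of M
  let R : Finset M := ((derivative f).map (algebraMap K M)).roots.toFinset
  have hR : ∀ c : M, c ∈ R ↔ aeval c (derivative f) = 0 := by
    intro c
    show c ∈ ((derivative f).map (algebraMap K M)).roots.toFinset ↔ _
    rw [Multiset.mem_toFinset, mem_roots_map hd0, eval₂_eq_eval_map, ← eval_map_algebraMap]
  let S1 : Set M := (fun p : M × M => p.1 - p.2) '' ((R : Set M) ×ˢ (R : Set M))
  have hS1 : S1.Finite := (R.finite_toSet.prod R.finite_toSet).image _
  let S2 : Set M := (fun p : (M × ℕ) × (M × ℕ) =>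
      (FA f M)^[p.1.2] p.1.1 - (FA f M)^[p.2.2] p.2.1) ''
    ((((Wd f M : Finset M) : Set M) ×ˢ (Set.Iic J)) ×ˢ
      (((Wd f M : Finset M) : Set M) ×ˢ (Set.Iic J)))
  have hS2 : S2.Finite := by
    refine Set.Finite.image _ ?_
    exact ((Finset.finite_toSet _).prod (Set.finite_Iic J)).prod
      ((Finset.finite_toSet _).prod (Set.finite_Iic J))
  let S3 : Set M := ⋃ c ∈ ((R.filter fun c => ¬ Wandering f c : Finset M) : Set M),
    (fun y => y - algebraMap K M β) '' (Set.range fun t : ℕ => (FA f M)^[t] c)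
  have hS3 : S3.Finite := by
    refine Set.Finite.biUnion (Finset.finite_toSet _) ?_
    intro c hc
    refine Set.Finite.image _ ?_
    rw [Finset.mem_coe, Finset.mem_filter] at hc
    exact Set.not_infinite.1 hc.2
  have hSM : ((S1 ∪ S2 ∪ S3) \ {0}).Finite := ((hS1.union hS2).union hS3).subset Set.sdiff_subset
  have hBM : (⋃ z ∈ (S1 ∪ S2 ∪ S3) \ {0},
      {q : HeightOneSpectrum (𝓞 M) | q.valuation M z ≠ 1}).Finite :=
    Set.Finite.biUnion hSM fun z hz => val_ne_one_finite hz.2
  set BM := ⋃ z ∈ (S1 ∪ S2 ∪ S3) \ {0},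
      {q : HeightOneSpectrum (𝓞 M) | q.valuation M z ≠ 1} with hBMdef
  have hdown : {v : HeightOneSpectrum (𝓞 K) | ∃ q ∈ BM, q.asIdeal.LiesOver v.asIdeal}.Finite := by
    refine Set.Finite.of_finite_image (f := fun v : HeightOneSpectrum (𝓞 K) => v.asIdeal) ?_ ?_
    · refine (hBM.image fun q => q.asIdeal.under (𝓞 K)).subset ?_
      rintro _ ⟨v, ⟨q, hq, hqv⟩, rfl⟩
      exact ⟨q, hq, hqv.over.symm⟩
    · intro v _ v' _ h
      exact HeightOneSpectrum.ext h
  refine (hBK.union hdown).subset ?_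
  intro v hv
  by_contra hcon
  rw [Set.mem_union, not_or] at hcon
  obtain ⟨hcK, hcM⟩ := hcon
  have hK1 : ∀ z ∈ SK, v.valuation K z = 1 := by
    intro z hz
    by_contra h
    apply hcK
    simp only [Set.mem_iUnion, exists_prop]
    exact ⟨z, hz, h⟩
  have hM1 : ∀ q : HeightOneSpectrum (𝓞 M), q.asIdeal.LiesOver v.asIdeal →
      ∀ z ∈ S1 ∪ S2 ∪ S3, z ≠ 0 → q.valuation M z = 1 := by
    intro q hq z hz hz0
    by_contra h
    apply hcM
    refine ⟨q, ?_, hq⟩
    rw [hBMdef]
    simp only [Set.mem_iUnion, exists_prop]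
    exact ⟨z, ⟨hz, hz0⟩, h⟩
  have hf0 : f ≠ 0 := by
    rintro rfl
    simp at hd
  have hK2 : ∀ z, z ∈ ((Finset.range (f.natDegree + 1)).image fun i => f.coeff i) ∪
      {f.leadingCoeff, 2, (f.natDegree : K), β} → v.valuation K z ≤ 1 := by
    intro z hz
    by_cases h0 : z = 0
    · rw [h0, map_zero]
      exact zero_le_one
    · exact (hK1 z (Finset.mem_erase.2 ⟨h0, hz⟩)).le
  apply hv
  refine ⟨?_, ?_, ?_, ?_, ?_, ?_, ?_, ?_⟩
  · intro i
    by_cases hi : i ≤ f.natDegree
    · apply hK2
      rw [Finset.mem_union, Finset.mem_image]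
      exact Or.inl ⟨i, Finset.mem_range.2 (by omega), rfl⟩
    · rw [coeff_eq_zero_of_natDegree_lt (by omega), map_zero]
      exact zero_le_one
  · apply hK1
    rw [Finset.mem_erase]
    exact ⟨leadingCoeff_ne_zero.2 hf0, by simp⟩
  · apply hK1
    rw [Finset.mem_erase]
    exact ⟨two_ne_zero, by simp⟩
  · apply hK1
    rw [Finset.mem_erase]
    exact ⟨Nat.cast_ne_zero.2 (by omega), by simp⟩
  · apply hK2
    simp
  · intro q hq c c' hc hc' hne
    apply hM1 q hq _ _ (sub_ne_zero.2 hne)
    exact Or.inl (Or.inl ⟨(c, c'), ⟨(hR c).2 hc, (hR c').2 hc'⟩, rfl⟩)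
  · intro q hq c hc c' hc' i hi j hj hlt
    by_contra hcon
    have hcw := (mem_Wd hd0 c).1 hc
    have hcw' := (mem_Wd hd0 c').1 hc'
    have hne : (FA f M)^[i] c - (FA f M)^[j] c' ≠ 0 := by
      rw [sub_ne_zero]
      by_cases hcc : c = c'
      · subst hcc
        intro h
        exact hcon ⟨rfl, (wand_inj c).1 hcw.2 h⟩
      · exact hGP.disj c c' hcw.1 hcw'.1 hcw.2 hcw'.2 hcc i j
    have := hM1 q hq _ (Or.inl (Or.inr ⟨((c, i), (c', j)), ⟨⟨hc, hi⟩, ⟨hc', hj⟩⟩, rfl⟩)) hne
    exact hlt.ne this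
  · intro q hq c hc hcW t hlt
    have hcw : ¬ Wandering f c := fun h => hcW ((mem_Wd hd0 c).2 ⟨hc, h⟩)
    have hne : (FA f M)^[t] c - algebraMap K M β ≠ 0 := sub_ne_zero.2 (nonwand hGP hcw t)
    refine hlt.ne (hM1 q hq _ (Or.inr ?_) hne)
    show _ ∈ ⋃ c ∈ ((R.filter fun c => ¬ Wandering f c : Finset M) : Set M),
      (fun y => y - algebraMap K M β) '' (Set.range fun t : ℕ => (FA f M)^[t] c)
    simp only [Set.mem_iUnion, exists_prop]
    exact ⟨c, Finset.mem_coe.2 (Finset.mem_filter.2 ⟨(hR c).2 hc, hcw⟩), _, ⟨t, rfl⟩, rfl⟩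

end Pool.Agent.H42.PC
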