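/-
Row ECov (about 110 lines): primes modulo which β is periodic are covered by the sets SS of the factors of level n0, up to finitely many.

 cover : let v be a prime with V(β) ≤ 1, V(coefficients of f) ≤ 1, V(lead f) = 1 (all but finitely many: goodK_finite or directly), n ≥ 1 with V (F^[n] β - β) < 1. F^[j n] β ≡ β for all j (reduction is compatible: V (F x - F y) ≤ V (x - y) for integral x, y: eval_sub_le of DPol). Choose j ≥ 1 with j n ≥ n0, k := j n - n0, z := F^[k] β:
   P_{n0}(z) = F^[n0] z - β = F^[j n] β - β has V < 1 (itp_aeval). P_{n0} = lead * product of monic irreducible factors h_i (UniqueFactorizationMonoid / normalizedFactors), lead of P_{n0} = power of lead f (unit at v; or: V (lead) = 1 for all but finitely many v, the set depends only on n0). So V (∏ h_i(z)) < 1 and some h_i has V (h_i z) < 1: v ∈ SS f h_i β.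
 So {v | ∃ n ≥ 1, V (F^[n] β - β) < 1} ⊆ (finite set) ∪ ⋃_{h ∈ Fac} SS f h β, Fac = {h monic irreducible, h ∣ P_{n0}} (finite).
 prep : if β is critical and has a finite forward orbit but is not periodic, then {v | ∃ n ≥ 1, V (F^[n] β - β) < 1} is finite: finitely many nonzero elements F^[n] β - β (val_ne_one_finite).
-/
import Pool.Agent.H42.PC.EGk
import Pool.Agent.H42.PC.DPol

set_option autoImplicit false

namespace Pool.Agent.H42.PC

open Polynomial NumberField IsDedekindDomain

variable {K : Type} [Field K] [NumberField K] {f : K[X]} {β : K}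

omit [NumberField K] in
private theorem ecov_P_ne (hd : 1 ≤ f.natDegree) (n : ℕ) : (f.comp^[n] X - C β) ≠ 0 := by
  intro h
  have h1 := itp_natDegree (β := β) hd n
  rw [h, natDegree_zero] at h1
  exact absurd h1.symm (pow_ne_zero n (by omega))

theorem fac_finite (hd : 1 ≤ f.natDegree) (n : ℕ) :
    {g : K[X] | g.Monic ∧ Irreducible g ∧ g ∣ f.comp^[n] X - C β}.Finite := by
  classical
  have hP : (f.comp^[n] X - C β) ≠ 0 := ecov_P_ne hd n
  refine ((UniqueFactorizationMonoid.normalizedFactors
    (f.comp^[n] X - C β)).toFinset.finite_toSet).subset ?_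
  rintro g ⟨hm, hi, hg⟩
  obtain ⟨q, hq, hgq⟩ := UniqueFactorizationMonoid.exists_mem_normalizedFactors_of_dvd hP hi hg
  have hq0 := (UniqueFactorizationMonoid.irreducible_of_normalized_factor q hq).ne_zero
  have hqm : q.Monic := by
    have := UniqueFactorizationMonoid.normalize_normalized_factor q hq
    rw [← this]
    exact Polynomial.monic_normalize hq0
  have := eq_of_monic_of_associated hm hqm hgq
  rw [Finset.mem_coe, Multiset.mem_toFinset, this]
  exact hq

omit [NumberField K] in
private theorem ecov_F (x : K) : FA f K x = f.eval x := by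
  rw [FA_apply]; simp

private theorem ecov_int {V : Valuation K (WithZero (Multiplicative ℤ))}
    (hi : ∀ i, V (f.coeff i) ≤ 1) {x : K} (hx : V x ≤ 1) (n : ℕ) : V ((FA f K)^[n] x) ≤ 1 := by
  induction n with
  | zero => exact hx
  | succ n ih =>
    rw [Function.iterate_succ_apply', ecov_F]
    exact eval_int hi ih

private theorem ecov_sub {V : Valuation K (WithZero (Multiplicative ℤ))}
    (hi : ∀ i, V (f.coeff i) ≤ 1) {x y : K} (hx : V x ≤ 1) (hy : V y ≤ 1) (n : ℕ) :
    V ((FA f K)^[n] x - (FA f K)^[n] y) ≤ V (x - y) := by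
  induction n with
  | zero => exact le_refl _
  | succ n ih =>
    rw [Function.iterate_succ_apply', Function.iterate_succ_apply', ecov_F, ecov_F]
    exact (eval_sub_le hi (ecov_int hi hx n) (ecov_int hi hy n)).trans ih

private theorem ecov_prod {V : Valuation K (WithZero (Multiplicative ℤ))} {z : K}
    (s : Multiset K[X]) (hs : ∀ h ∈ s, 1 ≤ V (h.eval z)) : 1 ≤ V (s.prod.eval z) := by
  induction s using Multiset.induction with
  | empty => simp
  | cons a s ih =>
    rw [Multiset.prod_cons, eval_mul, map_mul]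
    have h1 := mul_le_mul' (hs a (Multiset.mem_cons_self a s))
      (ih fun h hh => hs h (Multiset.mem_cons_of_mem hh))
    rwa [one_mul] at h1

private theorem ecov_one (z : K) :
    {v : HeightOneSpectrum (𝓞 K) | ¬ v.valuation K z ≤ 1}.Finite := by
  rcases eq_or_ne z 0 with rfl | hz
  · simp
  · refine (val_ne_one_finite hz).subset ?_
    intro v hv h
    exact hv h.le

theorem cover (hd : 2 ≤ f.natDegree) (n0 : ℕ) :
    ({v : HeightOneSpectrum (𝓞 K) | ∃ n, 1 ≤ n ∧ v.valuation K ((FA f K)^[n] β - β) < 1} \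
      ⋃ h ∈ {g : K[X] | g.Monic ∧ Irreducible g ∧ g ∣ f.comp^[n0] X - C β},
        SS f h β).Finite := by
  classical
  have hd1 : 1 ≤ f.natDegree := by omega
  have hP : (f.comp^[n0] X - C β) ≠ 0 := ecov_P_ne hd1 n0
  have hbad : ((⋃ i ∈ f.support, {v : HeightOneSpectrum (𝓞 K) | ¬ v.valuation K (f.coeff i) ≤ 1}) ∪
      ({v : HeightOneSpectrum (𝓞 K) | ¬ v.valuation K β ≤ 1} ∪
      {v : HeightOneSpectrum (𝓞 K) |
        v.valuation K (f.comp^[n0] X - C β).leadingCoeff ≠ 1})).Finite := by
    refine Set.Finite.union ?_ (Set.Finite.union (ecov_one β) ?_)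
    · exact Set.Finite.biUnion (Finset.finite_toSet _) fun i _ => ecov_one _
    · exact val_ne_one_finite (leadingCoeff_ne_zero.2 hP)
  refine hbad.subset ?_
  rintro v ⟨⟨n, hn, hv⟩, hnot⟩
  by_contra hgood
  simp only [Set.mem_union, Set.mem_iUnion, Set.mem_ofPred_eq, not_or, not_exists, not_not,
    exists_prop, not_and, ne_eq] at hgood
  obtain ⟨h1, h2, h3⟩ := hgood
  have hi : ∀ i, v.valuation K (f.coeff i) ≤ 1 := by
    intro i
    by_cases hc : i ∈ f.support
    · exact h1 i hc
    · rw [notMem_support_iff.1 hc, map_zero]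
      exact zero_le_one
  have hj : ∀ j : ℕ, v.valuation K ((FA f K)^[j * n] β - β) < 1 := by
    intro j
    induction j with
    | zero => simp
    | succ j ih =>
      have e : (FA f K)^[(j + 1) * n] β - β =
          ((FA f K)^[n] ((FA f K)^[j * n] β) - (FA f K)^[n] β) + ((FA f K)^[n] β - β) := by
        rw [← Function.iterate_add_apply, show n + j * n = (j + 1) * n by ring]
        ring
      rw [e]
      refine lt_of_le_of_lt (Valuation.map_add _ _ _) (max_lt ?_ hv)
      exact lt_of_le_of_lt (ecov_sub hi (ecov_int hi h2 _) h2 n) ih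
  have hk : n0 ≤ (n0 + 1) * n := by nlinarith
  have hz : v.valuation K ((f.comp^[n0] X - C β).eval ((FA f K)^[(n0 + 1) * n - n0] β)) < 1 := by
    have e := itp_aeval (f := f) (β := β) n0 ((FA f K)^[(n0 + 1) * n - n0] β)
    rw [← Function.iterate_add_apply, Nat.add_sub_cancel' hk] at e
    have e2 : aeval ((FA f K)^[(n0 + 1) * n - n0] β) (f.comp^[n0] X - C β) =
        (f.comp^[n0] X - C β).eval ((FA f K)^[(n0 + 1) * n - n0] β) := by
      rw [coe_aeval_eq_eval]
    rw [← e2, e]
    exact hj (n0 + 1)
  apply hnot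
  have hex : ∃ h ∈ UniqueFactorizationMonoid.normalizedFactors (f.comp^[n0] X - C β),
      v.valuation K (h.eval ((FA f K)^[(n0 + 1) * n - n0] β)) < 1 := by
    by_contra hno
    push Not at hno
    have e3 := leadingCoeff_mul_prod_normalizedFactors (f.comp^[n0] X - C β)
    have e4 := ecov_prod (V := v.valuation K) _ hno
    rw [← e3, eval_mul, eval_C, map_mul, h3, one_mul] at hz
    exact absurd hz (not_lt.2 e4)
  obtain ⟨h, hh, hlt⟩ := hex
  have hirr := UniqueFactorizationMonoid.irreducible_of_normalized_factor h hh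
  have hm : h.Monic := by
    have := UniqueFactorizationMonoid.normalize_normalized_factor h hh
    rw [← this]
    exact Polynomial.monic_normalize hirr.ne_zero
  refine Set.mem_biUnion (show h ∈ {g : K[X] | g.Monic ∧ Irreducible g ∧
    g ∣ f.comp^[n0] X - C β} from ⟨hm, hirr,
      UniqueFactorizationMonoid.dvd_of_mem_normalizedFactors hh⟩) ?_
  exact ⟨⟨n, hn, hv⟩, _, hlt⟩

theorem prep_finite (hnw : ¬ Wandering f β) (hper : ∀ n, 1 ≤ n → (FA f K)^[n] β ≠ β) :
    {v : HeightOneSpectrum (𝓞 K) |
      ∃ n, 1 ≤ n ∧ v.valuation K ((FA f K)^[n] β - β) < 1}.Finite := by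
  have hfin : (Set.range fun n : ℕ => (FA f K)^[n] β).Finite := by
    by_contra h
    exact hnw h
  have h2 : (⋃ y ∈ (Set.range fun n : ℕ => (FA f K)^[n] β) \ {β},
      {v : HeightOneSpectrum (𝓞 K) | v.valuation K (y - β) ≠ 1}).Finite := by
    refine Set.Finite.biUnion (hfin.subset Set.sdiff_subset) ?_
    rintro y ⟨_, hy⟩
    exact val_ne_one_finite (sub_ne_zero.2 hy)
  refine h2.subset ?_
  rintro v ⟨n, hn, hv⟩
  refine Set.mem_biUnion (show (FA f K)^[n] β ∈ (Set.range fun n : ℕ => (FA f K)^[n] β) \ {β} from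
    ⟨⟨n, rfl⟩, hper n hn⟩) ?_
  exact ne_of_lt hv

end Pool.Agent.H42.PC
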