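/-
Row EGd (about 150 lines): a good prime of K gives a good valuation of L.

 DATA: tower K → M → L of number fields, L/K Galois, the derivative of f splits in M, w a prime of L over v, GoodK f β M J v. q := the prime of M below w (nonzero prime ideal w ∩ 𝓞 M as a HeightOneSpectrum; it lies over v, w lies over q).
 V_w (algebraMap M L z) = V_q(z)^e and V_w (algebraMap K L z) = V_v(z)^e' with e, e' ≥ 1 (val_pow; or valuation_liesOver with ramificationIdx' ≠ 0). So V_q z = 1 implies V_w z = 1, V_q z ≤ 1 implies V_w ≤ 1, V_w z < 1 implies V_q z < 1.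
 Fields of Good (fL := f.map (algebraMap K L)): coef: coefficients are algebraMap K L of something, fixed by g (AlgEquiv.commutes). deg, lead, two, dd: natDegree_map, leadingCoeff_map. spl: derivative_map, Splits.map from M. W := image of Wd f M. Critical points of L come from M: the roots of the derivative in L are
 images of its roots in M since it splits in M (Splits.roots_map..., or image_rootSet). Wroot, Wsimple (GP simple in M: aeval c f'' ≠ 0 for c ∈ Wd). G1, G2, G3 from GoodK with c, c' in M, FA_iter for IsScalarTower.toAlgHom K M L. c ∉ W in L for c = image of c0: c0 ∉ Wd.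
-/
import Pool.Agent.H42.PC.EGk
import Pool.Agent.H42.PC.DLoc

set_option autoImplicit false

namespace Pool.Agent.H42.PC

open Polynomial NumberField IsDedekindDomain

open scoped Classical

theorem EGd_val {M L : Type} [Field M] [NumberField M] [Field L] [NumberField L] [Algebra M L]
    (q : HeightOneSpectrum (𝓞 M)) (w : HeightOneSpectrum (𝓞 L))
    (h : w.asIdeal.LiesOver q.asIdeal) :
    ∃ e : ℕ, e ≠ 0 ∧ ∀ z : M, w.valuation L (algebraMap M L z) = q.valuation M z ^ e := by
  have := h
  exact ⟨q.asIdeal.ramificationIdx' w.asIdeal,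
    Ideal.IsDedekindDomain.ramificationIdx'_ne_zero_of_liesOver w.asIdeal q.ne_bot,
    fun z => (HeightOneSpectrum.valuation_liesOver L q w z).symm⟩

theorem good_of_goodK {K M L : Type} [Field K] [NumberField K] [Field M] [NumberField M] [Field L]
    [NumberField L] [Algebra K M] [Algebra M L] [Algebra K L] [IsScalarTower K M L] [IsGalois K L]
    {f : K[X]} {β : K} (hd : 2 ≤ f.natDegree) (hGP : GP f β M)
    (hM : ((derivative f).map (algebraMap K M)).Splits) {J : ℕ} {v : HeightOneSpectrum (𝓞 K)}
    (hv : GoodK f β M J v) (w : HeightOneSpectrum (𝓞 L)) (hw : w.asIdeal.LiesOver v.asIdeal) :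
    Good (mkLoc K w) (f.map (algebraMap K L)) (algebraMap K L β)
      ((Wd f M).image (algebraMap M L)) J := by
  have hder : derivative f ≠ 0 := by
    intro h0
    have := Polynomial.derivative_eq_zero.1 h0
    omega
  let q : HeightOneSpectrum (𝓞 M) := HeightOneSpectrum.under (𝓞 M) w
  have := hw
  have hwq : w.asIdeal.LiesOver q.asIdeal := Ideal.over_under _
  have hqv : q.asIdeal.LiesOver v.asIdeal := Ideal.LiesOver.tower_bot w.asIdeal q.asIdeal v.asIdeal
  obtain ⟨e, he, hq⟩ := EGd_val q w hwq
  obtain ⟨e', he', hv'⟩ := EGd_val v w hw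
  let ι : M →ₐ[K] L := IsScalarTower.toAlgHom K M L
  have hι : ∀ x, ι x = algebraMap M L x := fun x => rfl
  have hcrit : ∀ c : L, (f.map (algebraMap K L)).derivative.eval c = 0 →
      ∃ c0 : M, aeval c0 (derivative f) = 0 ∧ algebraMap M L c0 = c := by
    intro c hc
    have h1 : ((derivative f).map (algebraMap K M)) ≠ 0 :=
      (Polynomial.map_ne_zero_iff (algebraMap K M).injective).2 hder
    have h2 : (((derivative f).map (algebraMap K M)).map (algebraMap M L)).IsRoot c := by
      rw [Polynomial.map_map, ← IsScalarTower.algebraMap_eq, IsRoot.def, ← Polynomial.derivative_map]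
      exact hc
    obtain ⟨c0, hc0⟩ := hM.mem_range_of_isRoot h1 h2
    refine ⟨c0, ?_, hc0⟩
    rw [← hc0] at h2
    have h3 := h2
    rw [IsRoot.def, Polynomial.eval_map, Polynomial.eval₂_at_apply] at h3
    rw [← Polynomial.eval_map_algebraMap]
    exact (map_eq_zero (algebraMap M L)).1 h3
  have haev : ∀ c0 : M, (f.map (algebraMap K L)).derivative.eval (algebraMap M L c0) =
      algebraMap M L (aeval c0 (derivative f)) := by
    intro c0
    rw [Polynomial.derivative_map, Polynomial.eval_map_algebraMap, ← hι, ← hι,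
      Polynomial.aeval_algHom_apply]
  have hit : ∀ (c0 : M) (t : ℕ), (ev (f.map (algebraMap K L)))^[t] (algebraMap M L c0) =
      algebraMap M L ((FA f M)^[t] c0) := by
    intro c0 t
    exact (FA_iter ι c0 t).symm
  have hbeta : algebraMap K L β = algebraMap M L (algebraMap K M β) :=
    IsScalarTower.algebraMap_apply K M L β
  have hinj : Function.Injective (algebraMap M L) := (algebraMap M L).injective
  refine ⟨?_, ?_, ?_, ?_, ?_, ?_, ?_, ?_, ?_, ?_, ?_, ?_, ?_, ?_, ?_⟩
  · intro g i
    rw [Polynomial.coeff_map]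
    exact g.commutes _
  · intro g
    exact g.commutes _
  · rw [Polynomial.natDegree_map]
    exact hd
  · intro i
    rw [Polynomial.coeff_map]
    show w.valuation L _ ≤ 1
    rw [hv']
    exact pow_le_one' (hv.int i) e'
  · rw [Polynomial.leadingCoeff_map]
    show w.valuation L _ = 1
    rw [hv', hv.lead, one_pow]
  · show w.valuation L 2 = 1
    have h2 : (2 : L) = algebraMap K L 2 := (map_ofNat (algebraMap K L) 2).symm
    rw [h2, hv', hv.two, one_pow]
  · show w.valuation L _ = 1
    have h2 : (((f.map (algebraMap K L)).natDegree : ℕ) : L) = algebraMap K L (f.natDegree : K) := by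
      rw [Polynomial.natDegree_map]; exact (map_natCast (algebraMap K L) _).symm
    rw [h2, hv', hv.dd, one_pow]
  · rw [Polynomial.derivative_map, IsScalarTower.algebraMap_eq K M L, ← Polynomial.map_map]
    exact hM.map _
  · show w.valuation L _ ≤ 1
    rw [hv']
    exact pow_le_one' hv.bint e'
  · rw [Finset.mem_image]
    refine ⟨algebraMap K M β, (mem_Wd hder _).2 ⟨?_, ?_⟩, hbeta.symm⟩
    · rw [Polynomial.aeval_algebraMap_apply, Polynomial.coe_aeval_eq_eval, hGP.crit, map_zero]
    · exact (wand_hom (Algebra.ofId K M) β).2 hGP.wan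
  · intro c hc
    obtain ⟨c0, hc0, rfl⟩ := Finset.mem_image.1 hc
    rw [haev, ((mem_Wd hder _).1 hc0).1, map_zero]
  · intro c hc
    obtain ⟨c0, hc0, rfl⟩ := Finset.mem_image.1 hc
    obtain ⟨h1, h2⟩ := (mem_Wd hder _).1 hc0
    have h3 := hGP.simple c0 h1 h2
    rw [Polynomial.derivative_map, Polynomial.derivative_map, Polynomial.eval_map_algebraMap,
      ← hι, Polynomial.aeval_algHom_apply]
    exact (map_ne_zero ι).2 h3
  · intro c c' hc hc' hne
    obtain ⟨c0, h0, rfl⟩ := hcrit c hc
    obtain ⟨c1, h1, rfl⟩ := hcrit c' hc'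
    show w.valuation L _ = 1
    rw [← map_sub, hq, hv.G1 q hqv c0 c1 h0 h1 (fun h => hne (by rw [h])), one_pow]
  · intro c hc c' hc' i hi j hj h
    obtain ⟨c0, h0, rfl⟩ := Finset.mem_image.1 hc
    obtain ⟨c1, h1, rfl⟩ := Finset.mem_image.1 hc'
    change w.valuation L _ < 1 at h
    rw [hit, hit, ← map_sub, hq] at h
    have h2 := hv.G2 q hqv c0 h0 c1 h1 i hi j hj ((pow_lt_one_iff he).1 h)
    exact ⟨by rw [h2.1], h2.2⟩
  · intro c hc hcW t h
    obtain ⟨c0, h0, rfl⟩ := hcrit c hc
    change w.valuation L _ < 1 at h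
    rw [hit, hbeta, ← map_sub, hq] at h
    refine hv.G3 q hqv c0 h0 (fun hm => hcW (Finset.mem_image_of_mem _ hm)) t ?_
    exact (pow_lt_one_iff he).1 h

end Pool.Agent.H42.PC
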