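/-
Row EIn (about 70 lines): abstract: the on-cycle points lie in O as soon as one of level n0 does (n0 ≤ J).

 uniq_low : for t ≤ J (t ≤ N) there is only one OnC point of level t: induction on t: level 0 is {b}. x x' OnC of level t+1: F x, F x' are OnC (onC_iter with j = 1) of level t, equal; uniq_child: red x = red x' =: r; if x ≠ x' then r ∈ A (hone), FR^[t+1] r = red b (red_iter, F^[t+1] x = b), red b ∈ A (hb): hJ with t + 1 ≤ J and 0: t + 1 = 0, contradiction.
 inO : let x OnC of level t ≤ N. If n0 ≤ t: F^[t-n0] x is OnC of level n0, so it is y0 ∈ O n0, and x ∈ O t by orb_up. If t < n0: by hex (repeatedly) there is an OnC y of level n0 with F^[n0-t] y = x (n0 ≤ N); y = y0 ∈ O n0, x ∈ O t by orb_iter.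
 mono : Cyc P n t0 and t0 ≤ t1 give Cyc P n t1.
-/
import Pool.Agent.H42.PC.GOff

set_option autoImplicit false

namespace Pool.Agent.H42.PC

variable {G Ω : Type} [Group G] [MulAction G Ω] {F : Ω → Ω} {b : Ω} {d N s J n t0 t1 n0 : ℕ}
  {O : ℕ → Set Ω}

theorem uniq_low (hT : Tree G F b d N) {P : Place G F b s J N} (hC : Cyc P n t0) {t : ℕ}
    (ht : t ≤ N) (hJ : t ≤ J) {x x' : Ω} (hx : x ∈ lev F b t) (hx' : x' ∈ lev F b t)
    (h : P.OnC x) (h' : P.OnC x') : x = x' := by
  induction t generalizing x x' with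
  | zero => exact (show x = b from hx).trans (show x' = b from hx').symm
  | succ t ih =>
    have h1 : F x ∈ lev F b t := lev_iter (j := 1) hx (by omega)
    have h1' : F x' ∈ lev F b t := lev_iter (j := 1) hx' (by omega)
    have h2 : P.OnC (F x) := onC_iter P (j := 1) (by omega) ht hx h
    have h2' : P.OnC (F x') := onC_iter P (j := 1) (by omega) ht hx' h'
    have h3 := ih (by omega) (by omega) h1 h1' h2 h2'
    have h4 := uniq_child hC (by omega) hx hx' h3 h h'
    by_contra hne
    have hA : P.red x ∈ P.A := by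
      by_contra hA
      exact hne (P.hone t (by omega) x hx x' hx' h3 h4 hA)
    have h5 := red_iter P (j := t + 1) le_rfl ht hx
    rw [show F^[t + 1] x = b from hx] at h5
    have h6 := (P.hJ _ hA _ hC.hb (t + 1) hJ 0 (by omega) h5.symm).2
    omega

theorem EIn_ex {P : Place G F b s J N} (hC : Cyc P n t0) {t : ℕ} {x : Ω} (hx : x ∈ lev F b t)
    (h : P.OnC x) (j : ℕ) (hj : t + j ≤ N) : ∃ y, F^[j] y = x ∧ P.OnC y := by
  induction j with
  | zero => exact ⟨x, rfl, h⟩
  | succ j ih =>
    obtain ⟨y, hy, hon⟩ := ih (by omega)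
    obtain ⟨z, hz, hz'⟩ := hC.hex (t + j) (by omega) y (lev_up (j := j) (by rw [hy]; exact hx)) hon
    exact ⟨z, by rw [Function.iterate_succ_apply, hz, hy], hz'⟩

theorem inO_of_one (hT : Tree G F b d N) (hO : Orb G F b n0 N O) {P : Place G F b s J N}
    (hC : Cyc P n t0) (hn : n0 ≤ N) (hJ : n0 ≤ J) {y0 : Ω} (hy : y0 ∈ O n0) (hon : P.OnC y0) :
    InO P O := by
  intro t ht x hx hxon
  rcases le_or_gt n0 t with h | h
  · have h1 := lev_iter (j := t - n0) hx (by omega)
    rw [show t - (t - n0) = n0 by omega] at h1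
    have h2 := onC_iter P (j := t - n0) (by omega) ht hx hxon
    have h3 := uniq_low hT hC hn hJ h1 (hO.sub n0 hn hy) h2 hon
    have h4 := orb_up hO (t := n0) (j := t - n0) le_rfl (by omega) (x := x) (by rw [h3]; exact hy)
    rwa [show n0 + (t - n0) = t by omega] at h4
  · obtain ⟨y, hy1, hy2⟩ := EIn_ex hC hx hxon (n0 - t) (by omega)
    have h1 : y ∈ lev F b n0 := by
      have := lev_up (F := F) (b := b) (t := t) (j := n0 - t) (x := y) (by rw [hy1]; exact hx)
      rwa [show t + (n0 - t) = n0 by omega] at this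
    have h3 := uniq_low hT hC hn hJ h1 (hO.sub n0 hn hy) hy2 hon
    have h4 := orb_iter hO (t := n0) (j := n0 - t) (by omega) hn (x := y) (by rw [h3]; exact hy)
    rwa [hy1, show n0 - (n0 - t) = t by omega] at h4

theorem Cyc.mono {P : Place G F b s J N} (hC : Cyc P n t0) (h : t0 ≤ t1) : Cyc P n t1 :=
  ⟨hC.hn, hC.hb, hC.hcyc, hC.hex, fun m hm => hC.hdig m (h.trans hm)⟩

end Pool.Agent.H42.PC
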