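/-
Row EOr (about 130 lines): the orbit structure.

PROOF of Orb (L ≃ₐ[K] L) (FA f L) β n0 N (OO f h n0 L), N ≥ n0. h is monic irreducible, h ∣ P_{n0} := f.comp^[n0] X - C β, and P_t splits in L for t ≤ N. L/K is normal (IsGalois).
 sub : y a root of h is a root of P_{n0} so F^[n0] y = β. t ≥ n0: F^[t - n0] x = y gives F^[t] x = β. t < n0: x = F^[n0 - t] y: F^[t] x = F^[n0] y = β.
 ne : h has a root y in L (h divides the split polynomial P_{n0}, degree ≥ 1). t < n0: x := F^[n0-t] y. t ≥ n0: lift step by step by the fibres of the tree (nonempty: fib with d ≥ 1).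
 inv : g y is a root of h; FA_smul.
 par : x ∈ OO (t+1): cases n0 ≤ t; t + 1 = n0 (x = y, F x = F^[1] y, n0 - t = 1); t + 1 < n0.
 full : n0 ≤ t: F^[t - n0] (F x) = y gives F^[t+1-n0] x = y.
 trans : t < n0: x = F^[n0-t] y, x' = F^[n0-t] y', g y = y' (h irreducible, L normal: roots of the same irreducible polynomial are conjugate: minpoly K y = h = minpoly K y', e.g. isConjRoot_iff_exists_algEquiv or Normal.exists_algEquiv...). t ≥ n0: induction on t; t = n0: roots of h. t + 1: x x' ∈ OO (t+1), F x, F x' ∈ OO t so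
   g F x = F x', minpoly K (F x) = minpoly K (F x'). Embed L in A := AlgebraicClosure K by ι (IsAlgClosed.lift): minpoly is unchanged (minpoly.algHom_eq), F^[t+1] (ι x) = β. Stab (n := t ≥ n0) gives minpoly K x = minpoly K x', hence x, x' are conjugate in L.
-/
import Pool.Agent.H42.PC.EBas

set_option autoImplicit false

namespace Pool.Agent.H42.PC

open Polynomial

section EOrAux

variable {K L : Type} [Field K] [CharZero K] [Field L] [Algebra K L] [IsGalois K L]
  {f h : K[X]} {β : K} {n0 N : ℕ}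

omit [CharZero K] [IsGalois K L] in
theorem EOr_root (hdvd : h ∣ f.comp^[n0] X - C β) {y : L} (hy : aeval y h = 0) :
    (FA f L)^[n0] y = algebraMap K L β := by
  obtain ⟨q, hq⟩ := hdvd
  have h1 := itp_aeval (f := f) (β := β) n0 y
  rw [hq, map_mul, hy, zero_mul] at h1
  exact (sub_eq_zero.1 h1.symm)

omit [CharZero K] [IsGalois K L] in
theorem EOr_sub (hdvd : h ∣ f.comp^[n0] X - C β) (t : ℕ) :
    OO f h n0 L t ⊆ lev (FA f L) (algebraMap K L β) t := by
  rintro x ⟨y, hy, h1 | h1⟩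
  · obtain ⟨h2, h3⟩ := h1
    show (FA f L)^[t] x = algebraMap K L β
    have : t = n0 + (t - n0) := by omega
    rw [this, Function.iterate_add_apply, h3]
    exact EOr_root hdvd hy
  · obtain ⟨h2, h3⟩ := h1
    show (FA f L)^[t] x = algebraMap K L β
    rw [← h3, ← Function.iterate_add_apply, show t + (n0 - t) = n0 by omega]
    exact EOr_root hdvd hy

omit [CharZero K] [IsGalois K L] in
theorem EOr_full {t : ℕ} (h0 : n0 ≤ t) {x : L} (hx : FA f L x ∈ OO f h n0 L t) :
    x ∈ OO f h n0 L (t + 1) := by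
  obtain ⟨y, hy, h1 | h1⟩ := hx
  · refine ⟨y, hy, Or.inl ⟨by omega, ?_⟩⟩
    rw [show t + 1 - n0 = (t - n0) + 1 by omega, Function.iterate_succ_apply]
    exact h1.2
  · omega

omit [CharZero K] [IsGalois K L] in
theorem EOr_inv (t : ℕ) (g : L ≃ₐ[K] L) {x : L} (hx : x ∈ OO f h n0 L t) :
    g • x ∈ OO f h n0 L t := by
  obtain ⟨y, hy, h1⟩ := hx
  have hgy : aeval (g • y) h = 0 := by
    change aeval (g y) h = 0
    have h2 := Polynomial.aeval_algHom_apply (g : L →ₐ[K] L) y h
    change aeval (g y) h = g (aeval y h) at h2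
    rw [h2, hy, map_zero]
  refine ⟨g • y, hgy, ?_⟩
  rcases h1 with h1 | h1
  · refine Or.inl ⟨h1.1, ?_⟩
    rw [← FA_smul, h1.2]
  · refine Or.inr ⟨h1.1, ?_⟩
    rw [← FA_smul, h1.2]

omit [CharZero K] in
theorem EOr_conj {x y : L} (hxy : minpoly K x = minpoly K y) : ∃ g : L ≃ₐ[K] L, g • x = y := by
  have h1 := (Normal.minpoly_eq_iff_mem_orbit (F := K) L).1 hxy.symm
  obtain ⟨g, hg⟩ := h1
  exact ⟨g, hg⟩

omit [CharZero K] [IsGalois K L] in
theorem EOr_min (g : L ≃ₐ[K] L) (x : L) : minpoly K (g • x) = minpoly K x :=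
  minpoly.algEquiv_eq g x

omit [CharZero K] in
theorem EOr_roots (hm : h.Monic) (hi : Irreducible h) {y y' : L} (hy : aeval y h = 0)
    (hy' : aeval y' h = 0) : ∃ g : L ≃ₐ[K] L, g • y = y' := by
  apply EOr_conj
  rw [← minpoly.eq_of_irreducible_of_monic hi hy hm, ← minpoly.eq_of_irreducible_of_monic hi hy' hm]

end EOrAux

theorem orb_of_stab {K L : Type} [Field K] [CharZero K] [Field L] [Algebra K L] [IsGalois K L]
    {f h : K[X]} {β : K} (hd : 1 ≤ f.natDegree) {n0 N : ℕ} (hN : n0 ≤ N)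
    (hT : Tree (L ≃ₐ[K] L) (FA f L) (algebraMap K L β) f.natDegree N)
    (hs : ∀ t ≤ N, ((f.comp^[t] X - C β).map (algebraMap K L)).Splits)
    (hst : Stab f β n0) (hm : h.Monic) (hi : Irreducible h) (hdvd : h ∣ f.comp^[n0] X - C β) :
    Orb (L ≃ₐ[K] L) (FA f L) (algebraMap K L β) n0 N (OO f h n0 L) := by
  have hpar : ∀ t < N, ∀ x ∈ OO f h n0 L (t + 1), FA f L x ∈ OO f h n0 L t := by
    rintro t ht x ⟨y, hy, h1 | h1⟩
    · obtain ⟨h2, h3⟩ := h1
      rcases Nat.lt_or_ge t n0 with h4 | h4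
      · have h5 : t + 1 = n0 := by omega
        have h6 : t + 1 - n0 = 0 := by omega
        rw [h6, Function.iterate_zero, id] at h3
        refine ⟨y, hy, Or.inr ⟨h4, ?_⟩⟩
        rw [show n0 - t = 1 by omega, Function.iterate_one, h3]
      · refine ⟨y, hy, Or.inl ⟨h4, ?_⟩⟩
        rw [← Function.iterate_succ_apply, show (t - n0).succ = t + 1 - n0 by omega]
        exact h3
    · obtain ⟨h2, h3⟩ := h1
      refine ⟨y, hy, Or.inr ⟨by omega, ?_⟩⟩
      rw [← h3, ← Function.iterate_succ_apply' (FA f L),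
        show (n0 - (t + 1)).succ = n0 - t by omega]
  have hroot : ∃ y : L, aeval y h = 0 := by
    have hdeg : (f.comp^[n0] X - C β : K[X]) ≠ 0 := by
      intro h0
      have h1 := itp_natDegree (f := f) (β := β) hd n0
      rw [h0, natDegree_zero] at h1
      have : 0 < f.natDegree ^ n0 := Nat.pow_pos hd
      omega
    have h1 : (h.map (algebraMap K L)).Splits := by
      refine (hs n0 hN).of_dvd ?_ (Polynomial.map_dvd _ hdvd)
      rw [Ne, Polynomial.map_eq_zero_iff (algebraMap K L).injective]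
      exact hdeg
    obtain ⟨y, hy⟩ := h1.exists_eval_eq_zero (by
      rw [degree_map]
      exact hi.degree_pos.ne')
    exact ⟨y, by rwa [eval_map_algebraMap] at hy⟩
  have hne : ∀ t ≤ N, (OO f h n0 L t).Nonempty := by
    intro t
    induction t with
    | zero =>
      intro _
      obtain ⟨y, hy⟩ := hroot
      rcases Nat.eq_zero_or_pos n0 with h0 | h0
      · exact ⟨y, y, hy, Or.inl ⟨by omega, by rw [h0]; rfl⟩⟩
      · exact ⟨(FA f L)^[n0 - 0] y, y, hy, Or.inr ⟨h0, rfl⟩⟩
    | succ t ih =>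
      intro ht
      rcases Nat.lt_or_ge t n0 with h4 | h4
      · obtain ⟨y, hy⟩ := hroot
        rcases Nat.lt_or_ge (t + 1) n0 with h5 | h5
        · exact ⟨(FA f L)^[n0 - (t + 1)] y, y, hy, Or.inr ⟨h5, rfl⟩⟩
        · exact ⟨y, y, hy, Or.inl ⟨h5, by rw [show t + 1 - n0 = 0 by omega]; rfl⟩⟩
      · obtain ⟨x, hx⟩ := ih (by omega)
        have h6 := hT.fib t (by omega) x (EOr_sub hdvd t hx)
        have h7 : {z | FA f L z = x}.ncard ≠ 0 := by omega
        obtain ⟨z, hz⟩ := Set.nonempty_of_ncard_ne_zero h7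
        exact ⟨z, EOr_full h4 (by rw [show FA f L z = x from hz]; exact hx)⟩
  have htrge : ∀ j, n0 + j ≤ N → ∀ x ∈ OO f h n0 L (n0 + j), ∀ x' ∈ OO f h n0 L (n0 + j),
      ∃ g : L ≃ₐ[K] L, g • x = x' := by
    intro j
    induction j with
    | zero =>
      rintro _ x ⟨y, hy, h1 | h1⟩ x' ⟨y', hy', h1' | h1'⟩
      · have e1 := h1.2
        have e2 := h1'.2
        rw [show n0 + 0 - n0 = 0 by omega, Function.iterate_zero, id] at e1 e2
        rw [e1, e2]
        exact EOr_roots hm hi hy hy'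
      · omega
      · omega
      · omega
    | succ j ih =>
      intro hj x hx x' hx'
      have hFx := hpar (n0 + j) (by omega) x hx
      have hFx' := hpar (n0 + j) (by omega) x' hx'
      obtain ⟨g, hg⟩ := ih (by omega) _ hFx _ hFx'
      have hmp : minpoly K (FA f L x) = minpoly K (FA f L x') := by
        rw [← hg, EOr_min]
      let ι : L →ₐ[K] AlgebraicClosure K := IsAlgClosed.lift
      have hlx : (FA f L)^[n0 + j + 1] x = algebraMap K L β := EOr_sub hdvd _ hx
      have hlx' : (FA f L)^[n0 + j + 1] x' = algebraMap K L β := EOr_sub hdvd _ hx'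
      have h1 := hst (n0 + j) (by omega) (ι x) (ι x')
        (by rw [← FA_iter, hlx, AlgHom.commutes]) (by rw [← FA_iter, hlx', AlgHom.commutes])
        (by rw [← FA_hom, ← FA_hom, minpoly.algHom_eq ι ι.injective,
              minpoly.algHom_eq ι ι.injective, hmp])
      rw [minpoly.algHom_eq ι ι.injective, minpoly.algHom_eq ι ι.injective] at h1
      exact EOr_conj h1
  refine ⟨fun t _ => EOr_sub hdvd t, hne, fun t _ g x hx => EOr_inv t g hx, ?_, hpar,
    fun t h0 _ x hx => EOr_full h0 hx⟩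
  intro t ht x hx x' hx'
  rcases Nat.lt_or_ge t n0 with h4 | h4
  · obtain ⟨y, hy, h1 | h1⟩ := hx
    · omega
    · obtain ⟨y', hy', h1' | h1'⟩ := hx'
      · omega
      · obtain ⟨g, hg⟩ := EOr_roots hm hi hy hy'
        exact ⟨g, by rw [← h1.2, ← h1'.2, FA_smul, hg]⟩
  · have := htrge (t - n0) (by omega)
    rw [show n0 + (t - n0) = t by omega] at this
    exact this x hx x' hx'

end Pool.Agent.H42.PC
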