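/-
Row EPl (about 130 lines): a good prime v of K in SS gives a place of L with Cyc and InO.

PROOF. Choose w over v (exists: primesOver nonempty; a prime of 𝓞 L over v, nonzero). hG := good_of_goodK. Λ := mkLoc K w, fL := f.map. mkPlace hG s N (card_image_le). val_pow (M = K): V_w(algebraMap z) = V_v(z)^E, E = card Λ.I (inertia group of w, same group). So
 V_w (F^[n] β - β) = exp(-v0)^E = exp (-(v0 E)) (FA_base), and strong_cyc gives Cyc (natDegree_map; hT for the tree with fL.natDegree).
 InO: inO_of_one: need y0 ∈ OO n0 (a root of h) OnC. h splits in L (divides P_{n0} which splits, n0 ≤ N), monic; evaluate at z := F^[k] β (in L): h(z) = ∏ (z - y) over the roots y of h in L; V_w (h(z)) < 1 (V_v < 1), so some root y has V_w (z - y) < 1 (if all factors had V ≥ 1 the product would).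
 Then y is OnC by onC_iff (V (y - F^[k] β) < 1), y ∈ OO n0 (t = n0, iterate 0).
-/
import Pool.Agent.H42.PC.EGd
import Pool.Agent.H42.PC.EOr
import Pool.Agent.H42.PC.EIn
import Pool.Agent.H42.PC.DLate

set_option autoImplicit false

namespace Pool.Agent.H42.PC

open Polynomial NumberField IsDedekindDomain WithZero

open scoped Classical

theorem exists_over {K L : Type} [Field K] [NumberField K] [Field L] [NumberField L]
    [Algebra K L] (v : HeightOneSpectrum (𝓞 K)) :
    ∃ w : HeightOneSpectrum (𝓞 L), w.asIdeal.LiesOver v.asIdeal := by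
  obtain ⟨⟨P, hP, hPv⟩⟩ := v.asIdeal.nonempty_primesOver (S := 𝓞 L)
  exact ⟨⟨P, hP, Ideal.ne_bot_of_liesOver_of_ne_bot v.ne_bot P⟩, hPv⟩

/-- One factor of a product of elements of value `< 1` has value `< 1`. -/
theorem EPl_prod_near {L : Type} [Field L] (V : Valuation L ℤᵐ⁰) (z : L) (s : Multiset L)
    (h : V (s.map (fun y => z - y)).prod < 1) : ∃ y ∈ s, V (z - y) < 1 := by
  by_contra hc
  push Not at hc
  induction s using Multiset.induction_on with
  | empty => simp at h
  | cons a s ih =>
    rw [Multiset.map_cons, Multiset.prod_cons, map_mul] at h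
    have h1 : 1 ≤ V (z - a) := hc a (Multiset.mem_cons_self a s)
    have h2 : ¬ V (s.map (fun y => z - y)).prod < 1 := fun h2 =>
      ih h2 (fun y hy => hc y (Multiset.mem_cons_of_mem hy))
    exact absurd h (not_lt.2 (one_le_mul h1 (not_lt.1 h2)))

theorem place_over {K M L : Type} [Field K] [NumberField K] [Field M] [NumberField M] [Field L]
    [NumberField L] [Algebra K M] [Algebra M L] [Algebra K L] [IsScalarTower K M L] [IsGalois K L]
    {f h : K[X]} {β : K} (hd : 2 ≤ f.natDegree) (hGP : GP f β M)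
    (hM : ((derivative f).map (algebraMap K M)).Splits) {J n0 N s n v0 : ℕ}
    {v : HeightOneSpectrum (𝓞 K)} (hv : GoodK f β M J v) (hn0 : n0 ≤ N) (hJ0 : n0 ≤ J)
    (hT : Tree (L ≃ₐ[K] L) (FA f L) (algebraMap K L β) f.natDegree N)
    (hO : Orb (L ≃ₐ[K] L) (FA f L) (algebraMap K L β) n0 N (OO f h n0 L))
    (hs : ∀ t ≤ N, ((f.comp^[t] X - C β).map (algebraMap K L)).Splits)
    (hm : h.Monic) (hdvd : h ∣ f.comp^[n0] X - C β) (hcard : (Wd f M).card ≤ s)
    (hn : 1 ≤ n) (hv0 : 1 ≤ v0) (hval : v.valuation K ((FA f K)^[n] β - β) = exp (-(v0 : ℤ)))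
    {k : ℕ} (hk : v.valuation K (h.eval ((FA f K)^[k] β)) < 1)
    (w : HeightOneSpectrum (𝓞 L)) (hw : w.asIdeal.LiesOver v.asIdeal) :
    ∃ hG : Good (mkLoc K w) (f.map (algebraMap K L)) (algebraMap K L β)
        ((Wd f M).image (algebraMap M L)) J,
      Cyc (mkPlace hG s N (Finset.card_image_le.trans hcard)) n ((n + 1) * (n * (v0 + 1))) ∧
      InO (mkPlace hG s N (Finset.card_image_le.trans hcard)) (OO f h n0 L) := by
  have hG : Good (mkLoc K w) (f.map (algebraMap K L)) (algebraMap K L β)
        ((Wd f M).image (algebraMap M L)) J := good_of_goodK hd hGP hM hv w hw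
  have hcI : 0 < Nat.card (w.asIdeal.inertia (L ≃ₐ[K] L)) := Nat.card_pos
  have hlt : ∀ x : K, v.valuation K x < 1 → w.valuation L (algebraMap K L x) < 1 := by
    intro x hx
    rw [val_pow v w hw]
    exact pow_lt_one' hx hcI.ne'
  have hcyc : Cyc (mkPlace hG s N (Finset.card_image_le.trans hcard)) n
      ((n + 1) * (n * (v0 + 1))) := by
    refine strong_cyc hG (Finset.card_image_le.trans hcard) ?_ hn hv0 ?_
    · rw [natDegree_map]
      exact hT
    · have h1 : (mkLoc K w).V ((FA f L)^[n] (algebraMap K L β) - algebraMap K L β) =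
          w.valuation L (algebraMap K L ((FA f K)^[n] β - β)) := by
        rw [map_sub (algebraMap K L), FA_base]
        rfl
      refine h1.trans ?_
      rw [val_pow v w hw, hval, ← exp_nsmul]
      congr 1
      rw [nsmul_eq_mul]
      show ((Nat.card (w.asIdeal.inertia (L ≃ₐ[K] L)) : ℕ) : ℤ) * -(v0 : ℤ) =
        -((v0 : ℤ) * ((Nat.card (w.asIdeal.inertia (L ≃ₐ[K] L)) : ℕ) : ℤ))
      ring
  refine ⟨hG, hcyc, ?_⟩
  have hspl : (h.map (algebraMap K L)).Splits := by
    refine (hs n0 hn0).of_dvd ?_ ?_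
    · rw [Ne, Polynomial.map_eq_zero]
      intro h0
      have := itp_natDegree (f := f) (β := β) (le_trans (by norm_num) hd) n0
      rw [h0, natDegree_zero] at this
      have h2 : 0 < f.natDegree ^ n0 := pow_pos (by omega) _
      omega
    · exact Polynomial.map_dvd _ hdvd
  set z : L := algebraMap K L ((FA f K)^[k] β) with hz
  have hzv : w.valuation L ((h.map (algebraMap K L)).eval z) < 1 := by
    rw [hz, eval_map_algebraMap, aeval_algebraMap_apply]
    exact hlt _ (by simpa using hk)
  rw [hspl.eval_eq_prod_roots_of_monic (hm.map _)] at hzv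
  obtain ⟨y, hy, hyz⟩ := EPl_prod_near _ _ _ hzv
  have hyr : aeval y h = 0 := by
    have := (mem_roots'.1 hy).2
    rwa [IsRoot.def, eval_map_algebraMap] at this
  refine inO_of_one hT hO hcyc hn0 hJ0 (y0 := y) ?_ ?_
  · exact ⟨y, hyr, Or.inl ⟨le_rfl, by simp⟩⟩
  · rw [onC_iff]
    refine ⟨k, ?_⟩
    rw [Valuation.map_sub_swap]
    have : (FA f L)^[k] (algebraMap K L β) = z := by rw [hz, FA_base]
    show w.valuation L ((FA f L)^[k] (algebraMap K L β) - y) < 1
    rw [this]
    exact hyz

end Pool.Agent.H42.PC
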