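/-
Row EFr (about 140 lines): for t ≥ n0 and all but finitely many v ∈ SS the Frobenius at v fixes a point of OO t.

PROOF. N := t. Exclude the finitely many v not GoodK with J := max 1 n0 (goodK_finite), and the v below primes w of L with V_w (x - x') ≠ 1 for some x ≠ x' in lev t (finite set of nonzero elements; val_ne_one_finite; v = prime below w). Let v ∈ SS be another prime, n, v0, k as in ELim; w over v; place_over: P with Cyc and InO.
 There is x ∈ lev t OnC (exists_onC), x ∈ OO t; onC_iff: V_w (x - z) < 1 with z := F^[k'] β ∈ K. Let g be a Frobenius at w (IsArithFrobAt.exists_of_isInvariant: the same w): g ∈ the decomposition group (IsArithFrobAt.mem_stabilizer), so V_w (g y) = V_w y for all y; V_w (g x - z) = V_w (g (x - z)) < 1 (g z = z).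
 So V_w (g x - x) < 1, g x ∈ lev t, and no two different points of lev t are congruent mod w, so g x = x. IsFr K L v g holds with this w.
 (Decomposition group invariance of V_w: as in the row DLoc loc_inv: g w = w implies V_w (g y) = V_w y; only V_w (y) < 1 → V_w (g y) < 1 is needed: y = a / c with c ∉ w as in loc_inert.)
-/
import Pool.Agent.H42.PC.EPl
import Pool.Agent.H42.PC.BFr

set_option autoImplicit false

namespace Pool.Agent.H42.PC

open Polynomial NumberField IsDedekindDomain WithZero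

open scoped Classical Pointwise

private lemma EFr_int {K L : Type} [Field K] [NumberField K] [Field L] [NumberField L]
    [Algebra K L] (w : HeightOneSpectrum (𝓞 L)) (g : L ≃ₐ[K] L)
    (hg : g • w.asIdeal = w.asIdeal) (a : 𝓞 L) (n : ℕ) :
    w.intValuation (g • a) ≤ exp (-(n : ℤ)) ↔ w.intValuation a ≤ exp (-(n : ℤ)) := by
  rw [w.intValuation_le_pow_iff_mem, w.intValuation_le_pow_iff_mem]
  have h : g • (w.asIdeal ^ n) = w.asIdeal ^ n := by
    rw [smul_pow', hg]
  constructor
  · intro h1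
    rw [← h] at h1
    exact Ideal.smul_mem_pointwise_smul_iff.1 h1
  · intro h1
    rw [← h]
    exact Ideal.smul_mem_pointwise_smul_iff.2 h1

private lemma EFr_int_eq {K L : Type} [Field K] [NumberField K] [Field L] [NumberField L]
    [Algebra K L] (w : HeightOneSpectrum (𝓞 L)) (g : L ≃ₐ[K] L)
    (hg : g • w.asIdeal = w.asIdeal) (a : 𝓞 L) :
    w.intValuation (g • a) = w.intValuation a := by
  by_cases ha : a = 0
  · simp [ha]
  have hga : g • a ≠ 0 := (smul_ne_zero_iff_ne g).2 ha
  have h1 := w.intValuation_if_neg ha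
  have h2 := w.intValuation_if_neg hga
  apply le_antisymm
  · rw [h1]
    rw [EFr_int w g hg a, h1]
  · rw [h2]
    rw [← EFr_int w g hg a, h2]

private lemma EFr_val {K L : Type} [Field K] [NumberField K] [Field L] [NumberField L]
    [Algebra K L] (w : HeightOneSpectrum (𝓞 L)) (g : L ≃ₐ[K] L)
    (hg : g • w.asIdeal = w.asIdeal) (y : L) :
    w.valuation L (g • y) = w.valuation L y := by
  obtain ⟨a, c, hc, rfl⟩ := IsFractionRing.div_surjective (A := 𝓞 L) y
  have e1 : g • (algebraMap (𝓞 L) L a / algebraMap (𝓞 L) L c) =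
      algebraMap (𝓞 L) L (g • a) / algebraMap (𝓞 L) L (g • c) := by
    rw [AlgEquiv.smul_def, map_div₀]
    rfl
  rw [e1, map_div₀, map_div₀]
  simp only [HeightOneSpectrum.valuation_of_algebraMap, EFr_int_eq w g hg]

private lemma EFr_exp {z : ℤᵐ⁰} (h0 : z ≠ 0) (h1 : z < 1) :
    ∃ n : ℕ, 1 ≤ n ∧ z = exp (-(n : ℤ)) := by
  have hz : z = exp (log z) := (exp_log h0).symm
  rw [hz, ← exp_zero, exp_lt_exp] at h1
  refine ⟨(-log z).toNat, by omega, ?_⟩
  rw [Int.toNat_of_nonneg (by omega), neg_neg]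
  exact hz

private lemma EFr_over {K L : Type} [Field K] [NumberField K] [Field L] [NumberField L]
    [Algebra K L] (S : Set (HeightOneSpectrum (𝓞 L))) (hS : S.Finite) :
    {v : HeightOneSpectrum (𝓞 K) | ∃ w ∈ S, w.asIdeal.LiesOver v.asIdeal}.Finite := by
  have : {v : HeightOneSpectrum (𝓞 K) | ∃ w ∈ S, w.asIdeal.LiesOver v.asIdeal} =
      ⋃ w ∈ S, {v : HeightOneSpectrum (𝓞 K) | w.asIdeal.LiesOver v.asIdeal} := by
    ext v; simp
  rw [this]
  refine hS.biUnion fun w _ => ?_
  apply Set.Subsingleton.finite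
  intro v hv v' hv'
  apply HeightOneSpectrum.ext
  have h1 : v.asIdeal = w.asIdeal.under (𝓞 K) := hv.over
  have h2 : v'.asIdeal = w.asIdeal.under (𝓞 K) := hv'.over
  rw [h1, h2]

private lemma EFr_lev {K L : Type} [Field K] [Field L] [Algebra K L] {f : K[X]} {β : K}
    (hd : 1 ≤ f.natDegree) (t : ℕ) : (lev (FA f L) (algebraMap K L β) t).Finite := by
  have hne : f.comp^[t] X - C β ≠ 0 := by
    intro h
    have h1 := itp_natDegree (f := f) (β := β) hd t
    rw [h, natDegree_zero] at h1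
    have h2 : 0 < f.natDegree ^ t := Nat.pow_pos hd
    omega
  refine ((f.comp^[t] X - C β).rootSet_finite L).subset ?_
  intro x hx
  rw [mem_rootSet]
  refine ⟨hne, ?_⟩
  rw [itp_aeval, sub_eq_zero]
  exact hx

theorem frob_in {K M L : Type} [Field K] [NumberField K] [Field M] [NumberField M] [Field L]
    [NumberField L] [Algebra K M] [Algebra M L] [Algebra K L] [IsScalarTower K M L] [IsGalois K L]
    {f h : K[X]} {β : K} (hd : 2 ≤ f.natDegree) (hGP : GP f β (AlgebraicClosure K))
    (hM : ((derivative f).map (algebraMap K M)).Splits) {n0 t : ℕ} (hn0 : n0 ≤ t)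
    (hT : Tree (L ≃ₐ[K] L) (FA f L) (algebraMap K L β) f.natDegree t)
    (hO : Orb (L ≃ₐ[K] L) (FA f L) (algebraMap K L β) n0 t (OO f h n0 L))
    (hs : ∀ u ≤ t, ((f.comp^[u] X - C β).map (algebraMap K L)).Splits)
    (hm : h.Monic) (hdvd : h ∣ f.comp^[n0] X - C β) :
    {v | v ∈ SS f h β ∧ ¬ ∃ g : L ≃ₐ[K] L, (∃ x ∈ OO f h n0 L t, g • x = x) ∧
      IsFr K L v g}.Finite := by
  have hGPM : GP f β M := GP_hom (IsAlgClosed.lift (R := K) (S := M) (M := AlgebraicClosure K)) hGP
  have hGPK : GP f β K := GP_hom (Algebra.ofId K M) hGPM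
  have hlev : (lev (FA f L) (algebraMap K L β) t).Finite := EFr_lev (by omega) t
  have hbad : {v : HeightOneSpectrum (𝓞 K) | ∃ w ∈ (⋃ x ∈ lev (FA f L) (algebraMap K L β) t,
      ⋃ x' ∈ lev (FA f L) (algebraMap K L β) t,
        {w : HeightOneSpectrum (𝓞 L) | x ≠ x' ∧ w.valuation L (x - x') ≠ 1}),
      w.asIdeal.LiesOver v.asIdeal}.Finite := by
    refine EFr_over _ (hlev.biUnion fun x _ => hlev.biUnion fun x' _ => ?_)
    by_cases hxx : x = x'
    · simp [hxx]
    · exact (val_ne_one_finite (sub_ne_zero.2 hxx)).subset fun w hw => hw.2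
  refine ((goodK_finite (f := f) (β := β) (M := M) hd hGPM (max 1 n0)).union hbad).subset ?_
  rintro v ⟨⟨⟨n, hn, hvn⟩, k, hk⟩, hno⟩
  by_contra hv
  rw [Set.mem_union, not_or, Set.mem_ofPred_eq, not_not] at hv
  obtain ⟨hgood, hb⟩ := hv
  apply hno
  obtain ⟨w, hw⟩ := exists_over (K := K) (L := L) v
  have hne : (FA f K)^[n] β - β ≠ 0 := by
    rw [sub_ne_zero]
    exact aper hGPK hn
  obtain ⟨v0, hv0, hval⟩ := EFr_exp ((Valuation.ne_zero_iff _).2 hne) hvn
  obtain ⟨hG, hC, hI⟩ := place_over (s := (Wd f M).card) hd hGPM hM hgood hn0 (le_max_right _ _)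
    hT hO hs hm hdvd le_rfl hn hv0 hval hk w hw
  obtain ⟨x, hx, hon⟩ := exists_onC hC (le_refl t)
  have hxO : x ∈ OO f h n0 L t := hI t le_rfl x hx hon
  obtain ⟨k', hk'⟩ := hon
  have hball : ball (mkLoc K w) x = ball (mkLoc K w) ((FA f L)^[k'] (algebraMap K L β)) := by
    have h1 : ball (mkLoc K w) x =
      (FRm (mkLoc K w) (f.map (algebraMap K L)))^[k'] (ball (mkLoc K w) (algebraMap K L β)) := hk'
    rw [h1, FR_iter hG hG.bint]
  have hclose : w.valuation L (x - (FA f L)^[k'] (algebraMap K L β)) < 1 := ball_eq.1 hball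
  have hfin : Finite (𝓞 L ⧸ w.asIdeal) := Ideal.finiteQuotientOfFreeOfNeBot w.asIdeal w.ne_bot
  obtain ⟨g, hg⟩ := IsArithFrobAt.exists_of_isInvariant (𝓞 K) (L ≃ₐ[K] L) w.asIdeal
  have hgw : g • w.asIdeal = w.asIdeal := MulAction.mem_stabilizer_iff.1 hg.mem_stabilizer
  refine ⟨g, ⟨x, hxO, ?_⟩, w, hw, hg⟩
  by_contra hgx
  have hz : g • (FA f L)^[k'] (algebraMap K L β) = (FA f L)^[k'] (algebraMap K L β) := by
    rw [← FA_base, AlgEquiv.smul_def, AlgEquiv.commutes]
  have h1 : w.valuation L (g • x - (FA f L)^[k'] (algebraMap K L β)) < 1 := by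
    have h2 := EFr_val w g hgw (x - (FA f L)^[k'] (algebraMap K L β))
    rw [smul_sub, hz] at h2
    rw [h2]
    exact hclose
  have h3 : w.valuation L (g • x - x) < 1 := by
    have e : g • x - x = (g • x - (FA f L)^[k'] (algebraMap K L β)) +
        ((FA f L)^[k'] (algebraMap K L β) - x) := by ring
    rw [e]
    refine Valuation.map_add_lt _ h1 ?_
    rw [Valuation.map_sub_swap]
    exact hclose
  have hgxl : g • x ∈ lev (FA f L) (algebraMap K L β) t := by
    change (FA f L)^[t] (g • x) = algebraMap K L β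
    rw [← FA_smul]
    have hx2 : (FA f L)^[t] x = algebraMap K L β := hx
    rw [hx2, AlgEquiv.smul_def, AlgEquiv.commutes]
  apply hb
  refine ⟨w, ?_, hw⟩
  simp only [Set.mem_iUnion]
  exact ⟨g • x, hgxl, x, hx, hgx, h3.ne⟩

end Pool.Agent.H42.PC
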