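/-
Row EQ (about 120 lines): the proportion q does not depend on the field.

 q_tower : L ⊆ L' Galois over K (tower), O ⊆ L, O' = image of O in L' at level t. restrictNormalHom : (L' ≃ₐ[K] L') → (L ≃ₐ[K] L) is a surjective homomorphism (AlgEquiv.restrictNormalHom_surjective) and algebraMap (restrict g x) = g (algebraMap x); all its fibres have the same cardinality (cosets of the kernel), so
   #{g' | ∃ x' ∈ O', g' x' = x'} = card ker * #{g | ∃ x ∈ O, g x = x} and card G' = card ker * card G. (Finite groups.)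
 q_indep : L' := L, L := S := (f.comp^[t] X - C β).SplittingField; the polynomial splits in L so there is a K-embedding S → L (SplittingField.lift), giving an algebra structure and a tower. OO f h n0 L t = image of OO f h n0 S t, n0 ≤ t: x ∈ OO_L: F^[t-n0] x = y, h(y) = 0, so F^[t] x = β (h ∣ f^[n0] - β), x is a root of f^[t] - β so it comes
   from x0 ∈ S (the polynomial splits in S), and F^[t-n0] x0 =: y0 is a root of h (injectivity). Conversely clear (FA_iter). S/K is Galois (char 0, splitting field).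
-/
import Pool.Agent.H42.PC.EBas

set_option autoImplicit false

namespace Pool.Agent.H42.PC

open Polynomial

private theorem EQ_card {G' G : Type} [Group G'] [Group G] (φ : G' →* G)
    (hφ : Function.Surjective φ) (p : G → Prop) :
    Nat.card {g : G' // p (φ g)} = Nat.card {g : G // p g} * Nat.card φ.ker := by
  choose σ hσ using hφ
  rw [← Nat.card_prod]
  refine Nat.card_congr
    { toFun := fun g => (⟨φ g.1, g.2⟩, ⟨(σ (φ g.1))⁻¹ * g.1, ?_⟩)
      invFun := fun y => ⟨σ y.1.1 * y.2.1, ?_⟩
      left_inv := ?_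
      right_inv := ?_ }
  · rw [MonoidHom.mem_ker, map_mul, map_inv, hσ, inv_mul_cancel]
  · have := y.2.2
    rw [MonoidHom.mem_ker] at this
    rw [map_mul, hσ, this, mul_one]
    exact y.1.2
  · rintro ⟨g, hg⟩
    simp
  · rintro ⟨⟨y, hy⟩, ⟨k, hk⟩⟩
    rw [MonoidHom.mem_ker] at hk
    simp [hσ, hk]

private theorem EQ_ratio {G' G : Type} [Group G'] [Group G] [Finite G'] (φ : G' →* G)
    (hφ : Function.Surjective φ) (p' : G' → Prop) (p : G → Prop) (h : ∀ g, p' g ↔ p (φ g)) :
    (Nat.card {g : G' // p' g} : ℝ) / Nat.card G' = (Nat.card {g : G // p g} : ℝ) / Nat.card G := by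
  have h1 : Nat.card {g : G' // p' g} = Nat.card {g : G' // p (φ g)} :=
    Nat.card_congr (Equiv.subtypeEquivRight h)
  have h2 : Nat.card G' = Nat.card G * Nat.card φ.ker := by
    have := EQ_card φ hφ (fun _ => True)
    rwa [Nat.card_congr (Equiv.subtypeUnivEquiv (fun _ => trivial)),
      Nat.card_congr (Equiv.subtypeUnivEquiv (fun _ => trivial))] at this
  have hk : (Nat.card φ.ker : ℝ) ≠ 0 := by
    have : 0 < Nat.card φ.ker := Nat.card_pos
    positivity
  rw [h1, EQ_card φ hφ p, h2]
  push_cast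
  rw [mul_div_mul_right _ _ hk]

private theorem EQ_mem {K A : Type} [Field K] [Field A] [Algebra K A] {f h : K[X]} {n0 t : ℕ}
    (hn : n0 ≤ t) (x : A) : x ∈ OO f h n0 A t ↔ aeval ((FA f A)^[t - n0] x) h = 0 := by
  constructor
  · rintro ⟨y, hy, (⟨-, h1⟩ | ⟨h1, -⟩)⟩
    · rw [h1]
      exact hy
    · omega
  · intro hx
    exact ⟨_, hx, Or.inl ⟨hn, rfl⟩⟩

private theorem EQ_root {K A : Type} [Field K] [Field A] [Algebra K A] {f h : K[X]} {β : K}
    {n0 t : ℕ} (hn : n0 ≤ t) (hdvd : h ∣ f.comp^[n0] X - C β) (x : A)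
    (hx : aeval ((FA f A)^[t - n0] x) h = 0) : aeval x (f.comp^[t] X - C β) = 0 := by
  obtain ⟨r, hr⟩ := hdvd
  have h1 : aeval ((FA f A)^[t - n0] x) (f.comp^[n0] X - C β) = 0 := by
    rw [hr, map_mul, hx, zero_mul]
  rw [itp_aeval, ← Function.iterate_add_apply, Nat.add_sub_cancel' hn] at h1
  rw [itp_aeval]
  exact h1

theorem q_indep {K L : Type} [Field K] [CharZero K] [Field L] [Algebra K L] [IsGalois K L]
    [FiniteDimensional K L] {f h : K[X]} {β : K} {n0 t : ℕ} (hd : 1 ≤ f.natDegree) (hn : n0 ≤ t)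
    (hdvd : h ∣ f.comp^[n0] X - C β)
    (hs : ((f.comp^[t] X - C β).map (algebraMap K L)).Splits) :
    q (L ≃ₐ[K] L) (OO f h n0 L) t = qq f h β n0 t := by
  unfold qq
  have hg0 : f.comp^[t] X - C β ≠ 0 := by
    intro h0
    have h1 := itp_natDegree (f := f) (β := β) hd t
    rw [h0, natDegree_zero] at h1
    have : 0 < f.natDegree ^ t := Nat.pow_pos hd
    omega
  generalize hg : f.comp^[t] X - C β = g at hg0 hs
  let ι : g.SplittingField →ₐ[K] L := SplittingField.lift g hs
  letI : Algebra g.SplittingField L := ι.toRingHom.toAlgebra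
  haveI : IsScalarTower K g.SplittingField L := IsScalarTower.of_algebraMap_eq (fun x => by
    show algebraMap K L x = ι (algebraMap K _ x)
    rw [ι.commutes])
  have hι : ∀ x, algebraMap g.SplittingField L x = ι x := fun x => rfl
  haveI : Normal K g.SplittingField := Normal.of_isSplittingField g
  unfold q
  refine EQ_ratio (AlgEquiv.restrictNormalHom g.SplittingField)
    (AlgEquiv.restrictNormalHom_surjective L) _ _ ?_
  intro σ
  have hσ : ∀ x, ι (AlgEquiv.restrictNormalHom g.SplittingField σ x) = σ (ι x) := fun x =>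
    AlgEquiv.restrictNormal_commutes σ g.SplittingField x
  constructor
  · rintro ⟨x, hx, hfix⟩
    rw [EQ_mem hn] at hx
    have hroot : aeval x g = 0 := by
      rw [← hg]
      exact EQ_root hn hdvd x hx
    have hxr : x ∈ g.rootSet L := (mem_rootSet_of_ne hg0).2 hroot
    rw [← (SplittingField.splits g).image_rootSet ι] at hxr
    obtain ⟨x0, -, hx0⟩ := hxr
    refine ⟨x0, ?_, ?_⟩
    · rw [EQ_mem hn]
      have e := Polynomial.aeval_algHom_apply ι ((FA f g.SplittingField)^[t - n0] x0) h
      rw [FA_iter, hx0, hx] at e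
      apply ι.injective
      exact e.symm.trans (map_zero ι).symm
    · apply ι.injective
      show ι (AlgEquiv.restrictNormalHom g.SplittingField σ x0) = ι x0
      rw [hσ, hx0]
      exact hfix
  · rintro ⟨x0, hx0, hfix⟩
    rw [EQ_mem hn] at hx0
    refine ⟨ι x0, ?_, ?_⟩
    · rw [EQ_mem hn, ← FA_iter, Polynomial.aeval_algHom_apply, hx0, map_zero]
    · show σ (ι x0) = ι x0
      rw [← hσ]
      exact congrArg ι hfix

end Pool.Agent.H42.PC
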