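/-
Row ETr (about 110 lines): the backward tree in a Galois extension in which f^t - β (t ≤ N) splits.

 tree : equiv, fix: g is a K-algebra map (FA_smul). aper: EBas.aper. For x ∈ lev t, t < N: p := f.map - C x in L[X], natDegree d = f.natDegree ≥ 1. It divides (f^[t+1] - β).map: (f^[t] - β).map =: P_t has root x (itp_aeval), so X - C x ∣ P_t, compose with f.map: f.map - C x ∣ P_t.comp f.map = (f^[t+1] - β).map
   (f.comp^[t+1] X = (f.comp^[t] X).comp f: iterate_comp commutation: f.comp^[t+1] X = f.comp^[t] (f.comp X) = f.comp^[t] f and (f.comp^[t] X).comp f = f.comp^[t] f, by induction). A divisor of a nonzero split polynomial splits (Splits.of_dvd ...). So p splits;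
   p is separable: a multiple root z has derivative f z = 0 and F z = x, F^[t+1] z = β: no_tree_crit. So p has natDegree p = d distinct roots: {z | FA f L z = x} = roots, ncard = d, finite.
 field : existence of L: M a splitting field of derivative f over K (number field). L := splitting field over M of the product over t ≤ N of (f.comp^[t] X - C β).map (algebraMap K M). Give it Algebra K L by composition (the SplittingField has instances Algebra K via Algebra M? Polynomial.SplittingField.algebra' gives Algebra K (SplittingField p) with
   IsScalarTower K M L). It is a splitting field over K of derivative f * ∏ (..) (Polynomial.IsSplittingField.mul) hence normal, Galois (char 0); number field: finite over K (NumberField.of_module_finite). Each factor splits in L.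
-/
import Pool.Agent.H42.PC.EBas

set_option autoImplicit false

namespace Pool.Agent.H42.PC

open Polynomial NumberField

theorem comp_iter_comp {K : Type} [Field K] (f : K[X]) (t : ℕ) :
    (f.comp^[t] X).comp f = f.comp^[t + 1] X := by
  induction t with
  | zero => simp
  | succ n ih =>
    rw [Function.iterate_succ_apply', comp_assoc, ih, ← Function.iterate_succ_apply' f.comp]

theorem tree_of_splits {K L : Type} [Field K] [CharZero K] [Field L] [Algebra K L] {f : K[X]}
    {β : K} (hd : 1 ≤ f.natDegree) (hGP : GP f β L) {N : ℕ}
    (hs : ∀ t ≤ N, ((f.comp^[t] X - C β).map (algebraMap K L)).Splits) :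
    Tree (L ≃ₐ[K] L) (FA f L) (algebraMap K L β) f.natDegree N := by
  classical
  have key : ∀ t, t < N → ∀ x ∈ lev (FA f L) (algebraMap K L β) t,
      ∃ s : Finset L, {z | FA f L z = x} = ↑s ∧ s.card = f.natDegree := by
    intro t ht x hx
    have hx' : (FA f L)^[t] x = algebraMap K L β := hx
    set p : L[X] := f.map (algebraMap K L) - C x with hp
    have hdeg : p.natDegree = f.natDegree := by
      rw [hp, natDegree_sub_C, natDegree_map]
    have hp0 : p ≠ 0 := by
      intro h0
      rw [h0, natDegree_zero] at hdeg
      omega
    have hdvd : p ∣ (f.comp^[t + 1] X - C β).map (algebraMap K L) := by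
      have h1 : (X - C x) ∣ (f.comp^[t] X - C β).map (algebraMap K L) := by
        rw [dvd_iff_isRoot, IsRoot, eval_map_algebraMap, itp_aeval, hx', sub_self]
      obtain ⟨w, hw⟩ := h1
      refine ⟨w.comp (f.map (algebraMap K L)), ?_⟩
      have h2 : (f.comp^[t + 1] X - C β) = (f.comp^[t] X - C β).comp f := by
        rw [sub_comp, C_comp, comp_iter_comp]
      rw [h2, Polynomial.map_comp, hw, mul_comp, sub_comp, X_comp, C_comp]
    have hne : (f.comp^[t + 1] X - C β).map (algebraMap K L) ≠ 0 := by
      intro h0
      have h1 : ((f.comp^[t + 1] X - C β).map (algebraMap K L)).natDegree = 0 := by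
        rw [h0, natDegree_zero]
      rw [natDegree_map, itp_natDegree hd] at h1
      have : 1 ≤ f.natDegree ^ (t + 1) := Nat.one_le_pow _ _ hd
      omega
    have hsp : p.Splits := (hs (t + 1) ht).of_dvd hne hdvd
    have hroot : ∀ z, z ∈ p.roots ↔ FA f L z = x := by
      intro z
      rw [mem_roots hp0, IsRoot, hp, eval_sub, eval_C, sub_eq_zero]
      rfl
    have hnd : p.roots.Nodup := by
      rw [Multiset.nodup_iff_count_le_one]
      intro z
      rw [count_roots]
      by_contra hcon
      push Not at hcon
      rw [one_lt_rootMultiplicity_iff_isRoot hp0] at hcon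
      obtain ⟨h1, h2⟩ := hcon
      have h3 : FA f L z = x := (hroot z).mp ((mem_roots hp0).mpr h1)
      have h4 : aeval z (derivative f) = 0 := by
        rw [← eval_map_algebraMap, ← derivative_map]
        have : derivative p = derivative (f.map (algebraMap K L)) := by
          rw [hp, derivative_sub, derivative_C, sub_zero]
        rw [this] at h2
        exact h2
      refine no_tree_crit hGP h4 (t := t + 1) (by omega) ?_
      rw [Function.iterate_succ_apply, h3, hx']
    refine ⟨p.roots.toFinset, ?_, ?_⟩
    · ext z
      simp only [Set.mem_ofPred_eq, Finset.mem_coe, Multiset.mem_toFinset]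
      exact (hroot z).symm
    · rw [Multiset.toFinset_card_of_nodup hnd, ← hsp.natDegree_eq_card_roots, hdeg]
  refine ⟨?_, ?_, ?_, ?_, ?_⟩
  · intro g x
    have := FA_smul (f := f) g x 1
    rw [Function.iterate_one] at this
    exact this.symm
  · intro g
    rw [AlgEquiv.smul_def, AlgEquiv.commutes]
  · intro t ht
    exact aper hGP ht
  · intro t ht x hx
    obtain ⟨s, hs1, -⟩ := key t ht x hx
    rw [hs1]
    exact s.finite_toSet
  · intro t ht x hx
    obtain ⟨s, hs1, hs2⟩ := key t ht x hx
    rw [hs1, Set.ncard_coe_finset, hs2]

theorem exists_field {K M : Type} [Field K] [NumberField K] [Field M] [NumberField M]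
    [Algebra K M] (f : K[X]) (β : K) [IsSplittingField K M (derivative f)] (N : ℕ) :
    ∃ (L : Type) (_ : Field L) (_ : NumberField L) (_ : Algebra K L) (_ : Algebra M L)
      (_ : IsScalarTower K M L) (_ : IsGalois K L),
      ∀ t ≤ N, ((f.comp^[t] X - C β).map (algebraMap K L)).Splits := by
  classical
  obtain ⟨f', hf', hsf⟩ : ∃ f' : K[X], f' ≠ 0 ∧ IsSplittingField K M f' := by
    by_cases h0 : derivative f = 0
    · refine ⟨1, one_ne_zero, ?_⟩
      have hs : IsSplittingField K M (derivative f) := inferInstance
      have h1 := IsSplittingField.adjoin_rootSet M (derivative f)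
      refine ⟨?_, ?_⟩
      · rw [Polynomial.map_one]
        exact Splits.one
      · rw [h0, rootSet_zero] at h1
        rw [rootSet_one]
        exact h1
    · exact ⟨derivative f, h0, inferInstance⟩
  set g : K[X] := ∏ t ∈ (Finset.range (N + 1)).filter (fun t => f.comp^[t] X - C β ≠ 0),
    (f.comp^[t] X - C β) with hg
  have hg0 : g ≠ 0 := by
    rw [hg, Finset.prod_ne_zero_iff]
    intro t ht
    exact (Finset.mem_filter.mp ht).2
  let L : Type := (g.map (algebraMap K M)).SplittingField
  have : IsScalarTower K M L := inferInstance
  have : IsSplittingField M L (g.map (algebraMap K M)) :=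
    Polynomial.IsSplittingField.splittingField _
  have : IsSplittingField K L (f' * g) := IsSplittingField.mul (K := M) L f' g hf' hg0
  have : Normal K L := Normal.of_isSplittingField (f' * g)
  have : NumberField L := NumberField.of_module_finite M L
  have : IsGalois K L := IsGalois.mk
  refine ⟨L, inferInstance, inferInstance, inferInstance, inferInstance, inferInstance,
    inferInstance, ?_⟩
  intro t ht
  by_cases h0 : f.comp^[t] X - C β = 0
  · rw [h0, Polynomial.map_zero]
    exact Splits.zero
  · have hdvd : (f.comp^[t] X - C β) ∣ g := by
      rw [hg]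
      refine Finset.dvd_prod_of_mem _ ?_
      rw [Finset.mem_filter, Finset.mem_range]
      exact ⟨by omega, h0⟩
    have h1 : (g.map (algebraMap K L)).Splits := by
      have := IsSplittingField.splits L (g.map (algebraMap K M))
      rw [map_map, ← IsScalarTower.algebraMap_eq] at this
      exact this
    refine h1.of_dvd ?_ (Polynomial.map_dvd _ hdvd)
    rwa [Ne, Polynomial.map_eq_zero]

end Pool.Agent.H42.PC
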