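/-
Row GDel (about 160 lines): the element δ at the first level moved by inertia, and the count of the points above which it acts.

SETTING. δ ∈ I; all of I acts trivially on O l. SD := {y ∈ O l | ∃ x, F x = y ∧ δ • x ≠ x}.  n0 ≤ l < N, 1 ≤ J.
 sd_swap : y ∈ SD, F x = y, δ x ≠ x. Then x ∈ lev (l+1), F (δ x) = δ y = y, red (δ x) = red x (hI), so red x ∈ A (hone). δ δ x has the same parent and residue; htwo on x, δ x, δ δ x and
   δ x ≠ x (δ δ x ≠ δ x) give δ δ x = x. If z is another child of y with δ z ≠ z then red z ∈ A likewise, FR (red z) = red y = FR (red x) (hred), hJ (1, 1 ≤ J): red z = red x; htwo on z, x, δ x: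
   z = x or z = δ x.
 sd_level : red x ∈ A, FR^[l+1] (red x) = red b ∈ A (red_iter with j = l + 1): if l + 1 ≤ J then hJ gives l + 1 = 0. So J ≤ l.
 sd_near : y1 y2 ∈ SD with F^[l-m] y1 = F^[l-m] y2 =: z, F^[l-m-1] y1 ≠ F^[l-m-1] y2, m < l. Let x1, x2 be moved children (residues c1, c2 ∈ A). FR^[l+1-m] c1 = red z = FR^[l+1-m] c2.
   If l + 1 - m ≤ J: c1 = c2 (hJ), so red (F^[l-m-1] y1) = FR^[l-m] c1 = FR^[l-m] c2 = red (F^[l-m-1] y2): two different children of z with the same residue, which is therefore r ∈ A (hone);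
   FR^[l-m] c1 = FR^[0] r, hJ: l - m = 0. Contradiction. So J < l + 1 - m.
 sd_count : for z ∈ lev m, m ≤ l: D := {y ∈ SD | F^[l-m] y = z} has at most s * 2^((l-m)/(J+1)) elements. For y ∈ D choose a moved child with residue c ∈ A; then red (F^[i] y) = FR^[i+1] c for
   i < l - m. For fixed c ∈ A (at most s of them) path_count (j := l - m, r i := FR^[i+1] c) gives ≤ 2^ν, ν = #{i < l - m : FR^[i+1] c ∈ A}. If FR^[i+1] c = r ∈ A then i + 1 > J (hJ with 0),
   and for i < i' both critical: FR^[i'-i] (FR^[i+1] c) = FR^[i'+1] c, both in A, so i' - i > J. So the critical indices i_1 < i_2 < ... satisfy i_a + 1 ≥ a (J+1), and i_ν + 1 ≤ l - m: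
   ν (J+1) ≤ l - m. (E.g. i ↦ (i + 1) / (J + 1) is injective on the critical indices, with values in [1, (l-m)/(J+1)].)
-/
import Pool.Agent.H42.PC.GSt

set_option autoImplicit false

namespace Pool.Agent.H42.PC

open scoped Classical

variable {G Ω : Type} [Group G] [MulAction G Ω] {F : Ω → Ω} {b : Ω}
  {d N s J n0 : ℕ} {O : ℕ → Set Ω}

/-- the points of `O l` above which `δ` moves a point. -/
def SD (F : Ω → Ω) (O : ℕ → Set Ω) (l : ℕ) (δ : G) : Set Ω :=
  {y | y ∈ O l ∧ ∃ x, F x = y ∧ δ • x ≠ x}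

private theorem gdel_lev (hO : Orb G F b n0 N O) {l : ℕ} (hl : l < N) {x : Ω}
    (hx : F x ∈ O l) : x ∈ lev F b (l + 1) := by
  have h := hO.sub l hl.le hx
  exact lev_up (j := 1) (by simpa using h)

theorem sd_swap (hT : Tree G F b d N) (hO : Orb G F b n0 N O) (P : Place G F b s J N)
    (hJ : 1 ≤ J) {l : ℕ} (hl : l < N) {δ : G} (hδ : δ ∈ P.I)
    (htriv : ∀ g ∈ P.I, ∀ x ∈ O l, g • x = x) {x : Ω} (hx : F x ∈ O l) (hmv : δ • x ≠ x) :
    P.red x ∈ P.A ∧ F (δ • x) = F x ∧ δ • δ • x = x ∧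
      ∀ z, F z = F x → z ≠ x → z ≠ δ • x → δ • z = z := by
  have hA : ∀ z : Ω, F z ∈ O l → δ • z ≠ z → P.red z ∈ P.A := by
    intro z hz hmz
    by_contra hn
    have hzl := gdel_lev hO hl hz
    apply hmz
    refine P.hone l hl (δ • z) (smul_lev hT δ hzl) z hzl ?_ ?_ ?_
    · rw [hT.equiv, htriv δ hδ _ hz]
    · exact P.hI δ hδ (l + 1) hl z hzl
    · rw [P.hI δ hδ (l + 1) hl z hzl]; exact hn
  have hxl := gdel_lev hO hl hx
  have hF : F (δ • x) = F x := by rw [hT.equiv, htriv δ hδ _ hx]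
  have hR : P.red (δ • x) = P.red x := P.hI δ hδ (l + 1) hl x hxl
  have hdl := smul_lev hT δ hxl
  have hddl := smul_lev hT δ hdl
  refine ⟨hA x hx hmv, hF, ?_, ?_⟩
  · have hF2 : F (δ • δ • x) = F (δ • x) := by
      rw [hT.equiv δ (δ • x), hF, htriv δ hδ _ hx]
    have hR2 : P.red (δ • δ • x) = P.red (δ • x) := P.hI δ hδ (l + 1) hl _ hdl
    rcases P.htwo l hl x hxl (δ • x) hdl (δ • δ • x) hddl hF.symm hF2.symm hR.symm hR2.symm
      with h | h | h
    · exact (hmv h.symm).elim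
    · exact h.symm
    · exact (hmv (smul_left_cancel δ h).symm).elim
  · intro z hz hzx hzd
    by_contra hmz
    have hz' : F z ∈ O l := by rw [hz]; exact hx
    have hzA := hA z hz' hmz
    have hzl := gdel_lev hO hl hz'
    have h1 : P.FR (P.red z) = P.FR (P.red x) := by
      rw [← P.hred l hl z hzl, ← P.hred l hl x hxl, hz]
    have h2 := (P.hJ _ hzA _ (hA x hx hmv) 1 hJ 1 hJ (by simpa using h1)).1
    rcases P.htwo l hl z hzl x hxl (δ • x) hdl hz hF.symm h2 hR.symm with h | h | h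
    · exact hzx h
    · exact hzd h
    · exact hmv h.symm

theorem sd_level (hT : Tree G F b d N) (hO : Orb G F b n0 N O) (P : Place G F b s J N)
    (hb : P.red b ∈ P.A) (hJ : 1 ≤ J) {l : ℕ} (hl : l < N) {δ : G} (hδ : δ ∈ P.I)
    (htriv : ∀ g ∈ P.I, ∀ x ∈ O l, g • x = x) {x : Ω} (hx : F x ∈ O l) (hmv : δ • x ≠ x) :
    J ≤ l := by
  by_contra hcon
  have hA := (sd_swap hT hO P hJ hl hδ htriv hx hmv).1
  have hxl := gdel_lev hO hl hx
  have h1 := red_iter P (t := l + 1) (j := l + 1) le_rfl hl hxl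
  have h2 : F^[l + 1] x = b := hxl
  rw [h2] at h1
  have h3 := (P.hJ _ hA _ hb (l + 1) (by omega) 0 (Nat.zero_le _) (by simpa using h1.symm)).2
  omega

theorem sd_near (hT : Tree G F b d N) (hO : Orb G F b n0 N O) (P : Place G F b s J N)
    (hJ : 1 ≤ J) {l : ℕ} (hl : l < N) {δ : G} (hδ : δ ∈ P.I)
    (htriv : ∀ g ∈ P.I, ∀ x ∈ O l, g • x = x) {m : ℕ} (hm : m < l) {y1 y2 : Ω}
    (h1 : y1 ∈ SD F O l δ) (h2 : y2 ∈ SD F O l δ) (he : F^[l - m] y1 = F^[l - m] y2)
    (hne : F^[l - m - 1] y1 ≠ F^[l - m - 1] y2) : J < l + 1 - m := by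
  by_contra hcon
  obtain ⟨hy1, x1, hx1, hm1⟩ := h1
  obtain ⟨hy2, x2, hx2, hm2⟩ := h2
  subst hx1
  subst hx2
  have hA1 := (sd_swap hT hO P hJ hl hδ htriv hy1 hm1).1
  have hA2 := (sd_swap hT hO P hJ hl hδ htriv hy2 hm2).1
  have hl1 := gdel_lev hO hl hy1
  have hl2 := gdel_lev hO hl hy2
  have hexp : l + 1 - m = (l - m) + 1 := by omega
  have r1 := red_iter P (t := l + 1) (j := (l - m) + 1) (by omega) hl hl1
  have r2 := red_iter P (t := l + 1) (j := (l - m) + 1) (by omega) hl hl2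
  rw [Function.iterate_succ_apply] at r1 r2
  have hc : P.FR^[(l - m) + 1] (P.red x1) = P.FR^[(l - m) + 1] (P.red x2) := by
    rw [← r1, ← r2, he]
  have hc12 := (P.hJ _ hA1 _ hA2 ((l - m) + 1) (by omega) ((l - m) + 1) (by omega) hc).1
  have hexp2 : l - m = (l - m - 1) + 1 := by omega
  have q1 := red_iter P (t := l + 1) (j := l - m) (by omega) hl hl1
  have q2 := red_iter P (t := l + 1) (j := l - m) (by omega) hl hl2
  have q1' : P.red (F^[l - m - 1] (F x1)) = P.FR^[l - m] (P.red x1) := by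
    rw [← q1, ← Function.iterate_succ_apply, show (l - m - 1).succ = l - m by omega]
  have q2' : P.red (F^[l - m - 1] (F x2)) = P.FR^[l - m] (P.red x2) := by
    rw [← q2, ← Function.iterate_succ_apply, show (l - m - 1).succ = l - m by omega]
  have v1 : F^[l - m - 1] (F x1) ∈ lev F b (m + 1) := by
    have := lev_iter (j := l - m - 1) (hO.sub l hl.le hy1) (by omega)
    rwa [show l - (l - m - 1) = m + 1 by omega] at this
  have v2 : F^[l - m - 1] (F x2) ∈ lev F b (m + 1) := by
    have := lev_iter (j := l - m - 1) (hO.sub l hl.le hy2) (by omega)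
    rwa [show l - (l - m - 1) = m + 1 by omega] at this
  have hFe : F (F^[l - m - 1] (F x1)) = F (F^[l - m - 1] (F x2)) := by
    rw [← Function.iterate_succ_apply' F, ← Function.iterate_succ_apply' F,
      show (l - m - 1).succ = l - m by omega, he]
  have hRe : P.red (F^[l - m - 1] (F x1)) = P.red (F^[l - m - 1] (F x2)) := by
    rw [q1', q2', hc12]
  have hrA : P.red (F^[l - m - 1] (F x1)) ∈ P.A := by
    by_contra hn
    exact hne (P.hone m (by omega) _ v1 _ v2 hFe hRe hn)
  have := (P.hJ _ hA1 _ hrA (l - m) (by omega) 0 (Nat.zero_le _) (by rw [← q1']; rfl)).2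
  omega

/-- the number of critical residues on the orbit of a critical residue -/
private theorem gdel_nu (P : Place G F b s J N) {c : P.R} (hc : c ∈ P.A) (j : ℕ) :
    ((Finset.range j).filter fun i => P.FR^[i + 1] c ∈ P.A).card ≤ j / (J + 1) := by
  have hmem : ∀ i ∈ (Finset.range j).filter (fun i => P.FR^[i + 1] c ∈ P.A),
      (i + 1) / (J + 1) ∈ Finset.Icc 1 (j / (J + 1)) := by
    intro i hi
    rw [Finset.mem_filter, Finset.mem_range] at hi
    rw [Finset.mem_Icc]
    constructor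
    · rw [Nat.le_div_iff_mul_le (by omega)]
      by_contra hlt
      have := (P.hJ _ hc _ hi.2 (i + 1) (by omega) 0 (Nat.zero_le _) rfl).2
      omega
    · exact Nat.div_le_div_right (by omega)
  have hlt : ∀ i i' : ℕ, P.FR^[i + 1] c ∈ P.A → P.FR^[i' + 1] c ∈ P.A → i < i' →
      (i + 1) / (J + 1) < (i' + 1) / (J + 1) := by
    intro i i' hi hi' hii
    have h1 : J < i' - i := by
      by_contra hle
      have h2 : P.FR^[i' - i] (P.FR^[i + 1] c) = P.FR^[0] (P.FR^[i' + 1] c) := by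
        rw [← Function.iterate_add_apply, show i' - i + (i + 1) = i' + 1 by omega]
        rfl
      have := (P.hJ _ hi _ hi' (i' - i) (by omega) 0 (Nat.zero_le _) h2).2
      omega
    have h3 : (i + 1) / (J + 1) + 1 = (i + 1 + (J + 1)) / (J + 1) := by
      rw [Nat.add_div_right _ (by omega)]
    have h4 : (i + 1 + (J + 1)) / (J + 1) ≤ (i' + 1) / (J + 1) :=
      Nat.div_le_div_right (by omega)
    omega
  calc ((Finset.range j).filter fun i => P.FR^[i + 1] c ∈ P.A).card
      ≤ (Finset.Icc 1 (j / (J + 1))).card := by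
        refine Finset.card_le_card_of_injOn (fun i => (i + 1) / (J + 1)) (fun i hi => hmem i hi) ?_
        intro i hi i' hi' he
        have hi1 := (Finset.mem_filter.1 (Finset.mem_coe.1 hi)).2
        have hi2 := (Finset.mem_filter.1 (Finset.mem_coe.1 hi')).2
        have he' : (i + 1) / (J + 1) = (i' + 1) / (J + 1) := he
        rcases lt_trichotomy i i' with h | h | h
        · have := hlt i i' hi1 hi2 h; omega
        · exact h
        · have := hlt i' i hi2 hi1 h; omega
    _ = j / (J + 1) := by rw [Nat.card_Icc]; exact Nat.add_sub_cancel _ _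

theorem sd_count (hT : Tree G F b d N) (hO : Orb G F b n0 N O) (P : Place G F b s J N)
    (hJ : 1 ≤ J) {l : ℕ} (hl : l < N) {δ : G} (hδ : δ ∈ P.I)
    (htriv : ∀ g ∈ P.I, ∀ x ∈ O l, g • x = x) {m : ℕ} (hm : m ≤ l) {z : Ω}
    (hz : z ∈ lev F b m) :
    {y | y ∈ SD F O l δ ∧ F^[l - m] y = z}.ncard ≤ s * 2 ^ ((l - m) / (J + 1)) := by
  set D := {y | y ∈ SD F O l δ ∧ F^[l - m] y = z} with hD
  have hDfin : D.Finite := (lev_fin hT (t := l) hl.le).subset (by
    rintro y ⟨⟨hy, -⟩, -⟩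
    exact hO.sub l hl.le hy)
  have hch : ∀ y ∈ D, ∃ c ∈ P.A, ∀ i < l - m, P.red (F^[i] y) = P.FR^[i + 1] c := by
    rintro y ⟨⟨hy, x, hx, hm1⟩, -⟩
    subst hx
    refine ⟨P.red x, (sd_swap hT hO P hJ hl hδ htriv hy hm1).1, ?_⟩
    intro i hi
    have := red_iter P (t := l + 1) (j := i + 1) (by omega) hl (gdel_lev hO hl hy)
    rw [← this, Function.iterate_succ_apply]
  have hR : Nonempty P.R := ⟨P.red b⟩
  let κ : Ω → P.R := fun y => if h : ∃ c ∈ P.A, ∀ i < l - m, P.red (F^[i] y) = P.FR^[i + 1] c then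
    h.choose else P.red b
  have hκ : ∀ y ∈ D, κ y ∈ P.A ∧ ∀ i < l - m, P.red (F^[i] y) = P.FR^[i + 1] (κ y) := by
    intro y hy
    have h := hch y hy
    have : κ y = h.choose := dif_pos h
    rw [this]
    exact h.choose_spec
  have hmap : ∀ y ∈ hDfin.toFinset, κ y ∈ P.hAfin.toFinset := by
    intro y hy
    rw [Set.Finite.mem_toFinset] at hy ⊢
    exact (hκ y hy).1
  have hcard : hDfin.toFinset.card ≤ 2 ^ ((l - m) / (J + 1)) * P.hAfin.toFinset.card := by
    refine Finset.card_le_mul_card_image_of_maps_to hmap _ ?_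
    intro c hc
    rw [Set.Finite.mem_toFinset] at hc
    have h1 := path_count hT P (m := m) (j := l - m) (by omega) hz (fun i => P.FR^[i + 1] c)
    have h2 : (hDfin.toFinset.filter fun y => κ y = c).card ≤
        {y | F^[l - m] y = z ∧ ∀ i < l - m, P.red (F^[i] y) = P.FR^[i + 1] c}.ncard := by
      rw [← Set.ncard_coe_finset]
      refine Set.ncard_le_ncard ?_ ?_
      · intro y hy
        rw [Finset.coe_filter] at hy
        obtain ⟨hy1, hy2⟩ := hy
        rw [Set.Finite.mem_toFinset] at hy1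
        refine ⟨hy1.2, ?_⟩
        have := (hκ y hy1).2
        rw [hy2] at this
        exact this
      · refine (lev_fin hT (t := m + (l - m)) (by omega)).subset ?_
        rintro y ⟨hy, -⟩
        exact lev_up (by rw [hy]; exact hz)
    exact h2.trans (h1.trans (Nat.pow_le_pow_right (by norm_num) (gdel_nu P hc _)))
  rw [Set.ncard_eq_toFinset_card _ hDfin]
  refine hcard.trans ?_
  rw [← Set.ncard_eq_toFinset_card _ P.hAfin, mul_comm]
  exact Nat.mul_le_mul_right _ P.hA

end Pool.Agent.H42.PC
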