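/-
Row GDer (about 110 lines): an element with few fixed points on O l can be changed by an element acting trivially on O l into one without fixed points on O (l+1).

PROOF. Strong induction on the number of fixed points of g on O (l+1) (finite), for all g with the given fixed point set U on O l: U = {y ∈ O l | g y = y}, |U| ≤ k.
 If g has no fixed point on O (l+1): h := 1. Otherwise let a ∈ O (l+1), g a = a, u := F a ∈ U. hiso gives γ with γ x1 = a and γ⁻¹ y ∉ SD for y ∈ U \ {u}. h1 := γ δ γ⁻¹ acts trivially on O l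
 (δ does, O l is invariant). Put g' := g h1. On O l g' acts as g, so U' = U. Fixed points x ∈ O (l+1) of g': F x ∈ U. If F x = y ≠ u: γ⁻¹ x is a child of γ⁻¹ y ∈ O l, not in SD, so δ fixes it, h1 x = x and g x = x.
 If F x = u: γ⁻¹ x is a child of F x1; by sd_swap (applied to x1): if γ⁻¹ x ≠ x1, δ x1 then h1 x = x and g x = x. If γ⁻¹ x = x1, i.e. x = a: h1 a = a' := γ δ x1 ≠ a and g a' ≠ a (g a = a, injective): not fixed.
 If x = a': h1 a' = γ δ δ x1 = a, g' a' = g a = a ≠ a': not fixed. So the fixed points of g' are fixed points of g different from a: strictly fewer. Induction gives h', h := h1 h'.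
-/
import Pool.Agent.H42.PC.GDel

set_option autoImplicit false

namespace Pool.Agent.H42.PC

open scoped Classical

variable {G Ω : Type} [Group G] [MulAction G Ω] {F : Ω → Ω} {b : Ω}
  {d N s J n0 : ℕ} {O : ℕ → Set Ω}

theorem derange [Finite G] (hT : Tree G F b d N) (hO : Orb G F b n0 N O)
    (P : Place G F b s J N) (hJ : 1 ≤ J) {l : ℕ} (hl0 : n0 ≤ l) (hl : l < N) {δ : G}
    (hδ : δ ∈ P.I) (htriv : ∀ g ∈ P.I, ∀ x ∈ O l, g • x = x) {x1 : Ω} (hx : F x1 ∈ O l)
    (hmv : δ • x1 ≠ x1) (k : ℕ)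
    (hiso : ∀ U : Set Ω, U ⊆ O l → U.ncard ≤ k → ∀ a, F a ∈ U →
      ∃ γ : G, γ • x1 = a ∧ ∀ y ∈ U, y ≠ F a → γ⁻¹ • y ∉ SD F O l δ)
    (g : G) (hg : {y | y ∈ O l ∧ g • y = y}.ncard ≤ k) :
    ∃ h : G, (∀ x ∈ O l, h • x = x) ∧ ∀ x ∈ O (l + 1), (g * h) • x ≠ x := by
  have hfin1 : (O (l + 1)).Finite := (lev_fin hT hl).subset (hO.sub (l + 1) hl)
  have key : ∀ n : ℕ, ∀ g : G, {y | y ∈ O l ∧ g • y = y}.ncard ≤ k →
      {x | x ∈ O (l + 1) ∧ g • x = x}.ncard ≤ n →
      ∃ h : G, (∀ x ∈ O l, h • x = x) ∧ ∀ x ∈ O (l + 1), (g * h) • x ≠ x := by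
    intro n
    induction n with
    | zero =>
      intro g hg hn
      refine ⟨1, fun x _ => one_smul G x, fun x hx he => ?_⟩
      have hf : {x | x ∈ O (l + 1) ∧ g • x = x}.Finite := hfin1.subset fun x hx => hx.1
      have h0 := (Set.ncard_eq_zero hf).1 (Nat.le_zero.1 hn)
      rw [mul_one] at he
      have hx' : x ∈ {x | x ∈ O (l + 1) ∧ g • x = x} := ⟨hx, he⟩
      rw [h0] at hx'
      exact hx'
    | succ n ih =>
      intro g hg hn
      by_cases hex : ∃ a ∈ O (l + 1), g • a = a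
      swap
      · push Not at hex
        exact ⟨1, fun x _ => one_smul G x, fun x hx => by rw [mul_one]; exact hex x hx⟩
      obtain ⟨a, ha, hga⟩ := hex
      have hFa : F a ∈ O l := hO.par l hl a ha
      have hFaU : F a ∈ {y | y ∈ O l ∧ g • y = y} := ⟨hFa, by rw [← hT.equiv, hga]⟩
      obtain ⟨γ, hγ, hγ2⟩ := hiso {y | y ∈ O l ∧ g • y = y} (fun y hy => hy.1) hg a hFaU
      have hx1 : γ⁻¹ • a = x1 := by rw [← hγ, inv_smul_smul]
      have htr : ∀ x ∈ O l, (γ * δ * γ⁻¹) • x = x := by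
        intro x hx
        rw [mul_smul, mul_smul, htriv δ hδ _ (hO.inv l hl.le γ⁻¹ x hx), smul_inv_smul]
      have hg'U : {y | y ∈ O l ∧ (g * (γ * δ * γ⁻¹)) • y = y} = {y | y ∈ O l ∧ g • y = y} := by
        ext y
        simp only [Set.mem_setOf_eq]
        constructor
        · rintro ⟨hy, h⟩
          rw [mul_smul, htr y hy] at h
          exact ⟨hy, h⟩
        · rintro ⟨hy, h⟩
          refine ⟨hy, ?_⟩
          rw [mul_smul, htr y hy]
          exact h
      have hfix : ∀ x ∈ O (l + 1), (g * (γ * δ * γ⁻¹)) • x = x → g • x = x ∧ x ≠ a := by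
        intro x hxO hgx
        have hFx : F x ∈ O l := hO.par l hl x hxO
        have hFxU : F x ∈ {y | y ∈ O l ∧ g • y = y} := by
          rw [← hg'U]
          exact ⟨hFx, by rw [← hT.equiv, hgx]⟩
        have hh : (γ * δ * γ⁻¹) • x = γ • δ • γ⁻¹ • x := by rw [mul_smul, mul_smul]
        have hback : δ • γ⁻¹ • x = γ⁻¹ • x → g • x = x := by
          intro h
          rw [mul_smul, hh, h, smul_inv_smul] at hgx
          exact hgx
        by_cases hFe : F x = F a
        · have hFz : F (γ⁻¹ • x) = F x1 := by rw [hT.equiv, hFe, ← hT.equiv, hx1]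
          obtain ⟨-, -, hdd, hz⟩ := sd_swap hT hO P hJ hl hδ htriv hx hmv
          by_cases hz1 : γ⁻¹ • x = x1
          · exfalso
            have hxa : x = a := by rw [← hγ, ← hz1, smul_inv_smul]
            rw [mul_smul, hh, hz1, hxa] at hgx
            have h2 : γ • δ • x1 = a := smul_left_cancel g (hgx.trans hga.symm)
            rw [← hγ] at h2
            exact hmv (smul_left_cancel γ h2)
          · by_cases hz2 : γ⁻¹ • x = δ • x1
            · exfalso
              rw [mul_smul, hh, hz2, hdd, hγ, hga] at hgx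
              rw [← hgx, hx1] at hz2
              exact hmv hz2.symm
            · refine ⟨hback (hz _ hFz hz1 hz2), fun hxa => hz1 ?_⟩
              rw [hxa, hx1]
        · have hnot := hγ2 (F x) hFxU hFe
          refine ⟨hback ?_, fun hxa => hFe (by rw [hxa])⟩
          by_contra hne
          exact hnot ⟨hO.inv l hl.le γ⁻¹ _ hFx, γ⁻¹ • x, by rw [hT.equiv], hne⟩
      have hf : {x | x ∈ O (l + 1) ∧ g • x = x}.Finite := hfin1.subset fun x hx => hx.1
      have hlt : {x | x ∈ O (l + 1) ∧ (g * (γ * δ * γ⁻¹)) • x = x}.ncard <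
          {x | x ∈ O (l + 1) ∧ g • x = x}.ncard := by
        refine Set.ncard_lt_ncard ⟨fun x hx => ⟨hx.1, (hfix x hx.1 hx.2).1⟩, fun h => ?_⟩ hf
        exact (hfix a ha (h ⟨ha, hga⟩).2).2 rfl
      obtain ⟨h, h1, h2⟩ := ih (g * (γ * δ * γ⁻¹)) (by rw [hg'U]; exact hg) (by omega)
      refine ⟨γ * δ * γ⁻¹ * h, fun x hx => by rw [mul_smul, h1 x hx, htr x hx], fun x hx => ?_⟩
      rw [← mul_assoc]
      exact h2 x hx
  exact key _ g hg le_rfl

end Pool.Agent.H42.PC
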