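/-
Row GIn (about 150 lines): the inequality between q l and q (l+1), and monotonicity of q.

 q_anti : x ∈ O (t+1) fixed by g gives F x ∈ O t fixed by g (par, equiv). So the set of g shrinks. q_nonneg, clear. (q_le_one also.)
 burnside : sum over g of the number of fixed points on O t is |G| (O t is one orbit: double counting, Σ_{x ∈ O t} |Stab x| = |O t| |G| / |O t|, transport).
 q_step : put B := {g | g fixes a point of O l}, B' := {g ∈ B | number of fixed points on O l ≤ k}, C := {g ∈ B | g fixes no point of O (l+1)}.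
   |G| (q l - q (l+1)) = |C| (q_anti: the elements fixing a point of O (l+1) are in B).
   (k+1) |B \ B'| ≤ |G| (burnside), so |B'| ≥ |G| (q l - 1/(k+1)).
   H := {h | h acts trivially on O l} (a subgroup; Fintype/Finite).
   For g ∈ B': #{h ∈ H | g h ∈ C} ≥ |H| / D, D := (k d)^(k d): let U be the fixed set of g on O l, X := {x ∈ O (l+1) | F x ∈ U}, |X| ≤ k d. hder gives h0 ∈ H with g h0 without fixed points on O (l+1). If h ∈ H acts on X as h0 does
   (same values on X), then g h has no fixed point on O (l+1): a fixed point x has F x fixed by g h, which acts on O l as g, so x ∈ X, and then g h x = g h0 x ≠ x. And g h ∈ B since it acts as g on O l. So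
   {h ∈ H | h = h0 on X} maps into the set; all the nonempty classes {h ∈ H | h restricted to X = φ} (φ : X → X) have the same cardinality (h = h0 h', h' trivial on X: the classes are cosets of
   the subgroup H' of elements trivial on X; note h X = X for h ∈ H) and there are at most |X|^|X| ≤ D of them (if X is empty then 1 class; U is nonempty as g ∈ B, d ≥ 1, so k d ≥ 1 and D ≥ 1, |X|^|X| ≤ (k d)^(k d)).
   Double counting of the pairs (g, h), g ∈ B', h ∈ H, g h ∈ C: |B'| |H| / D ≤ number of pairs ≤ |H| |C| (for given h the map g ↦ g h is injective). So |B'| ≤ D |C|.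
-/
import Pool.Agent.H42.PC.GBas

set_option autoImplicit false

namespace Pool.Agent.H42.PC

open scoped Classical

variable {G Ω : Type} [Group G] [MulAction G Ω] {F : Ω → Ω} {b : Ω}
  {d N n0 : ℕ} {O : ℕ → Set Ω}

theorem q_anti [Finite G] (hT : Tree G F b d N) (hO : Orb G F b n0 N O) {t : ℕ} (ht : t < N) :
    q G O (t + 1) ≤ q G O t := by
  unfold q
  refine div_le_div_of_nonneg_right ?_ (Nat.cast_nonneg _)
  have h : Nat.card {g : G // ∃ x ∈ O (t + 1), g • x = x} ≤
      Nat.card {g : G // ∃ x ∈ O t, g • x = x} := by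
    exact Nat.card_le_card_of_injective
      (Subtype.map id (fun g hg => by
        obtain ⟨x, hx, hg⟩ := hg
        exact ⟨F x, hO.par t ht x hx, by rw [← hT.equiv]; exact congrArg F hg⟩) :
        {g : G // ∃ x ∈ O (t + 1), g • x = x} → {g : G // ∃ x ∈ O t, g • x = x})
      (Subtype.map_injective _ Function.injective_id)
  exact_mod_cast h

theorem burnside [Finite G] (hT : Tree G F b d N) (hO : Orb G F b n0 N O) {t : ℕ} (ht : t ≤ N) :
    Nat.card {p : G × Ω // p.2 ∈ O t ∧ p.1 • p.2 = p.2} = Nat.card G := by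
  have hfin : (O t).Finite := (lev_fin hT ht).subset (hO.sub t ht)
  haveI : Fintype (O t) := hfin.fintype
  have e : {p : G × Ω // p.2 ∈ O t ∧ p.1 • p.2 = p.2} ≃
      (Σ x : O t, {g : G // g • (x : Ω) = x}) :=
    { toFun := fun p => ⟨⟨p.1.2, p.2.1⟩, ⟨p.1.1, p.2.2⟩⟩
      invFun := fun p => ⟨(p.2.1, p.1.1), p.1.2, p.2.2⟩
      left_inv := fun _ => rfl
      right_inv := fun _ => rfl }
  rw [Nat.card_congr e, Nat.card_sigma]
  have hn : (O t).ncard = Fintype.card (O t) := by
    rw [← Nat.card_eq_fintype_card]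
    rfl
  have hpos : 0 < (O t).ncard := (Set.ncard_pos hfin).2 (hO.ne t ht)
  have h1 : (∑ x : O t, Nat.card {g : G // g • (x : Ω) = x}) * (O t).ncard =
      Nat.card G * (O t).ncard := by
    rw [Finset.sum_mul, Finset.sum_congr rfl fun x _ => transport hT hO ht x.2 x.2,
      Finset.sum_const, smul_eq_mul, Finset.card_univ, ← hn, mul_comm]
  exact Nat.eq_of_mul_eq_mul_right hpos h1

theorem gin_pow {n m : ℕ} (h : n ≤ m) (hm : 1 ≤ m) : n ^ n ≤ m ^ m :=
  (Nat.pow_le_pow_left h n).trans (Nat.pow_le_pow_right hm h)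

/-- the points above the fixed points. -/
theorem gin_X [Finite G] (hT : Tree G F b d N) (hO : Orb G F b n0 N O) {l : ℕ} (hl : l < N)
    (U : Set Ω) (hU : U ⊆ O l) (k : ℕ) (hk : U.ncard ≤ k) :
    {x | x ∈ O (l + 1) ∧ F x ∈ U}.Finite ∧ {x | x ∈ O (l + 1) ∧ F x ∈ U}.ncard ≤ k * d := by
  have hfin : (O l).Finite := (lev_fin hT hl.le).subset (hO.sub l hl.le)
  have hfin1 : (O (l + 1)).Finite := (lev_fin hT hl).subset (hO.sub (l + 1) hl)
  have hUf : U.Finite := hfin.subset hU
  have hX : {x | x ∈ O (l + 1) ∧ F x ∈ U}.Finite := hfin1.subset fun x hx => hx.1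
  refine ⟨hX, ?_⟩
  rw [Set.ncard_eq_toFinset_card _ hX]
  have hmap : ∀ x ∈ hX.toFinset, F x ∈ hUf.toFinset := by
    intro x hx
    rw [Set.Finite.mem_toFinset] at hx ⊢
    exact hx.2
  rw [Finset.card_eq_sum_card_fiberwise hmap]
  have hc : ∀ y ∈ hUf.toFinset, (hX.toFinset.filter fun x => F x = y).card ≤ d := by
    intro y hy
    rw [Set.Finite.mem_toFinset] at hy
    have h1 := hT.fib l hl y (hO.sub l hl.le (hU hy))
    rw [← h1, ← Set.ncard_coe_finset]
    refine Set.ncard_le_ncard ?_ (hT.fin l hl y (hO.sub l hl.le (hU hy)))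
    intro z hz
    rw [Finset.coe_filter] at hz
    exact hz.2
  refine (Finset.sum_le_sum hc).trans ?_
  rw [Finset.sum_const, smul_eq_mul, ← Set.ncard_eq_toFinset_card _ hUf]
  exact Nat.mul_le_mul_right d hk

/-- classes of a group of permutations of a finite set. -/
theorem gin_cls [Fintype G] (H : Subgroup G) (X : Set Ω) (hX : X.Finite)
    (hinv : ∀ h ∈ H, ∀ x ∈ X, h • x ∈ X) (h0 : G) (hh0 : h0 ∈ H) :
    (Finset.univ.filter fun h : G => h ∈ H).card ≤
      X.ncard ^ X.ncard *
        (Finset.univ.filter fun h : G => h ∈ H ∧ ∀ x ∈ X, h • x = h0 • x).card := by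
  haveI : Fintype X := hX.fintype
  have hn : X.ncard = Fintype.card X := by
    rw [← Nat.card_eq_fintype_card]
    rfl
  set res : G → (X → X) := fun h x => if hh : h ∈ H then ⟨h • (x : Ω), hinv h hh x x.2⟩ else x
    with hres
  have hmap : ∀ h ∈ (Finset.univ.filter fun h : G => h ∈ H), res h ∈
      (Finset.univ : Finset (X → X)) := fun _ _ => Finset.mem_univ _
  rw [Finset.card_eq_sum_card_fiberwise hmap]
  have hc : ∀ φ ∈ (Finset.univ : Finset (X → X)),
      ((Finset.univ.filter fun h : G => h ∈ H).filter fun h => res h = φ).card ≤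
      (Finset.univ.filter fun h : G => h ∈ H ∧ ∀ x ∈ X, h • x = h0 • x).card := by
    intro φ _
    rcases ((Finset.univ.filter fun h : G => h ∈ H).filter
      fun h => res h = φ).eq_empty_or_nonempty with he | ⟨h1, hh1⟩
    · rw [he]
      simp
    · simp only [Finset.mem_filter, Finset.mem_univ, true_and] at hh1
      refine Finset.card_le_card_of_injOn (fun h => h0 * h1⁻¹ * h) ?_ ?_
      · intro h hh
        simp only [Finset.coe_filter, Finset.mem_filter, Finset.mem_univ, true_and,
          Set.mem_ofPred_eq] at hh ⊢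
        refine ⟨H.mul_mem (H.mul_mem hh0 (H.inv_mem hh1.1)) hh.1, ?_⟩
        intro x hx
        have h2 : res h ⟨x, hx⟩ = res h1 ⟨x, hx⟩ := by rw [hh.2, hh1.2]
        have h3 : h • x = h1 • x := by
          have := congrArg Subtype.val h2
          simpa only [hres, dif_pos hh.1, dif_pos hh1.1] using this
        rw [mul_smul, h3, mul_smul, inv_smul_smul]
      · intro h _ h' _ hhh
        exact mul_left_cancel hhh
  refine (Finset.sum_le_sum hc).trans (le_of_eq ?_)
  rw [Finset.sum_const, smul_eq_mul, Finset.card_univ, Fintype.card_fun, hn]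

/-- `(k+1) |{g : more than k fixed points}| ≤ |G|`. -/
theorem gin_many [Fintype G] (hT : Tree G F b d N) (hO : Orb G F b n0 N O) {l : ℕ} (hl : l ≤ N)
    (k : ℕ) :
    (k + 1) * (Finset.univ.filter fun g : G => ¬ {y | y ∈ O l ∧ g • y = y}.ncard ≤ k).card ≤
      Nat.card G := by
  have hfin : (O l).Finite := (lev_fin hT hl).subset (hO.sub l hl)
  rw [← burnside hT hO hl]
  have e : {p : G × Ω // p.2 ∈ O l ∧ p.1 • p.2 = p.2} ≃
      (Σ g : G, {y : Ω // y ∈ O l ∧ g • y = y}) :=
    { toFun := fun p => ⟨p.1.1, ⟨p.1.2, p.2⟩⟩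
      invFun := fun p => ⟨(p.1, p.2.1), p.2.2⟩
      left_inv := fun _ => rfl
      right_inv := fun _ => rfl }
  haveI : ∀ g : G, Finite {y : Ω // y ∈ O l ∧ g • y = y} := fun g =>
    (hfin.subset (fun y hy => hy.1 : {y | y ∈ O l ∧ g • y = y} ⊆ O l)).to_subtype
  rw [Nat.card_congr e, Nat.card_sigma]
  have h1 : ∑ g ∈ (Finset.univ.filter fun g : G => ¬ {y | y ∈ O l ∧ g • y = y}.ncard ≤ k), (k + 1) ≤
      ∑ g : G, Nat.card {y : Ω // y ∈ O l ∧ g • y = y} := by
    refine (Finset.sum_le_sum (fun g hg => ?_)).trans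
      (Finset.sum_le_sum_of_subset (Finset.subset_univ _))
    rw [Finset.mem_filter] at hg
    have h2 : {y | y ∈ O l ∧ g • y = y}.ncard = Nat.card {y : Ω // y ∈ O l ∧ g • y = y} := rfl
    rw [← h2]
    exact Nat.lt_of_not_le hg.2
  rw [Finset.sum_const, smul_eq_mul, mul_comm] at h1
  exact h1

theorem q_step [Finite G] (hT : Tree G F b d N) (hO : Orb G F b n0 N O) (hd : 1 ≤ d) {l : ℕ}
    (hl0 : n0 ≤ l) (hl : l < N) (k : ℕ) (hk : 1 ≤ k)
    (hder : ∀ g : G, {y | y ∈ O l ∧ g • y = y}.ncard ≤ k →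
      ∃ h : G, (∀ x ∈ O l, h • x = x) ∧ ∀ x ∈ O (l + 1), (g * h) • x ≠ x) :
    (q G O l - 1 / ((k : ℝ) + 1)) / (((k * d) ^ (k * d) : ℕ) : ℝ) ≤ q G O l - q G O (l + 1) := by
  haveI := Fintype.ofFinite G
  set D : ℕ := (k * d) ^ (k * d) with hD
  have hkd : 1 ≤ k * d := Nat.one_le_iff_ne_zero.2 (by positivity)
  have hDpos : 0 < D := by
    rw [hD]
    positivity
  set B : Finset G := Finset.univ.filter fun g => ∃ x ∈ O l, g • x = x with hB
  set B' : Finset G := B.filter fun g => {y | y ∈ O l ∧ g • y = y}.ncard ≤ k with hB'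
  set C : Finset G := B.filter fun g => ¬ ∃ x ∈ O (l + 1), g • x = x with hC
  set H : Subgroup G :=
    { carrier := {h | ∀ x ∈ O l, h • x = x}
      mul_mem' := fun {a c} ha hc x hx => by rw [mul_smul, hc x hx, ha x hx]
      one_mem' := fun x _ => one_smul G x
      inv_mem' := fun {a} ha x hx => by
        have := ha x hx
        rw [inv_smul_eq_iff, this] } with hH
  have hmH : ∀ h : G, h ∈ H ↔ ∀ x ∈ O l, h • x = x := fun _ => Iff.rfl
  set HF : Finset G := Finset.univ.filter fun h : G => h ∈ H with hHF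
  -- every `g ∈ B'` has many `h`
  have hmany : ∀ g ∈ B', HF.card ≤ D * (HF.filter fun h => g * h ∈ C).card := by
    intro g hg
    rw [hB', Finset.mem_filter, hB, Finset.mem_filter] at hg
    obtain ⟨⟨_, y0, hy0, hgy0⟩, hgk⟩ := hg
    obtain ⟨h0, hh0, hf0⟩ := hder g hgk
    obtain ⟨hXf, hXc⟩ := gin_X hT hO hl {y | y ∈ O l ∧ g • y = y} (fun y hy => hy.1) k hgk
    set X : Set Ω := {x | x ∈ O (l + 1) ∧ F x ∈ {y | y ∈ O l ∧ g • y = y}} with hX
    have h1 := gin_cls H X hXf (by
      intro h hh x hx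
      refine ⟨hO.inv (l + 1) hl h x hx.1, ?_⟩
      rw [hT.equiv, hh (F x) hx.2.1]
      exact hx.2) h0 hh0
    refine h1.trans (Nat.mul_le_mul (gin_pow hXc hkd) (Finset.card_le_card ?_))
    intro h hh
    rw [Finset.mem_filter] at hh ⊢
    obtain ⟨_, hhH, hhX⟩ := hh
    refine ⟨by rw [hHF, Finset.mem_filter]; exact ⟨Finset.mem_univ _, hhH⟩, ?_⟩
    rw [hC, Finset.mem_filter, hB, Finset.mem_filter]
    refine ⟨⟨Finset.mem_univ _, y0, hy0, by rw [mul_smul, hhH y0 hy0, hgy0]⟩, ?_⟩
    rintro ⟨x, hx, hgx⟩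
    have hFx : F x ∈ O l := hO.par l hl x hx
    have h2 : (g * h) • F x = F x := by rw [← hT.equiv, hgx]
    have h3 : g • F x = F x := by
      rw [mul_smul, hhH (F x) hFx] at h2
      exact h2
    have h4 : x ∈ X := ⟨hx, hFx, h3⟩
    apply hf0 x hx
    rw [mul_smul, ← hhX x h4, ← mul_smul]
    exact hgx
  -- double counting
  have hdc : ∑ g ∈ B', (HF.filter fun h => g * h ∈ C).card ≤ HF.card * C.card := by
    have h1 : ∑ g ∈ B', (HF.filter fun h => g * h ∈ C).card =
        ∑ h ∈ HF, (B'.filter fun g => g * h ∈ C).card := by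
      simp only [Finset.card_filter]
      exact Finset.sum_comm
    rw [h1]
    have h2 : ∀ h ∈ HF, (B'.filter fun g => g * h ∈ C).card ≤ C.card := by
      intro h _
      refine Finset.card_le_card_of_injOn (fun g => g * h) ?_ ?_
      · intro g hg
        rw [Finset.coe_filter] at hg
        exact hg.2
      · intro g _ g' _ hgg
        exact mul_right_cancel hgg
    refine (Finset.sum_le_sum h2).trans (le_of_eq ?_)
    rw [Finset.sum_const, smul_eq_mul]
  have hHpos : 0 < HF.card := by
    apply Finset.card_pos.2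
    exact ⟨1, by rw [hHF, Finset.mem_filter]; exact ⟨Finset.mem_univ _, H.one_mem⟩⟩
  have hBC : B'.card ≤ D * C.card := by
    have h1 : B'.card * HF.card ≤ D * C.card * HF.card := by
      calc B'.card * HF.card = ∑ g ∈ B', HF.card := by rw [Finset.sum_const, smul_eq_mul]
        _ ≤ ∑ g ∈ B', D * (HF.filter fun h => g * h ∈ C).card := Finset.sum_le_sum hmany
        _ = D * ∑ g ∈ B', (HF.filter fun h => g * h ∈ C).card := by rw [Finset.mul_sum]
        _ ≤ D * (HF.card * C.card) := Nat.mul_le_mul_left D hdc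
        _ = _ := by ring
    exact Nat.le_of_mul_le_mul_right h1 hHpos
  -- cardinalities
  have hGpos : 0 < (Nat.card G : ℝ) := by
    exact_mod_cast Nat.card_pos
  have hql : q G O l = (B.card : ℝ) / Nat.card G := by
    unfold q
    rw [Nat.card_eq_fintype_card (α := {g : G // ∃ x ∈ O l, g • x = x}), Fintype.card_subtype]
  have hql1 : q G O (l + 1) = ((B.card : ℝ) - C.card) / Nat.card G := by
    unfold q
    have h1 : (Finset.univ.filter fun g : G => ∃ x ∈ O (l + 1), g • x = x) =
        B.filter fun g => ∃ x ∈ O (l + 1), g • x = x := by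
      ext g
      rw [hB]
      simp only [Finset.mem_filter, Finset.mem_univ, true_and]
      constructor
      · rintro ⟨x, hx, hg⟩
        exact ⟨⟨F x, hO.par l hl x hx, by rw [← hT.equiv, hg]⟩, x, hx, hg⟩
      · exact fun h => h.2
    have h2 := Finset.card_filter_add_card_filter_not
      (s := B) (fun g : G => ∃ x ∈ O (l + 1), g • x = x)
    rw [Nat.card_eq_fintype_card (α := {g : G // ∃ x ∈ O (l + 1), g • x = x}),
      Fintype.card_subtype, h1]
    congr 1
    have h3 : ((B.filter fun g : G => ∃ x ∈ O (l + 1), g • x = x).card : ℝ) + C.card = B.card := by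
      exact_mod_cast h2
    linarith
  have hmore := gin_many (G := G) hT hO hl.le k
  have hBB : (B.card : ℝ) - Nat.card G / ((k : ℝ) + 1) ≤ B'.card := by
    have h1 : B.card ≤ B'.card +
        (Finset.univ.filter fun g : G => ¬ {y | y ∈ O l ∧ g • y = y}.ncard ≤ k).card := by
      have h2 : B'.card + (B.filter fun g : G =>
          ¬ {y | y ∈ O l ∧ g • y = y}.ncard ≤ k).card = B.card :=
        Finset.card_filter_add_card_filter_not
          (s := B) (fun g : G => {y | y ∈ O l ∧ g • y = y}.ncard ≤ k)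
      have h3 : (B.filter fun g : G => ¬ {y | y ∈ O l ∧ g • y = y}.ncard ≤ k).card ≤
          (Finset.univ.filter fun g : G => ¬ {y | y ∈ O l ∧ g • y = y}.ncard ≤ k).card :=
        Finset.card_le_card (Finset.filter_subset_filter _ (Finset.subset_univ _))
      omega
    have h4 : (B.card : ℝ) ≤ B'.card +
        (Finset.univ.filter fun g : G => ¬ {y | y ∈ O l ∧ g • y = y}.ncard ≤ k).card := by
      exact_mod_cast h1
    have h5 : ((Finset.univ.filter fun g : G =>
        ¬ {y | y ∈ O l ∧ g • y = y}.ncard ≤ k).card : ℝ) ≤ Nat.card G / ((k : ℝ) + 1) := by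
      rw [le_div_iff₀ (by positivity)]
      have h6 : ((k : ℝ) + 1) * ((Finset.univ.filter fun g : G =>
        ¬ {y | y ∈ O l ∧ g • y = y}.ncard ≤ k).card : ℝ) ≤ Nat.card G := by
        exact_mod_cast hmore
      linarith
    linarith
  have hBC' : (B'.card : ℝ) ≤ D * C.card := by exact_mod_cast hBC
  have hDR : (0 : ℝ) < D := by exact_mod_cast hDpos
  rw [hql, hql1, div_le_iff₀ hDR, ← sub_div]
  have h7 : (B.card : ℝ) / Nat.card G - 1 / ((k : ℝ) + 1) =
      ((B.card : ℝ) - Nat.card G / ((k : ℝ) + 1)) / Nat.card G := by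
    rw [sub_div]
    congr 1
    field_simp
  rw [h7, div_mul_eq_mul_div]
  refine div_le_div_of_nonneg_right ?_ hGpos.le
  have h8 : ((B.card : ℝ) - (B.card - C.card)) * D = D * C.card := by ring
  rw [h8]
  linarith

end Pool.Agent.H42.PC
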