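/-
Row GIso (about 150 lines): ISOLATION. A conjugate of δ acts at a prescribed point a above u and trivially above the other points of a small set U.

PROOF. x1 with F x1 ∈ O l, δ x1 ≠ x1; s1 := F x1 ∈ SD. T0 := {γ | γ x1 = a}; x1, a ∈ O (l+1) (full): |T0| |O (l+1)| = |G| (transport), |O (l+1)| = d |O l| (orb_succ). T0 ≠ ∅. For γ ∈ T0: γ s1 = u.
 For y ∈ U, y ≠ u let Bad y := {γ ∈ T0 | γ⁻¹ y ∈ SD}. Choose m < l with F^[l-m] u = F^[l-m] y, F^[l-m-1] u ≠ F^[l-m-1] y (diverge). Suppose Bad y ≠ ∅. For γ ∈ Bad y put s2 := γ⁻¹ y: F^[l-m] s2 = γ⁻¹ F^[l-m] y =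
 γ⁻¹ F^[l-m] u = F^[l-m] s1, F^[l-m-1] s2 ≠ F^[l-m-1] s1. So J < l + 1 - m (sd_near) and s2 ∈ D := {y' ∈ SD | F^[l-m] y' = F^[l-m] s1}, |D| ≤ s 2^((l-m)/(J+1)) (sd_count; D finite, subset of lev l).
 For fixed s2 the set {γ | γ s1 = u, γ s2 = y} has at most |Stab u ⊓ Stab y| elements (γ' γ⁻¹ fixes u and y).  |Stab u ⊓ Stab y| |orbit (Stab u) y| = |Stab u|, |Stab u| |O l| = |G| (transport x = y = u).
 So |Bad y| |orbit (Stab u) y| |O l| ≤ |D| |G| = |D| |T0| d |O l|, |Bad y| |orbit (Stab u) y| ≤ d |D| |T0|; with hbig: k d |D| ≤ k * d * (s * 2^(...)) < |orbit (Stab u) y|: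
 if |Bad y| > 0 then |D| > 0 and k d |D| |Bad y| < |orbit| |Bad y| ≤ d |D| |T0| gives k |Bad y| < |T0|. In all cases k |Bad y| < |T0|.
 Sum over y ∈ U \ {u} (at most k - 1 points, k ≥ 1): k |⋃ Bad y| ≤ (k - 1) |T0| < k |T0|. So T0 is not covered by the Bad y: take γ outside.
 (If U \ {u} is empty any γ ∈ T0 works.)
-/
import Pool.Agent.H42.PC.GDel

set_option autoImplicit false

namespace Pool.Agent.H42.PC

open scoped Classical

variable {G Ω : Type} [Group G] [MulAction G Ω] {F : Ω → Ω} {b : Ω}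
  {d N s J n0 : ℕ} {O : ℕ → Set Ω}

theorem GIso_two [Finite G] (s1 s2 u y : Ω) :
    Nat.card {γ : G // γ • s1 = u ∧ γ • s2 = y} ≤
      Nat.card (MulAction.stabilizer (MulAction.stabilizer G u) y) := by
  by_cases hne : Nonempty {γ : G // γ • s1 = u ∧ γ • s2 = y}
  · obtain ⟨γ0, h1, h2⟩ := hne
    have e1 : γ0⁻¹ • u = s1 := by rw [← h1, inv_smul_smul]
    have e2 : γ0⁻¹ • y = s2 := by rw [← h2, inv_smul_smul]
    have f1 : ∀ γ : {γ : G // γ • s1 = u ∧ γ • s2 = y}, (γ.1 * γ0⁻¹) ∈ MulAction.stabilizer G u := by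
      intro γ
      rw [MulAction.mem_stabilizer_iff, mul_smul, e1, γ.2.1]
    have f2 : ∀ γ : {γ : G // γ • s1 = u ∧ γ • s2 = y},
        (⟨γ.1 * γ0⁻¹, f1 γ⟩ : MulAction.stabilizer G u) ∈
          MulAction.stabilizer (MulAction.stabilizer G u) y := by
      intro γ
      rw [MulAction.mem_stabilizer_iff]
      show (γ.1 * γ0⁻¹) • y = y
      rw [mul_smul, e2, γ.2.2]
    refine Nat.card_le_card_of_injective (fun γ => ⟨⟨γ.1 * γ0⁻¹, f1 γ⟩, f2 γ⟩) ?_
    intro γ γ' h
    have h3 : γ.1 * γ0⁻¹ = γ'.1 * γ0⁻¹ := by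
      have h4 := congrArg (fun z => ((z : MulAction.stabilizer (MulAction.stabilizer G u) y) :
        MulAction.stabilizer G u)) h
      exact congrArg Subtype.val h4
    exact Subtype.ext (mul_right_cancel h3)
  · have : IsEmpty {γ : G // γ • s1 = u ∧ γ • s2 = y} := not_nonempty_iff.1 hne
    rw [Nat.card_of_isEmpty]
    exact Nat.zero_le _

theorem GIso_orb [Finite G] (u y : Ω) :
    Nat.card (MulAction.stabilizer (MulAction.stabilizer G u) y) *
      (MulAction.orbit (MulAction.stabilizer G u) y).ncard =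
      Nat.card {g : G // g • u = u} := by
  rw [← MulAction.index_stabilizer, Subgroup.card_mul_index]
  exact Nat.card_congr (Equiv.subtypeEquivRight fun g => MulAction.mem_stabilizer_iff)

theorem isolation [Finite G] (hT : Tree G F b d N) (hO : Orb G F b n0 N O)
    (P : Place G F b s J N) (hJ : 1 ≤ J) (hd : 1 ≤ d) {l : ℕ} (hl0 : n0 ≤ l) (hl : l < N) {δ : G}
    (hδ : δ ∈ P.I) (htriv : ∀ g ∈ P.I, ∀ x ∈ O l, g • x = x) {x1 : Ω} (hx : F x1 ∈ O l)
    (hmv : δ • x1 ≠ x1) (k : ℕ)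
    (hbig : ∀ u ∈ O l, ∀ y ∈ O l, ∀ m < l, F^[l - m] u = F^[l - m] y →
      F^[l - m - 1] u ≠ F^[l - m - 1] y → J < l + 1 - m →
      k * d * (s * 2 ^ ((l - m) / (J + 1))) <
        (MulAction.orbit (MulAction.stabilizer G u) y).ncard)
    (U : Set Ω) (hU : U ⊆ O l) (hUk : U.ncard ≤ k) {a : Ω} (ha : F a ∈ U) :
    ∃ γ : G, γ • x1 = a ∧ ∀ y ∈ U, y ≠ F a → γ⁻¹ • y ∉ SD F O l δ := by
  have := Fintype.ofFinite G
  have hu : F a ∈ O l := hU ha
  have ha' : a ∈ O (l + 1) := hO.full l hl0 hl a hu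
  have hx' : x1 ∈ O (l + 1) := hO.full l hl0 hl x1 hx
  have hOl : (O l).Finite := (lev_fin hT hl.le).subset (hO.sub l hl.le)
  have hOpos : 0 < (O l).ncard := (Set.ncard_pos hOl).2 (hO.ne l hl.le)
  have hT0 : Nat.card {g : G // g • x1 = a} * (d * (O l).ncard) = Nat.card G := by
    rw [← orb_succ hT hO hl0 hl]
    exact transport hT hO (by omega) hx' ha'
  have hS0 : Nat.card {g : G // g • F a = F a} * (O l).ncard = Nat.card G :=
    transport hT hO hl.le hu hu
  have hTS : Nat.card {g : G // g • F a = F a} = Nat.card {g : G // g • x1 = a} * d := by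
    have h1 : Nat.card {g : G // g • F a = F a} * (O l).ncard =
        (Nat.card {g : G // g • x1 = a} * d) * (O l).ncard := by
      rw [hS0, ← hT0, mul_assoc]
    exact Nat.eq_of_mul_eq_mul_right hOpos h1
  set T0 : Finset G := Finset.univ.filter fun g => g • x1 = a with hT0d
  have hT0c : Nat.card {g : G // g • x1 = a} = T0.card := by
    rw [Nat.card_eq_fintype_card, Fintype.card_subtype]
  rw [hT0c] at hTS
  have hT0pos : 0 < T0.card := by
    obtain ⟨g, hg⟩ := hO.trans (l + 1) hl x1 hx' a ha'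
    exact Finset.card_pos.2 ⟨g, Finset.mem_filter.2 ⟨Finset.mem_univ _, hg⟩⟩
  have hs1 : F x1 ∈ SD F O l δ := ⟨hx, x1, rfl, hmv⟩
  have key : ∀ y ∈ U, y ≠ F a →
      k * (T0.filter fun γ => γ⁻¹ • y ∈ SD F O l δ).card < T0.card := by
    intro y hyU hyne
    have hy : y ∈ O l := hU hyU
    rcases Finset.eq_empty_or_nonempty (T0.filter fun γ => γ⁻¹ • y ∈ SD F O l δ) with hB | hB
    · rw [hB, Finset.card_empty, mul_zero]
      exact hT0pos
    obtain ⟨m, hm, hm1, hm2⟩ := diverge hO hl.le hu hy hyne.symm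
    have hγ : ∀ γ ∈ T0.filter (fun γ => γ⁻¹ • y ∈ SD F O l δ),
        γ • F x1 = F a ∧ γ⁻¹ • y ∈ SD F O l δ ∧ F^[l - m] (γ⁻¹ • y) = F^[l - m] (F x1) ∧
          F^[l - m - 1] (F x1) ≠ F^[l - m - 1] (γ⁻¹ • y) := by
      intro γ hγ
      rw [Finset.mem_filter, hT0d, Finset.mem_filter] at hγ
      have h1 : γ • F x1 = F a := by rw [← hT.equiv, hγ.1.2]
      have h2 : γ⁻¹ • F a = F x1 := by rw [← h1, inv_smul_smul]
      refine ⟨h1, hγ.2, ?_, ?_⟩
      · rw [iter_smul hT, ← hm1, ← iter_smul hT, h2]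
      · intro h
        apply hm2
        rw [iter_smul hT, ← h2, iter_smul hT] at h
        exact MulAction.injective γ⁻¹ h
    obtain ⟨γ0, hγ0⟩ := hB
    obtain ⟨-, c2, c3, c4⟩ := hγ γ0 hγ0
    have hnear := sd_near hT hO P hJ hl hδ htriv hm hs1 c2 c3.symm c4
    have hz : F^[l - m] (F x1) ∈ lev F b m := by
      have h1 := lev_iter (j := l - m) (hO.sub l hl.le hx) (by omega)
      rwa [show l - (l - m) = m by omega] at h1
    have hD := sd_count hT hO P hJ hl hδ htriv hm.le hz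
    set D : Set Ω := {y' | y' ∈ SD F O l δ ∧ F^[l - m] y' = F^[l - m] (F x1)} with hDd
    have hDfin : D.Finite := hOl.subset (fun y' hy' => hy'.1.1)
    have hcount : (T0.filter fun γ => γ⁻¹ • y ∈ SD F O l δ).card ≤
        D.ncard * Nat.card (MulAction.stabilizer (MulAction.stabilizer G (F a)) y) := by
      have hsub : (T0.filter fun γ => γ⁻¹ • y ∈ SD F O l δ) ⊆ hDfin.toFinset.biUnion
          (fun s2 => Finset.univ.filter fun γ : G => γ • F x1 = F a ∧ γ • s2 = y) := by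
        intro γ h
        obtain ⟨d1, d2, d3, -⟩ := hγ γ h
        rw [Finset.mem_biUnion]
        refine ⟨γ⁻¹ • y, ?_, ?_⟩
        · rw [Set.Finite.mem_toFinset]
          exact ⟨d2, d3⟩
        · rw [Finset.mem_filter]
          exact ⟨Finset.mem_univ _, d1, smul_inv_smul _ _⟩
      refine (Finset.card_le_card hsub).trans (Finset.card_biUnion_le.trans ?_)
      rw [Set.ncard_eq_toFinset_card _ hDfin]
      refine (Finset.sum_le_card_nsmul _ _ _ (fun s2 _ => ?_)).trans (le_of_eq (smul_eq_mul _ _))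
      have h1 := GIso_two (G := G) (F x1) s2 (F a) y
      rwa [Nat.card_eq_fintype_card, Fintype.card_subtype] at h1
    have horb := GIso_orb (G := G) (F a) y
    rw [hTS] at horb
    have hb := hbig (F a) hu y hy m hm hm1 hm2 hnear
    set B := (T0.filter fun γ => γ⁻¹ • y ∈ SD F O l δ).card with hBd
    set M := Nat.card (MulAction.stabilizer (MulAction.stabilizer G (F a)) y) with hMd
    set o := (MulAction.orbit (MulAction.stabilizer G (F a)) y).ncard with hod
    have hfin : k * B * o < T0.card * o := by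
      calc k * B * o ≤ k * (D.ncard * M) * o := by gcongr
        _ = k * D.ncard * (M * o) := by ring
        _ = k * D.ncard * (T0.card * d) := by rw [horb]
        _ = (k * d * D.ncard) * T0.card := by ring
        _ ≤ (k * d * (s * 2 ^ ((l - m) / (J + 1)))) * T0.card := by gcongr
        _ < o * T0.card := Nat.mul_lt_mul_of_pos_right hb hT0pos
        _ = T0.card * o := by ring
    exact lt_of_mul_lt_mul_right hfin (Nat.zero_le _)
  by_contra hcon
  push Not at hcon
  have hUfin : U.Finite := hOl.subset hU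
  have hcov : T0 ⊆ (hUfin.toFinset.filter fun y => y ≠ F a).biUnion
      (fun y => T0.filter fun γ => γ⁻¹ • y ∈ SD F O l δ) := by
    intro γ h
    obtain ⟨y, hy1, hy2, hy3⟩ := hcon γ (Finset.mem_filter.1 h).2
    rw [Finset.mem_biUnion]
    refine ⟨y, ?_, ?_⟩
    · rw [Finset.mem_filter, Set.Finite.mem_toFinset]
      exact ⟨hy1, hy2⟩
    · exact Finset.mem_filter.2 ⟨h, hy3⟩
  set U' := hUfin.toFinset.filter fun y => y ≠ F a with hU'
  have hcard : T0.card ≤ ∑ y ∈ U', (T0.filter fun γ => γ⁻¹ • y ∈ SD F O l δ).card :=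
    (Finset.card_le_card hcov).trans Finset.card_biUnion_le
  have hU'ne : U'.Nonempty := by
    rw [Finset.nonempty_iff_ne_empty]
    intro h
    rw [h, Finset.sum_empty] at hcard
    omega
  have hU'c : U'.card ≤ k := by
    refine le_trans (Finset.card_filter_le _ _) ?_
    rwa [← Set.ncard_eq_toFinset_card _ hUfin]
  have h1 : k * T0.card < k * T0.card := by
    calc k * T0.card ≤ k * ∑ y ∈ U', (T0.filter fun γ => γ⁻¹ • y ∈ SD F O l δ).card := by gcongr
      _ = ∑ y ∈ U', k * (T0.filter fun γ => γ⁻¹ • y ∈ SD F O l δ).card := Finset.mul_sum _ _ _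
      _ < ∑ y ∈ U', T0.card := by
          refine Finset.sum_lt_sum_of_nonempty hU'ne (fun y hy => ?_)
          rw [hU', Finset.mem_filter, Set.Finite.mem_toFinset] at hy
          exact key y hy.1 hy.2
      _ = U'.card * T0.card := by rw [Finset.sum_const, smul_eq_mul]
      _ ≤ k * T0.card := by gcongr
  exact lt_irrefl _ h1

end Pool.Agent.H42.PC
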