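/-
Row GNu (about 50 lines): numerical lemma and limit lemma.

 numeric : put a := l - m (so J ≤ a as J < l + 1 - m), m0 := max (m+1) ts. It suffices that c + a / (J+1) ≤ (l - m0) / L: then
   k d s 2^(a/(J+1)) < 2^c 2^(a/(J+1)) ≤ 2^((l-m0)/L).  J + 1 ≥ 2 L gives a / (J+1) ≤ a / (2 L).  l - m0 ≥ a - 1 - ts (natural subtraction). So it suffices that (c + a / (2 L)) * L ≤ a - 1 - ts, and
   (a / (2 L)) * L ≤ a / 2: c L + a / 2 + 1 + ts ≤ a holds since a ≥ J ≥ 2 L (c + 1) + 2 ts + 2 L  (L ≥ 1).   (Nat.le_div_iff_mul_le.)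
 limit : q is antitone and ≥ 0, so it converges to some q∞ ≥ 0 (tendsto_atTop_ciInf) and q l - q (l+1) → 0. For k ≥ 1: choose by hq a sequence l_j → ∞ with
   (q l_j - 1/(k+1)) / D k ≤ q l_j - q (l_j + 1); the limit gives (q∞ - 1/(k+1)) / D k ≤ 0, so q∞ ≤ 1/(k+1) (D k > 0). For k → ∞: q∞ ≤ 0.
   (Without sequences: if q∞ > 1/(k+1) then q l - q (l+1) ≥ (q∞ - 1/(k+1)) / D k =: ε > 0 for infinitely many l, contradicting q l - q (l+1) → 0.)
-/
import Mathlib

set_option autoImplicit false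

namespace Pool.Agent.H42.PC

open Filter Topology

theorem numeric {k d s c L ts J l m : ℕ} (hc : k * d * s < 2 ^ c) (hL : 1 ≤ L)
    (hJ : 2 * L * (c + 1) + 2 * ts + 2 * L ≤ J) (hm : m < l) (hJm : J < l + 1 - m) :
    k * d * (s * 2 ^ ((l - m) / (J + 1))) < 2 ^ ((l - max (m + 1) ts) / L) := by
  have ha : J ≤ l - m := by omega
  have h1 : l - m - 1 - ts ≤ l - max (m + 1) ts := by omega
  have hJ1 : 2 * L ≤ J + 1 := by nlinarith
  have h2 : (l - m) / (J + 1) ≤ (l - m) / (2 * L) := Nat.div_le_div_left hJ1 (by omega)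
  have h3 : (l - m) / (2 * L) * (2 * L) ≤ l - m := Nat.div_mul_le_self _ _
  have h4 : c + (l - m) / (J + 1) ≤ (l - max (m + 1) ts) / L := by
    rw [Nat.le_div_iff_mul_le (by omega)]
    refine le_trans ?_ h1
    have h5 : (c + (l - m) / (J + 1)) * L ≤ (c + (l - m) / (2 * L)) * L := by gcongr
    have h6 : 2 * ((c + (l - m) / (2 * L)) * L) = 2 * L * c + (l - m) / (2 * L) * (2 * L) := by
      ring
    have h7 : 2 * L * (c + 1) = 2 * L * c + 2 * L := by ring
    omega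
  calc k * d * (s * 2 ^ ((l - m) / (J + 1))) = (k * d * s) * 2 ^ ((l - m) / (J + 1)) := by ring
    _ < 2 ^ c * 2 ^ ((l - m) / (J + 1)) := Nat.mul_lt_mul_of_pos_right hc (by positivity)
    _ = 2 ^ (c + (l - m) / (J + 1)) := (pow_add _ _ _).symm
    _ ≤ 2 ^ ((l - max (m + 1) ts) / L) := Nat.pow_le_pow_right (by norm_num) h4

theorem limit_zero (q : ℕ → ℝ) (n0 : ℕ) (h0 : ∀ t, 0 ≤ q t) (hanti : ∀ t, n0 ≤ t → q (t + 1) ≤ q t)
    (D : ℕ → ℝ) (hD : ∀ k, 1 ≤ k → 0 < D k)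
    (hq : ∀ k : ℕ, 1 ≤ k → ∀ J : ℕ, ∃ l, J ≤ l ∧ (q l - 1 / ((k : ℝ) + 1)) / D k ≤ q l - q (l + 1)) :
    Tendsto q atTop (𝓝 0) := by
  have hant : Antitone (fun t => q (n0 + t)) := by
    refine antitone_nat_of_succ_le (fun t => ?_)
    exact hanti (n0 + t) (by omega)
  have hbdd : BddBelow (Set.range fun t => q (n0 + t)) := by
    refine ⟨0, ?_⟩
    rintro _ ⟨t, rfl⟩
    exact h0 _
  have hlim' := tendsto_atTop_ciInf hant hbdd
  set L := ⨅ t, q (n0 + t) with hL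
  have hlim : Tendsto q atTop (𝓝 L) := by
    have h1 : (fun t => q (n0 + t)) = fun t => q (t + n0) := by
      funext t
      rw [add_comm]
    rw [h1] at hlim'
    exact (tendsto_add_atTop_iff_nat n0).1 hlim'
  have hge : ∀ l, n0 ≤ l → L ≤ q l := by
    intro l hl
    have h1 := ciInf_le hbdd (l - n0)
    rwa [show n0 + (l - n0) = l by omega] at h1
  have hL0 : 0 ≤ L := le_ciInf fun t => h0 _
  have hdiff : Tendsto (fun l => q l - q (l + 1)) atTop (𝓝 0) := by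
    have h1 := hlim.sub ((tendsto_add_atTop_iff_nat 1).2 hlim)
    rwa [sub_self] at h1
  have hle : ∀ k : ℕ, 1 ≤ k → L ≤ 1 / ((k : ℝ) + 1) := by
    intro k hk
    by_contra hcon
    push Not at hcon
    have hε : 0 < (L - 1 / ((k : ℝ) + 1)) / D k := div_pos (by linarith) (hD k hk)
    obtain ⟨J, hJ⟩ := Filter.eventually_atTop.1 (hdiff.eventually (gt_mem_nhds hε))
    obtain ⟨l, hl, hl'⟩ := hq k hk (max J n0)
    have h2 := hJ l (by omega)
    have h3 := hge l (by omega)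
    have h4 : (L - 1 / ((k : ℝ) + 1)) / D k ≤ (q l - 1 / ((k : ℝ) + 1)) / D k := by
      have := hD k hk
      gcongr
    linarith
  have hL' : L ≤ 0 := by
    have h1 : Tendsto (fun k : ℕ => 1 / ((k : ℝ) + 1)) atTop (𝓝 0) :=
      tendsto_one_div_add_atTop_nhds_zero_nat
    refine ge_of_tendsto h1 ?_
    filter_upwards [Filter.eventually_ge_atTop 1] with k hk
    exact hle k hk
  have : L = 0 := le_antisymm hL' hL0
  rwa [this] at hlim

end Pool.Agent.H42.PC
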