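/-
Row GOr (about 80 lines): the orbit of y under the stabiliser of u is large.

PROOF. Induction on k. Put Y i := F^[t - m0 - i * L] y (level m0 + i L), H := stabilizer G u. Claim: 2^i ≤ (orbit H (Y i)).ncard for m0 + i L ≤ t.
 i = 0: the orbit is nonempty and finite (G finite). Step: the map orbit H (Y (i+1)) → orbit H (Y i), z ↦ F^[L] z is onto (iter_smul; F^[L] (Y (i+1)) = Y i), and every fibre has at
 least two elements: over h Y i (h ∈ H) lie h Y (i+1) and h g Y (i+1) where g ∈ H fixes Y i and moves Y (i+1) (hypothesis hsep with m0 + i L). So the cardinality at least doubles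
 (e.g. Finset.card_eq_sum_card_fiberwise / Finset.card_nsmul_le_card...).
 At the end: orbit H (F^[j] y) is the image of orbit H y under F^[j], so its ncard is ≤ that of orbit H y.
-/
import Pool.Agent.H42.PC.GBas

set_option autoImplicit false

namespace Pool.Agent.H42.PC

variable {G Ω : Type} [Group G] [MulAction G Ω] {F : Ω → Ω} {b : Ω} {d N : ℕ}

theorem GOr_double [Finite G] (H : Subgroup G) (f : Ω → Ω) {p r : Ω}
    (hf : ∀ g ∈ H, f (g • p) = g • f p) (hr : f p = r)
    (hg : ∃ g ∈ H, g • r = r ∧ g • p ≠ p) :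
    2 * (MulAction.orbit H r).ncard ≤ (MulAction.orbit H p).ncard := by
  classical
  have hfin : (MulAction.orbit H p).Finite := Set.finite_range _
  have hfin' : (MulAction.orbit H r).Finite := Set.finite_range _
  obtain ⟨g, hgH, hg1, hg2⟩ := hg
  rw [Set.ncard_eq_toFinset_card _ hfin, Set.ncard_eq_toFinset_card _ hfin', mul_comm]
  have hmap : ∀ x ∈ hfin.toFinset, f x ∈ hfin'.toFinset := by
    intro x hx
    rw [Set.Finite.mem_toFinset] at hx ⊢
    obtain ⟨h, rfl⟩ := hx
    refine ⟨h, ?_⟩
    show (h : G) • r = f ((h : G) • p)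
    rw [hf _ h.2, hr]
  rw [mul_comm]
  refine Finset.mul_card_image_le_card_of_maps_to hmap 2 ?_
  intro z hz
  rw [Set.Finite.mem_toFinset] at hz
  obtain ⟨h, rfl⟩ := hz
  have h1 : (h : G) • p ∈ hfin.toFinset.filter fun x => f x = (fun m : H => m • r) h := by
    rw [Finset.mem_filter, Set.Finite.mem_toFinset]
    refine ⟨⟨h, rfl⟩, ?_⟩
    show f ((h : G) • p) = (h : G) • r
    rw [hf _ h.2, hr]
  have h2 : (h : G) • g • p ∈ hfin.toFinset.filter fun x => f x = (fun m : H => m • r) h := by
    rw [Finset.mem_filter, Set.Finite.mem_toFinset]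
    refine ⟨⟨h * ⟨g, hgH⟩, ?_⟩, ?_⟩
    · show ((h : G) * g) • p = (h : G) • g • p
      rw [mul_smul]
    · show f ((h : G) • g • p) = (h : G) • r
      rw [← mul_smul, hf _ (H.mul_mem h.2 hgH), mul_smul, hr, hg1]
  refine Finset.one_lt_card.2 ⟨_, h1, _, h2, ?_⟩
  intro he
  exact hg2 (MulAction.injective (h : G) he).symm

theorem orbit_big [Finite G] (hT : Tree G F b d N) {t m0 L : ℕ} {u y : Ω}
    (hsep : ∀ m1, m0 ≤ m1 → m1 + L ≤ t → ∃ g : G, g • u = u ∧
      g • F^[t - m1] y = F^[t - m1] y ∧ g • F^[t - m1 - L] y ≠ F^[t - m1 - L] y)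
    (k : ℕ) (hk : m0 + k * L ≤ t) :
    2 ^ k ≤ (MulAction.orbit (MulAction.stabilizer G u) y).ncard := by
  set H := MulAction.stabilizer G u with hH
  have key : ∀ i, m0 + i * L ≤ t → 2 ^ i ≤ (MulAction.orbit H (F^[t - m0 - i * L] y)).ncard := by
    intro i
    induction i with
    | zero =>
      intro _
      rw [pow_zero]
      have hf : (MulAction.orbit H (F^[t - m0 - 0 * L] y)).Finite := Set.finite_range _
      exact (Set.ncard_pos hf).2 (MulAction.nonempty_orbit _)
    | succ i ih =>
      intro hi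
      have e1 : m0 + (i + 1) * L = m0 + i * L + L := by ring
      have h1 := ih (by omega)
      obtain ⟨g, hg1, hg2, hg3⟩ := hsep (m0 + i * L) (by omega) (by omega)
      have e2 : t - (m0 + i * L) = t - m0 - i * L := by omega
      have e3 : t - (m0 + i * L) - L = t - m0 - (i + 1) * L := by
        rw [add_mul]
        omega
      rw [e3] at hg3
      rw [e2] at hg2
      have h2 := GOr_double H (F^[L]) (p := F^[t - m0 - (i + 1) * L] y)
        (r := F^[t - m0 - i * L] y) (fun g _ => iter_smul hT g _ L)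
        (by
          rw [← Function.iterate_add_apply]
          congr 1
          rw [add_mul]
          have : i * L + L ≤ t - m0 := by omega
          congr 1
          omega)
        ⟨g, hg1, hg2, hg3⟩
      rw [pow_succ]
      omega
  have h1 := key k hk
  refine h1.trans ?_
  have h2 : MulAction.orbit H (F^[t - m0 - k * L] y) =
      (F^[t - m0 - k * L]) '' MulAction.orbit H y := by
    ext z
    constructor
    · rintro ⟨h, rfl⟩
      refine ⟨h • y, ⟨h, rfl⟩, ?_⟩
      exact iter_smul hT (h : G) y _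
    · rintro ⟨_, ⟨h, rfl⟩, rfl⟩
      exact ⟨h, (iter_smul hT (h : G) y _).symm⟩
  rw [h2]
  exact Set.ncard_image_le (Set.finite_range _)

end Pool.Agent.H42.PC
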