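/-
Row GCon (about 90 lines): conjugate places.

PROOF of the fields of conj: red' x = red (g⁻¹ • x).
 hred : g⁻¹ • F x = F (g⁻¹ • x) (equiv), and g⁻¹ • x ∈ lev (t+1) (smul_lev).
 hI   : h = g i g⁻¹ with i ∈ I (Subgroup.mem_map): g⁻¹ • (h • x) = i • (g⁻¹ • x).
 hone, htwo: apply the hypotheses to g⁻¹ • x, ...; g⁻¹ • is injective.
 mem_st : h ∈ st' x ↔ g⁻¹ h g ∈ st (g⁻¹ x): h ∈ I.map (conj g) iff g⁻¹ h g ∈ I; h x = x iff g⁻¹ h g (g⁻¹ x) = g⁻¹ x.
 onC : red' b = red (g⁻¹ • b) = red b (fix).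
 cyc : hdig: take the element g i g⁻¹.
-/
import Pool.Agent.H42.PC.GBas

set_option autoImplicit false

namespace Pool.Agent.H42.PC

variable {G Ω : Type} [Group G] [MulAction G Ω] {F : Ω → Ω} {b : Ω} {d N s J n t0 : ℕ}

/-- The place moved by `g`. -/
def Place.conj (hT : Tree G F b d N) (P : Place G F b s J N) (g : G) : Place G F b s J N where
  R := P.R
  FR := P.FR
  red := fun x => P.red (g⁻¹ • x)
  I := P.I.map (MulAut.conj g).toMonoidHom
  A := P.A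
  hAfin := P.hAfin
  hA := P.hA
  hred := by
    intro t ht x hx
    show P.red (g⁻¹ • F x) = P.FR (P.red (g⁻¹ • x))
    rw [← hT.equiv]
    exact P.hred t ht _ (smul_lev hT _ hx)
  hI := by
    rintro h hh t ht x hx
    obtain ⟨i, hi, rfl⟩ := Subgroup.mem_map.1 hh
    show P.red (g⁻¹ • ((MulAut.conj g).toMonoidHom i • x)) = P.red (g⁻¹ • x)
    have h1 : g⁻¹ • ((MulAut.conj g).toMonoidHom i • x) = i • (g⁻¹ • x) := by
      rw [MulEquiv.coe_toMonoidHom, MulAut.conj_apply, smul_smul, smul_smul]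
      congr 1
      group
    rw [h1]
    exact P.hI i hi t ht _ (smul_lev hT _ hx)
  hone := by
    intro t ht x hx x' hx' he hr hA
    have h1 : F (g⁻¹ • x) = F (g⁻¹ • x') := by rw [hT.equiv, hT.equiv, he]
    have := P.hone t ht _ (smul_lev hT _ hx) _ (smul_lev hT _ hx') h1 hr hA
    exact MulAction.injective g⁻¹ this
  htwo := by
    intro t ht x₁ h₁ x₂ h₂ x₃ h₃ e₁ e₂ r₁ r₂
    have h1 : F (g⁻¹ • x₁) = F (g⁻¹ • x₂) := by rw [hT.equiv, hT.equiv, e₁]
    have h2 : F (g⁻¹ • x₂) = F (g⁻¹ • x₃) := by rw [hT.equiv, hT.equiv, e₂]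
    rcases P.htwo t ht _ (smul_lev hT _ h₁) _ (smul_lev hT _ h₂) _ (smul_lev hT _ h₃) h1 h2 r₁ r₂
      with h | h | h
    · exact Or.inl (MulAction.injective g⁻¹ h)
    · exact Or.inr (Or.inl (MulAction.injective g⁻¹ h))
    · exact Or.inr (Or.inr (MulAction.injective g⁻¹ h))
  hJ := P.hJ

theorem Place.conj_red (hT : Tree G F b d N) (P : Place G F b s J N) (g : G) (x : Ω) :
    (P.conj hT g).red x = P.red (g⁻¹ • x) := rfl

theorem Place.conj_A (hT : Tree G F b d N) (P : Place G F b s J N) (g : G) :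
    (P.conj hT g).A = P.A := rfl

theorem Place.conj_mem_I (hT : Tree G F b d N) (P : Place G F b s J N) (g h : G) :
    h ∈ (P.conj hT g).I ↔ g⁻¹ * h * g ∈ P.I := by
  show h ∈ P.I.map (MulAut.conj g).toMonoidHom ↔ _
  constructor
  · intro hh
    obtain ⟨i, hi, rfl⟩ := Subgroup.mem_map.1 hh
    rw [MulEquiv.coe_toMonoidHom, MulAut.conj_apply]
    have : g⁻¹ * (g * i * g⁻¹) * g = i := by group
    rwa [this]
  · intro hh
    refine Subgroup.mem_map.2 ⟨_, hh, ?_⟩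
    rw [MulEquiv.coe_toMonoidHom, MulAut.conj_apply]
    group

theorem Place.conj_onC (hT : Tree G F b d N) (P : Place G F b s J N) (g : G) (x : Ω) :
    (P.conj hT g).OnC x ↔ P.OnC (g⁻¹ • x) := by
  show (∃ k : ℕ, P.red (g⁻¹ • x) = P.FR^[k] (P.red (g⁻¹ • b))) ↔
    ∃ k : ℕ, P.red (g⁻¹ • x) = P.FR^[k] (P.red b)
  rw [hT.fix]

theorem Place.conj_cyc (hT : Tree G F b d N) (P : Place G F b s J N) (hC : Cyc P n t0) (g : G) :
    Cyc (P.conj hT g) n t0 := by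
  refine ⟨hC.hn, ?_, ?_, ?_, ?_⟩
  · show P.red (g⁻¹ • b) ∈ P.A
    rw [hT.fix]
    exact hC.hb
  · show P.FR^[n] (P.red (g⁻¹ • b)) = P.red (g⁻¹ • b)
    rw [hT.fix]
    exact hC.hcyc
  · intro t ht w hw hon
    rw [P.conj_onC] at hon
    obtain ⟨x, hx, hx'⟩ := hC.hex t ht _ (smul_lev hT _ hw) hon
    refine ⟨g • x, ?_, ?_⟩
    · rw [hT.equiv, hx, smul_inv_smul]
    · rw [P.conj_onC, inv_smul_smul]
      exact hx'
  · intro m h0 hm w hw hon x hx hon' hA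
    rw [P.conj_onC] at hon hon'
    have hA' : P.red (g⁻¹ • x) ∈ P.A := hA
    obtain ⟨i, hi, hiw, hix⟩ := hC.hdig m h0 hm _ (smul_lev hT _ hw) hon (g⁻¹ • x)
      (by rw [hT.equiv, hx]) hon' hA'
    refine ⟨g * i * g⁻¹, ?_, ?_, ?_⟩
    · rw [P.conj_mem_I]
      have : g⁻¹ * (g * i * g⁻¹) * g = i := by group
      rwa [this]
    · rw [mul_smul, mul_smul, hiw, smul_inv_smul]
    · intro h
      apply hix
      rw [mul_smul, mul_smul] at h
      exact eq_inv_smul_iff.2 h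

theorem Place.conj_inO (hT : Tree G F b d N) (P : Place G F b s J N) {O : ℕ → Set Ω}
    (hO : ∀ t ≤ N, ∀ h : G, ∀ x ∈ O t, h • x ∈ O t) (hP : InO P O) (g : G) :
    InO (P.conj hT g) O := by
  intro t ht x hx hon
  rw [P.conj_onC] at hon
  have h1 := hP t ht _ (smul_lev hT _ hx) hon
  have h2 := hO t ht g _ h1
  rwa [smul_inv_smul] at h2

end Pool.Agent.H42.PC
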