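/-
Row GOdd (about 60 lines): a transitive group on a set of odd size with an element swapping a and a' cannot have the stabiliser of a fixing a'.

PROOF. Suppose every h with h • a = a has h • a' = a'. Define σ : X → X: for x ∈ X choose g x with g x • a = x (transitivity) and put σ x := g x • a'.
 σ x ∈ X by invariance. For any h with h • a = x: h⁻¹ * g x fixes a so it fixes a', i.e. h • a' = σ x (well defined).
 σ x ≠ x (a' ≠ a). σ (σ x) = x: g0 swaps a and a'; (g x * g0) • a = g x • a' = σ x, so σ (σ x) = (g x * g0) • a' = g x • a = x.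
 So σ is a fixed point free involution of the finite set X: X.ncard is even (Mathlib: Finset.card_involution? / Function.Involutive.card_fixedPoints ... e.g.
 Equiv.Perm.card_fixedPoints_modEq or Finset.sum_involution in ZMod 2, or Function.Involutive... even_card_of_isEmpty_fixedPoints), contradiction.
-/
import Mathlib

set_option autoImplicit false

namespace Pool.Agent.H42.PC

theorem odd_third {G Ω : Type} [Group G] [MulAction G Ω] (H : Subgroup G) (X : Set Ω)
    (hX : X.Finite) (hodd : Odd X.ncard) (hinv : ∀ g ∈ H, ∀ x ∈ X, g • x ∈ X)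
    (htr : ∀ x ∈ X, ∀ y ∈ X, ∃ g ∈ H, g • x = y) {a a' : Ω} (ha : a ∈ X) (ha' : a' ∈ X)
    (hne : a ≠ a') {g : G} (hg : g ∈ H) (h1 : g • a = a') (h2 : g • a' = a) :
    ∃ h ∈ H, h • a = a ∧ h • a' ≠ a' := by
  classical
  by_contra hcon
  push Not at hcon
  have hwd : ∀ k ∈ H, ∀ k' ∈ H, k • a = k' • a → k • a' = k' • a' := by
    intro k hk k' hk' he
    have h3 : (k'⁻¹ * k) • a = a := by rw [mul_smul, he, inv_smul_smul]
    have h4 := hcon (k'⁻¹ * k) (H.mul_mem (H.inv_mem hk') hk) h3
    rw [mul_smul] at h4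
    exact inv_smul_eq_iff.1 h4
  choose! φ hφH hφ using fun x hx => htr a ha x hx
  have hσX : ∀ x ∈ X, φ x • a' ∈ X := fun x hx => hinv _ (hφH x hx) _ ha'
  have hσne : ∀ x ∈ X, φ x • a' ≠ x := by
    intro x hx he
    apply hne
    have h3 := hφ x hx
    rw [← he] at h3
    have h5 : φ (φ x • a') = φ x := by rw [he]
    rw [h5] at h3
    exact MulAction.injective (φ x) h3
  have hσσ : ∀ x ∈ X, φ (φ x • a') • a' = x := by
    intro x hx
    have h3 : (φ x * g) • a = φ x • a' := by rw [mul_smul, h1]
    have h4 : φ (φ x • a') • a = (φ x * g) • a := by rw [hφ _ (hσX x hx), h3]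
    have h5 := hwd _ (hφH _ (hσX x hx)) _ (H.mul_mem (hφH x hx) hg) h4
    rw [h5, mul_smul, h2, hφ x hx]
  have hev : Even hX.toFinset.card := by
    have h6 : (∑ _x ∈ hX.toFinset, (1 : ZMod 2)) = 0 := by
      refine Finset.sum_involution (fun x _ => φ x • a') ?_ ?_ ?_ ?_
      · intro x _
        decide
      · intro x hx _
        rw [Set.Finite.mem_toFinset] at hx
        exact hσne x hx
      · intro x hx
        rw [Set.Finite.mem_toFinset] at hx ⊢
        exact hσX x hx
      · intro x hx
        rw [Set.Finite.mem_toFinset] at hx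
        exact hσσ x hx
    rw [Finset.sum_const, nsmul_eq_mul, mul_one] at h6
    exact (ZMod.natCast_eq_zero_iff_even).1 h6
  rw [← Set.ncard_eq_toFinset_card _ hX] at hev
  exact (Nat.not_even_iff_odd.2 hodd) hev

end Pool.Agent.H42.PC
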