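/-
Row GZ (about 140 lines): the first off-cycle critical descendants of an on-cycle vertex.

SETTING. w ∈ lev m is OnC. Zset w := {x | ∃ j, 2 ≤ j, m + j ≤ N, F^[j] x = w, red x ∈ A, F^[j-1] x not OnC, and for 1 ≤ i < j: red (F^[i] x) ∉ A}.
 z_level : for x ∈ Zset w with witness j: J < j, provided some a with F a = w has red a ∈ A and OnC a, a ∈ lev (m+1), and 1 ≤ J.
   If j ≤ J: FR^[j] (red x) = red w = FR^[1] (red a), so by hJ (i = j ≤ J, 1 ≤ J) red x = red a and j = 1, contradiction with 2 ≤ j.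
 z_card : Zset w is finite with at most 2 s elements. The residue map sends it to A. For a fixed residue c ∈ A: the witness j is unique: for witnesses j < j' of x, x'
   with red x = red x' = c: FR^[j] c = red w is on the forward orbit of red b, so FR^[j'-1] c is (j ≤ j' - 1), but FR^[j'-1] c = red (F^[j'-1] x') is not. So all x ∈ Zset w
   with red x = c have the same j, and they are among {y | F^[j] y = w, red (F^[i] y) = r i for i < j}, r i := FR^[i] c, of cardinality ≤ 2^ν (path_count),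
   ν = #{i < j : r i ∈ A} ≤ 1 as only i = 0 is critical.  (If the class is empty nothing to do.) Sum over c ∈ A: ≤ 2 A.ncard ≤ 2 s.
-/
import Pool.Agent.H42.PC.GOff

set_option autoImplicit false

namespace Pool.Agent.H42.PC

open scoped Classical

variable {G Ω : Type} [Group G] [MulAction G Ω] {F : Ω → Ω} {b : Ω} {d N s J n t0 : ℕ}

/-- first critical descendants after leaving the cycle at `w` (level `m`); `j` is the number of
levels above `w`. -/
def Zset (P : Place G F b s J N) (m : ℕ) (w : Ω) : Set Ω :=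
  {x | ∃ j, 2 ≤ j ∧ m + j ≤ N ∧ F^[j] x = w ∧ P.red x ∈ P.A ∧ ¬ P.OnC (F^[j - 1] x) ∧
    ∀ i, 1 ≤ i → i < j → P.red (F^[i] x) ∉ P.A}

theorem z_level (P : Place G F b s J N) (hJ : 1 ≤ J) {m : ℕ} {w a x : Ω} (hw : w ∈ lev F b m)
    (ha : F a = w) (hma : m < N) (hA : P.red a ∈ P.A) {j : ℕ} (h2 : 2 ≤ j) (hj : m + j ≤ N)
    (hx : F^[j] x = w) (hxA : P.red x ∈ P.A) : J < j := by
  by_contra hcon
  have hxl : x ∈ lev F b (m + j) := lev_up (by rw [hx]; exact hw)
  have hal : a ∈ lev F b (m + 1) := lev_up (j := 1) (by simpa [ha] using hw)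
  have h1 : P.FR^[j] (P.red x) = P.FR^[1] (P.red a) := by
    rw [← red_iter P (by omega) hj hxl, ← red_iter P (by omega) (by omega) hal, hx]
    simp [ha]
  have := (P.hJ _ hxA _ hA j (by omega) 1 hJ h1).2
  omega

theorem z_finite (hT : Tree G F b d N) (P : Place G F b s J N) {m : ℕ} {w : Ω}
    (hw : w ∈ lev F b m) : (Zset P m w).Finite := by
  have h1 : Zset P m w ⊆ ⋃ j ∈ (Finset.range (N + 1) : Set ℕ), lev F b j := by
    rintro x ⟨j, -, hj, hx, -⟩
    have hxl : x ∈ lev F b (m + j) := lev_up (by rw [hx]; exact hw)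
    refine Set.mem_iUnion₂.2 ⟨m + j, ?_, hxl⟩
    rw [Finset.mem_coe, Finset.mem_range]
    omega
  refine Set.Finite.subset (Set.Finite.biUnion (Finset.finite_toSet _) ?_) h1
  intro j hj
  rw [Finset.mem_coe, Finset.mem_range] at hj
  exact lev_fin hT (by omega)

theorem z_card (hT : Tree G F b d N) (P : Place G F b s J N) {m : ℕ} {w : Ω}
    (hw : w ∈ lev F b m) (hon : P.OnC w) : (Zset P m w).ncard ≤ 2 * s := by
  have hfin := z_finite hT P hw
  rw [Set.ncard_eq_toFinset_card _ hfin]
  have hmap : ∀ x ∈ hfin.toFinset, P.red x ∈ P.hAfin.toFinset := by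
    intro x hx
    rw [Set.Finite.mem_toFinset] at hx ⊢
    obtain ⟨j, -, -, -, h, -⟩ := hx
    exact h
  have hcard : P.hAfin.toFinset.card ≤ s := by
    rw [← Set.ncard_eq_toFinset_card _ P.hAfin]
    exact P.hA
  refine le_trans (Finset.card_le_mul_card_image_of_maps_to hmap 2 ?_) (Nat.mul_le_mul_left _ hcard)
  intro c hc
  by_cases hemp : (hfin.toFinset.filter fun x => P.red x = c) = ∅
  · rw [hemp]
    simp
  obtain ⟨x0, hx0⟩ := Finset.nonempty_iff_ne_empty.2 hemp
  rw [Finset.mem_filter, Set.Finite.mem_toFinset] at hx0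
  obtain ⟨⟨j0, hj2, hjN, hxj, hxA, hoff, hnc⟩, hxc⟩ := hx0
  -- uniqueness of the level
  have huniq : ∀ (x x' : Ω) (j j' : ℕ), j < j' → m + j ≤ N → m + j' ≤ N → F^[j] x = w →
      F^[j'] x' = w → P.red x = P.red x' → ¬ P.OnC (F^[j' - 1] x') → False := by
    intro x x' j j' hjj hj hj' hx hx' hr hoff'
    have hxl : x ∈ lev F b (m + j) := lev_up (by rw [hx]; exact hw)
    have hxl' : x' ∈ lev F b (m + j') := lev_up (by rw [hx']; exact hw)
    apply hoff'
    obtain ⟨k, hk⟩ := hon
    refine ⟨(j' - 1 - j) + k, ?_⟩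
    rw [red_iter P (by omega) hj' hxl', ← hr, Function.iterate_add_apply, ← hk, ← hx,
      red_iter P (by omega) hj hxl, ← Function.iterate_add_apply,
      show j' - 1 - j + j = j' - 1 by omega]
  have hsub : (((hfin.toFinset.filter fun x => P.red x = c) : Finset Ω) : Set Ω) ⊆
      {y | F^[j0] y = w ∧ ∀ i < j0, P.red (F^[i] y) = P.FR^[i] c} := by
    intro x hx
    rw [Finset.mem_coe, Finset.mem_filter, Set.Finite.mem_toFinset] at hx
    obtain ⟨⟨j, h2, hN, hxw, hA, hof, hn⟩, hr⟩ := hx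
    have hj : j = j0 := by
      rcases lt_trichotomy j j0 with h | h | h
      · exact (huniq x x0 j j0 h hN hjN hxw hxj (hr.trans hxc.symm) hoff).elim
      · exact h
      · exact (huniq x0 x j0 j h hjN hN hxj hxw (hxc.trans hr.symm) hof).elim
    subst hj
    refine ⟨hxw, fun i hi => ?_⟩
    have hxl : x ∈ lev F b (m + j) := lev_up (by rw [hxw]; exact hw)
    rw [red_iter P (by omega) hN hxl, hr]
  have hpc := path_count hT P hjN hw (fun i => P.FR^[i] c)
  have hfin2 : {y | F^[j0] y = w ∧ ∀ i < j0, P.red (F^[i] y) = P.FR^[i] c}.Finite := by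
    refine (lev_fin hT hjN).subset ?_
    rintro y ⟨hy, -⟩
    exact lev_up (by rw [hy]; exact hw)
  have h3 := Set.ncard_le_ncard hsub hfin2
  rw [Set.ncard_coe_finset] at h3
  refine h3.trans (hpc.trans ?_)
  have hf1 : ((Finset.range j0).filter fun i => P.FR^[i] c ∈ P.A).card ≤ 1 := by
    rw [Finset.card_le_one]
    have hz : ∀ i ∈ (Finset.range j0).filter fun i => P.FR^[i] c ∈ P.A, i = 0 := by
      intro i hi
      rw [Finset.mem_filter, Finset.mem_range] at hi
      by_contra hi0
      have hxl : x0 ∈ lev F b (m + j0) := lev_up (by rw [hxj]; exact hw)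
      apply hnc i (by omega) hi.1
      rw [red_iter P (by omega) hjN hxl, hxc]
      exact hi.2
    intro i hi i' hi'
    rw [hz i hi, hz i' hi']
  calc 2 ^ ((Finset.range j0).filter fun i => P.FR^[i] c ∈ P.A).card ≤ 2 ^ 1 :=
        Nat.pow_le_pow_right (by norm_num) hf1
    _ = 2 := by norm_num

end Pool.Agent.H42.PC
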