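/-
Row GSib (about 170 lines): THE SIBLING LEMMA (d odd). The stabiliser of V moves every sibling q of an ancestor of V at a digit level ≥ t0.

DATA. m ≥ t0, n0; V ∈ O t, m + 1 ≤ t ≤ N; q ≠ F^[t-m-1] V, F q = F^[t-m] V. On the cycle: a ∈ lev (m+1), OnC a, red a ∈ A, w' := F a (digit level).
CLAIM: some ρ ∈ G has ρ V = V, ρ q ≠ q.

PROOF. v := F^[t-m-1] V, w := F v = F q. w' ∈ lev m is OnC (onC_iter), a ∈ O (m+1) (InO), w' ∈ O m. By hdig (m ≥ t0) there is g0 ∈ I with g0 w' = w', g0 a ≠ a.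
 a2 := g0 a has red a2 = red a (hI), F a2 = w', a2 is OnC; htwo applied to a, a2, g0 a2 gives g0 a2 = a.
 (1) X := {z | F z = w'} has d elements (odd); G_{w'} acts transitively on it: X ⊆ O (m+1) (full, n0 ≤ m) and trans; h x = y implies h w' = w' (apply F).
     odd_third (H := stabilizer G w') gives h0 with h0 a = a and h0 a2 =: a3 ≠ a2.
 (2) For γ ∈ G put A1 := {γ | γ q = a}, A2 := {γ ∈ A1 | γ v = a2}. |A1| |O (m+1)| = |G| (transport: q ∈ O (m+1) by full since F q = w ∈ O m). γ ↦ h0 γ is an injection from A2 to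
     {γ ∈ A1 | γ v = a3}, disjoint from A2. So 2 |A2| ≤ |A1|.
 (3) Bad := {γ ∈ A1 | γ v ≠ a2 and for some i with 1 ≤ ... : some level l ∈ [m+2, t] has red (γ F^[t-l] V) ∈ A}. For γ ∈ Bad, let l be the smallest such level. x := γ F^[t-l] V, j := l - m ≥ 2.
     F^[j] x = γ w = w' (γ q = a, apply F). red x ∈ A. F^[j-1] x = γ v. It is not OnC: γ v ≠ a (injectivity, q ≠ v), γ v ≠ a2, F (γ v) = w'; if it were OnC its residue would be
     red a (uniq_child), and htwo would give γ v ∈ {a, a2}. red (F^[i] x) ∉ A for 1 ≤ i < j: for i ≤ j - 2 by minimality of l; for i = j - 1: red (γ v) ∈ A and F (γ v) = w' = F a give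
     FR (red (γ v)) = FR (red a), so red (γ v) = red a by hJ (1 ≤ J), and htwo again contradicts γ v ∉ {a, a2}. So x ∈ Zset P m w', and J < j (z_level).
     For x ∈ Zset P m w' ∩ lev l (l determined by x: lev_uniq) the number of γ with γ F^[t-l] V = x is |G| / |O l| (transport; x = γ(...) ∈ O l), |O l| = d^(l-m-1) |O (m+1)| ≥ d^J |O (m+1)|
     (orb_add with m+1; n0 ≤ m). So |Bad| d^J |O (m+1)| ≤ 2 s |G| (z_card, z_finite), i.e. |Bad| d^J ≤ 2 s |A1|.
 (4) 4 s < d^J: 2 |Bad| d^J ≤ 4 s |A1| < d^J |A1| (|A1| > 0), so 2 |Bad| < |A1|. With 2 |A2| ≤ |A1|: |Bad| + |A2| < |A1|. So some γ ∈ A1 has γ v ≠ a2 and no critical residue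
     at levels m+2..t on the path of γ V.
 (5) I_{w'} := st w' fixes γ V: st (γ V) has relIndex 1 in st w' : by path_le (u = γ V, j = t - m, level m) with the filter empty: for i ≤ t - m - 2 no critical residue by (4), for i = t-m-1:
     red (γ v) ∉ A (shown in (3)). So relIndex ≤ 1, hence st w' ≤ st (γ V) (Subgroup.relIndex_eq_one, relIndex ≠ 0 as G is finite). So g0 fixes γ V and moves a = γ q.
     ρ := γ⁻¹ g0 γ.
-/
import Pool.Agent.H42.PC.GZ
import Pool.Agent.H42.PC.GOdd

set_option autoImplicit false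

namespace Pool.Agent.H42.PC

open scoped Classical

variable {G Ω : Type} [Group G] [MulAction G Ω] {F : Ω → Ω} {b : Ω} {d N s J n t0 n0 : ℕ}
  {O : ℕ → Set Ω}

theorem GSib_red (P : Place G F b s J N) {m : ℕ} (hm : m < N) {a a2 x : Ω}
    (ha : a ∈ lev F b (m + 1)) (ha2 : a2 ∈ lev F b (m + 1)) (hx : x ∈ lev F b (m + 1))
    (h2 : F a2 = F a) (hF : F x = F a) (hr : P.red a2 = P.red a) (hne : a ≠ a2) (h1 : x ≠ a)
    (h3 : x ≠ a2) : P.red x ≠ P.red a := by
  intro h
  rcases P.htwo m hm a ha a2 ha2 x hx h2.symm (h2.trans hF.symm) hr.symm (hr.trans h.symm)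
    with h4 | h4 | h4
  · exact hne h4
  · exact h1 h4.symm
  · exact h3 h4.symm

theorem GSib_notA (P : Place G F b s J N) (hJ : 1 ≤ J) {m : ℕ} (hm : m < N) {a a2 x : Ω}
    (ha : a ∈ lev F b (m + 1)) (ha2 : a2 ∈ lev F b (m + 1)) (hx : x ∈ lev F b (m + 1))
    (h2 : F a2 = F a) (hF : F x = F a) (hr : P.red a2 = P.red a) (hne : a ≠ a2) (h1 : x ≠ a)
    (h3 : x ≠ a2) (hA : P.red a ∈ P.A) : P.red x ∉ P.A := by
  intro h
  refine GSib_red P hm ha ha2 hx h2 hF hr hne h1 h3 (P.hJ _ h _ hA 1 hJ 1 hJ ?_).1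
  rw [Function.iterate_one, ← P.hred m hm x hx, ← P.hred m hm a ha, hF]

/-- elements of the group with a first critical residue above `m + 1` lie over `Zset`. -/
theorem GSib_z (hT : Tree G F b d N) {P : Place G F b s J N} (hC : Cyc P n t0) (hJ : 1 ≤ J)
    {m t l : ℕ} (ht : t ≤ N) {V q a a2 : Ω} (hV : V ∈ lev F b t)
    (hq : F q = F^[t - m] V) (hne : q ≠ F^[t - m - 1] V)
    (ha : a ∈ lev F b (m + 1)) (ha2 : a2 ∈ lev F b (m + 1)) (hon : P.OnC a) (hA : P.red a ∈ P.A)
    (h2 : F a2 = F a) (hr : P.red a2 = P.red a) (hnea : a ≠ a2)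
    {γ : G} (hγ : γ • q = a) (hγ2 : γ • F^[t - m - 1] V ≠ a2) (hl : m + 2 ≤ l) (hlt : l ≤ t)
    (hlA : P.red (γ • F^[t - l] V) ∈ P.A)
    (hmin : ∀ l', m + 2 ≤ l' → l' < l → P.red (γ • F^[t - l'] V) ∉ P.A) :
    γ • F^[t - l] V ∈ Zset P m (F a) ∧ J < l - m := by
  have hmN : m < N := by omega
  have hv : F^[t - m - 1] V ∈ lev F b (m + 1) := by
    have := lev_iter (F := F) (j := t - m - 1) hV (by omega)
    rwa [show t - (t - m - 1) = m + 1 by omega] at this
  have hFv : F (F^[t - m - 1] V) = F^[t - m] V := by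
    rw [← Function.iterate_succ_apply' F, show (t - m - 1).succ = t - m by omega]
  have hγw : γ • F^[t - m] V = F a := by rw [← hq, ← hT.equiv, hγ]
  have hγv : γ • F^[t - m - 1] V ∈ lev F b (m + 1) := smul_lev hT γ hv
  have hFγv : F (γ • F^[t - m - 1] V) = F a := by rw [hT.equiv, hFv, hγw]
  have hnev : γ • F^[t - m - 1] V ≠ a := by
    rw [← hγ]
    exact fun h => hne (smul_left_cancel γ h).symm
  have hjx : F^[l - m] (γ • F^[t - l] V) = F a := by
    rw [iter_smul hT, ← Function.iterate_add_apply, show l - m + (t - l) = t - m by omega, hγw]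
  have hz : γ • F^[t - l] V ∈ Zset P m (F a) := by
    refine ⟨l - m, by omega, by omega, hjx, hlA, ?_, ?_⟩
    · have h3 : F^[l - m - 1] (γ • F^[t - l] V) = γ • F^[t - m - 1] V := by
        rw [iter_smul hT, ← Function.iterate_add_apply,
          show l - m - 1 + (t - l) = t - m - 1 by omega]
      rw [h3]
      intro hOn
      exact GSib_red P hmN ha ha2 hγv h2 hFγv hr hnea hnev hγ2
        (uniq_child hC hmN hγv ha hFγv hOn hon)
    · intro i hi hij
      have h3 : F^[i] (γ • F^[t - l] V) = γ • F^[t - (l - i)] V := by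
        rw [iter_smul hT, ← Function.iterate_add_apply,
          show i + (t - l) = t - (l - i) by omega]
      rw [h3]
      rcases Nat.lt_or_ge (m + 1) (l - i) with h4 | h4
      · exact hmin (l - i) h4 (by omega)
      · have h5 : t - (l - i) = t - m - 1 := by omega
        rw [h5]
        exact GSib_notA P hJ hmN ha ha2 hγv h2 hFγv hr hnea hnev hγ2 hA
  refine ⟨hz, ?_⟩
  have hwl : F a ∈ lev F b m := by
    have := lev_iter (F := F) (j := 1) ha (by omega)
    simpa using this
  exact z_level P hJ hwl rfl hmN hA (by omega) (by omega) hjx hlA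

theorem sibling [Finite G] (hT : Tree G F b d N) (hO : Orb G F b n0 N O)
    {P : Place G F b s J N} (hC : Cyc P n t0) (hI : InO P O) (hd : Odd d) (hJ : 1 ≤ J)
    (hs : 4 * s < d ^ J) {m t : ℕ} (h0 : n0 ≤ m) (h1 : t0 ≤ m) (hmt : m + 1 ≤ t) (ht : t ≤ N)
    {V q : Ω} (hV : V ∈ O t) (hq : F q = F^[t - m] V) (hne : q ≠ F^[t - m - 1] V)
    {a : Ω} (ha : a ∈ lev F b (m + 1)) (hon : P.OnC a) (hA : P.red a ∈ P.A) :
    ∃ ρ : G, ρ • V = V ∧ ρ • q ≠ q := by
  have hfG := Fintype.ofFinite G
  have hmN : m < N := by omega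
  have hVl : V ∈ lev F b t := hO.sub t ht hV
  have hvO : F^[t - m - 1] V ∈ O (m + 1) := by
    have := orb_iter hO (j := t - m - 1) (by omega) ht hV
    rwa [show t - (t - m - 1) = m + 1 by omega] at this
  have hwO : F^[t - m] V ∈ O m := by
    have := orb_iter hO (j := t - m) (by omega) ht hV
    rwa [show t - (t - m) = m by omega] at this
  have hqO : q ∈ O (m + 1) := hO.full m h0 hmN q (by rw [hq]; exact hwO)
  have hv : F^[t - m - 1] V ∈ lev F b (m + 1) := hO.sub _ hmN hvO
  have hFv : F (F^[t - m - 1] V) = F^[t - m] V := by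
    rw [← Function.iterate_succ_apply' F, show (t - m - 1).succ = t - m by omega]
  have hwl : F a ∈ lev F b m := by
    have := lev_iter (F := F) (j := 1) ha (by omega)
    simpa using this
  have hwon : P.OnC (F a) := by
    have := onC_iter P (j := 1) (by omega) (by omega) ha hon
    simpa using this
  have haO : a ∈ O (m + 1) := hI (m + 1) hmN a ha hon
  have hw'O : F a ∈ O m := hI m hmN.le _ hwl hwon
  obtain ⟨g0, hg0I, hg0w, hg0a⟩ := hC.hdig m h1 hmN (F a) hwl hwon a rfl hon hA
  have ha2 : g0 • a ∈ lev F b (m + 1) := smul_lev hT g0 ha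
  have hr : P.red (g0 • a) = P.red a := P.hI g0 hg0I (m + 1) hmN a ha
  have h2 : F (g0 • a) = F a := by rw [hT.equiv, hg0w]
  have hg0a2 : g0 • (g0 • a) = a := by
    have h3 : P.red (g0 • (g0 • a)) = P.red (g0 • a) := P.hI g0 hg0I (m + 1) hmN _ ha2
    have h4 : F (g0 • (g0 • a)) = F (g0 • a) := by rw [hT.equiv, h2, hg0w]
    rcases P.htwo m hmN a ha (g0 • a) ha2 (g0 • (g0 • a)) (smul_lev hT g0 ha2) h2.symm h4.symm
      hr.symm h3.symm with h5 | h5 | h5
    · exact absurd h5.symm hg0a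
    · exact h5.symm
    · exact absurd (smul_left_cancel g0 h5).symm hg0a
  have hnea : a ≠ g0 • a := fun h => hg0a h.symm
  -- (1)
  obtain ⟨k, hkH, hka, hka2⟩ := odd_third (MulAction.stabilizer G (F a)) {z | F z = F a}
    (hT.fin m hmN _ hwl) (by rw [hT.fib m hmN _ hwl]; exact hd)
    (fun g hg x hx => by
      change F (g • x) = F a
      rw [hT.equiv, show F x = F a from hx, MulAction.mem_stabilizer_iff.1 hg])
    (fun x hx y hy => by
      have hxO : x ∈ O (m + 1) := hO.full m h0 hmN x (by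
        rw [show F x = F a from hx]; exact hw'O)
      have hyO : y ∈ O (m + 1) := hO.full m h0 hmN y (by
        rw [show F y = F a from hy]; exact hw'O)
      obtain ⟨g, hg⟩ := hO.trans (m + 1) hmN x hxO y hyO
      refine ⟨g, ?_, hg⟩
      rw [MulAction.mem_stabilizer_iff, ← show F x = F a from hx, ← hT.equiv, hg,
        show F y = F a from hy, show F x = F a from hx])
    (a := a) (a' := g0 • a) rfl h2 hnea (g := g0) (MulAction.mem_stabilizer_iff.2 hg0w) rfl hg0a2
  -- (2)
  set v := F^[t - m - 1] V with hvdef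
  let A1 : Finset G := Finset.univ.filter fun γ => γ • q = a
  let A2 : Finset G := A1.filter fun γ => γ • v = g0 • a
  have hA1card : A1.card * (O (m + 1)).ncard = Nat.card G := by
    have := transport hT hO hmN hqO haO
    rw [Nat.card_eq_fintype_card, Fintype.card_subtype] at this
    exact this
  have hA1pos : 0 < A1.card := by
    obtain ⟨g, hg⟩ := hO.trans (m + 1) hmN q hqO a haO
    exact Finset.card_pos.2 ⟨g, Finset.mem_filter.2 ⟨Finset.mem_univ _, hg⟩⟩
  have hA2card : 2 * A2.card ≤ A1.card := by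
    have hinj : (A2.image fun γ => k * γ).card = A2.card :=
      Finset.card_image_of_injective _ (mul_right_injective k)
    have hdis : Disjoint A2 (A2.image fun γ => k * γ) := by
      rw [Finset.disjoint_left]
      intro γ hγ hγ'
      rw [Finset.mem_image] at hγ'
      obtain ⟨γ', hγ', rfl⟩ := hγ'
      have e1 := (Finset.mem_filter.1 hγ).2
      have e2 := (Finset.mem_filter.1 hγ').2
      rw [mul_smul, e2] at e1
      exact hka2 e1
    calc 2 * A2.card = (A2 ∪ A2.image fun γ => k * γ).card := by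
          rw [Finset.card_union_of_disjoint hdis, hinj]; ring
      _ ≤ A1.card := by
          refine Finset.card_le_card ?_
          intro γ hγ
          rw [Finset.mem_union] at hγ
          rcases hγ with hγ | hγ
          · exact (Finset.mem_filter.1 hγ).1
          · rw [Finset.mem_image] at hγ
            obtain ⟨γ', hγ', rfl⟩ := hγ
            have e1 := (Finset.mem_filter.1 (Finset.mem_filter.1 hγ').1).2
            refine Finset.mem_filter.2 ⟨Finset.mem_univ _, ?_⟩
            rw [mul_smul, e1, hka]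
  -- (3)
  let Q : G → ℕ → Prop := fun γ l => m + 2 ≤ l ∧ l ≤ t ∧ P.red (γ • F^[t - l] V) ∈ P.A
  let Bad : Finset G := A1.filter fun γ => γ • v ≠ g0 • a ∧ ∃ l, Q γ l
  let lv : G → ℕ := fun γ => if h : ∃ l, Q γ l then Nat.find h else 0
  have hlv : ∀ γ ∈ Bad, Q γ (lv γ) ∧ ∀ l', m + 2 ≤ l' → l' < lv γ →
      P.red (γ • F^[t - l'] V) ∉ P.A := by
    intro γ hγ
    have hex := (Finset.mem_filter.1 hγ).2.2
    have e1 : lv γ = Nat.find hex := dif_pos hex
    rw [e1]
    refine ⟨Nat.find_spec hex, ?_⟩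
    intro l' hl' hl'' hAl
    exact Nat.find_min hex hl'' ⟨hl', by
      have := (Nat.find_spec hex).2.1
      omega, hAl⟩
  have hzf := z_finite hT P hwl
  have hzc := z_card hT P hwl hwon
  have hmem : ∀ γ ∈ Bad, γ • F^[t - lv γ] V ∈ hzf.toFinset ∧ J < lv γ - m := by
    intro γ hγ
    obtain ⟨⟨e1, e2, e3⟩, e4⟩ := hlv γ hγ
    have e5 := (Finset.mem_filter.1 (Finset.mem_filter.1 hγ).1).2
    have e6 := (Finset.mem_filter.1 hγ).2.1
    have := GSib_z hT hC hJ ht hVl hq hne ha ha2 hon hA h2 hr hnea e5 e6 e1 e2 e3 e4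
    rw [Set.Finite.mem_toFinset]
    exact this
  have hOpos : 0 < (O (m + 1)).ncard := by
    rw [Set.ncard_pos ((lev_fin hT hmN).subset (hO.sub _ hmN))]
    exact ⟨a, haO⟩
  have hdpos : 0 < d := hd.pos
  have hfib : ∀ x ∈ hzf.toFinset, (Bad.filter fun γ => γ • F^[t - lv γ] V = x).card *
      (d ^ J * (O (m + 1)).ncard) ≤ Nat.card G := by
    intro x _
    rcases Finset.eq_empty_or_nonempty (Bad.filter fun γ => γ • F^[t - lv γ] V = x) with he | he
    · rw [he, Finset.card_empty, zero_mul]; exact Nat.zero_le _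
    · obtain ⟨γ1, hγ1⟩ := he
      obtain ⟨hb1, hx1⟩ := Finset.mem_filter.1 hγ1
      obtain ⟨⟨e1, e2, _⟩, _⟩ := hlv γ1 hb1
      set l := lv γ1 with hl
      have hVl' : F^[t - l] V ∈ O l := by
        have := orb_iter hO (j := t - l) (by omega) ht hV
        rwa [show t - (t - l) = l by omega] at this
      have hxO : x ∈ O l := by
        rw [← hx1]
        exact hO.inv l (by omega) γ1 _ hVl'
      have htr := transport hT hO (t := l) (by omega) hVl' hxO
      rw [Nat.card_eq_fintype_card, Fintype.card_subtype] at htr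
      have hsub : (Bad.filter fun γ => γ • F^[t - lv γ] V = x) ⊆
          Finset.univ.filter fun γ : G => γ • F^[t - l] V = x := by
        intro γ hγ
        obtain ⟨hb, hx⟩ := Finset.mem_filter.1 hγ
        obtain ⟨⟨f1, f2, _⟩, _⟩ := hlv γ hb
        have hlev : x ∈ lev F b (lv γ) := by
          rw [← hx]
          refine smul_lev hT γ ?_
          have := lev_iter (F := F) (j := t - lv γ) hVl (by omega)
          rwa [show t - (t - lv γ) = lv γ by omega] at this
        have hll : lv γ = l := lev_uniq hT hlev (hO.sub l (by omega) hxO)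
        refine Finset.mem_filter.2 ⟨Finset.mem_univ _, ?_⟩
        rw [← hll]
        exact hx
      have hJl : J < l - m := (hmem γ1 hb1).2
      have hOl : (O l).ncard = d ^ (l - m - 1) * (O (m + 1)).ncard := by
        have := orb_add hT hO (t := m + 1) (j := l - m - 1) (by omega) (by omega)
        rwa [show m + 1 + (l - m - 1) = l by omega] at this
      rw [← htr, hOl]
      refine Nat.mul_le_mul (Finset.card_le_card hsub) (Nat.mul_le_mul_right _ ?_)
      exact Nat.pow_le_pow_right hdpos (by omega)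
  have hBad : Bad.card * (d ^ J * (O (m + 1)).ncard) ≤ 2 * s * Nat.card G := by
    rw [Finset.card_eq_sum_card_fiberwise (fun γ hγ => (hmem γ hγ).1), Finset.sum_mul]
    calc _ ≤ ∑ _x ∈ hzf.toFinset, Nat.card G := Finset.sum_le_sum hfib
      _ = (Zset P m (F a)).ncard * Nat.card G := by
          rw [Finset.sum_const, smul_eq_mul, Set.ncard_eq_toFinset_card _ hzf]
      _ ≤ 2 * s * Nat.card G := Nat.mul_le_mul_right _ hzc
  have hBad2 : Bad.card * d ^ J ≤ 2 * s * A1.card := by
    rw [← hA1card] at hBad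
    refine Nat.le_of_mul_le_mul_right (c := (O (m + 1)).ncard) ?_ hOpos
    calc Bad.card * d ^ J * (O (m + 1)).ncard = Bad.card * (d ^ J * (O (m + 1)).ncard) := by ring
      _ ≤ 2 * s * (A1.card * (O (m + 1)).ncard) := hBad
      _ = _ := by ring
  -- (4)
  have hBad3 : 2 * Bad.card < A1.card := by
    have e1 : 2 * Bad.card * d ^ J < A1.card * d ^ J := by
      calc 2 * Bad.card * d ^ J = 2 * (Bad.card * d ^ J) := by ring
        _ ≤ 2 * (2 * s * A1.card) := Nat.mul_le_mul_left _ hBad2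
        _ = A1.card * (4 * s) := by ring
        _ < A1.card * d ^ J := Nat.mul_lt_mul_of_pos_left hs hA1pos
    exact Nat.lt_of_mul_lt_mul_right e1
  obtain ⟨γ, hγ1, hγ2⟩ : ∃ γ ∈ A1, γ ∉ A2 ∪ Bad := by
    by_contra hcon
    push Not at hcon
    have := Finset.card_le_card (show A1 ⊆ A2 ∪ Bad from hcon)
    have h5 := Finset.card_union_le A2 Bad
    omega
  have hγq : γ • q = a := (Finset.mem_filter.1 hγ1).2
  rw [Finset.mem_union, not_or] at hγ2
  have hγv2 : γ • v ≠ g0 • a := fun h => hγ2.1 (Finset.mem_filter.2 ⟨hγ1, h⟩)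
  have hnone : ∀ l, m + 2 ≤ l → l ≤ t → P.red (γ • F^[t - l] V) ∉ P.A := by
    intro l hl hlt hAl
    exact hγ2.2 (Finset.mem_filter.2 ⟨hγ1, hγv2, l, hl, hlt, hAl⟩)
  -- (5)
  have hγw : γ • F^[t - m] V = F a := by rw [← hq, ← hT.equiv, hγq]
  have hγv : γ • v ∈ lev F b (m + 1) := smul_lev hT γ hv
  have hFγv : F (γ • v) = F a := by rw [hT.equiv, hFv, hγw]
  have hnev : γ • v ≠ a := by
    rw [← hγq]
    exact fun h => hne (smul_left_cancel γ h).symm
  have hvA : P.red (γ • v) ∉ P.A :=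
    GSib_notA P hJ hmN ha ha2 hγv h2 hFγv hr hnea hnev hγv2 hA
  have hu : γ • V ∈ lev F b (m + (t - m)) := by
    rw [show m + (t - m) = t by omega]
    exact smul_lev hT γ hVl
  have hpl := path_le hT P (m := m) (j := t - m) (by omega) hu
  have hemp : ((Finset.range (t - m)).filter fun i => P.red (F^[i] (γ • V)) ∈ P.A) = ∅ := by
    rw [Finset.filter_eq_empty_iff]
    intro i hi
    rw [Finset.mem_range] at hi
    rw [iter_smul hT]
    rcases Nat.lt_or_ge (i + 1) (t - m) with h5 | h5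
    · have := hnone (t - i) (by omega) (by omega)
      rwa [show t - (t - i) = i by omega] at this
    · have h6 : i = t - m - 1 := by omega
      rw [h6]
      exact hvA
  rw [hemp, Finset.card_empty, pow_zero, iter_smul hT, hγw] at hpl
  have hne0 : (P.st (γ • V)).relIndex (P.st (F a)) ≠ 0 := Subgroup.index_ne_zero_of_finite
  have hone : (P.st (γ • V)).relIndex (P.st (F a)) = 1 := by omega
  rw [Subgroup.relIndex_eq_one] at hone
  have hg0 : g0 ∈ P.st (F a) := (GSt_mem P _ _).2 ⟨hg0I, hg0w⟩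
  have hfix : g0 • (γ • V) = γ • V := ((GSt_mem P _ _).1 (hone hg0)).2
  refine ⟨γ⁻¹ * g0 * γ, ?_, ?_⟩
  · rw [mul_smul, mul_smul, hfix, inv_smul_smul]
  · intro h
    rw [mul_smul, mul_smul, hγq, inv_smul_eq_iff, hγq] at h
    exact hg0a h

end Pool.Agent.H42.PC
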