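/-
Row GSep (about 150 lines): SEPARATION with two cyclic places.

 idx : for subgroups A ≤ C, B ≤ C of a finite group with A ⊓ B ≤ D ≤ A... : D.relIndex A ≤ (A ⊓ B).relIndex A ≤ B.relIndex C.
   (Subgroup.relIndex_inf_... / relIndex_le_of_le_left: if H ≤ K then K.relIndex L ≤ H.relIndex L when H.relIndex L ≠ 0; inf_relIndex_left: (A ⊓ B).relIndex A = B.relIndex A;
   relIndex_le_of_le_right: B.relIndex A ≤ B.relIndex C for A ≤ C when B.relIndex C ≠ 0.)
 sep_off : one place. w := F^[t-m] y is OnC at P, F^[t-m] u = w, the child F^[t-m-1] u is not OnC; yl := F^[t - m0 - L] y is OnC. Then some g ∈ I fixes u and F^[t-m0] y and moves yl.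
   PROOF. Suppose not: st u ⊓ st (F^[t-m0] y) ≤ st yl (elements of I fixing u and F^[t-m0] y fix yl). A := st (F^[t-m0] y) ≤ C := st w (st_mono; m ≤ m0), B := st u ≤ C.
   on_index: 2^(s+1) ≤ (st yl).relIndex A (F^[L] yl = F^[t-m0] y); off_index: B.relIndex C ≤ 2^s (level t = m + (t - m)). idx gives 2^(s+1) ≤ 2^s. Contradiction.
 sep : PROOF. Let i = 2 if m < t1, i = 1 otherwise. ξ := an OnC point of P_i of level m0 + L (exists_onC), ξ ∈ O (m0+L) (InO), yl := F^[t-m0-L] y ∈ O (m0+L) (orb_iter). Let γ ∈ G with γ ξ = yl;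
   P' := P_i.conj γ; yl is OnC for P' (conj_onC), hence all F^[j] yl. If F^[t-m-1] u is not OnC for P': sep_off for P' (conj_cyc).
   Otherwise for every γ with γ ξ = yl the point u1 := F^[t-m-1] u is OnC for P_i.conj γ. y1 := F^[t-m-1] y is OnC too, F u1 = F y1 = w, u1 ≠ y1; so they have the same
   residue (uniq_child) which is critical (hone). Put a := γ⁻¹ y1: OnC for P_i, level m+1, red a ∈ A.
   Case i = 2 (m < t1 ≤ J2): FR^[m+1] (red a) = red b (red_iter, F^[m+1] a = b), red b ∈ A (hb), hJ with m + 1 ≤ J2, 0: m + 1 = 0. Contradiction.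
   Case i = 1 (t1 ≤ m): every h with h yl = yl fixes u1: (h γ) ξ = yl, so u1 is OnC for conj (h γ), i.e. γ⁻¹ h⁻¹ u1 is OnC for P1, as are γ⁻¹ u1, γ⁻¹ y1; all children of γ⁻¹ w
   (h⁻¹ fixes w = F^[..] yl), with the same residue (uniq_child), so two coincide (htwo): γ⁻¹ h⁻¹ u1 = γ⁻¹ u1 (done: h u1 = u1), or γ⁻¹ h⁻¹ u1 = γ⁻¹ y1 (then u1 = h y1 = y1, no), or u1 = y1 (no).
   sibling (V := yl ∈ O (m0+L), q := u1, digit a) gives ρ fixing yl and moving u1. Contradiction.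
-/
import Pool.Agent.H42.PC.GSib
import Pool.Agent.H42.PC.GCon

set_option autoImplicit false

namespace Pool.Agent.H42.PC

open scoped Classical

variable {G Ω : Type} [Group G] [MulAction G Ω] {F : Ω → Ω} {b : Ω}
  {d N s J J1 J2 n n1 n2 t0 t1 t2 n0 : ℕ} {O : ℕ → Set Ω}

theorem sep_off [Finite G] (hT : Tree G F b d N) {P : Place G F b s J N} (hC : Cyc P n t0)
    {m m0 L t : ℕ} (ht : t ≤ N) (hm : m + 1 ≤ m0) (h0 : t0 ≤ m0) (hL : (s + 1) * n ≤ L)
    (hmL : m0 + L ≤ t) {u y : Ω} (hu : u ∈ lev F b t) (hy : y ∈ lev F b t)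
    (hw : F^[t - m] u = F^[t - m] y) (hoff : ¬ P.OnC (F^[t - m - 1] u))
    (hon : P.OnC (F^[t - m0 - L] y)) :
    ∃ g : G, g • u = u ∧ g • F^[t - m0] y = F^[t - m0] y ∧
      g • F^[t - m0 - L] y ≠ F^[t - m0 - L] y := by
  by_contra hcon
  push Not at hcon
  have hyl : F^[t - m0 - L] y ∈ lev F b (m0 + L) := by
    have := lev_iter hy (show t - m0 - L ≤ t by omega)
    rwa [show t - (t - m0 - L) = m0 + L by omega] at this
  have e1 : F^[L] (F^[t - m0 - L] y) = F^[t - m0] y := by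
    rw [← Function.iterate_add_apply, show L + (t - m0 - L) = t - m0 by omega]
  have e2 : F^[m0 - m] (F^[t - m0] y) = F^[t - m] y := by
    rw [← Function.iterate_add_apply, show m0 - m + (t - m0) = t - m by omega]
  have e3 : F^[m0 + L - m] (F^[t - m0 - L] y) = F^[t - m] y := by
    rw [← Function.iterate_add_apply, show m0 + L - m + (t - m0 - L) = t - m by omega]
  have hwon : P.OnC (F^[t - m] u) := by
    rw [hw, ← e3]
    exact onC_iter P (by omega) (by omega) hyl hon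
  have hu' : u ∈ lev F b (m + (t - m)) := by rwa [show m + (t - m) = t by omega]
  have i1 := off_index hT P (m := m) (j := t - m) (by omega) (by omega) hu' hwon hoff
  have i2 := on_index hT hC (m := m0) (L := L) (by omega) h0 hL hyl hon
  rw [e1] at i2
  rw [hw] at i1
  have i3 : P.st (F^[t - m0] y) ≤ P.st (F^[t - m] y) := by
    rw [← e2]
    exact st_mono hT P _ _
  have i4 : P.st (F^[t - m0] y) ⊓ P.st u ≤ P.st (F^[t - m0 - L] y) := by
    intro g hg
    exact ⟨hg.1.1, hcon g hg.2.2 hg.1.2⟩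
  have n1 : ∀ H K : Subgroup G, H.relIndex K ≠ 0 := fun H K => Subgroup.index_ne_zero_of_finite
  have i5 := Subgroup.relIndex_le_of_le_left i4 (n1 _ (P.st (F^[t - m0] y)))
  rw [Subgroup.inf_relIndex_left] at i5
  have i6 := Subgroup.relIndex_le_of_le_right i3 (n1 (P.st u) _)
  have i7 : 2 ^ (s + 1) ≤ 2 ^ s := i2.trans (i5.trans (i6.trans i1))
  have i8 : 2 ^ s < 2 ^ (s + 1) := Nat.pow_lt_pow_right (by norm_num) (by omega)
  omega

theorem sep_core [Finite G] (hT : Tree G F b d N) (hO : Orb G F b n0 N O)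
    {P : Place G F b s J N} (hC : Cyc P n t0) (hI : InO P O)
    {m m0 L t : ℕ} (ht : t ≤ N) (hm : m + 1 ≤ m0) (h0 : t0 ≤ m0)
    (hL : (s + 1) * n ≤ L) (hmL : m0 + L ≤ t) {u y : Ω} (hu : u ∈ O t) (hy : y ∈ O t)
    (hw : F^[t - m] u = F^[t - m] y) (hne : F^[t - m - 1] u ≠ F^[t - m - 1] y)
    (hbad : ∀ a ∈ lev F b (m + 1), P.OnC a → P.red a ∈ P.A → ∀ V ∈ O (m0 + L), ∀ q,
      F q = F^[m0 + L - m] V → q ≠ F^[m0 + L - m - 1] V → ∃ ρ : G, ρ • V = V ∧ ρ • q ≠ q) :
    ∃ g : G, g • u = u ∧ g • F^[t - m0] y = F^[t - m0] y ∧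
      g • F^[t - m0 - L] y ≠ F^[t - m0 - L] y := by
  obtain ⟨ξ, hξ, hξon⟩ := exists_onC hC (t := m0 + L) (by omega)
  have hξO : ξ ∈ O (m0 + L) := hI (m0 + L) (by omega) ξ hξ hξon
  have hylO : F^[t - m0 - L] y ∈ O (m0 + L) := by
    have := orb_iter hO (show t - m0 - L ≤ t by omega) ht hy
    rwa [show t - (t - m0 - L) = m0 + L by omega] at this
  obtain ⟨γ, hγ⟩ := hO.trans (m0 + L) (by omega) ξ hξO _ hylO
  by_cases hcase : ∃ γ' : G, γ' • ξ = F^[t - m0 - L] y ∧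
      ¬ (P.conj hT γ').OnC (F^[t - m - 1] u)
  · obtain ⟨γ', h1, h2⟩ := hcase
    refine sep_off hT (P.conj_cyc hT hC γ') ht hm h0 hL hmL (hO.sub t ht hu) (hO.sub t ht hy)
      hw h2 ?_
    rw [P.conj_onC hT, ← h1, inv_smul_smul]
    exact hξon
  · exfalso
    push Not at hcase
    set yl := F^[t - m0 - L] y with hyldef
    have ey1 : F^[m0 + L - m - 1] yl = F^[t - m - 1] y := by
      rw [hyldef, ← Function.iterate_add_apply,
        show m0 + L - m - 1 + (t - m0 - L) = t - m - 1 by omega]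
    have ew : F^[m0 + L - m] yl = F^[t - m] y := by
      rw [hyldef, ← Function.iterate_add_apply, show m0 + L - m + (t - m0 - L) = t - m by omega]
    set u1 := F^[t - m - 1] u with hu1
    set y1 := F^[t - m - 1] y with hy1
    have hFu1 : F u1 = F^[t - m] y := by
      rw [hu1, ← Function.iterate_succ_apply' F, show (t - m - 1).succ = t - m by omega, hw]
    have hFy1 : F y1 = F^[t - m] y := by
      rw [hy1, ← Function.iterate_succ_apply' F, show (t - m - 1).succ = t - m by omega]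
    have hu1l : u1 ∈ lev F b (m + 1) := by
      have := lev_iter (hO.sub t ht hu) (show t - m - 1 ≤ t by omega)
      rwa [show t - (t - m - 1) = m + 1 by omega] at this
    have hy1l : y1 ∈ lev F b (m + 1) := by
      have := lev_iter (hO.sub t ht hy) (show t - m - 1 ≤ t by omega)
      rwa [show t - (t - m - 1) = m + 1 by omega] at this
    have hal : γ⁻¹ • y1 ∈ lev F b (m + 1) := smul_lev hT _ hy1l
    have ha'l : γ⁻¹ • u1 ∈ lev F b (m + 1) := smul_lev hT _ hu1l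
    have ha'on : P.OnC (γ⁻¹ • u1) := by
      rw [← P.conj_onC hT]
      exact hcase γ hγ
    have haon : P.OnC (γ⁻¹ • y1) := by
      rw [← ey1, ← iter_smul hT, ← hγ, inv_smul_smul]
      exact onC_iter P (by omega) (by omega) hξ hξon
    have hFa : F (γ⁻¹ • y1) = γ⁻¹ • F^[t - m] y := by rw [hT.equiv, hFy1]
    have hFa' : F (γ⁻¹ • u1) = γ⁻¹ • F^[t - m] y := by rw [hT.equiv, hFu1]
    have hred := uniq_child hC (show m < N by omega) hal ha'l (hFa.trans hFa'.symm) haon ha'on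
    have hneq : γ⁻¹ • y1 ≠ γ⁻¹ • u1 := by
      intro h
      exact hne (smul_left_cancel _ h).symm
    have hredA : P.red (γ⁻¹ • y1) ∈ P.A := by
      by_contra h
      exact hneq (P.hone m (by omega) _ hal _ ha'l (hFa.trans hFa'.symm) hred h)
    obtain ⟨ρ, hρ1, hρ2⟩ := hbad _ hal haon hredA yl hylO u1 (by rw [hFu1, ew])
      (by rw [ey1]; exact hne)
    have hρ' : ρ⁻¹ • yl = yl := by rw [inv_smul_eq_iff, hρ1]
    have hon3 : P.OnC (γ⁻¹ • (ρ⁻¹ • u1)) := by
      have h1 := hcase (ρ * γ) (by rw [mul_smul, hγ, hρ1])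
      rw [P.conj_onC hT, mul_inv_rev, mul_smul] at h1
      exact h1
    have hl3 : γ⁻¹ • (ρ⁻¹ • u1) ∈ lev F b (m + 1) := smul_lev hT _ (smul_lev hT _ hu1l)
    have hF3 : F (γ⁻¹ • (ρ⁻¹ • u1)) = γ⁻¹ • F^[t - m] y := by
      rw [hT.equiv, hT.equiv, hFu1, ← ew, ← iter_smul hT, hρ']
    have hred3 := uniq_child hC (show m < N by omega) hl3 ha'l (hF3.trans hFa'.symm) hon3 ha'on
    rcases P.htwo m (by omega) _ hl3 _ ha'l _ hal (hF3.trans hFa'.symm) (hFa'.trans hFa.symm)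
      hred3 hred.symm with h | h | h
    · apply hρ2
      have h1 : ρ⁻¹ • u1 = u1 := smul_left_cancel _ h
      rw [inv_smul_eq_iff] at h1
      exact h1.symm
    · have h1 : ρ⁻¹ • u1 = y1 := smul_left_cancel _ h
      rw [inv_smul_eq_iff] at h1
      apply hne
      rw [h1, ← ey1, ← iter_smul hT, hρ1]
    · exact hneq h.symm

theorem sep [Finite G] (hT : Tree G F b d N) (hO : Orb G F b n0 N O)
    {P1 : Place G F b s J1 N} (hC1 : Cyc P1 n1 t1) (hI1 : InO P1 O)
    {P2 : Place G F b s J2 N} (hC2 : Cyc P2 n2 t2) (hI2 : InO P2 O)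
    (hd : Odd d) (hJ1 : 1 ≤ J1) (hs : 4 * s < d ^ J1) (hn0 : n0 ≤ t1) (ht12 : t1 ≤ J2)
    {m m0 L t : ℕ} (ht : t ≤ N) (hm : m + 1 ≤ m0) (h1 : t1 ≤ m0) (h2 : t2 ≤ m0)
    (hL1 : (s + 1) * n1 ≤ L) (hL2 : (s + 1) * n2 ≤ L)
    (hmL : m0 + L ≤ t) {u y : Ω} (hu : u ∈ O t) (hy : y ∈ O t)
    (hw : F^[t - m] u = F^[t - m] y) (hne : F^[t - m - 1] u ≠ F^[t - m - 1] y) :
    ∃ g : G, g • u = u ∧ g • F^[t - m0] y = F^[t - m0] y ∧
      g • F^[t - m0 - L] y ≠ F^[t - m0 - L] y := by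
  by_cases hmt : m < t1
  · refine sep_core hT hO hC2 hI2 ht hm h2 hL2 hmL hu hy hw hne ?_
    intro a ha hon hA
    exfalso
    have e1 : P2.FR^[m + 1] (P2.red a) = P2.FR^[0] (P2.red b) := by
      rw [← red_iter P2 le_rfl (show m + 1 ≤ N by omega) ha]
      have : F^[m + 1] a = b := ha
      rw [this]
      rfl
    have := (P2.hJ _ hA _ hC2.hb (m + 1) (by omega) 0 (by omega) e1).2
    omega
  · refine sep_core hT hO hC1 hI1 ht hm h1 hL1 hmL hu hy hw hne ?_
    intro a ha hon hA V hV q hq hqne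
    exact sibling hT hO hC1 hI1 hd hJ1 hs (show n0 ≤ m by omega) (show t1 ≤ m by omega)
      (show m + 1 ≤ m0 + L by omega) (show m0 + L ≤ N by omega) hV hq hqne ha hon hA

end Pool.Agent.H42.PC
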