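/-
Row GStep (about 120 lines): assembly of the group part.

PROOF. L := (s+1) * max n1 n2 (≥ 1), ts := max t1 t2, c with k d s < 2^c (Nat.lt_two_pow_self). J3 ≥ bound := 2 L (c+1) + 2 ts + 2 L + 1 where c := k d s.
 (1) I := P3.I moves some point of O t for some t ≤ N: let r := n3 * (t3 / n3 + 1) ∈ (t3, t3 + n3], r ≤ N; take x ∈ lev r OnC (exists_onC), red x = red b ∈ A (onC_eq), F x ∈ lev (r-1) OnC,
   r - 1 ≥ t3: hdig gives g ∈ I with g x ≠ x; x ∈ O r (InO).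
 (2) M := the smallest t ≤ N such that some g ∈ P3.I moves a point of O t (Nat.find). M ≥ 1: O 0 ⊆ {b} and g b = b. l := M - 1. All g ∈ P3.I act trivially on O l. Let δ ∈ P3.I, x1 ∈ O (l+1), δ x1 ≠ x1; F x1 ∈ O l (par).
   J3 ≤ l (sd_level; hb).  n0 ≤ t1 ≤ ts ≤ J3 ≤ l.
 (3) hbig: for u, y ∈ O l with m < l as in isolation: m0 := max (m+1) ts; orbit_big with k' := (l - m0) / L (m0 + k' L ≤ l needs m0 ≤ l: m + 1 ≤ l, ts ≤ J3 ≤ l), hsep from sep (t := l, m0 := m1).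
   So 2^((l - m0)/L) ≤ |orbit|, and numeric gives the inequality.
 (4) isolation, derange, q_step with this l.
-/
import Pool.Agent.H42.PC.GSep
import Pool.Agent.H42.PC.GOr
import Pool.Agent.H42.PC.GIso
import Pool.Agent.H42.PC.GDer
import Pool.Agent.H42.PC.GIn
import Pool.Agent.H42.PC.GNu

set_option autoImplicit false

namespace Pool.Agent.H42.PC

open scoped Classical

variable {G Ω : Type} [Group G] [MulAction G Ω] {F : Ω → Ω} {b : Ω}
  {d N s J1 J2 J3 n1 n2 n3 t1 t2 t3 n0 : ℕ} {O : ℕ → Set Ω}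

/-- some level `≤ N` is moved by the inertia group. -/
theorem GStep_moved {P3 : Place G F b s J3 N} (hC3 : Cyc P3 n3 t3) (hI3 : InO P3 O)
    (hN : t3 + n3 ≤ N) : ∃ t, t ≤ N ∧ ∃ g ∈ P3.I, ∃ x ∈ O t, g • x ≠ x := by
  have hn := hC3.hn
  set r := n3 * (t3 / n3 + 1) with hr
  have e1 : n3 * (t3 / n3) ≤ t3 := Nat.mul_div_le t3 n3
  have e2 : t3 < n3 * (t3 / n3 + 1) := Nat.lt_mul_div_succ t3 (by omega)
  have e3 : r ≤ t3 + n3 := by
    rw [hr, mul_add, mul_one]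
    omega
  have hrN : r ≤ N := by omega
  obtain ⟨x, hx, hon⟩ := exists_onC hC3 hrN
  have hred : P3.red x = P3.red b := onC_eq hC3 hrN (Dvd.intro _ hr.symm) hx hon
  have hFx : F x ∈ lev F b (r - 1) := by
    have := lev_iter (j := 1) hx (by omega)
    simpa using this
  have honF : P3.OnC (F x) := by
    have := onC_iter P3 (j := 1) (by omega) hrN hx hon
    simpa using this
  obtain ⟨g, hg, -, hgx⟩ := hC3.hdig (r - 1) (by omega) (by omega) (F x) hFx honF x rfl hon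
    (by rw [hred]; exact hC3.hb)
  exact ⟨r, hrN, g, hg, x, hI3 r hrN x hx hon, hgx⟩

theorem step [Finite G] (hT : Tree G F b d N) (hO : Orb G F b n0 N O)
    {P1 : Place G F b s J1 N} (hC1 : Cyc P1 n1 t1) (hI1 : InO P1 O)
    {P2 : Place G F b s J2 N} (hC2 : Cyc P2 n2 t2) (hI2 : InO P2 O)
    {P3 : Place G F b s J3 N} (hC3 : Cyc P3 n3 t3) (hI3 : InO P3 O)
    (hd : Odd d) (hJ1 : 1 ≤ J1) (hs : 4 * s < d ^ J1) (hn0 : n0 ≤ t1) (ht12 : t1 ≤ J2)
    (k : ℕ) (hk : 1 ≤ k) (hN : t3 + n3 ≤ N)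
    (hJ3 : 2 * ((s + 1) * max n1 n2) * (k * d * s + 1) + 2 * max t1 t2 +
      2 * ((s + 1) * max n1 n2) + 1 ≤ J3) :
    ∃ l, J3 ≤ l ∧ l < N ∧
      (q G O l - 1 / ((k : ℝ) + 1)) / (((k * d) ^ (k * d) : ℕ) : ℝ) ≤ q G O l - q G O (l + 1) := by
  have hex := GStep_moved hC3 hI3 hN
  have hd1 : 1 ≤ d := hd.pos
  obtain ⟨hMN, δ, hδ, x1, hx1, hmv⟩ := Nat.find_spec hex
  have hmin := fun m (hm : m < Nat.find hex) => Nat.find_min hex hm
  have hM0 : Nat.find hex ≠ 0 := by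
    intro h0
    rw [h0] at hx1
    have h1 : x1 = b := hO.sub 0 (by omega) hx1
    apply hmv
    rw [h1, hT.fix]
  obtain ⟨l, hl⟩ := Nat.exists_eq_succ_of_ne_zero hM0
  rw [hl] at hx1 hMN
  have hlN : l < N := by omega
  have htriv : ∀ g ∈ P3.I, ∀ x ∈ O l, g • x = x := by
    intro g hg x hx
    by_contra hcon
    exact hmin l (by omega) ⟨by omega, g, hg, x, hx, hcon⟩
  have hFx1 : F x1 ∈ O l := hO.par l hlN x1 hx1
  set L := (s + 1) * max n1 n2 with hL
  set ts := max t1 t2 with hts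
  have hn1 := hC1.hn
  have hJ31 : 1 ≤ J3 := by omega
  have hJl : J3 ≤ l := sd_level hT hO P3 hC3.hb hJ31 hlN hδ htriv hFx1 hmv
  have hL1 : 1 ≤ L := by
    rw [hL]
    exact Nat.mul_pos (by omega) (lt_of_lt_of_le (by omega) (le_max_left n1 n2))
  have ht1 : t1 ≤ ts := le_max_left _ _
  have ht2 : t2 ≤ ts := le_max_right _ _
  have hn0l : n0 ≤ l := by omega
  have hbig : ∀ u ∈ O l, ∀ y ∈ O l, ∀ m < l, F^[l - m] u = F^[l - m] y →
      F^[l - m - 1] u ≠ F^[l - m - 1] y → J3 < l + 1 - m →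
      k * d * (s * 2 ^ ((l - m) / (J3 + 1))) <
        (MulAction.orbit (MulAction.stabilizer G u) y).ncard := by
    intro u hu y hy m hm he hne hJm
    have h1 : k * d * s < 2 ^ (k * d * s) := Nat.lt_two_pow_self
    have h2 := numeric (L := L) (ts := ts) (J := J3) (l := l) (m := m) h1 hL1 (by omega) hm hJm
    refine lt_of_lt_of_le h2 ?_
    refine orbit_big hT (t := l) (m0 := max (m + 1) ts) (L := L) ?_ _ ?_
    · intro m1 hm1 hm1L
      have e1 : m + 1 ≤ m1 := (le_max_left _ _).trans hm1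
      have e2 : ts ≤ m1 := (le_max_right _ _).trans hm1
      have := sep hT hO hC1 hI1 hC2 hI2 hd hJ1 hs hn0 ht12 (m := m) (m0 := m1) (L := L) (t := l)
        hlN.le e1 (ht1.trans e2) (ht2.trans e2)
        (Nat.mul_le_mul_left _ (le_max_left _ _)) (Nat.mul_le_mul_left _ (le_max_right _ _))
        hm1L hu hy he hne
      exact this
    · have e1 : max (m + 1) ts ≤ l := by
        rw [max_le_iff]
        omega
      have e2 : (l - max (m + 1) ts) / L * L ≤ l - max (m + 1) ts := Nat.div_mul_le_self _ _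
      omega
  refine ⟨l, hJl, hlN, ?_⟩
  refine q_step hT hO hd1 hn0l hlN k hk ?_
  intro g hg
  refine derange hT hO P3 hJ31 hn0l hlN hδ htriv hFx1 hmv k ?_ g hg
  intro U hU hUk a ha
  exact isolation hT hO P3 hJ31 hd1 hn0l hlN hδ htriv hFx1 hmv k hbig U hU hUk ha

end Pool.Agent.H42.PC
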