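/-
Row ELim (about 170 lines): if SS f h β is infinite then qq → 0.

PROOF. s := (Wd f M).card, d := f.natDegree. For any J there is v ∈ SS with GoodK f β M J v (SS infinite, goodK_finite), n ≥ 1 with V (F^[n] β - β) < 1, nonzero (aper, wandering) so = exp (-v0), v0 ≥ 1, and k.
 Choose J1 ≥ max 1 n0 with 4 s < d^J1 (d ≥ 3), v1, n1, v01; t1 := max n0 ((n1+1)(n1 (v01+1))). J2 := max t1 (max 1 n0), v2, n2, v02, t2 := (n2+1)(n2 (v02+1)). 
 apply limit_zero with D k := ((k d)^(k d) : ℕ) > 0 (k ≥ 1, d ≥ 1). q ≥ 0 clear (q is a quotient of cardinalities). Monotonicity for t ≥ n0: exists_field with N := t + 1, GP for L: from hGP (AlgebraicClosure) by GP_hom (L embeds in the algebraic closure), tree_of_splits, orb_of_stab, q_anti, q_indep at t and t + 1.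
 For k ≥ 1 and J: J3 := max of J, n0, 1, the bound of step; v3, n3, v03, t3. N := max n0 (t3 + n3). L := exists_field N; tree, orb; exists_over and place_over three times (GP for M by GP_hom too); Cyc.mono for P1 (t1); step gives l ≥ J3 ≥ J, l < N; q_indep at l and l + 1 (n0 ≤ J3 ≤ l).
-/
import Pool.Agent.H42.PC.EPl
import Pool.Agent.H42.PC.EQ
import Pool.Agent.H42.PC.ETr
import Pool.Agent.H42.PC.GStep

set_option autoImplicit false

namespace Pool.Agent.H42.PC

open Polynomial NumberField IsDedekindDomain Filter Topology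

open scoped Classical

private theorem ELim_finite {K M : Type} [Field K] [NumberField K] [Field M] [NumberField M]
    [Algebra K M] : Algebra.IsAlgebraic K M := by
  have : Module.Finite K M := Module.Finite.of_restrictScalars_finite ℚ K M
  infer_instance

private theorem ELim_gpM {K M : Type} [Field K] [NumberField K] [Field M] [NumberField M]
    [Algebra K M] {f : K[X]} {β : K} (hGP : GP f β (AlgebraicClosure K)) : GP f β M := by
  have : Algebra.IsAlgebraic K M := ELim_finite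
  exact GP_hom (IsAlgClosed.lift : M →ₐ[K] AlgebraicClosure K) hGP

private theorem ELim_pr {K M : Type} [Field K] [NumberField K] [Field M] [NumberField M]
    [Algebra K M] {f h : K[X]} {β : K} (hd : 2 ≤ f.natDegree)
    (hGP : GP f β (AlgebraicClosure K)) (hinf : (SS f h β).Infinite) (J : ℕ) :
    ∃ (v : HeightOneSpectrum (𝓞 K)) (n v0 k : ℕ), GoodK f β M J v ∧ 1 ≤ n ∧ 1 ≤ v0 ∧
      v.valuation K ((FA f K)^[n] β - β) = WithZero.exp (-(v0 : ℤ)) ∧
      v.valuation K (h.eval ((FA f K)^[k] β)) < 1 := by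
  have hgM : GP f β M := ELim_gpM hGP
  obtain ⟨v, hv, hg⟩ := hinf.exists_notMem_finite (goodK_finite (M := M) hd hgM J)
  obtain ⟨⟨n, hn, h1⟩, k, hk⟩ := hv
  have hg' : GoodK f β M J v := by
    by_contra hcon
    exact hg hcon
  have hne : (FA f K)^[n] β - β ≠ 0 := by
    have h2 := aper (ELim_gpM (M := K) hGP) hn
    intro h3
    exact h2 (sub_eq_zero.1 h3)
  have hvne : v.valuation K ((FA f K)^[n] β - β) ≠ 0 := by
    rw [Ne, map_eq_zero]
    exact hne
  obtain ⟨e, he⟩ : ∃ e : ℤ, v.valuation K ((FA f K)^[n] β - β) = WithZero.exp e :=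
    ⟨_, (WithZero.exp_log hvne).symm⟩
  rw [he, ← WithZero.exp_zero, WithZero.exp_lt_exp] at h1
  refine ⟨v, n, (-e).toNat, k, hg', hn, by omega, ?_, hk⟩
  rw [he]
  congr 1
  omega

private theorem ELim_pl {K M L : Type} [Field K] [NumberField K] [Field M] [NumberField M]
    [Field L] [NumberField L] [Algebra K M] [Algebra M L] [Algebra K L] [IsScalarTower K M L]
    [IsGalois K L] {f h : K[X]} {β : K} [IsSplittingField K M (derivative f)]
    (hd : 2 ≤ f.natDegree) (hGP : GP f β (AlgebraicClosure K))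
    {J n0 N n v0 : ℕ}
    {v : HeightOneSpectrum (𝓞 K)} (hv : GoodK f β M J v) (hn0 : n0 ≤ N) (hJ0 : n0 ≤ J)
    (hT : Tree (L ≃ₐ[K] L) (FA f L) (algebraMap K L β) f.natDegree N)
    (hO : Orb (L ≃ₐ[K] L) (FA f L) (algebraMap K L β) n0 N (OO f h n0 L))
    (hs : ∀ t ≤ N, ((f.comp^[t] X - C β).map (algebraMap K L)).Splits)
    (hm : h.Monic) (hdvd : h ∣ f.comp^[n0] X - C β)
    (hn : 1 ≤ n) (hv0 : 1 ≤ v0)
    (hval : v.valuation K ((FA f K)^[n] β - β) = WithZero.exp (-(v0 : ℤ)))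
    {k : ℕ} (hk : v.valuation K (h.eval ((FA f K)^[k] β)) < 1) :
    ∃ P : Place (L ≃ₐ[K] L) (FA f L) (algebraMap K L β) (Wd f M).card J N,
      Cyc P n ((n + 1) * (n * (v0 + 1))) ∧ InO P (OO f h n0 L) := by
  obtain ⟨w, hw⟩ := exists_over (L := L) v
  obtain ⟨hG, h1, h2⟩ := place_over hd (ELim_gpM (M := M) hGP)
    (IsSplittingField.splits M (derivative f)) hv hn0 hJ0 hT hO hs hm hdvd le_rfl hn hv0 hval hk
    w hw
  exact ⟨_, h1, h2⟩

private theorem ELim_fld {K M : Type} [Field K] [NumberField K] [Field M] [NumberField M]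
    [Algebra K M] {f h : K[X]} {β : K} [IsSplittingField K M (derivative f)]
    (hd : 3 ≤ f.natDegree) (hGP : GP f β (AlgebraicClosure K)) {n0 : ℕ}
    (hst : Stab f β n0) (hm : h.Monic) (hi : Irreducible h) (hdvd : h ∣ f.comp^[n0] X - C β)
    (N : ℕ) (hN : n0 ≤ N) :
    ∃ (L : Type) (_ : Field L) (_ : NumberField L) (_ : Algebra K L) (_ : Algebra M L)
      (_ : IsScalarTower K M L) (_ : IsGalois K L),
      (∀ t ≤ N, ((f.comp^[t] X - C β).map (algebraMap K L)).Splits) ∧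
      Tree (L ≃ₐ[K] L) (FA f L) (algebraMap K L β) f.natDegree N ∧
      Orb (L ≃ₐ[K] L) (FA f L) (algebraMap K L β) n0 N (OO f h n0 L) := by
  obtain ⟨L, i1, i2, i3, i4, i5, i6, hs⟩ := exists_field (M := M) f β N
  have hT := tree_of_splits (L := L) (by omega : 1 ≤ f.natDegree) (ELim_gpM (M := L) hGP) hs
  exact ⟨L, i1, i2, i3, i4, i5, i6, hs, hT, orb_of_stab (by omega) hN hT hs hst hm hi hdvd⟩

theorem qq_tendsto {K M : Type} [Field K] [NumberField K] [Field M] [NumberField M]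
    [Algebra K M] {f h : K[X]} {β : K} [IsSplittingField K M (derivative f)]
    (hodd : Odd f.natDegree) (hd : 3 ≤ f.natDegree) (hGP : GP f β (AlgebraicClosure K)) {n0 : ℕ}
    (hst : Stab f β n0) (hm : h.Monic) (hi : Irreducible h) (hdvd : h ∣ f.comp^[n0] X - C β)
    (hinf : (SS f h β).Infinite) : Tendsto (fun t => qq f h β n0 t) atTop (𝓝 0) := by
  have hd2 : 2 ≤ f.natDegree := by omega
  set s := (Wd f M).card with hs
  set J1 := max (max 1 n0) (4 * s) with hJ1
  obtain ⟨v1, n1, v01, k1, hg1, hn1, hv01, hval1, hk1⟩ := ELim_pr (M := M) hd2 hGP hinf J1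
  set t1 := max n0 ((n1 + 1) * (n1 * (v01 + 1))) with ht1
  set J2 := max t1 (max 1 n0) with hJ2
  obtain ⟨v2, n2, v02, k2, hg2, hn2, hv02, hval2, hk2⟩ := ELim_pr (M := M) hd2 hGP hinf J2
  set t2 := (n2 + 1) * (n2 * (v02 + 1)) with ht2
  have h4s : 4 * s < f.natDegree ^ J1 :=
    lt_of_lt_of_le (Nat.lt_pow_self (by omega)) (Nat.pow_le_pow_right (by omega) (by omega))
  refine limit_zero _ n0 ?_ ?_ (fun k => (((k * f.natDegree) ^ (k * f.natDegree) : ℕ) : ℝ)) ?_ ?_
  · intro t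
    exact div_nonneg (Nat.cast_nonneg _) (Nat.cast_nonneg _)
  · intro t ht
    obtain ⟨L, i1, i2, i3, i4, i5, i6, hsp, hT, hO⟩ :=
      ELim_fld (M := M) hd hGP hst hm hi hdvd (t + 1) (by omega)
    have := q_anti hT hO (t := t) (by omega)
    rwa [q_indep (by omega) (by omega) hdvd (hsp _ (by omega)), q_indep (by omega) ht hdvd (hsp _ (by omega))] at this
  · intro k hk
    have : 0 < k * f.natDegree := Nat.mul_pos hk (by omega)
    exact_mod_cast Nat.pow_pos this
  · intro k hk J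
    set J3 := max (max J (max n0 1)) (2 * ((s + 1) * max n1 n2) * (k * f.natDegree * s + 1) +
      2 * max t1 t2 + 2 * ((s + 1) * max n1 n2) + 1) with hJ3
    obtain ⟨v3, n3, v03, k3, hg3, hn3, hv03, hval3, hk3⟩ := ELim_pr (M := M) hd2 hGP hinf J3
    set t3 := (n3 + 1) * (n3 * (v03 + 1)) with ht3
    obtain ⟨L, i1, i2, i3, i4, i5, i6, hsp, hT, hO⟩ :=
      ELim_fld (M := M) hd hGP hst hm hi hdvd (max n0 (t3 + n3)) (le_max_left _ _)
    obtain ⟨P1, hC1, hI1⟩ := ELim_pl hd2 hGP hg1 (le_max_left _ _) (by omega) hT hO hsp hm hdvd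
      hn1 hv01 hval1 hk1
    obtain ⟨P2, hC2, hI2⟩ := ELim_pl hd2 hGP hg2 (le_max_left _ _) (by omega) hT hO hsp hm hdvd
      hn2 hv02 hval2 hk2
    obtain ⟨P3, hC3, hI3⟩ := ELim_pl hd2 hGP hg3 (le_max_left _ _) (by omega) hT hO hsp hm hdvd
      hn3 hv03 hval3 hk3
    obtain ⟨l, hl1, hl2, hl3⟩ := step hT hO (hC1.mono (le_max_right n0 _)) hI1 hC2 hI2 hC3 hI3
      hodd (by omega) h4s (le_max_left _ _) (le_max_left _ _) k hk (le_max_right _ _)
      (le_max_right _ _)
    refine ⟨l, by omega, ?_⟩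
    rwa [q_indep (by omega) (by omega) hdvd (hsp _ hl2.le), q_indep (by omega) (by omega) hdvd (hsp _ hl2)] at hl3

end Pool.Agent.H42.PC
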