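/-
Row EFin (about 150 lines): the density theorem in internal form.

PROOF. If β is not wandering: prep_finite, a finite set has density 0 (prc_tendsto). Otherwise hGP gives GP f β (AlgebraicClosure K). exists_stab: n0. M := (derivative f).SplittingField with its NumberField structure (finite over K).
 Let S be the set, cover: S ⊆ finite ∪ ⋃_{h ∈ Fac} SS f h β. It suffices that for each h ∈ Fac (finite: fac_finite) and ε > 0 eventually prc (SS f h β) X ≤ ε prc univ X (then sum over h; a finite set E has prc E X ≤ card E ≤ ε prc univ X eventually). If SS f h β is finite: clear. Otherwise qq_tendsto: choose t ≥ n0 with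
 qq t < ε/4; exists_field t, tree_of_splits, orb_of_stab; frob_in: SS ⊆ finite ∪ {v | ∃ g ∈ T, IsFr}; frobenius_density with O := OO f h n0 L t (finite: subset of lev t, lev_fin; invariant: Orb.inv) and q_indep: |T|/|G| = q = qq t < ε/4. So prc SS X ≤ card + (ε/4 + ε/4) prc univ X ≤ ε prc univ X eventually.
 The PIT hypothesis is for K and for the intermediate fields of L/K.
-/
import Pool.Agent.H42.PC.ELim
import Pool.Agent.H42.PC.EFr
import Pool.Agent.H42.PC.ECov
import Pool.Agent.H42.PC.ESt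
import Pool.Agent.H42.PC.BFin

set_option autoImplicit false

namespace Pool.Agent.H42.PC

open Polynomial NumberField IsDedekindDomain Filter Topology

open scoped Classical

/-- sets of primes of upper density zero -/
def EFinSm (K : Type) [Field K] [NumberField K] (S : Set (HeightOneSpectrum (𝓞 K))) : Prop :=
  ∀ ε : ℝ, 0 < ε → ∀ᶠ X : ℕ in atTop, (prc K S X : ℝ) ≤ ε * prc K Set.univ X

theorem EFin_mono_prc {K : Type} [Field K] [NumberField K] {S T : Set (HeightOneSpectrum (𝓞 K))}
    (h : S ⊆ T) (X : ℕ) : prc K S X ≤ prc K T X := by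
  unfold prc
  exact Set.ncard_le_ncard (fun v hv => ⟨h hv.1, hv.2⟩)
    ((prc_finite K X).subset fun v hv => hv.2)

theorem EFin_union_prc {K : Type} [Field K] [NumberField K] (S T : Set (HeightOneSpectrum (𝓞 K)))
    (X : ℕ) : prc K (S ∪ T) X ≤ prc K S X + prc K T X := by
  unfold prc
  have h : {v | v ∈ S ∪ T ∧ Ideal.absNorm v.asIdeal ≤ X} =
      {v | v ∈ S ∧ Ideal.absNorm v.asIdeal ≤ X} ∪ {v | v ∈ T ∧ Ideal.absNorm v.asIdeal ≤ X} := by
    ext v
    constructor
    · rintro ⟨h1 | h1, h2⟩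
      · exact Or.inl ⟨h1, h2⟩
      · exact Or.inr ⟨h1, h2⟩
    · rintro (⟨h1, h2⟩ | ⟨h1, h2⟩)
      · exact ⟨Or.inl h1, h2⟩
      · exact ⟨Or.inr h1, h2⟩
  rw [h]
  exact Set.ncard_union_le _ _

theorem EFin_mono {K : Type} [Field K] [NumberField K] {S T : Set (HeightOneSpectrum (𝓞 K))}
    (h : S ⊆ T) (hT : EFinSm K T) : EFinSm K S := by
  intro ε hε
  filter_upwards [hT ε hε] with X hX
  exact le_trans (by exact_mod_cast EFin_mono_prc h X) hX

theorem EFin_union {K : Type} [Field K] [NumberField K] {S T : Set (HeightOneSpectrum (𝓞 K))}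
    (hS : EFinSm K S) (hT : EFinSm K T) : EFinSm K (S ∪ T) := by
  intro ε hε
  filter_upwards [hS (ε / 2) (by positivity), hT (ε / 2) (by positivity)] with X h1 h2
  have h3 : (prc K (S ∪ T) X : ℝ) ≤ prc K S X + prc K T X := by
    exact_mod_cast EFin_union_prc S T X
  linarith

theorem EFin_fin {K : Type} [Field K] [NumberField K] (hK : PITh K)
    {S : Set (HeightOneSpectrum (𝓞 K))} (hS : S.Finite) : EFinSm K S := by
  intro ε hε
  filter_upwards [(prc_tendsto hK).eventually_ge_atTop ((S.ncard : ℝ) / ε)] with X hX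
  have h1 : (prc K S X : ℝ) ≤ S.ncard := by
    have : prc K S X ≤ S.ncard := Set.ncard_le_ncard (fun v hv => hv.1) hS
    exact_mod_cast this
  rw [div_le_iff₀ hε] at hX
  linarith

theorem EFin_bUnion {K : Type} [Field K] [NumberField K] (hK : PITh K) {ι : Type} {s : Set ι}
    (hs : s.Finite) (S : ι → Set (HeightOneSpectrum (𝓞 K))) (h : ∀ i ∈ s, EFinSm K (S i)) :
    EFinSm K (⋃ i ∈ s, S i) := by
  induction s, hs using Set.Finite.induction_on with
  | empty =>
    simp only [Set.mem_empty_iff_false, Set.iUnion_of_empty, Set.iUnion_empty]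
    exact EFin_fin hK Set.finite_empty
  | insert _ _ ih =>
    rw [Set.biUnion_insert]
    exact EFin_union (h _ (Set.mem_insert _ _)) (ih fun i hi => h i (Set.mem_insert_of_mem _ hi))

theorem EFin_tendsto {K : Type} [Field K] [NumberField K] {S : Set (HeightOneSpectrum (𝓞 K))}
    (hS : EFinSm K S) :
    Tendsto (fun X : ℕ => (prc K S X : ℝ) / prc K Set.univ X) atTop (𝓝 0) := by
  rw [Metric.tendsto_atTop']
  intro ε hε
  obtain ⟨N, hN⟩ := eventually_atTop.1 (hS (ε / 2) (by positivity))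
  refine ⟨N, fun X hX => ?_⟩
  rw [Real.dist_eq, sub_zero, abs_of_nonneg (by positivity)]
  have h1 := hN X hX.le
  rcases (Nat.cast_nonneg (α := ℝ) (prc K Set.univ X)).eq_or_lt with h0 | h0
  · rw [← h0, div_zero]; exact hε
  · rw [div_lt_iff₀ h0]
    have : ε / 2 * (prc K Set.univ X : ℝ) < ε * prc K Set.univ X := by
      apply mul_lt_mul_of_pos_right _ h0
      linarith
    linarith

theorem EFin_SS (hPIT : ∀ (E : Type) [Field E] [NumberField E], PITh E)
    {K : Type} [Field K] [NumberField K] {f h : K[X]} {β : K} (hodd : Odd f.natDegree)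
    (hd : 3 ≤ f.natDegree) (hGP : GP f β (AlgebraicClosure K)) {n0 : ℕ} (hst : Stab f β n0)
    (hm : h.Monic) (hi : Irreducible h) (hdvd : h ∣ f.comp^[n0] X - C β) :
    EFinSm K (SS f h β) := by
  by_cases hinf : (SS f h β).Infinite
  · have hM : NumberField (derivative f).SplittingField :=
      NumberField.of_module_finite K (derivative f).SplittingField
    have hq := qq_tendsto (M := (derivative f).SplittingField) hodd hd hGP hst hm hi hdvd hinf
    intro ε hε
    obtain ⟨t, hqt, hnt⟩ : ∃ t, qq f h β n0 t < ε / 4 ∧ n0 ≤ t := by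
      have h1 : ∀ᶠ t in atTop, qq f h β n0 t < ε / 4 := hq.eventually_lt_const (by positivity)
      exact (h1.and (eventually_ge_atTop n0)).exists
    obtain ⟨L, iF, iN, iKL, iML, iT, iG, hs⟩ := exists_field (K := K)
      (M := (derivative f).SplittingField) f β t
    have hGPL : GP f β L := GP_hom (IsAlgClosed.lift : L →ₐ[K] AlgebraicClosure K) hGP
    have hT := tree_of_splits (L := L) (by omega) hGPL hs
    have hO := orb_of_stab (L := L) (by omega) hnt hT hs hst hm hi hdvd
    have hfr := frob_in (M := (derivative f).SplittingField) (L := L) (by omega) hGP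
      (IsSplittingField.splits _ _) hnt hT hO hs hm hdvd
    have hOfin : (OO f h n0 L t).Finite := (lev_fin hT le_rfl).subset (hO.sub t le_rfl)
    have hden := frobenius_density (K := K) (L := L) (hPIT K) (fun M => hPIT M) (OO f h n0 L t)
      hOfin (fun g x hx => hO.inv t le_rfl g x hx) (ε := ε / 4) (by positivity)
    have hqe : q (L ≃ₐ[K] L) (OO f h n0 L) t = qq f h β n0 t := by
      first
        | exact q_indep (L := L) (by omega) hnt hdvd (hs t le_rfl)
        | exact q_indep (L := L) hnt hdvd (hs t le_rfl)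
    have hE := EFin_fin (hPIT K) hfr (ε / 4) (by positivity)
    filter_upwards [hden, hE] with X h1 h2
    have h3 : SS f h β ⊆ {v | v ∈ SS f h β ∧ ¬ ∃ g : L ≃ₐ[K] L,
        (∃ x ∈ OO f h n0 L t, g • x = x) ∧ IsFr K L v g} ∪
        {v | ∃ g : L ≃ₐ[K] L, (∃ x ∈ OO f h n0 L t, g • x = x) ∧ IsFr K L v g} := by
      intro v hv
      by_cases hg : ∃ g : L ≃ₐ[K] L, (∃ x ∈ OO f h n0 L t, g • x = x) ∧ IsFr K L v g
      · exact Or.inr hg
      · exact Or.inl ⟨hv, hg⟩
    have h4 := (EFin_mono_prc h3 X).trans (EFin_union_prc _ _ X)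
    have h5 : (prc K (SS f h β) X : ℝ) ≤ (prc K {v | v ∈ SS f h β ∧ ¬ ∃ g : L ≃ₐ[K] L,
        (∃ x ∈ OO f h n0 L t, g • x = x) ∧ IsFr K L v g} X : ℝ) +
        (prc K {v | ∃ g : L ≃ₐ[K] L, (∃ x ∈ OO f h n0 L t, g • x = x) ∧ IsFr K L v g} X : ℝ) := by
      exact_mod_cast h4
    have h6 : (Nat.card {g : L ≃ₐ[K] L // ∃ x ∈ OO f h n0 L t, g • x = x} : ℝ) /
        Nat.card (L ≃ₐ[K] L) < ε / 4 := by
      have : q (L ≃ₐ[K] L) (OO f h n0 L) t < ε / 4 := by rw [hqe]; exact hqt
      exact this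
    have h7 : (0 : ℝ) ≤ prc K Set.univ X := Nat.cast_nonneg _
    have h8 : ((Nat.card {g : L ≃ₐ[K] L // ∃ x ∈ OO f h n0 L t, g • x = x} : ℝ) /
        Nat.card (L ≃ₐ[K] L) + ε / 4) * prc K Set.univ X ≤ (ε / 4 + ε / 4) * prc K Set.univ X :=
      mul_le_mul_of_nonneg_right (by linarith) h7
    nlinarith
  · exact EFin_fin (hPIT K) (Set.not_infinite.1 hinf)

theorem density_zero (hPIT : ∀ (E : Type) [Field E] [NumberField E], PITh E)
    {K : Type} [Field K] [NumberField K] {f : K[X]} {β : K} (hodd : Odd f.natDegree)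
    (hd : 3 ≤ f.natDegree) (hper : ∀ n, 1 ≤ n → (FA f K)^[n] β ≠ β)
    (hGP : Wandering f β → GP f β (AlgebraicClosure K)) (hES : ES f β) :
    Tendsto (fun X : ℕ => (prc K {v | ∃ n, 1 ≤ n ∧
      v.valuation K ((FA f K)^[n] β - β) < 1} X : ℝ) / prc K Set.univ X) atTop (𝓝 0) := by
  apply EFin_tendsto
  by_cases hw : Wandering f β
  · obtain ⟨n0, hst⟩ := exists_stab (by omega) hES
    have hc := cover (f := f) (β := β) (by omega) n0
    have hS : EFinSm K (⋃ h ∈ {g : K[X] | g.Monic ∧ Irreducible g ∧ g ∣ f.comp^[n0] X - C β},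
        SS f h β) := EFin_bUnion (hPIT K) (fac_finite (by omega) n0) _
      (fun h hh => EFin_SS hPIT hodd hd (hGP hw) hst hh.1 hh.2.1 hh.2.2)
    refine EFin_mono ?_ (EFin_union (EFin_fin (hPIT K) hc) hS)
    intro v hv
    by_cases hv2 : v ∈ ⋃ h ∈ {g : K[X] | g.Monic ∧ Irreducible g ∧ g ∣ f.comp^[n0] X - C β},
        SS f h β
    · exact Or.inr hv2
    · exact Or.inl ⟨hv, hv2⟩
  · exact EFin_fin (hPIT K) (prep_finite hw hper)

end Pool.Agent.H42.PC
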