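/-
Row ELoc (about 190 lines): a local condition for eventual stability.

 HYPOTHESIS: v a prime of K above the rational prime l, d = l^r (r ≥ 1), coefficients of f integral at v, lead f a unit, coefficients of degree 1, ..., d - 1 have V < 1 (so f is congruent to a X^d + c mod v); V β ≤ 1, β not periodic.
 CLAIM: ES f β.
 (1) For integral x y (in K, or in an extension L with a prime w over v: V_w restricted to K is a power of V_v, valuation_liesOver) with V (x - y) < 1: V (f x - f y) < V (x - y) or x = y: f' has all coefficients V < 1 (i a_i: for i < d by hypothesis, for i = d since V d < 1), eval_sub: f x - f y = (x - y)(f' y + (x - y) ρ).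
 (2) For integral x y: V (f x - f y) < 1 implies V (x - y) < 1: f x - f y ≡ a (x^d - y^d) ≡ a (x - y)^d modulo elements with V < 1 (exists_add_pow_prime_pow_eq: (u + w)^(l^r) = u^(l^r) + w^(l^r) + l * R). So F is injective on residue classes. The residue classes of integral elements of K are finite in number (x = a / c with
   a c ∈ 𝓞 K, c ∉ v, c c' ≡ 1 mod v, so x ≡ a c' ∈ 𝓞 K, and 𝓞 K / v is finite; see DLoc loc_inert for the representation), so two of the classes of F^[i] β agree, and by injectivity there is m ≥ 1 with V (F^[m] β - β) < 1. Let V (F^[m] β - β) = exp (-ν), ν ≥ 1 (nonzero: not periodic).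
   By (1) V (F^[(j+1) m] β - F^[j m] β) < exp (-ν) for j ≥ 1, so V (F^[j m] β - β) = exp (-ν) for all j ≥ 1.
 (3) n = j m, j ≥ 1. L := the splitting field of P_n := f.comp^[n] X - C β over K (a number field), w a prime over v. Every root x of P_n in L is integral at w (root_int repeatedly) and F^[n] x = β, F^[n] β ≡ β: by (2) in L (n times) V_w (x - β) < 1. Let g_1, ..., g_R be distinct monic irreducible factors of P_n: their product divides P_n
   (pairwise coprime), P_n = g_1 ... g_R q over K. g_i(β) = ∏ (β - x) over the roots of g_i in L (at least one): V_w (g_i β) < 1, so V_v (g_i β) < 1, ≤ exp (-1). q(β) = lead * ∏ (β - x): V ≤ 1. So exp (-ν) = V_v (P_n β) ≤ exp (-R): R ≤ ν.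
 (4) The number of factors is non-decreasing in n (fac_mono: the surjection Fac (n+1) → Fac n, minpoly x ↦ minpoly (F x), x in the algebraic closure with F^[n+1] x = β, see row ESt), so it is ≤ ν for all n.
-/
import Pool.Agent.H42.PC.EBas
import Pool.Agent.H42.PC.DPol

set_option autoImplicit false

namespace Pool.Agent.H42.PC

open Polynomial NumberField IsDedekindDomain

theorem ELoc_comp {R : Type} [CommRing R] (f : R[X]) (n : ℕ) :
    (f.comp^[n] X).comp f = f.comp^[n + 1] X := by
  induction n with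
  | zero => simp
  | succ n ih =>
    rw [Function.iterate_succ_apply', comp_assoc, ih, ← Function.iterate_succ_apply' (f := f.comp)]

theorem ELoc_fin {K : Type} [Field K] {P : K[X]} (hP : P ≠ 0) :
    {g : K[X] | g.Monic ∧ Irreducible g ∧ g ∣ P}.Finite := by
  classical
  refine (UniqueFactorizationMonoid.normalizedFactors P).toFinset.finite_toSet.subset ?_
  intro g hg
  rw [Finset.mem_coe, Multiset.mem_toFinset, Polynomial.mem_normalizedFactors_iff hP]
  exact ⟨hg.2.1, hg.1, hg.2.2⟩

theorem ELoc_ne {K : Type} [Field K] {f : K[X]} {β : K} (hd : 1 ≤ f.natDegree) (n : ℕ) :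
    f.comp^[n] X - C β ≠ 0 := by
  intro h
  have h1 := itp_natDegree (β := β) hd n
  rw [h, natDegree_zero] at h1
  have : 0 < f.natDegree ^ n := pow_pos (by omega) n
  omega

theorem fac_mono {K : Type} [Field K] [CharZero K] {f : K[X]} {β : K} (hd : 1 ≤ f.natDegree)
    (n : ℕ) : {g : K[X] | g.Monic ∧ Irreducible g ∧ g ∣ f.comp^[n] X - C β}.ncard ≤
      {g : K[X] | g.Monic ∧ Irreducible g ∧ g ∣ f.comp^[n + 1] X - C β}.ncard := by
  classical
  have hne := ELoc_ne (β := β) hd (n + 1)
  have hex : ∀ g : K[X], g.Monic ∧ Irreducible g ∧ g ∣ f.comp^[n] X - C β →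
      ∃ p : K[X], p.Monic ∧ Irreducible p ∧ p ∣ g.comp f := by
    intro g hg
    have h1 : g.comp f ≠ 0 := by
      intro h0
      have h2 := natDegree_comp (p := g) (q := f)
      rw [h0, natDegree_zero] at h2
      have h3 := hg.2.1.natDegree_pos
      have : 0 < g.natDegree * f.natDegree := Nat.mul_pos h3 (by omega)
      omega
    have h2 : ¬ IsUnit (g.comp f) := by
      intro h0
      have h2 := natDegree_comp (p := g) (q := f)
      rw [natDegree_eq_zero_of_isUnit h0] at h2
      have h3 := hg.2.1.natDegree_pos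
      have : 0 < g.natDegree * f.natDegree := Nat.mul_pos h3 (by omega)
      omega
    obtain ⟨p, hp, hpd⟩ := WfDvdMonoid.exists_irreducible_factor h2 h1
    refine ⟨p * C p.leadingCoeff⁻¹, monic_mul_leadingCoeff_inv hp.ne_zero, ?_, ?_⟩
    · exact (irreducible_mul_leadingCoeff_inv (p := p)).2 hp
    · have hu : IsUnit (C p.leadingCoeff⁻¹) :=
        isUnit_C.2 (IsUnit.mk0 _ (inv_ne_zero (leadingCoeff_ne_zero.2 hp.ne_zero)))
      exact (hu.mul_right_dvd).2 hpd
  choose! φ hφ using hex
  refine Set.ncard_le_ncard_of_injOn φ ?_ ?_ (ELoc_fin hne)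
  · intro g hg
    obtain ⟨h1, h2, h3⟩ := hφ g hg
    refine ⟨h1, h2, h3.trans ?_⟩
    obtain ⟨q, hq⟩ := hg.2.2
    refine ⟨q.comp f, ?_⟩
    rw [← mul_comp, ← hq, sub_comp, ELoc_comp, C_comp]
  · intro g hg g' hg' he
    obtain ⟨h1, h2, h3⟩ := hφ g hg
    obtain ⟨h1', h2', h3'⟩ := hφ g' hg'
    by_contra hgg
    have hco : IsCoprime g g' := by
      rw [hg.2.1.coprime_iff_not_dvd]
      intro h
      exact absurd (eq_of_monic_of_associated hg.1 hg'.1 (hg.2.1.associated_of_dvd hg'.2.1 h)) hgg
    obtain ⟨a, b, hab⟩ := hco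
    have h4 : a.comp f * g.comp f + b.comp f * g'.comp f = 1 := by
      rw [← mul_comp, ← mul_comp, ← add_comp, hab, one_comp]
    have h5 : φ g ∣ 1 := by
      rw [← h4]
      refine dvd_add (dvd_mul_of_dvd_right h3 _) (dvd_mul_of_dvd_right ?_ _)
      rw [he]
      exact h3'
    exact h2.not_isUnit (isUnit_of_dvd_one h5)

section loc

open WithZero

variable {K : Type} [Field K] (V : Valuation K ℤᵐ⁰)

theorem ELoc_res {x : V.valuationSubring} :
    IsLocalRing.residue V.valuationSubring x = 0 ↔ V (x : K) < 1 := by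
  rw [IsLocalRing.residue_eq_zero_iff, IsLocalRing.mem_maximalIdeal, mem_nonunits_iff]
  have h := (Valuation.valuationSubring.integers V).isUnit_iff_valuation_eq_one (x := x)
  rw [h]
  have h1 : V (x : K) ≤ 1 := x.2
  constructor
  · intro h2
    exact lt_of_le_of_ne h1 h2
  · intro h2 h3
    exact h2.ne h3

theorem ELoc_form {f0 : V.valuationSubring[X]} {D : ℕ} (hD : 1 ≤ D) (hd : f0.natDegree = D)
    (hmid : ∀ i, 1 ≤ i → i < D → V (f0.coeff i : K) < 1) :
    f0.map (IsLocalRing.residue V.valuationSubring) =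
      C (IsLocalRing.residue V.valuationSubring (f0.coeff D)) * X ^ D +
        C (IsLocalRing.residue V.valuationSubring (f0.coeff 0)) := by
  ext i
  rw [coeff_map, coeff_add, coeff_C_mul, coeff_X_pow, coeff_C]
  rcases Nat.eq_zero_or_pos i with h | h
  · subst h
    rw [if_neg (by omega), if_pos rfl]
    simp
  · rw [if_neg (by omega : ¬ i = 0)]
    rcases lt_trichotomy i D with h1 | h1 | h1
    · rw [if_neg (by omega), (ELoc_res V).2 (hmid i h h1)]
      simp
    · rw [if_pos h1, h1]
      simp
    · rw [if_neg (by omega), coeff_eq_zero_of_natDegree_lt (by omega)]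
      simp

theorem ELoc_iter {k : Type} [Field k] {l : ℕ} [CharP k l] [Fact l.Prime] {r : ℕ} {a c : k}
    (ha : a ≠ 0) (n : ℕ) : ∃ A B : k, A ≠ 0 ∧
      (C a * X ^ (l ^ r) + C c).comp^[n] X = C A * X ^ (l ^ (r * n)) + C B := by
  induction n with
  | zero => exact ⟨1, 0, one_ne_zero, by simp⟩
  | succ n ih =>
    obtain ⟨A, B, hA, h⟩ := ih
    refine ⟨a * A ^ (l ^ r), a * B ^ (l ^ r) + c, mul_ne_zero ha (pow_ne_zero _ hA), ?_⟩
    rw [Function.iterate_succ_apply', h]
    rw [add_comp, mul_comp, C_comp, C_comp, X_pow_comp, add_pow_char_pow, mul_pow, ← pow_mul,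
      ← pow_add]
    have e : r * n + r = r * (n + 1) := by ring
    rw [e, C_mul, C_add, C_mul, C_pow, C_pow]
    ring

theorem ELoc_pow {k : Type} [Field k] {l : ℕ} [CharP k l] [Fact l.Prime] {r : ℕ} {a c : k}
    (ha : a ≠ 0) (n : ℕ) (b : k) (hb : ((C a * X ^ (l ^ r) + C c).comp^[n] X - C b).eval b = 0) :
    ∃ A : k, A ≠ 0 ∧ (C a * X ^ (l ^ r) + C c).comp^[n] X - C b =
      C A * (X - C b) ^ (l ^ (r * n)) := by
  obtain ⟨A, B, hA, h⟩ := ELoc_iter (l := l) (r := r) (c := c) ha n
  refine ⟨A, hA, ?_⟩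
  rw [h] at hb ⊢
  simp only [Polynomial.eval_sub, eval_add, eval_mul, eval_C, eval_pow, eval_X] at hb
  rw [sub_pow_char_pow, mul_sub, ← C_pow, ← C_mul]
  have : B = b - A * b ^ (l ^ (r * n)) := by linear_combination hb
  rw [this, C_sub]
  ring

theorem ELoc_eval {R S : Type} [CommRing R] [CommRing S] (φ : R →+* S) (p : R[X]) (x : R) :
    (p.map φ).eval (φ x) = φ (p.eval x) := by
  rw [eval_map, eval₂_at_apply]

theorem ELoc_mapit {R S : Type} [CommRing R] [CommRing S] (φ : R →+* S) (p : R[X]) (n : ℕ) :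
    (p.comp^[n] X).map φ = (p.map φ).comp^[n] X := by
  induction n with
  | zero => simp
  | succ n ih => rw [Function.iterate_succ_apply', Function.iterate_succ_apply', map_comp, ih]

theorem ELoc_evit {R : Type} [CommRing R] (p : R[X]) (n : ℕ) (x : R) :
    (p.comp^[n] X).eval x = (fun y => p.eval y)^[n] x := by
  induction n with
  | zero => simp
  | succ n ih => rw [Function.iterate_succ_apply', Function.iterate_succ_apply', eval_comp, ih]

theorem ELoc_lt1 {x : ℤᵐ⁰} (h : x < 1) : x ≤ exp (-1) := by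
  by_cases hx : x = 0
  · rw [hx]
    exact zero_le
  · rw [← exp_log hx, ← exp_zero, exp_lt_exp] at h
    rw [← exp_log hx, exp_le_exp]
    omega

/-- the data over the valuation ring. -/
structure ELoc_dat (V : Valuation K ℤᵐ⁰) (f0 : V.valuationSubring[X]) (l r : ℕ) : Prop where
  lp : l.Prime
  r1 : 1 ≤ r
  ch : V (l : K) < 1
  dg : f0.natDegree = l ^ r
  ld : V (f0.leadingCoeff : K) = 1
  md : ∀ i, 1 ≤ i → i < l ^ r → V (f0.coeff i : K) < 1

variable {V} {f0 : V.valuationSubring[X]} {l r : ℕ}

theorem ELoc_char (h : ELoc_dat V f0 l r) :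
    CharP (IsLocalRing.ResidueField V.valuationSubring) l := by
  have h1 : ((l : ℕ) : IsLocalRing.ResidueField V.valuationSubring) = 0 := by
    have h2 : IsLocalRing.residue V.valuationSubring ((l : ℕ) : V.valuationSubring) = 0 := by
      rw [ELoc_res]
      simpa using h.ch
    simpa using h2
  exact (CharP.charP_iff_prime_eq_zero h.lp).2 h1

theorem ELoc_ln (h : ELoc_dat V f0 l r) :
    IsLocalRing.residue V.valuationSubring (f0.coeff (l ^ r)) ≠ 0 := by
  intro h0
  rw [ELoc_res] at h0
  have h1 := h.ld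
  rw [leadingCoeff, h.dg] at h1
  exact h0.ne h1

theorem ELoc_factor (h : ELoc_dat V f0 l r) (n : ℕ) (b : V.valuationSubring)
    (hb : V (((f0.comp^[n] X - C b).eval b : V.valuationSubring) : K) < 1)
    {g : V.valuationSubring[X]} (hg : g.Monic) (hgd : g.natDegree ≠ 0)
    (hdiv : g ∣ f0.comp^[n] X - C b) : V ((g.eval b : V.valuationSubring) : K) < 1 := by
  have hchar := ELoc_char h
  have hfact : Fact l.Prime := ⟨h.lp⟩
  have hform := ELoc_form V (Nat.one_le_iff_ne_zero.2 (pow_ne_zero r h.lp.ne_zero)) h.dg h.md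
  have hP : (f0.comp^[n] X - C b).map (IsLocalRing.residue V.valuationSubring) =
      (C (IsLocalRing.residue V.valuationSubring (f0.coeff (l ^ r))) * X ^ (l ^ r) +
        C (IsLocalRing.residue V.valuationSubring (f0.coeff 0))).comp^[n] X -
          C (IsLocalRing.residue V.valuationSubring b) := by
    rw [Polynomial.map_sub, ELoc_mapit, hform, map_C]
  rw [← ELoc_res, ← ELoc_eval, hP] at hb
  obtain ⟨A, hA, hAe⟩ := ELoc_pow (ELoc_ln h) n _ hb
  have hd2 : g.map (IsLocalRing.residue V.valuationSubring) ∣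
      C A * (X - C (IsLocalRing.residue V.valuationSubring b)) ^ (l ^ (r * n)) := by
    rw [← hAe, ← hP]
    exact Polynomial.map_dvd _ hdiv
  have hd3 : g.map (IsLocalRing.residue V.valuationSubring) ∣
      (X - C (IsLocalRing.residue V.valuationSubring b)) ^ (l ^ (r * n)) :=
    ((isUnit_C.2 (IsUnit.mk0 A hA)).dvd_mul_left).1 hd2
  obtain ⟨i, _, hi⟩ := (dvd_prime_pow (prime_X_sub_C _) _).1 hd3
  have hi0 : i ≠ 0 := by
    rintro rfl
    rw [pow_zero] at hi
    have h1 : IsUnit (g.map (IsLocalRing.residue V.valuationSubring)) :=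
      (hi.isUnit_iff).2 isUnit_one
    have h2 := natDegree_eq_zero_of_isUnit h1
    rw [hg.natDegree_map] at h2
    exact hgd h2
  have h4 : X - C (IsLocalRing.residue V.valuationSubring b) ∣
      g.map (IsLocalRing.residue V.valuationSubring) :=
    (dvd_pow_self _ hi0).trans hi.symm.dvd
  rw [dvd_iff_isRoot, IsRoot.def, ELoc_eval, ELoc_res] at h4
  exact h4

theorem ELoc_inj (h : ELoc_dat V f0 l r) {x y : V.valuationSubring}
    (hxy : V ((f0.eval x - f0.eval y : V.valuationSubring) : K) < 1) :
    V ((x - y : V.valuationSubring) : K) < 1 := by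
  have hchar := ELoc_char h
  have hfact : Fact l.Prime := ⟨h.lp⟩
  have hform := ELoc_form V (Nat.one_le_iff_ne_zero.2 (pow_ne_zero r h.lp.ne_zero)) h.dg h.md
  rw [← ELoc_res, map_sub, ← ELoc_eval, ← ELoc_eval, hform] at hxy
  simp only [eval_add, eval_mul, eval_C, eval_pow, eval_X] at hxy
  rw [← ELoc_res, map_sub]
  have h1 : IsLocalRing.residue V.valuationSubring (f0.coeff (l ^ r)) *
      (IsLocalRing.residue V.valuationSubring x - IsLocalRing.residue V.valuationSubring y) ^ (l ^ r) = 0 := by
    rw [sub_pow_char_pow]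
    linear_combination hxy
  rcases mul_eq_zero.1 h1 with h2 | h2
  · exact absurd h2 (ELoc_ln h)
  · exact (pow_eq_zero_iff (pow_ne_zero r h.lp.ne_zero)).1 h2

theorem ELoc_injit (h : ELoc_dat V f0 l r) (k : ℕ) {x y : V.valuationSubring}
    (hxy : V (((fun z => f0.eval z)^[k] x - (fun z => f0.eval z)^[k] y : V.valuationSubring) : K) < 1) :
    V ((x - y : V.valuationSubring) : K) < 1 := by
  induction k generalizing x y with
  | zero => exact hxy
  | succ k ih =>
    rw [Function.iterate_succ_apply, Function.iterate_succ_apply] at hxy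
    exact ELoc_inj h (ih hxy)

theorem ELoc_contr (h : ELoc_dat V f0 l r) {x y : V.valuationSubring}
    (hxy : V ((x - y : V.valuationSubring) : K) < 1) (hne : x ≠ y) :
    V ((f0.eval x - f0.eval y : V.valuationSubring) : K) < V ((x - y : V.valuationSubring) : K) := by
  have hchar := ELoc_char h
  have hfact : Fact l.Prime := ⟨h.lp⟩
  have hform := ELoc_form V (Nat.one_le_iff_ne_zero.2 (pow_ne_zero r h.lp.ne_zero)) h.dg h.md
  obtain ⟨k, hk⟩ := f0.binomExpansion y (x - y)
  rw [add_sub_cancel] at hk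
  have hder : V ((f0.derivative.eval y : V.valuationSubring) : K) < 1 := by
    rw [← ELoc_res, ← ELoc_eval, ← derivative_map, hform]
    have : ((l ^ r : ℕ) : IsLocalRing.ResidueField V.valuationSubring) = 0 := by
      rw [Nat.cast_pow, CharP.cast_eq_zero]
      exact zero_pow (by have := h.r1; omega)
    rw [derivative_add, derivative_C, derivative_C_mul_X_pow, this]
    simp
  have he : f0.eval x - f0.eval y = (x - y) * (f0.derivative.eval y + k * (x - y)) := by
    rw [hk]
    ring
  have hxy0 : V ((x - y : V.valuationSubring) : K) ≠ 0 := by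
    rw [Valuation.ne_zero_iff]
    intro h0
    exact hne (sub_eq_zero.1 (Subtype.ext h0))
  have hpsi : V ((f0.derivative.eval y + k * (x - y) : V.valuationSubring) : K) < 1 := by
    have h1 : V ((k * (x - y) : V.valuationSubring) : K) < 1 := by
      push_cast
      rw [map_mul]
      push_cast at hxy
      exact mul_lt_one_of_nonneg_of_lt_one_right k.2 zero_le hxy
    push_cast at h1 ⊢
    exact V.map_add_lt hder h1
  rw [he]
  calc V (((x - y) * (f0.derivative.eval y + k * (x - y)) : V.valuationSubring) : K) =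
      V ((x - y : V.valuationSubring) : K) * V ((f0.derivative.eval y + k * (x - y) : V.valuationSubring) : K) := by
        rw [← map_mul]
        rfl
    _ < V ((x - y : V.valuationSubring) : K) * 1 :=
        mul_lt_mul_of_pos_left hpsi (zero_lt_iff.2 hxy0)
    _ = _ := mul_one _

theorem ELoc_weak (h : ELoc_dat V f0 l r) (k : ℕ) {x y : V.valuationSubring}
    (hxy : V ((x - y : V.valuationSubring) : K) < 1) :
    V (((fun z => f0.eval z)^[k] x - (fun z => f0.eval z)^[k] y : V.valuationSubring) : K) ≤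
      V ((x - y : V.valuationSubring) : K) := by
  induction k generalizing x y with
  | zero => exact le_rfl
  | succ k ih =>
    rw [Function.iterate_succ_apply, Function.iterate_succ_apply]
    by_cases hne : x = y
    · subst hne
      simp
    · have h1 := ELoc_contr h hxy hne
      exact (ih (h1.trans hxy)).trans h1.le

theorem ELoc_strong (h : ELoc_dat V f0 l r) (k : ℕ) (hk : k ≠ 0) {x y : V.valuationSubring}
    (hxy : V ((x - y : V.valuationSubring) : K) < 1) (hne : x ≠ y) :
    V (((fun z => f0.eval z)^[k] x - (fun z => f0.eval z)^[k] y : V.valuationSubring) : K) <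
      V ((x - y : V.valuationSubring) : K) := by
  obtain ⟨k, rfl⟩ := Nat.exists_eq_succ_of_ne_zero hk
  rw [Nat.succ_eq_add_one, Function.iterate_succ_apply, Function.iterate_succ_apply]
  have h1 := ELoc_contr h hxy hne
  exact (ELoc_weak h k (h1.trans hxy)).trans_lt h1

theorem ELoc_rigid (h : ELoc_dat V f0 l r) {m : ℕ} (hm : m ≠ 0) {b : V.valuationSubring}
    (hb : V (((fun z => f0.eval z)^[m] b - b : V.valuationSubring) : K) < 1)
    (hne : (fun z => f0.eval z)^[m] b ≠ b) (j : ℕ) (hj : 1 ≤ j) :
    V (((fun z => f0.eval z)^[j * m] b - b : V.valuationSubring) : K) =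
      V (((fun z => f0.eval z)^[m] b - b : V.valuationSubring) : K) := by
  induction j, hj using Nat.le_induction with
  | base => rw [one_mul]
  | succ j hj ih =>
    have e1 : (j + 1) * m = j * m + m := by ring
    rw [e1, Function.iterate_add_apply]
    have h1 := ELoc_strong h (j * m) (Nat.mul_ne_zero (by omega) hm) hb hne
    rw [← ih] at h1 ⊢
    have e2 : (((fun z => f0.eval z)^[j * m] ((fun z => f0.eval z)^[m] b) - b : V.valuationSubring) : K) =
        (((fun z => f0.eval z)^[j * m] ((fun z => f0.eval z)^[m] b) -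
          (fun z => f0.eval z)^[j * m] b : V.valuationSubring) : K) +
        (((fun z => f0.eval z)^[j * m] b - b : V.valuationSubring) : K) := by
      push_cast
      ring
    rw [e2]
    exact V.map_add_eq_of_lt_right h1

theorem ELoc_lead (h : ELoc_dat V f0 l r) (n : ℕ) :
    IsUnit (f0.comp^[n] X).leadingCoeff ∧ (f0.comp^[n] X).natDegree = (l ^ r) ^ n := by
  induction n with
  | zero => simp
  | succ n ih =>
    rw [Function.iterate_succ_apply']
    have hp : (f0.comp^[n] X).natDegree ≠ 0 := by
      rw [ih.2]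
      exact pow_ne_zero _ (pow_ne_zero _ h.lp.ne_zero)
    constructor
    · rw [leadingCoeff_comp hp]
      refine IsUnit.mul ?_ (ih.1.pow _)
      exact ((Valuation.valuationSubring.integers V).isUnit_iff_valuation_eq_one).2 h.ld
    · rw [natDegree_comp, h.dg, ih.2]
      ring

/-- the number of factors. -/
theorem ELoc_count (h : ELoc_dat V f0 l r) (n : ℕ) (b : V.valuationSubring)
    (hb : V (((fun z => f0.eval z)^[n] b - b : V.valuationSubring) : K) < 1) {ν : ℕ}
    (hν : V (((fun z => f0.eval z)^[n] b - b : V.valuationSubring) : K) = exp (-(ν : ℤ)))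
    (S : Finset K[X]) (hS : ∀ g ∈ S, g.Monic ∧ Irreducible g ∧
      g ∣ (f0.comp^[n] X - C b).map (algebraMap V.valuationSubring K)) : S.card ≤ ν := by
  classical
  have hev : (f0.comp^[n] X - C b).eval b = (fun z => f0.eval z)^[n] b - b := by
    rw [Polynomial.eval_sub, ELoc_evit, eval_C]
  have hl := ELoc_lead h n
  have hnd : (f0.comp^[n] X - C b).natDegree = (l ^ r) ^ n := by
    rw [natDegree_sub_C, hl.2]
  have hlu : IsUnit (f0.comp^[n] X - C b).leadingCoeff := by
    have : (f0.comp^[n] X - C b).leadingCoeff = (f0.comp^[n] X).leadingCoeff := by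
      rw [leadingCoeff, leadingCoeff, natDegree_sub_C, coeff_sub, coeff_C, if_neg, sub_zero]
      rw [hl.2]
      exact pow_ne_zero _ (pow_ne_zero _ h.lp.ne_zero)
    rw [this]
    exact hl.1
  obtain ⟨u, hu⟩ := hlu
  have hmon : (C ((u⁻¹ : V.valuationSubringˣ) : V.valuationSubring) * (f0.comp^[n] X - C b)).Monic := by
    apply monic_C_mul_of_mul_leadingCoeff_eq_one
    rw [← hu]
    simp
  have hinj : Function.Injective (algebraMap V.valuationSubring K) := IsFractionRing.injective _ _
  have hlift : ∀ g : K[X], g ∈ S → ∃ g0 : V.valuationSubring[X], g0.Monic ∧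
      g0.map (algebraMap V.valuationSubring K) = g := by
    intro g hg
    obtain ⟨h1, h2, h3⟩ := hS g hg
    have h4 : g ∣ (C ((u⁻¹ : V.valuationSubringˣ) : V.valuationSubring) * (f0.comp^[n] X - C b)).map
        (algebraMap V.valuationSubring K) := by
      rw [Polynomial.map_mul]
      exact h3.mul_left _
    obtain ⟨g0, hg0⟩ := IsIntegrallyClosed.eq_map_mul_C_of_dvd K hmon h4
    rw [h1.leadingCoeff, C_1, mul_one] at hg0
    refine ⟨g0, ?_, hg0⟩
    apply monic_of_injective hinj
    rw [hg0]
    exact h1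
  choose! φ hφ using hlift
  have hG : (∏ g ∈ S, φ g).Monic := monic_prod_of_monic _ _ (fun g hg => (hφ g hg).1)
  have hGm : (∏ g ∈ S, φ g).map (algebraMap V.valuationSubring K) = ∏ g ∈ S, g := by
    rw [Polynomial.map_prod]
    exact Finset.prod_congr rfl (fun g hg => (hφ g hg).2)
  have hdv : (∏ g ∈ S, g) ∣ (f0.comp^[n] X - C b).map (algebraMap V.valuationSubring K) := by
    apply Finset.prod_dvd_of_coprime
    · intro g hg g' hg' hne
      have h1 := hS g (Finset.mem_coe.1 hg)
      have h2 := hS g' (Finset.mem_coe.1 hg')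
      show IsCoprime g g'
      rw [h1.2.1.coprime_iff_not_dvd]
      intro h3
      exact absurd (eq_of_monic_of_associated h1.1 h2.1 (h1.2.1.associated_of_dvd h2.2.1 h3)) hne
    · intro g hg
      exact (hS g hg).2.2
  rw [← hGm, map_dvd_map _ hinj hG] at hdv
  obtain ⟨q, hq⟩ := hdv
  have hb' : V (((f0.comp^[n] X - C b).eval b : V.valuationSubring) : K) < 1 := by
    rw [hev]
    exact hb
  have hg1 : ∀ g ∈ S, V (((φ g).eval b : V.valuationSubring) : K) ≤ exp (-1) := by
    intro g hg
    have h1 : V (((φ g).eval b : V.valuationSubring) : K) < 1 := by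
      apply ELoc_factor h n b hb' (hφ g hg).1
      · intro h0
        have h2 := (hS g hg).2.1.natDegree_pos
        rw [← (hφ g hg).2, natDegree_map_eq_of_injective hinj] at h2
        omega
      · rw [hq]
        exact (Finset.dvd_prod_of_mem φ hg).mul_right q
    exact ELoc_lt1 h1
  have hval : V (((f0.comp^[n] X - C b).eval b : V.valuationSubring) : K) ≤ exp (-(S.card : ℤ)) := by
    rw [hq, Polynomial.eval_mul, eval_prod]
    push_cast
    rw [map_mul, map_prod]
    have h1 : ∏ g ∈ S, V (((φ g).eval b : V.valuationSubring) : K) ≤ ∏ g ∈ S, (exp (-1) : ℤᵐ⁰) :=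
      Finset.prod_le_prod' hg1
    have h2 : V ((q.eval b : V.valuationSubring) : K) ≤ 1 := (q.eval b).2
    calc _ ≤ (∏ g ∈ S, (exp (-1) : ℤᵐ⁰)) * 1 := mul_le_mul' h1 h2
      _ = exp (-(S.card : ℤ)) := by
        rw [mul_one, Finset.prod_const, ← exp_nsmul]
        simp
  rw [hev, hν] at hval
  rw [exp_le_exp] at hval
  omega

end loc

theorem es_of_local {K : Type} [Field K] [NumberField K] {f : K[X]} {β : K}
    (hper : ∀ n, 1 ≤ n → (FA f K)^[n] β ≠ β) {l r : ℕ} (hl : l.Prime) (hr : 1 ≤ r)
    (hd : f.natDegree = l ^ r) (v : HeightOneSpectrum (𝓞 K)) (hv : v.valuation K (l : K) < 1)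
    (hint : v.valuation K (f.coeff 0) ≤ 1) (hlead : v.valuation K f.leadingCoeff = 1)
    (hmid : ∀ i, 1 ≤ i → i < l ^ r → v.valuation K (f.coeff i) < 1)
    (hβ : v.valuation K β ≤ 1) : ES f β := by
  classical
  obtain ⟨V, hV⟩ : ∃ V : Valuation K (WithZero (Multiplicative ℤ)), V = v.valuation K := ⟨_, rfl⟩
  rw [← hV] at hv hint hlead hβ
  have hmid' : ∀ i, 1 ≤ i → i < l ^ r → V (f.coeff i) < 1 := fun i h1 h2 => by
    rw [hV]
    exact hmid i h1 h2
  have hcoef : ∀ i, V (f.coeff i) ≤ 1 := by
    intro i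
    rcases Nat.eq_zero_or_pos i with h | h
    · rw [h]
      exact hint
    · rcases lt_trichotomy i (l ^ r) with h1 | h1 | h1
      · exact (hmid' i h h1).le
      · rw [h1, ← hd]
        exact hlead.le
      · rw [coeff_eq_zero_of_natDegree_lt (by omega), map_zero]
        exact zero_le
  obtain ⟨f0, hf0⟩ : ∃ f0 : V.valuationSubring[X], f0.map (algebraMap V.valuationSubring K) = f := by
    have : f ∈ lifts (algebraMap V.valuationSubring K) := by
      rw [lifts_iff_coeff_lifts]
      intro i
      exact ⟨⟨f.coeff i, hcoef i⟩, rfl⟩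
    exact (mem_lifts f).1 this
  have hinj : Function.Injective (algebraMap V.valuationSubring K) := IsFractionRing.injective _ _
  have hco : ∀ i, (f0.coeff i : K) = f.coeff i := by
    intro i
    rw [← hf0, coeff_map]
    rfl
  have hdg : f0.natDegree = l ^ r := by
    rw [← natDegree_map_eq_of_injective hinj, hf0, hd]
  have hdat : ELoc_dat V f0 l r :=
    { lp := hl
      r1 := hr
      ch := hv
      dg := hdg
      ld := by
        rw [leadingCoeff, hco, hdg, ← hd]
        exact hlead
      md := fun i h1 h2 => by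
        rw [hco]
        exact hmid' i h1 h2 }
  obtain ⟨b, hb⟩ : ∃ b : V.valuationSubring, (b : K) = β := ⟨⟨β, hβ⟩, rfl⟩
  have hF : ∀ n : ℕ, (((fun z => f0.eval z)^[n] b : V.valuationSubring) : K) = (FA f K)^[n] β := by
    intro n
    induction n with
    | zero => exact hb
    | succ n ih =>
      rw [Function.iterate_succ_apply', Function.iterate_succ_apply', ← ih, FA_apply, coe_aeval_eq_eval]
      have h1 := ELoc_eval (algebraMap V.valuationSubring K) f0 ((fun z => f0.eval z)^[n] b)
      rw [hf0] at h1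
      exact h1.symm
  have hVy : ∀ y : K, V y = v.valuation K y := fun y => by rw [hV]
  have hap : ∀ x : V.valuationSubring, ∃ a : 𝓞 K, V (algebraMap (𝓞 K) K a - (x : K)) < 1 := fun x => by
    have hx : v.valuation K (x : K) ≤ 1 := by
      rw [← hV]
      exact x.2
    obtain ⟨a, ha⟩ := v.exists_valuation_sub_lt_of_integer hx 1
    refine ⟨a, ?_⟩
    rw [hVy]
    simpa using ha
  choose a ha using hap
  have hfin : Finite (𝓞 K ⧸ v.asIdeal) := Ring.HasFiniteQuotients.finiteQuotient v.ne_bot
  obtain ⟨i, j, hij, he⟩ := Finite.exists_ne_map_eq_of_infinite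
    (fun i : ℕ => Ideal.Quotient.mk v.asIdeal (a ((fun z => f0.eval z)^[i] b)))
  have hclose : ∀ i j : ℕ, Ideal.Quotient.mk v.asIdeal (a ((fun z => f0.eval z)^[i] b)) =
      Ideal.Quotient.mk v.asIdeal (a ((fun z => f0.eval z)^[j] b)) →
      V (((fun z => f0.eval z)^[i] b - (fun z => f0.eval z)^[j] b : V.valuationSubring) : K) < 1 := by
    intro i j he
    have he1 : V (algebraMap (𝓞 K) K (a ((fun z => f0.eval z)^[i] b) - a ((fun z => f0.eval z)^[j] b))) < 1 := by
      rw [hVy]
      exact (v.valuation_lt_one_iff_mem _).2 (Ideal.Quotient.eq.1 he)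
    rw [map_sub] at he1
    have h1 := ha ((fun z => f0.eval z)^[i] b)
    have h2 := ha ((fun z => f0.eval z)^[j] b)
    have e1 : (((fun z => f0.eval z)^[i] b - (fun z => f0.eval z)^[j] b : V.valuationSubring) : K) =
        (algebraMap (𝓞 K) K (a ((fun z => f0.eval z)^[i] b)) -
          algebraMap (𝓞 K) K (a ((fun z => f0.eval z)^[j] b))) -
        (algebraMap (𝓞 K) K (a ((fun z => f0.eval z)^[i] b)) - ((fun z => f0.eval z)^[i] b : V.valuationSubring)) +
        (algebraMap (𝓞 K) K (a ((fun z => f0.eval z)^[j] b)) - ((fun z => f0.eval z)^[j] b : V.valuationSubring)) := by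
      push_cast
      ring
    rw [e1]
    exact V.map_add_lt (V.map_sub_lt he1 h1) h2
  obtain ⟨i, m, hm, him⟩ : ∃ i m : ℕ, m ≠ 0 ∧
      V (((fun z => f0.eval z)^[i] ((fun z => f0.eval z)^[m] b) - (fun z => f0.eval z)^[i] b : V.valuationSubring) : K) < 1 := by
    rcases Nat.lt_or_gt_of_ne hij with h | h
    · refine ⟨i, j - i, by omega, ?_⟩
      rw [← Function.iterate_add_apply, show i + (j - i) = j by omega]
      exact hclose j i he.symm
    · refine ⟨j, i - j, by omega, ?_⟩
      rw [← Function.iterate_add_apply, show j + (i - j) = i by omega]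
      exact hclose i j he
  have hm1 := ELoc_injit hdat i him
  have hmne : (fun z => f0.eval z)^[m] b ≠ b := by
    intro h0
    apply hper m (by omega)
    rw [← hF, h0, hb]
  have hval0 : V (((fun z => f0.eval z)^[m] b - b : V.valuationSubring) : K) ≠ 0 := by
    rw [Valuation.ne_zero_iff]
    intro h0
    exact hmne (sub_eq_zero.1 (Subtype.ext h0))
  obtain ⟨ν, hν⟩ : ∃ ν : ℕ, V (((fun z => f0.eval z)^[m] b - b : V.valuationSubring) : K) =
      WithZero.exp (-(ν : ℤ)) := by
    have h1 := hm1
    rw [← WithZero.exp_log hval0, ← WithZero.exp_zero, WithZero.exp_lt_exp] at h1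
    refine ⟨(-WithZero.log (V (((fun z => f0.eval z)^[m] b - b : V.valuationSubring) : K))).toNat, ?_⟩
    rw [Int.toNat_of_nonneg (by omega), neg_neg, WithZero.exp_log hval0]
  have hdf : 1 ≤ f.natDegree := by
    rw [hd]
    exact Nat.one_le_iff_ne_zero.2 (pow_ne_zero r hl.ne_zero)
  refine ⟨ν, fun n => ?_⟩
  have hmono := monotone_nat_of_le_succ (fun n => fac_mono (β := β) hdf n)
  refine (hmono (show n ≤ (n + 1) * m by nlinarith [Nat.pos_of_ne_zero hm])).trans ?_
  have hr1 := ELoc_rigid hdat hm hm1 hmne (n + 1) (by omega)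
  have hfs := ELoc_fin (ELoc_ne (β := β) hdf ((n + 1) * m))
  show {g : K[X] | g.Monic ∧ Irreducible g ∧ g ∣ f.comp^[(n + 1) * m] X - C β}.ncard ≤ ν
  rw [Set.ncard_eq_toFinset_card _ hfs]
  refine ELoc_count hdat ((n + 1) * m) b (by rw [hr1]; exact hm1) (by rw [hr1]; exact hν) _ ?_
  intro g hg
  have h1 := hfs.mem_toFinset.1 hg
  refine ⟨h1.1, h1.2.1, ?_⟩
  rw [Polynomial.map_sub, ELoc_mapit, hf0, map_C]
  have e1 : algebraMap V.valuationSubring K b = β := hb
  rw [e1]
  exact h1.2.2

end Pool.Agent.H42.PC
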