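/-
Row ELo2 (about 150 lines): a more general local condition for eventual stability. g := f.comp (X + C β) - C β, so g^n(0) = f^n(β) - β.

 conj : ES g 0 implies ES f β: g.comp^[n] X = (f.comp^[n] X).comp (X + C β) - C β (induction), so g.comp^[n] X - C 0 = (f.comp^[n] X - C β).comp (X + C β), and p ↦ p.comp (X + C β) is a ring automorphism of K[X] preserving monic, irreducible, divisibility: a bijection between the two sets of factors.
 Case A (residue characteristic l, d = l^r, V (g(0)) ≤ 1): es_of_local (row ELoc) for g and β := 0 (coeff i of g = coeff i of f.comp (X + C β) for i ≥ 1, coeff 0 = f(β) - β, same leading coefficient and degree; hper: g^n(0) = f^n(β) - β ≠ 0).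
 Case B (V (g(0)) < 1, any d ≥ 2): the same proof as ELoc with g ≡ a X^d mod v (all lower coefficients V < 1): (1) for x y with V < 1: g' (y) has V < 1 (g' ≡ a d X^(d-1), d ≥ 2), so V (g x - g y) < V (x - y) or x = y; so V (g^n(0)) = V (g(0)) =: exp (-ν) for all n ≥ 1 (g(0) ≠ 0).
   (2) g^n ≡ a_n X^(d^n) mod v, so every monic irreducible factor p of g.comp^[n] X over K is integral at v (Gauss) and ≡ X^(deg p) mod v, V (p(0)) < 1; the product of the distinct factors divides, so their number is ≤ ν. (Copy ELoc_factor, ELoc_rigid, ELoc_count with l^r replaced by d.)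
-/
import Pool.Agent.H42.PC.ELoc

set_option autoImplicit false

namespace Pool.Agent.H42.PC

open Polynomial NumberField IsDedekindDomain

theorem ELo2_it {K : Type} [Field K] (f : K[X]) (β : K) (n : ℕ) :
    (f.comp (X + C β) - C β).comp^[n] X = (f.comp^[n] X).comp (X + C β) - C β := by
  induction n with
  | zero => simp
  | succ n ih =>
    rw [Function.iterate_succ_apply', ih, Function.iterate_succ_apply', sub_comp, comp_assoc,
      C_comp, comp_assoc]
    congr 2
    rw [add_comp, X_comp, C_comp, sub_add_cancel]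

theorem ELo2_eq {K : Type} [Field K] (β : K) (p : K[X]) :
    algEquivAevalXAddC β p = p.comp (X + C β) := by
  rfl

theorem ELo2_irr {K : Type} [Field K] (β : K) (p : K[X]) :
    Irreducible (p.comp (X + C β)) ↔ Irreducible p := by
  rw [← ELo2_eq]
  exact MulEquiv.irreducible_iff (algEquivAevalXAddC β)

theorem ELo2_nd {K : Type} [Field K] (f : K[X]) (β : K) :
    (f.comp (X + C β) - C β).natDegree = f.natDegree := by
  rw [natDegree_sub_C, natDegree_comp, natDegree_X_add_C, mul_one]

theorem ELo2_coeff {K : Type} [Field K] (f : K[X]) (β : K) {i : ℕ} (hi : 1 ≤ i) :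
    (f.comp (X + C β) - C β).coeff i = (f.comp (X + C β)).coeff i := by
  rw [coeff_sub, coeff_C, if_neg (by omega), sub_zero]

theorem ELo2_lead {K : Type} [Field K] {f : K[X]} (β : K) (hd : 1 ≤ f.natDegree) :
    (f.comp (X + C β) - C β).leadingCoeff = f.leadingCoeff := by
  rw [leadingCoeff, ELo2_nd, ELo2_coeff f β hd]
  have h1 : (f.comp (X + C β)).natDegree = f.natDegree := by
    rw [natDegree_comp, natDegree_X_add_C, mul_one]
  have h2 := leadingCoeff_comp (p := f) (q := X + C β) (by rw [natDegree_X_add_C]; omega)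
  rw [leadingCoeff_X_add_C, one_pow, mul_one, leadingCoeff, h1] at h2
  exact h2

theorem ELo2_coeff0 {K : Type} [Field K] (f : K[X]) (β : K) :
    (f.comp (X + C β) - C β).coeff 0 = f.eval β - β := by
  rw [coeff_zero_eq_eval_zero, Polynomial.eval_sub, eval_comp, eval_add, eval_X, eval_C, zero_add]

theorem ELo2_conj {K : Type} [Field K] {f : K[X]} {β : K} (hd : 1 ≤ f.natDegree)
    (h : ES (f.comp (X + C β) - C β) 0) : ES f β := by
  obtain ⟨B, hB⟩ := h
  refine ⟨B, fun n => le_trans ?_ (hB n)⟩
  have hdg : 1 ≤ (f.comp (X + C β) - C β).natDegree := by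
    rw [ELo2_nd]
    exact hd
  refine Set.ncard_le_ncard_of_injOn (fun p => p.comp (X + C β)) ?_ ?_
    (ELoc_fin (ELoc_ne (β := 0) hdg n))
  · rintro p ⟨h1, h2, h3⟩
    refine ⟨h1.comp_X_add_C β, (ELo2_irr β p).2 h2, ?_⟩
    rw [ELo2_it, C_0, sub_zero]
    obtain ⟨q, hq⟩ := h3
    refine ⟨q.comp (X + C β), ?_⟩
    rw [← mul_comp, ← hq, sub_comp, C_comp]
  · intro p _ q _ hpq
    exact (algEquivAevalXAddC β).injective hpq

section loc

open WithZero

/-- the data over the valuation ring: `f0` is congruent to a monomial. -/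
structure ELo2_dat {K : Type} [Field K] (V : Valuation K ℤᵐ⁰) (f0 : V.valuationSubring[X])
    (D : ℕ) : Prop where
  D2 : 2 ≤ D
  dg : f0.natDegree = D
  ld : V (f0.leadingCoeff : K) = 1
  md : ∀ i, i < D → V (f0.coeff i : K) < 1

variable {K : Type} [Field K] {V : Valuation K ℤᵐ⁰} {f0 : V.valuationSubring[X]} {D : ℕ}

theorem ELo2_form (h : ELo2_dat V f0 D) :
    f0.map (IsLocalRing.residue V.valuationSubring) =
      C (IsLocalRing.residue V.valuationSubring (f0.coeff D)) * X ^ D := by
  ext i
  rw [coeff_map, coeff_C_mul, coeff_X_pow]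
  rcases lt_trichotomy i D with h1 | h1 | h1
  · rw [if_neg (by omega), (ELoc_res V).2 (h.md i h1), mul_zero]
  · rw [if_pos h1, h1, mul_one]
  · rw [if_neg (by omega), coeff_eq_zero_of_natDegree_lt (by rw [h.dg]; omega), map_zero, mul_zero]

theorem ELo2_ln (h : ELo2_dat V f0 D) :
    IsLocalRing.residue V.valuationSubring (f0.coeff D) ≠ 0 := by
  intro h0
  rw [ELoc_res] at h0
  have h1 := h.ld
  rw [leadingCoeff, h.dg] at h1
  exact h0.ne h1

theorem ELo2_iter {k : Type} [Field k] {a : k} (ha : a ≠ 0) (D n : ℕ) :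
    ∃ A : k, A ≠ 0 ∧ (C a * X ^ D).comp^[n] X = C A * X ^ (D ^ n) := by
  induction n with
  | zero => exact ⟨1, one_ne_zero, by simp⟩
  | succ n ih =>
    obtain ⟨A, hA, h⟩ := ih
    refine ⟨a * A ^ D, mul_ne_zero ha (pow_ne_zero _ hA), ?_⟩
    rw [Function.iterate_succ_apply', h, mul_comp, C_comp, X_pow_comp, mul_pow, ← pow_mul,
      pow_succ, C_mul, C_pow]
    ring

theorem ELo2_mem (h : ELo2_dat V f0 D) {x : V.valuationSubring} (hx : V (x : K) < 1) :
    V ((f0.eval x : V.valuationSubring) : K) < 1 := by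
  rw [← ELoc_res] at hx ⊢
  rw [← ELoc_eval, ELo2_form h, hx]
  have := h.D2
  simp only [eval_mul, eval_C, eval_pow, eval_X]
  rw [zero_pow (by omega), mul_zero]

theorem ELo2_contr (h : ELo2_dat V f0 D) {x y : V.valuationSubring}
    (hx : V (x : K) < 1) (hy : V (y : K) < 1) (hne : x ≠ y) :
    V ((f0.eval x - f0.eval y : V.valuationSubring) : K) < V ((x - y : V.valuationSubring) : K) := by
  obtain ⟨k, hk⟩ := f0.binomExpansion y (x - y)
  rw [add_sub_cancel] at hk
  have hxy : V ((x - y : V.valuationSubring) : K) < 1 := by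
    push_cast
    exact V.map_sub_lt hx hy
  have hder : V ((f0.derivative.eval y : V.valuationSubring) : K) < 1 := by
    rw [← ELoc_res] at hy ⊢
    rw [← ELoc_eval, ← derivative_map, ELo2_form h, hy, derivative_C_mul_X_pow]
    have := h.D2
    simp only [eval_mul, eval_C, eval_pow, eval_X]
    rw [zero_pow (by omega), mul_zero]
  have he : f0.eval x - f0.eval y = (x - y) * (f0.derivative.eval y + k * (x - y)) := by
    rw [hk]
    ring
  have hxy0 : V ((x - y : V.valuationSubring) : K) ≠ 0 := by
    rw [Valuation.ne_zero_iff]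
    intro h0
    exact hne (sub_eq_zero.1 (Subtype.ext h0))
  have hpsi : V ((f0.derivative.eval y + k * (x - y) : V.valuationSubring) : K) < 1 := by
    have h1 : V ((k * (x - y) : V.valuationSubring) : K) < 1 := by
      push_cast
      rw [map_mul]
      push_cast at hxy
      exact mul_lt_one_of_nonneg_of_lt_one_right k.2 zero_le hxy
    push_cast at h1 ⊢
    exact V.map_add_lt hder h1
  rw [he]
  calc V (((x - y) * (f0.derivative.eval y + k * (x - y)) : V.valuationSubring) : K) =
      V ((x - y : V.valuationSubring) : K) *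
        V ((f0.derivative.eval y + k * (x - y) : V.valuationSubring) : K) := by
        rw [← map_mul]
        rfl
    _ < V ((x - y : V.valuationSubring) : K) * 1 :=
        mul_lt_mul_of_pos_left hpsi (zero_lt_iff.2 hxy0)
    _ = _ := mul_one _

theorem ELo2_weak (h : ELo2_dat V f0 D) (k : ℕ) {x y : V.valuationSubring}
    (hx : V (x : K) < 1) (hy : V (y : K) < 1) :
    V (((fun z => f0.eval z)^[k] x - (fun z => f0.eval z)^[k] y : V.valuationSubring) : K) ≤
      V ((x - y : V.valuationSubring) : K) := by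
  induction k generalizing x y with
  | zero => exact le_rfl
  | succ k ih =>
    rw [Function.iterate_succ_apply, Function.iterate_succ_apply]
    by_cases hne : x = y
    · subst hne
      simp
    · have h1 := ELo2_contr h hx hy hne
      exact (ih (ELo2_mem h hx) (ELo2_mem h hy)).trans h1.le

theorem ELo2_rigid (h : ELo2_dat V f0 D) (hne : f0.eval 0 ≠ 0) (j : ℕ) :
    V (((fun z => f0.eval z)^[j + 1] 0 : V.valuationSubring) : K) =
      V ((f0.eval 0 : V.valuationSubring) : K) := by
  have hz : V ((0 : V.valuationSubring) : K) < 1 := by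
    simp
  have h0 : V ((f0.eval 0 : V.valuationSubring) : K) < 1 := ELo2_mem h hz
  induction j with
  | zero => rfl
  | succ j ih =>
    have hs : V (((fun z => f0.eval z)^[j + 1] (f0.eval 0) - (fun z => f0.eval z)^[j + 1] 0 :
        V.valuationSubring) : K) < V ((f0.eval 0 : V.valuationSubring) : K) := by
      rw [Function.iterate_succ_apply, Function.iterate_succ_apply]
      have h1 := ELo2_contr h h0 hz hne
      have h2 := ELo2_weak h j (ELo2_mem h h0) (ELo2_mem h hz)
      rw [sub_zero] at h1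
      exact h2.trans_lt h1
    rw [Function.iterate_succ_apply]
    show V (((fun z => f0.eval z)^[j + 1] (f0.eval 0) : V.valuationSubring) : K) = _
    have e2 : (((fun z => f0.eval z)^[j + 1] (f0.eval 0) : V.valuationSubring) : K) =
        (((fun z => f0.eval z)^[j + 1] (f0.eval 0) - (fun z => f0.eval z)^[j + 1] 0 :
          V.valuationSubring) : K) + (((fun z => f0.eval z)^[j + 1] 0 : V.valuationSubring) : K) := by
      push_cast
      ring
    rw [e2, ← ih]
    rw [← ih] at hs
    exact V.map_add_eq_of_lt_right hs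

theorem ELo2_leadit (h : ELo2_dat V f0 D) (n : ℕ) :
    IsUnit (f0.comp^[n] X).leadingCoeff ∧ (f0.comp^[n] X).natDegree = D ^ n := by
  have hD := h.D2
  induction n with
  | zero => simp
  | succ n ih =>
    rw [Function.iterate_succ_apply']
    have hp : (f0.comp^[n] X).natDegree ≠ 0 := by
      rw [ih.2]
      exact pow_ne_zero _ (by omega)
    constructor
    · rw [leadingCoeff_comp hp]
      refine IsUnit.mul ?_ (ih.1.pow _)
      exact ((Valuation.valuationSubring.integers V).isUnit_iff_valuation_eq_one).2 h.ld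
    · rw [natDegree_comp, h.dg, ih.2]
      ring

theorem ELo2_factor (h : ELo2_dat V f0 D) (n : ℕ)
    {g : V.valuationSubring[X]} (hg : g.Monic) (hgd : g.natDegree ≠ 0)
    (hdiv : g ∣ f0.comp^[n] X) : V ((g.eval 0 : V.valuationSubring) : K) < 1 := by
  obtain ⟨A, hA, hAe⟩ := ELo2_iter (ELo2_ln h) D n
  have hd2 : g.map (IsLocalRing.residue V.valuationSubring) ∣ C A * X ^ (D ^ n) := by
    rw [← hAe, ← ELo2_form h, ← ELoc_mapit]
    exact Polynomial.map_dvd _ hdiv
  have hd3 : g.map (IsLocalRing.residue V.valuationSubring) ∣ X ^ (D ^ n) :=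
    ((isUnit_C.2 (IsUnit.mk0 A hA)).dvd_mul_left).1 hd2
  obtain ⟨i, _, hi⟩ := (dvd_prime_pow prime_X _).1 hd3
  have hi0 : i ≠ 0 := by
    rintro rfl
    rw [pow_zero] at hi
    have h1 : IsUnit (g.map (IsLocalRing.residue V.valuationSubring)) :=
      (hi.isUnit_iff).2 isUnit_one
    have h2 := natDegree_eq_zero_of_isUnit h1
    rw [hg.natDegree_map] at h2
    exact hgd h2
  have h4 : X ∣ g.map (IsLocalRing.residue V.valuationSubring) :=
    (dvd_pow_self _ hi0).trans hi.symm.dvd
  rw [X_dvd_iff, coeff_map, coeff_zero_eq_eval_zero, ELoc_res] at h4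
  exact h4

/-- the number of factors. -/
theorem ELo2_count (h : ELo2_dat V f0 D) (n : ℕ) {ν : ℕ}
    (hν : V (((fun z => f0.eval z)^[n] 0 : V.valuationSubring) : K) = exp (-(ν : ℤ)))
    (S : Finset K[X]) (hS : ∀ g ∈ S, g.Monic ∧ Irreducible g ∧
      g ∣ (f0.comp^[n] X).map (algebraMap V.valuationSubring K)) : S.card ≤ ν := by
  classical
  have hev : (f0.comp^[n] X).eval 0 = (fun z => f0.eval z)^[n] 0 := ELoc_evit _ _ _
  obtain ⟨u, hu⟩ := (ELo2_leadit h n).1
  have hmon : (C ((u⁻¹ : V.valuationSubringˣ) : V.valuationSubring) * (f0.comp^[n] X)).Monic := by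
    apply monic_C_mul_of_mul_leadingCoeff_eq_one
    rw [← hu]
    simp
  have hinj : Function.Injective (algebraMap V.valuationSubring K) := IsFractionRing.injective _ _
  have hlift : ∀ g : K[X], g ∈ S → ∃ g0 : V.valuationSubring[X], g0.Monic ∧
      g0.map (algebraMap V.valuationSubring K) = g := by
    intro g hg
    obtain ⟨h1, h2, h3⟩ := hS g hg
    have h4 : g ∣ (C ((u⁻¹ : V.valuationSubringˣ) : V.valuationSubring) * (f0.comp^[n] X)).map
        (algebraMap V.valuationSubring K) := by
      rw [Polynomial.map_mul]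
      exact h3.mul_left _
    obtain ⟨g0, hg0⟩ := IsIntegrallyClosed.eq_map_mul_C_of_dvd K hmon h4
    rw [h1.leadingCoeff, C_1, mul_one] at hg0
    refine ⟨g0, ?_, hg0⟩
    apply monic_of_injective hinj
    rw [hg0]
    exact h1
  choose! φ hφ using hlift
  have hG : (∏ g ∈ S, φ g).Monic := monic_prod_of_monic _ _ (fun g hg => (hφ g hg).1)
  have hGm : (∏ g ∈ S, φ g).map (algebraMap V.valuationSubring K) = ∏ g ∈ S, g := by
    rw [Polynomial.map_prod]
    exact Finset.prod_congr rfl (fun g hg => (hφ g hg).2)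
  have hdv : (∏ g ∈ S, g) ∣ (f0.comp^[n] X).map (algebraMap V.valuationSubring K) := by
    apply Finset.prod_dvd_of_coprime
    · intro g hg g' hg' hne
      have h1 := hS g (Finset.mem_coe.1 hg)
      have h2 := hS g' (Finset.mem_coe.1 hg')
      show IsCoprime g g'
      rw [h1.2.1.coprime_iff_not_dvd]
      intro h3
      exact absurd (eq_of_monic_of_associated h1.1 h2.1 (h1.2.1.associated_of_dvd h2.2.1 h3)) hne
    · intro g hg
      exact (hS g hg).2.2
  rw [← hGm, map_dvd_map _ hinj hG] at hdv
  obtain ⟨q, hq⟩ := hdv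
  have hg1 : ∀ g ∈ S, V (((φ g).eval 0 : V.valuationSubring) : K) ≤ exp (-1) := by
    intro g hg
    have h1 : V (((φ g).eval 0 : V.valuationSubring) : K) < 1 := by
      apply ELo2_factor h n (hφ g hg).1
      · intro h0
        have h2 := (hS g hg).2.1.natDegree_pos
        rw [← (hφ g hg).2, natDegree_map_eq_of_injective hinj] at h2
        omega
      · rw [hq]
        exact (Finset.dvd_prod_of_mem φ hg).mul_right q
    exact ELoc_lt1 h1
  have hval : V (((f0.comp^[n] X).eval 0 : V.valuationSubring) : K) ≤ exp (-(S.card : ℤ)) := by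
    rw [hq, Polynomial.eval_mul, eval_prod]
    push_cast
    rw [map_mul, map_prod]
    have h1 : ∏ g ∈ S, V (((φ g).eval 0 : V.valuationSubring) : K) ≤ ∏ g ∈ S, (exp (-1) : ℤᵐ⁰) :=
      Finset.prod_le_prod' hg1
    have h2 : V ((q.eval 0 : V.valuationSubring) : K) ≤ 1 := (q.eval 0).2
    calc _ ≤ (∏ g ∈ S, (exp (-1) : ℤᵐ⁰)) * 1 := mul_le_mul' h1 h2
      _ = exp (-(S.card : ℤ)) := by
        rw [mul_one, Finset.prod_const, ← exp_nsmul]
        simp
  rw [hev, hν] at hval
  rw [exp_le_exp] at hval
  omega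

/-- Case B. -/
theorem ELo2_B [CharZero K] (V : Valuation K ℤᵐ⁰) {g : K[X]} (hd : 2 ≤ g.natDegree)
    (hper : g.eval 0 ≠ 0) (hlead : V g.leadingCoeff = 1)
    (hlow : ∀ i, i < g.natDegree → V (g.coeff i) < 1) : ES g 0 := by
  classical
  have hcoef : ∀ i, V (g.coeff i) ≤ 1 := by
    intro i
    rcases lt_trichotomy i g.natDegree with h1 | h1 | h1
    · exact (hlow i h1).le
    · rw [h1]
      exact hlead.le
    · rw [coeff_eq_zero_of_natDegree_lt (by omega), map_zero]
      exact zero_le
  obtain ⟨f0, hf0⟩ : ∃ f0 : V.valuationSubring[X], f0.map (algebraMap V.valuationSubring K) = g := by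
    have : g ∈ lifts (algebraMap V.valuationSubring K) := by
      rw [lifts_iff_coeff_lifts]
      intro i
      exact ⟨⟨g.coeff i, hcoef i⟩, rfl⟩
    exact (mem_lifts g).1 this
  have hinj : Function.Injective (algebraMap V.valuationSubring K) := IsFractionRing.injective _ _
  have hco : ∀ i, (f0.coeff i : K) = g.coeff i := by
    intro i
    rw [← hf0, coeff_map]
    rfl
  have hdg : f0.natDegree = g.natDegree := by
    rw [← natDegree_map_eq_of_injective hinj, hf0]
  have hdat : ELo2_dat V f0 g.natDegree :=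
    { D2 := hd
      dg := hdg
      ld := by
        rw [leadingCoeff, hco, hdg]
        exact hlead
      md := fun i h1 => by
        rw [hco]
        exact hlow i h1 }
  have he0 : ((f0.eval 0 : V.valuationSubring) : K) = g.eval 0 := by
    have h1 := ELoc_eval (algebraMap V.valuationSubring K) f0 0
    rw [hf0, map_zero] at h1
    exact h1.symm
  have hne : f0.eval 0 ≠ 0 := by
    intro h0
    apply hper
    rw [← he0, h0]
    rfl
  have hval0 : V ((f0.eval 0 : V.valuationSubring) : K) ≠ 0 := by
    rw [Valuation.ne_zero_iff, he0]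
    exact hper
  have hlt : V ((f0.eval 0 : V.valuationSubring) : K) < 1 := ELo2_mem hdat (by simp)
  obtain ⟨ν, hν⟩ : ∃ ν : ℕ, V ((f0.eval 0 : V.valuationSubring) : K) =
      WithZero.exp (-(ν : ℤ)) := by
    have h1 := hlt
    rw [← WithZero.exp_log hval0, ← WithZero.exp_zero, WithZero.exp_lt_exp] at h1
    refine ⟨(-WithZero.log (V ((f0.eval 0 : V.valuationSubring) : K))).toNat, ?_⟩
    rw [Int.toNat_of_nonneg (by omega), neg_neg, WithZero.exp_log hval0]
  have hdf : 1 ≤ g.natDegree := by omega
  refine ⟨ν, fun n => ?_⟩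
  have hmono := monotone_nat_of_le_succ (fun n => fac_mono (β := (0 : K)) hdf n)
  refine (hmono (Nat.le_succ n)).trans ?_
  have hr1 := ELo2_rigid hdat hne n
  have hfs := ELoc_fin (ELoc_ne (β := (0 : K)) hdf (n + 1))
  show {p : K[X] | p.Monic ∧ Irreducible p ∧ p ∣ g.comp^[n + 1] X - C 0}.ncard ≤ ν
  rw [Set.ncard_eq_toFinset_card _ hfs]
  refine ELo2_count hdat (n + 1) (by rw [hr1]; exact hν) _ ?_
  intro p hp
  have h1 := hfs.mem_toFinset.1 hp
  refine ⟨h1.1, h1.2.1, ?_⟩
  rw [ELoc_mapit, hf0]
  have h2 := h1.2.2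
  rwa [C_0, sub_zero] at h2

end loc

theorem ELo2_FA {K : Type} [Field K] (f : K[X]) (β : K) (n : ℕ) :
    (FA (f.comp (X + C β) - C β) K)^[n] 0 = (FA f K)^[n] β - β := by
  induction n with
  | zero => simp
  | succ n ih =>
    rw [Function.iterate_succ_apply', ih, Function.iterate_succ_apply', FA_apply, FA_apply,
      coe_aeval_eq_eval, coe_aeval_eq_eval]
    simp

theorem es_of_local2 {K : Type} [Field K] [NumberField K] {f : K[X]} {β : K}
    (hd : 2 ≤ f.natDegree) (hper : ∀ n, 1 ≤ n → (FA f K)^[n] β ≠ β)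
    (v : HeightOneSpectrum (𝓞 K)) (hlead : v.valuation K f.leadingCoeff = 1)
    (hmid : ∀ i, 1 ≤ i → i < f.natDegree → v.valuation K ((f.comp (X + C β)).coeff i) < 1)
    (h0 : v.valuation K (f.eval β - β) < 1 ∨ (v.valuation K (f.eval β - β) ≤ 1 ∧
      ∃ l r : ℕ, l.Prime ∧ f.natDegree = l ^ r ∧ v.valuation K (l : K) < 1)) : ES f β := by
  refine ELo2_conj (by omega) ?_
  rcases h0 with h0 | ⟨h0, l, r, hl, hdl, hlv⟩
  · refine ELo2_B (v.valuation K) (by rw [ELo2_nd]; exact hd) ?_ ?_ ?_
    · rw [← coeff_zero_eq_eval_zero, ELo2_coeff0]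
      intro h
      apply hper 1 le_rfl
      rw [Function.iterate_one, FA_apply, coe_aeval_eq_eval]
      exact sub_eq_zero.1 h
    · rw [ELo2_lead β (by omega)]
      exact hlead
    · intro i hi
      rw [ELo2_nd] at hi
      rcases Nat.eq_zero_or_pos i with h1 | h1
      · rw [h1, ELo2_coeff0]
        exact h0
      · rw [ELo2_coeff f β h1]
        exact hmid i h1 hi
  · have hr : 1 ≤ r := by
      rcases Nat.eq_zero_or_pos r with h1 | h1
      · rw [h1, pow_zero] at hdl
        omega
      · exact h1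
    refine es_of_local (l := l) (r := r) ?_ hl hr (by rw [ELo2_nd]; exact hdl) v hlv ?_ ?_ ?_ ?_
    · intro n hn h
      rw [ELo2_FA] at h
      exact hper n hn (sub_eq_zero.1 h)
    · rw [ELo2_coeff0]
      exact h0
    · rw [ELo2_lead β (by omega)]
      exact hlead
    · intro i h1 h2
      rw [ELo2_coeff f β h1]
      exact hmid i h1 (by rw [hdl]; exact h2)
    · rw [map_zero]
      exact zero_le

end Pool.Agent.H42.PC
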