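/-
Row ESt (about 150 lines): eventual stability gives n0 with Stab.

PROOF. A := AlgebraicClosure K, P_n := f.comp^[n] X - C β ≠ 0 of degree d^n (itp_natDegree), Fac n := {g monic irreducible, g ∣ P_n}, finite (divisors; Polynomial/UFD: monic irreducible factors are in the finite set of normalizedFactors). For x ∈ A with F^[n] x = β: minpoly K x ∈ Fac n (minpoly.dvd, itp_aeval), and every g ∈ Fac n is the
 minpoly of some x with F^[n] x = β (a root of g in A). Define φ_n : Fac (n+1) → Fac n, minpoly x ↦ minpoly (F x): well defined: if minpoly x = minpoly x' there is σ ∈ Aut(A/K) with σ x = x' (IsAlgClosed/normal: minpoly equal iff conjugate: IsConjRoot), σ (F x) = F x'. Surjective: for y with F^[n] y = β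
 choose x with F x = y (f - y has a root, degree ≥ 1). So r_n := ncard (Fac n) is non-decreasing and ≤ B: so it is constant for n ≥ some n0 (a monotone bounded sequence of naturals: choose n0 maximizing r). For n ≥ n0 the surjection φ_n between finite sets of the same cardinality is injective: this is Stab.
-/
import Pool.Agent.H42.PC.EBas

set_option autoImplicit false

namespace Pool.Agent.H42.PC

open Polynomial

theorem exists_stab {K : Type} [Field K] [CharZero K] {f : K[X]} {β : K} (hd : 1 ≤ f.natDegree)
    (h : ES f β) : ∃ n0, Stab f β n0 := by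
  classical
  obtain ⟨B, hB⟩ := h
  set A := AlgebraicClosure K with hA
  set F : A → A := FA f A with hF
  set b : A := algebraMap K A β with hb
  set R : ℕ → Set A := fun n => {x | F^[n] x = b} with hR
  have hP : ∀ n, (f.comp^[n] X - C β) ≠ 0 := by
    intro n h0
    have h1 := itp_natDegree (β := β) hd n
    rw [h0, natDegree_zero] at h1
    have h2 : 0 < f.natDegree ^ n := pow_pos (by omega) n
    omega
  have hRfin : ∀ n, (R n).Finite := by
    intro n
    refine ((f.comp^[n] X - C β).rootSet_finite A).subset ?_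
    intro x hx
    rw [mem_rootSet]
    refine ⟨hP n, ?_⟩
    rw [itp_aeval]
    have hx' : (FA f A)^[n] x = algebraMap K A β := hx
    rw [hx', sub_self]
  have hint : ∀ x : A, IsIntegral K x := fun x => Algebra.IsIntegral.isIntegral x
  have hS : ∀ n, {g : K[X] | g.Monic ∧ Irreducible g ∧ g ∣ f.comp^[n] X - C β} =
      minpoly K '' R n := by
    intro n
    ext g
    constructor
    · rintro ⟨h1, h2, h3⟩
      obtain ⟨x, hx⟩ := IsAlgClosed.exists_aeval_eq_zero A g (by
        intro h0
        exact h2.not_isUnit (isUnit_iff_degree_eq_zero.2 h0))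
      refine ⟨x, ?_, (minpoly.eq_of_irreducible_of_monic h2 hx h1).symm⟩
      have h4 : aeval x (f.comp^[n] X - C β) = 0 := by
        obtain ⟨q, hq⟩ := h3
        rw [hq, map_mul, hx, zero_mul]
      rw [itp_aeval, sub_eq_zero] at h4
      exact h4
    · rintro ⟨x, hx, rfl⟩
      refine ⟨minpoly.monic (hint x), minpoly.irreducible (hint x), minpoly.dvd K x ?_⟩
      rw [itp_aeval, sub_eq_zero]
      exact hx
  have hFR : ∀ n x, x ∈ R (n + 1) → F x ∈ R n := by
    intro n x hx
    have hx' : F^[n + 1] x = b := hx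
    rw [Function.iterate_succ_apply] at hx'
    exact hx'
  have hsurj : ∀ n y, y ∈ R n → ∃ x ∈ R (n + 1), F x = y := by
    intro n y hy
    obtain ⟨x, hx⟩ := IsAlgClosed.exists_root ((f.map (algebraMap K A)) - C y) (by
      intro h0
      have h1 : ((f.map (algebraMap K A)) - C y).natDegree = f.natDegree := by
        rw [natDegree_sub_C, natDegree_map]
      have h2 := natDegree_eq_zero_iff_degree_le_zero.2 h0.le
      omega)
    have h3 : F x = y := by
      have : (f.map (algebraMap K A)).eval x - y = 0 := by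
        have := hx
        rwa [IsRoot.def, eval_sub, eval_C] at this
      exact sub_eq_zero.1 this
    refine ⟨x, ?_, h3⟩
    show F^[n + 1] x = b
    rw [Function.iterate_succ_apply, h3]
    exact hy
  have hFa : ∀ x : A, F x = aeval x f := fun x => FA_apply x
  have hwd : ∀ x x' : A, minpoly K x = minpoly K x' → minpoly K (F x) = minpoly K (F x') := by
    intro x x' hxx
    refine minpoly.eq_of_irreducible_of_monic (minpoly.irreducible (hint _)) ?_
      (minpoly.monic (hint _))
    have h1 : aeval x ((minpoly K (F x)).comp f) = 0 := by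
      rw [aeval_comp, ← hFa x]
      exact minpoly.aeval K (F x)
    have h2 : minpoly K x ∣ (minpoly K (F x)).comp f := minpoly.dvd K x h1
    rw [hxx] at h2
    have h3 : aeval x' ((minpoly K (F x)).comp f) = 0 := by
      obtain ⟨q, hq⟩ := h2
      rw [hq, map_mul, minpoly.aeval, zero_mul]
    rw [aeval_comp, ← hFa x'] at h3
    exact h3
  -- the map on factors
  set φ : ℕ → K[X] → K[X] := fun n g =>
    if h : ∃ x ∈ R (n + 1), minpoly K x = g then minpoly K (F h.choose) else 0 with hφ
  have hφx : ∀ n x, x ∈ R (n + 1) → φ n (minpoly K x) = minpoly K (F x) := by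
    intro n x hx
    have hex : ∃ y ∈ R (n + 1), minpoly K y = minpoly K x := ⟨x, hx, rfl⟩
    show (if h : ∃ y ∈ R (n + 1), minpoly K y = minpoly K x then minpoly K (F h.choose) else 0) = _
    rw [dif_pos hex]
    exact hwd _ _ hex.choose_spec.2
  have himg : ∀ n, φ n '' (minpoly K '' R (n + 1)) = minpoly K '' R n := by
    intro n
    ext g
    constructor
    · rintro ⟨_, ⟨x, hx, rfl⟩, rfl⟩
      exact ⟨F x, hFR n x hx, (hφx n x hx).symm⟩
    · rintro ⟨y, hy, rfl⟩
      obtain ⟨x, hx, hxy⟩ := hsurj n y hy
      refine ⟨minpoly K x, ⟨x, hx, rfl⟩, ?_⟩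
      rw [hφx n x hx, hxy]
  set r : ℕ → ℕ := fun n => (minpoly K '' R n).ncard with hr
  have hfin : ∀ n, (minpoly K '' R n).Finite := fun n => (hRfin n).image _
  have hrB : ∀ n, r n ≤ B := fun n => by
    have := hB n
    rw [hS n] at this
    exact this
  have hstep : ∀ n, r n ≤ r (n + 1) := by
    intro n
    show (minpoly K '' R n).ncard ≤ _
    rw [← himg n]
    exact Set.ncard_image_le (hfin (n + 1))
  have hmono : Monotone r := monotone_nat_of_le_succ hstep
  obtain ⟨n0, hn0⟩ : ∃ n0, ∀ n, r n ≤ r n0 := by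
    have hne : (Set.range r).Nonempty := Set.range_nonempty r
    have hbdd : BddAbove (Set.range r) := ⟨B, by rintro _ ⟨n, rfl⟩; exact hrB n⟩
    obtain ⟨n0, h1⟩ := Nat.sSup_mem hne hbdd
    exact ⟨n0, fun n => h1 ▸ le_csSup hbdd ⟨n, rfl⟩⟩
  refine ⟨n0, fun n hn x x' hx hx' hm => ?_⟩
  have heq : r (n + 1) = r n :=
    le_antisymm ((hn0 _).trans (hmono hn)) (hstep n)
  have hinj : Set.InjOn (φ n) (minpoly K '' R (n + 1)) := by
    rw [← Set.ncard_image_iff (hfin (n + 1)), himg n]
    exact heq.symm
  refine hinj ⟨x, hx, rfl⟩ ⟨x', hx', rfl⟩ ?_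
  rw [hφx n x hx, hφx n x' hx']
  exact hm

end Pool.Agent.H42.PC
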